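import Pool.Agent.Lib.SmJ.L.SelDefs

/-!
# Project TTC (MP_950c68_ag), module ShaCongr: isomorphic modules have isomorphic groups of locally
trivial classes
-/

set_option autoImplicit false

namespace Pool.Agent.TTC

open Pool.Agent.SmJ.L

section

variable (k : Type) {K Ω : Type} [Field k] [Field K] [Field Ω] [Algebra k K] [Algebra K Ω]
variable {M M' : Type} [AddCommGroup M] [AddCommGroup M']
  {ρ : (Ω ≃ₐ[K] Ω) → M →+ M} {ρ' : (Ω ≃ₐ[K] Ω) → M' →+ M'}

/-- The image of a locally trivial cocycle. -/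
private theorem ShaCongr_map (ψ : M ≃+ M') (h : ∀ s x, ρ' s (ψ x) = ψ (ρ s x))
    {c : (Ω ≃ₐ[K] Ω) → M} (hc : IsSha k ρ c) : IsSha k ρ' fun s => ψ (c s) := by
  refine ⟨fun s t => by rw [hc.cocycle, map_add, h], ?_, fun w h1 h2 => ?_⟩
  · obtain ⟨L, hL, h1⟩ := hc.cont
    exact ⟨L, hL, fun s t h3 => by rw [h1 s t h3]⟩
  · obtain ⟨Q, hQ⟩ := hc.loc w h1 h2
    exact ⟨ψ Q, fun s hs => by rw [hQ s hs, map_sub, h]⟩

/-- **Transport of the finiteness.** -/
theorem sha_congr (ψ : M ≃+ M') (h : ∀ s x, ρ' s (ψ x) = ψ (ρ s x)) (hf : Finite (Sha k ρ)) :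
    Finite (Sha k ρ') := by
  have h' : ∀ s x, ρ s (ψ.symm x) = ψ.symm (ρ' s x) := fun s x => by
    apply ψ.injective
    rw [← h, ψ.apply_symm_apply, ψ.apply_symm_apply]
  let F : ZSha k ρ →+ ZSha k ρ' :=
    { toFun := fun c => ⟨fun s => ψ (c.1 s), ShaCongr_map k ψ h c.2⟩
      map_zero' := Subtype.ext (funext fun s => map_zero ψ)
      map_add' := fun c c' => Subtype.ext (funext fun s => map_add ψ _ _) }
  have hF : (BSha ρ).addSubgroupOf (ZSha k ρ) ≤
      ((BSha ρ').addSubgroupOf (ZSha k ρ')).comap F := by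
    rintro c ⟨T, hT⟩
    refine ⟨ψ T, fun s => ?_⟩
    have h1 : c.1 s = ρ s T - T := hT s
    change ψ (c.1 s) = _
    rw [h1, map_sub, h]
  refine Finite.of_surjective (QuotientAddGroup.map _ _ F hF) ?_
  intro x
  obtain ⟨c, rfl⟩ := QuotientAddGroup.mk_surjective x
  refine ⟨QuotientAddGroup.mk ⟨fun s => ψ.symm (c.1 s), ShaCongr_map k ψ.symm h' c.2⟩, ?_⟩
  rw [QuotientAddGroup.map_mk]
  congr 1
  exact Subtype.ext (funext fun s => ψ.apply_symm_apply _)

theorem sha_congr_iff (ψ : M ≃+ M') (h : ∀ s x, ρ' s (ψ x) = ψ (ρ s x)) :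
    Finite (Sha k ρ) ↔ Finite (Sha k ρ') :=
  ⟨sha_congr k ψ h, sha_congr k ψ.symm fun s x => by
    apply ψ.injective
    rw [← h, ψ.apply_symm_apply, ψ.apply_symm_apply]⟩

end

end Pool.Agent.TTC
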