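import Mathlib

/-!
# Project TTC (MP_950c68_ag), module QZ: the group `ℚ_2 / ℤ_2`

`QZ = ℚ_2 / ℤ_2` as a `ℤ_2`-module, `qz : ℚ_2 → QZ` the projection, `hf2 : ZMod 2 →+ QZ` the
elements of order dividing `2`. `mact A x` : the action of a matrix over `ℤ_2` on `QZ ^ I`.
-/

set_option autoImplicit false

namespace Pool.Agent.TTC

/-- `ℚ_2 / ℤ_2`. -/
abbrev QZ : Type := ℚ_[2] ⧸ (1 : Submodule ℤ_[2] ℚ_[2])

/-- The projection `ℚ_2 → ℚ_2 / ℤ_2`. -/
noncomputable def qz : ℚ_[2] →ₗ[ℤ_[2]] QZ := Submodule.mkQ _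

theorem qz_surj : Function.Surjective qz := Submodule.mkQ_surjective _

theorem qz_eq_zero {x : ℚ_[2]} : qz x = 0 ↔ ∃ a : ℤ_[2], (a : ℚ_[2]) = x := by
  rw [qz, Submodule.mkQ_apply, Submodule.Quotient.mk_eq_zero, Submodule.mem_one]
  exact Iff.rfl

theorem qz_coe (a : ℤ_[2]) : qz (a : ℚ_[2]) = 0 := qz_eq_zero.mpr ⟨a, rfl⟩

theorem qz_eq {x y : ℚ_[2]} : qz x = qz y ↔ ∃ a : ℤ_[2], x = y + a := by
  rw [← sub_eq_zero, ← map_sub, qz_eq_zero]
  constructor
  · rintro ⟨a, ha⟩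
    exact ⟨a, by rw [ha]; ring⟩
  · rintro ⟨a, ha⟩
    exact ⟨a, by rw [ha]; ring⟩

theorem qz_smul (a : ℤ_[2]) (x : ℚ_[2]) : a • qz x = qz (a * x) := by
  rw [← map_smul]
  rfl

theorem qz_nsmul (n : ℕ) (x : ℚ_[2]) : n • qz x = qz (n * x) := by
  rw [← map_nsmul, nsmul_eq_mul]

theorem qz_zsmul (n : ℤ) (x : ℚ_[2]) : n • qz x = qz (n * x) := by
  rw [← map_zsmul, zsmul_eq_mul]

/-- The elements of order dividing `2`. -/
noncomputable def hf2 : ZMod 2 →+ QZ := ZMod.lift 2 ⟨zmultiplesHom QZ (qz (1 / 2)), by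
  rw [zmultiplesHom_apply, qz_zsmul]
  exact qz_eq_zero.mpr ⟨1, by norm_num⟩⟩

theorem hf2_intCast (n : ℤ) : hf2 (n : ZMod 2) = qz (n / 2) := by
  rw [hf2, ZMod.lift_coe]
  change n • qz (1 / 2) = _
  rw [qz_zsmul]
  congr 1
  ring

/-- The reduction modulo `2`. -/
noncomputable abbrev red2 : ℤ_[2] →+* ZMod 2 := PadicInt.toZMod

theorem red2_eq_zero {a : ℤ_[2]} : red2 a = 0 ↔ ∃ b, a = 2 * b := by
  rw [← RingHom.mem_ker, PadicInt.ker_toZMod, PadicInt.maximalIdeal_eq_span_p,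
    Ideal.mem_span_singleton]
  exact Iff.rfl

theorem hf2_red2 (a : ℤ_[2]) : hf2 (red2 a) = qz (a / 2) := by
  obtain ⟨n, hn⟩ : ∃ n : ℤ, red2 a = (n : ZMod 2) := ⟨(red2 a).val, by
    rw [Int.cast_natCast, ZMod.natCast_zmod_val]⟩
  have h1 : red2 (a - n) = 0 := by
    rw [map_sub, hn, map_intCast, sub_self]
  obtain ⟨b, hb⟩ := red2_eq_zero.mp h1
  rw [hn, hf2_intCast]
  refine (qz_eq.mpr ⟨b, ?_⟩).symm
  have h2 : (a : ℚ_[2]) = n + 2 * b := by
    have h3 : a = n + 2 * b := by rw [← hb]; ring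
    rw [h3]
    push_cast
    rfl
  rw [h2]
  ring

section mact

variable {I J L : Type} [Fintype J] [Fintype L]

/-- The action of a matrix over `ℤ_2` on vectors of `QZ`. -/
noncomputable def mact (A : Matrix I J ℤ_[2]) (x : J → QZ) : I → QZ := fun a => ∑ b, A a b • x b

theorem mact_apply (A : Matrix I J ℤ_[2]) (x : J → QZ) (a : I) :
    mact A x a = ∑ b, A a b • x b := rfl

theorem mact_add (A : Matrix I J ℤ_[2]) (x y : J → QZ) :
    mact A (x + y) = mact A x + mact A y := by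
  funext a
  simp only [mact_apply, Pi.add_apply, smul_add, Finset.sum_add_distrib]

theorem mact_zero (A : Matrix I J ℤ_[2]) : mact A 0 = 0 := by
  funext a
  simp only [mact_apply, Pi.zero_apply, smul_zero, Finset.sum_const_zero]

theorem add_mact (A B : Matrix I J ℤ_[2]) (x : J → QZ) :
    mact (A + B) x = mact A x + mact B x := by
  funext a
  simp only [mact_apply, Pi.add_apply, Matrix.add_apply, add_smul, Finset.sum_add_distrib]

theorem smul_mact (c : ℤ_[2]) (A : Matrix I J ℤ_[2]) (x : J → QZ) :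
    mact (c • A) x = c • mact A x := by
  funext a
  simp only [mact_apply, Pi.smul_apply, Matrix.smul_apply, smul_eq_mul, mul_smul,
    Finset.smul_sum]

theorem mact_smul (c : ℤ_[2]) (A : Matrix I J ℤ_[2]) (x : J → QZ) :
    mact A (c • x) = c • mact A x := by
  funext a
  simp only [mact_apply, Pi.smul_apply, Finset.smul_sum, smul_comm c]

theorem mact_mul [Fintype I] (A : Matrix I J ℤ_[2]) (B : Matrix J L ℤ_[2]) (x : L → QZ) :
    mact (A * B) x = mact A (mact B x) := by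
  funext a
  simp only [mact_apply, Matrix.mul_apply, Finset.sum_smul, mul_smul, Finset.smul_sum]
  exact Finset.sum_comm

theorem mact_one [DecidableEq J] (x : J → QZ) : mact (1 : Matrix J J ℤ_[2]) x = x := by
  funext a
  simp only [mact_apply, Matrix.one_apply, ite_smul, one_smul, zero_smul, Finset.sum_ite_eq,
    Finset.mem_univ, if_true]

/-- `mact` as a homomorphism. -/
noncomputable def mactH (A : Matrix I J ℤ_[2]) : (J → QZ) →+ (I → QZ) :=
  AddMonoidHom.mk' (mact A) (mact_add A)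

theorem mact_qz (A : Matrix I J ℤ_[2]) (r : J → ℚ_[2]) :
    mact A (fun b => qz (r b)) = fun a => qz ((A.map (fun x : ℤ_[2] => (x : ℚ_[2]))).mulVec r a) := by
  funext a
  simp only [mact_apply, qz_smul, Matrix.mulVec, dotProduct, Matrix.map_apply, map_sum]

end mact

end Pool.Agent.TTC
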