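import Pool.Agent.Lib.TTC.TateD
import Pool.Agent.Lib.TTC.QZ
import Pool.Agent.Lib.SmJ.L.SelDefs
import Pool.Agent.Lib.Sm.L.Stmt

/-!
# The Tate conjecture in codimension `m`: the statement

`k` is a finite field with `q` elements, `q` odd, `n = 2 m - 1` odd, `E_i` the elliptic curve
`y ^ 2 = x (x - a_i) (x - b_i)` over `k (t)`, `1 ≤ i ≤ n`, and `D` a polynomial. `Ω` is a separable
closure of `k (t)`. The discrete Galois module

  `N_D = (T_2(E_1) ⊗ ... ⊗ T_2(E_n)) ⊗ ℚ_2 / ℤ_2`

carries the tensor product of the Galois actions on the Tate modules `T_2(E_i)`, twisted by the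
power `-(n - 1) / 2` of the cyclotomic character and by the quadratic character of `D`.
`SmJ.L.Sha k (act ...)` is the group of the classes in `H ^ 1 (k (t), N_D)` which are locally trivial
at every place of `k (t)`.

`Sm.L.crv2 a b` is the curve `y ^ 2 = x (x - a) (x - b)`, `Sm.L.Pts Ω W` the group `W (Ω)`,
`Sm.L.gal Ω W s` the action of `s` on `W (Ω)`; `Sm.L.Rank0 a b D` says that the `2`-power Selmer
group of the quadratic twist `y ^ 2 = x (x - D a) (x - D b)` has corank `0`, that its Mordell-Weil
group has rank `0` and that the `2`-power torsion of its Tate-Shafarevich group is finite.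
-/

set_option autoImplicit false

open Polynomial TensorProduct Pool.Agent.Sm.L

namespace Pool.Agent.TTC

section

variable {K : Type} [Field K] (Ω : Type) [Field Ω] [Algebra K Ω] {n : ℕ}

/-- The `2`-adic Tate module of `W`. -/
abbrev T2 (W : WeierstrassCurve K) : Type := Tate (Pts Ω W)

/-- The action of `s` on `T_2 (W)`. -/
noncomputable def actT2 (W : WeierstrassCurve K) (s : Ω ≃ₐ[K] Ω) : T2 Ω W →ₗ[ℤ_[2]] T2 Ω W :=
  tateMap (gal Ω W s)

/-- `(T_2 (W 1) ⊗ ... ⊗ T_2 (W n)) ⊗ ℚ_2 / ℤ_2`. -/
abbrev ModN (W : Fin n → WeierstrassCurve K) : Type :=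
  (⨂[ℤ_[2]] i, T2 Ω (W i)) ⊗[ℤ_[2]] (ℚ_[2] ⧸ (1 : Submodule ℤ_[2] ℚ_[2]))

/-- The quadratic character of `d`: `1` if `s` fixes the square roots of `d` in `Ω`, otherwise
`-1`. -/
noncomputable def quadChar (d : K) (s : Ω ≃ₐ[K] Ω) : ℤ :=
  open Classical in if ∀ r : Ω, r ^ 2 = algebraMap K Ω d → s r = r then 1 else -1

/-- The action of `s` on `ModN Ω W`: the tensor product of the actions on the Tate modules, twisted
by the power `-m` of the cyclotomic character and by the quadratic character of `d`. -/
noncomputable def actN (W : Fin n → WeierstrassCurve K) (m : ℕ) (d : K) (s : Ω ≃ₐ[K] Ω) :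
    ModN Ω W →+ ModN Ω W :=
  quadChar Ω d s • ((((cyclotomicCharacter Ω 2 s.toRingEquiv)⁻¹ ^ m : ℤ_[2]ˣ) : ℤ_[2]) •
    TensorProduct.map (PiTensorProduct.map fun i => actT2 Ω (W i) s)
      LinearMap.id).toAddMonoidHom

end

section

variable {k : Type} [Field k] {n : ℕ}

/-- The product of the polynomials `a_i b_i (a_i - b_i)`. -/
noncomputable def badP (a b : Fin n → k[X]) : k[X] := ∏ i, (a i * b i * (a i - b i))

/-- The hypotheses on the curves `y ^ 2 = x (x - a_i) (x - b_i)`: the product of all the polynomials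
`a_i`, `b_i`, `a_i - b_i` is squarefree, and for each `i` the three polynomials `a_i`, `b_i`,
`a_i - b_i` have the same degree, which is even and positive. -/
structure Family (a b : Fin n → k[X]) : Prop where
  squarefree : Squarefree (badP a b)
  deg_b : ∀ i, (b i).natDegree = (a i).natDegree
  deg_sub : ∀ i, (a i - b i).natDegree = (a i).natDegree
  even : ∀ i, Even (a i).natDegree
  pos : ∀ i, 0 < (a i).natDegree

/-- The twists: the monic squarefree polynomials of degree `N` prime to `badP a b`. -/
def IsTwist (a b : Fin n → k[X]) (N : ℕ) (D : k[X]) : Prop :=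
  D.Monic ∧ Squarefree D ∧ IsCoprime D (badP a b) ∧ D.natDegree = N

/-- The group of the `k (t)`-rational points of `y ^ 2 = x (x - D a) (x - D b)` is finite. -/
def FiniteMW (a b D : k[X]) : Prop :=
  Finite (crv2 (D * a) (D * b)).toAffine.Point

/-- The `2`-power torsion of the Tate-Shafarevich group of `y ^ 2 = x (x - D a) (x - D b)` is
finite. -/
def FiniteSha2 (a b D : k[X]) : Prop :=
  Finite (Sha2 k (SeparableClosure (RatFunc k)) (crv2 (D * a) (D * b)))

/-- The group of the locally trivial classes in `H ^ 1 (k (t), N_D)`, `N_D` the tensor product of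
the Tate modules of `y ^ 2 = x (x - a_i) (x - b_i)` tensored with `ℚ_2 / ℤ_2`, twisted by the power
`-(n - 1) / 2` of the cyclotomic character and by the quadratic character of `D`. -/
abbrev ShaN (a b : Fin n → k[X]) (D : k[X]) : Type :=
  SmJ.L.Sha k (actN (SeparableClosure (RatFunc k)) (fun i => crv2 (a i) (b i)) ((n - 1) / 2)
    (algebraMap k[X] (RatFunc k) D))

end

end Pool.Agent.TTC
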