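import Pool.Agent.Lib.TTC.FinU
import Pool.Agent.Lib.Sm.L.DoneH

/-!
# Project TTC (MP_950c68_ag), module AllC: all odd subsets and the orders of vanishing at once
-/

set_option autoImplicit false

open Polynomial TensorProduct

namespace Pool.Agent.TTC

open Pool.Agent.Sm.L

variable {k : Type} [Field k]

private theorem AllC_dvd {n m : ℕ} (a b : Fin n → k[X]) (g : Fin m → Fin n)
    (hg : Function.Injective g) :
    badP (fun j => a (g j)) (fun j => b (g j)) ∣ badP a b := by
  classical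
  have h1 : badP (fun j => a (g j)) (fun j => b (g j)) =
      ∏ i ∈ Finset.univ.image g, (a i * b i * (a i - b i)) := by
    rw [Finset.prod_image fun x _ y _ h => hg h]
    rfl
  rw [h1, badP]
  exact Finset.prod_dvd_prod_of_subset _ _ _ (Finset.subset_univ _)

private theorem AllC_fam {n m : ℕ} {a b : Fin n → k[X]} (h : Family a b) (g : Fin m → Fin n)
    (hg : Function.Injective g) : Family (fun j => a (g j)) (fun j => b (g j)) :=
  ⟨h.squarefree.squarefree_of_dvd (AllC_dvd a b g hg), fun j => h.deg_b _, fun j => h.deg_sub _,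
    fun j => h.even _, fun j => h.pos _⟩

private theorem AllC_union [Finite k] {J : Type} [Finite J] {F : ℕ → k[X] → Prop}
    (hF : ∀ N D, F N D → D.natDegree = N) {P : J → k[X] → Prop}
    (h : ∀ j, ∀ ε : ℝ, 0 < ε → ∃ N₀ : ℕ, ∀ N ≥ N₀,
      (Nat.card {D : k[X] // F N D ∧ ¬ P j D} : ℝ) ≤ ε * (Nat.card k : ℝ) ^ N) (ε : ℝ) (hε : 0 < ε) :
    ∃ N₀ : ℕ, ∀ N ≥ N₀,
      (Nat.card {D : k[X] // F N D ∧ ¬ ∀ j, P j D} : ℝ) ≤ ε * (Nat.card k : ℝ) ^ N := by
  classical
  haveI := Fintype.ofFinite J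
  have hpos : (0 : ℝ) < Fintype.card J + 1 := by positivity
  choose N₀ hN₀ using fun j => h j (ε / (Fintype.card J + 1)) (div_pos hε hpos)
  refine ⟨Finset.univ.sup N₀, fun N hN => ?_⟩
  have hf : ∀ j, Finite {D : k[X] // F N D ∧ ¬ P j D} := fun j =>
    LowT_fin N _ fun D h => hF N D h.1
  have hex : ∀ D : {D : k[X] // F N D ∧ ¬ ∀ j, P j D}, ∃ j, ¬ P j D.1 := fun D =>
    not_forall.1 D.2.2
  choose i hi using hex
  have h1 : Nat.card {D : k[X] // F N D ∧ ¬ ∀ j, P j D} ≤
      Nat.card (Σ j : J, {D : k[X] // F N D ∧ ¬ P j D}) := by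
    refine Nat.card_le_card_of_injective (fun D => ⟨i D, ⟨D.1, D.2.1, hi D⟩⟩) fun D D' h => ?_
    have h2 := congrArg (fun z : (Σ j : J, {D : k[X] // F N D ∧ ¬ P j D}) => z.2.1) h
    exact Subtype.ext h2
  rw [Nat.card_sigma] at h1
  calc (Nat.card {D : k[X] // F N D ∧ ¬ ∀ j, P j D} : ℝ)
      ≤ ∑ j : J, (Nat.card {D : k[X] // F N D ∧ ¬ P j D} : ℝ) := by exact_mod_cast h1
    _ ≤ ∑ _j : J, ε / (Fintype.card J + 1) * (Nat.card k : ℝ) ^ N :=
        Finset.sum_le_sum fun j _ => hN₀ j N (le_trans (Finset.le_sup (Finset.mem_univ j)) hN)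
    _ = Fintype.card J / (Fintype.card J + 1) * (ε * (Nat.card k : ℝ) ^ N) := by
        rw [Finset.sum_const, Finset.card_univ, nsmul_eq_mul]
        ring
    _ ≤ 1 * (ε * (Nat.card k : ℝ) ^ N) := by
        refine mul_le_mul_of_nonneg_right ?_ (by positivity)
        rw [div_le_one hpos]
        linarith
    _ = _ := one_mul _

/-- The condition on the twist `D`: for all odd `m ≥ 3` and all choices of `m` of the curves the
group of the locally trivial classes is finite, and for each of the curves the order of vanishing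
is the corank of the Selmer group and at most `1`. -/
private def AllC_P {n : ℕ} (a b : Fin n → k[X]) :
    (Σ m : Fin (n + 1), (Fin m → Fin n)) ⊕ Fin n → k[X] → Prop
  | Sum.inl g => fun D => Function.Injective g.2 → Odd (g.1 : ℕ) → 3 ≤ (g.1 : ℕ) →
      Finite (ShaN (fun j => a (g.2 j)) (fun j => b (g.2 j)) D)
  | Sum.inr i => fun D => Ord (a i) (b i) D

private theorem AllC_all {n : ℕ} (a b : Fin n → k[X]) (D : k[X]) :
    (∀ j, AllC_P a b j D) ↔ (∀ (m : ℕ) (g : Fin m → Fin n), Function.Injective g → Odd m → 3 ≤ m →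
        Finite (ShaN (fun j => a (g j)) (fun j => b (g j)) D)) ∧ ∀ i, Ord (a i) (b i) D := by
  constructor
  · intro h
    refine ⟨fun m g hg hm hm3 => ?_, fun i => h (Sum.inr i)⟩
    have hle : m ≤ n := by
      have := Fintype.card_le_of_injective g hg
      simpa using this
    exact h (Sum.inl ⟨⟨m, Nat.lt_succ_of_le hle⟩, g⟩) hg hm hm3
  · rintro ⟨h, h'⟩ (g | i)
    · exact fun hg hm hm3 => h _ g.2 hg hm hm3
    · exact h' i

variable [Finite k]

/-- **All odd subsets and all the curves.** -/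
theorem final_all (h2 : (2 : k) ≠ 0) {n : ℕ} (a b : Fin n → k[X]) (h : Family a b) :
    ∃ c : ℝ, 0 < c ∧ ∀ ε : ℝ, 0 < ε → ∃ N₀ : ℕ, ∀ N ≥ N₀,
      c * (Nat.card k : ℝ) ^ N ≤ (Nat.card {D : k[X] // IsTwist a b N D} : ℝ) ∧
      (Nat.card {D : k[X] // IsTwist a b N D ∧ ¬ ((∀ (m : ℕ) (g : Fin m → Fin n),
        Function.Injective g → Odd m → 3 ≤ m →
          Finite (ShaN (fun j => a (g j)) (fun j => b (g j)) D)) ∧
        ∀ i, Ord (a i) (b i) D)} : ℝ) ≤
        ε * (Nat.card {D : k[X] // IsTwist a b N D} : ℝ) := by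
  classical
  have hc0 : badP a b ≠ 0 := h.squarefree.ne_zero
  obtain ⟨c, hc, n₁, hn₁⟩ := low_coprime h2 hc0
  refine ⟨c, hc, fun ε hε => ?_⟩
  have key : ∀ j, ∀ ε : ℝ, 0 < ε → ∃ N₀ : ℕ, ∀ N ≥ N₀,
      (Nat.card {D : k[X] // IsTwist a b N D ∧ ¬ AllC_P a b j D} : ℝ) ≤
        ε * (Nat.card k : ℝ) ^ N := by
    rintro (⟨m, g⟩ | i) ε hε
    · by_cases hg : Function.Injective g ∧ Odd (m : ℕ) ∧ 3 ≤ (m : ℕ)
      · obtain ⟨hg, hm, hm3⟩ := hg
        obtain ⟨r, hr⟩ := hm
        have hcard : Fintype.card (Fin (m : ℕ)) = 2 * r + 1 := by rw [Fintype.card_fin, hr]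
        have hm' : ((m : ℕ) - 1) / 2 = r := by omega
        have hfam := AllC_fam h g hg
        have hT : HypT (fun j => a (g j)) (fun j => b (g j)) :=
          ⟨hfam.squarefree, hfam.deg_b, hfam.deg_sub, hfam.even, hfam.pos⟩
        letI : DecidableEq (SeparableClosure (RatFunc k)) :=
          fun a b => Classical.propDecidable (a = b)
        obtain ⟨n₀, hn⟩ := final_T (Ω := SeparableClosure (RatFunc k)) h2 hT hcard (by omega) ε hε
        refine ⟨n₀, fun N hN => le_trans ?_ (hn N hN)⟩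
        have f1 : Finite {D : k[X] // D.Monic ∧ Squarefree D ∧
            IsCoprime D (cT (fun j => a (g j)) (fun j => b (g j))) ∧ D.natDegree = N ∧
            ¬ Finite (Pool.Agent.SmJ.L.Sha k (rhoT (SeparableClosure (RatFunc k))
              (fun j => a (g j)) (fun j => b (g j)) r D))} := LowT_fin N _ fun D h => h.2.2.2.1
        refine Nat.cast_le.mpr (Nat.card_le_card_of_injective (fun D => ⟨D.1, D.2.1.1, D.2.1.2.1,
          D.2.1.2.2.1.of_isCoprime_of_dvd_right (AllC_dvd a b g hg), D.2.1.2.2.2, ?_⟩)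
          fun D D' h => Subtype.ext (congrArg (fun z : {D : k[X] // D.Monic ∧ Squarefree D ∧
            IsCoprime D (cT (fun j => a (g j)) (fun j => b (g j))) ∧ D.natDegree = N ∧
            ¬ Finite (Pool.Agent.SmJ.L.Sha k (rhoT (SeparableClosure (RatFunc k))
              (fun j => a (g j)) (fun j => b (g j)) r D))} => z.1) h))
        intro hfin
        refine D.2.2 fun _ _ _ => ?_
        rw [rhoT_eq (SeparableClosure (RatFunc k)) _ _ r D.1] at hfin
        change Finite (ShaN (fun j => a (g j)) (fun j => b (g j)) D.1)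
        rw [ShaN, hm']
        exact hfin
      · refine ⟨0, fun N _ => ?_⟩
        have he : IsEmpty {D : k[X] // IsTwist a b N D ∧ ¬ AllC_P a b (Sum.inl ⟨m, g⟩) D} :=
          ⟨fun D => D.2.2 fun h1 h2 h3 => absurd ⟨h1, h2, h3⟩ hg⟩
        rw [Nat.card_of_isEmpty, Nat.cast_zero]
        positivity
    · have hM : badP a b = a i * b i * (a i - b i) *
          ∏ j ∈ Finset.univ.erase i, (a j * b j * (a j - b j)) := by
        rw [badP, ← Finset.mul_prod_erase _ _ (Finset.mem_univ i)]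
      have hsq := h.squarefree
      rw [hM] at hsq
      have hsi : Squarefree (a i * b i * (a i - b i)) :=
        hsq.squarefree_of_dvd (dvd_mul_right _ _)
      have hpb : 0 < (b i).natDegree := by rw [h.deg_b]; exact h.pos i
      obtain ⟨n₀, hn⟩ := hord_done h2 (a i) (b i) (no4_of hsi (h.pos i) hpb
        (by rw [h.deg_sub]; exact h.pos i)) ε hε
      refine ⟨n₀, fun N hN => le_trans ?_ (hn N hN)⟩
      have f1 : Finite {D : k[X] // D.Monic ∧ Squarefree D ∧
          IsCoprime D (a i * b i * (a i - b i)) ∧ D.natDegree = N ∧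
          ¬ OrdC k (crv2 (D * a i) (D * b i))} := LowT_fin N _ fun D h => h.2.2.2.1
      refine Nat.cast_le.mpr (Nat.card_le_card_of_injective (fun D => ⟨D.1, D.2.1.1, D.2.1.2.1,
        D.2.1.2.2.1.of_isCoprime_of_dvd_right (hM ▸ dvd_mul_right _ _), D.2.1.2.2.2, D.2.2⟩)
        fun D D' h => Subtype.ext (congrArg (fun z : {D : k[X] // D.Monic ∧ Squarefree D ∧
          IsCoprime D (a i * b i * (a i - b i)) ∧ D.natDegree = N ∧
          ¬ OrdC k (crv2 (D * a i) (D * b i))} => z.1) h))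
  obtain ⟨n₂, hn₂⟩ := AllC_union (F := IsTwist a b) (fun N D h => h.2.2.2) key (ε * c)
    (by positivity)
  refine ⟨max n₁ n₂, fun N hN => ?_⟩
  have hN1 := hn₁ N (le_trans (le_max_left _ _) hN)
  change c * (Nat.card k : ℝ) ^ N ≤ (Nat.card {D : k[X] // IsTwist a b N D} : ℝ) at hN1
  refine ⟨hN1, le_trans (le_of_eq ?_) ((hn₂ N (le_trans (le_max_right _ _) hN)).trans ?_)⟩
  · congr 1
    exact Nat.card_congr (Equiv.subtypeEquivRight fun D => by rw [AllC_all])
  · calc ε * c * (Nat.card k : ℝ) ^ N = ε * (c * (Nat.card k : ℝ) ^ N) := by ring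
      _ ≤ _ := mul_le_mul_of_nonneg_left hN1 hε.le

end Pool.Agent.TTC
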