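import Pool.Agent.Lib.TTC.EDef
import Pool.Agent.Lib.Sm.Inst.ChInst
import Pool.Agent.Lib.SmJ.I.ChOk

/-!
# Project TTC (MP_950c68_ag), module ChL: `ChOk` for a lattice
-/

set_option autoImplicit false

open Polynomial

namespace Pool.Agent.TTC

open Pool.Agent.BSDFF Pool.Agent.Lib.SmD Pool.Agent.SmJ

section ChL

open Pool.Agent.SmithE (chP)
open Pool.Agent.Sm.Inst (plF)

variable {k : Type} [Field k] [Finite k] {Ω : Type} [Field Ω] [Algebra (RatFunc k) Ω]
  [IsSepClosure (RatFunc k) Ω] {I : Type} [Fintype I] [DecidableEq I]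
  {L : Lat (Ω ≃ₐ[RatFunc k] Ω) I} {c : k[X]}

/-- `rho s = 1 + 2 κ(s)` modulo `4`, `κ` given by the characters of the bad primes and of `u`. -/
def KapL (L : Lat (Ω ≃ₐ[RatFunc k] Ω) I) (d : TwData k (I → ZMod 2)) : Prop :=
  ∀ s, ∃ B : Matrix I I ℤ_[2], L.rho s = 1 + (2 : ℤ_[2]) • B ∧
    ∀ w, (B.map red2).mulVec w = ∑ i, chP Ω (d.ell i) s • d.T i w + chP Ω (C d.u) s • d.Tc w

private theorem ChL_smul_hf2 (b : ℤ_[2]) (x : ZMod 2) : b • hf2 x = hf2 (red2 b * x) := by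
  obtain ⟨n, rfl⟩ : ∃ n : ℤ, x = (n : ZMod 2) := ⟨(x.val : ℤ), by
    rw [Int.cast_natCast, ZMod.natCast_zmod_val]⟩
  have h1 : red2 b * ((n : ℤ) : ZMod 2) = red2 (b * (n : ℤ_[2])) := by
    rw [map_mul, map_intCast]
  rw [h1, hf2_red2, hf2_intCast, qz_smul]
  congr 1
  push_cast
  ring

omit [DecidableEq I] in
private theorem ChL_mact_hf2 (B : Matrix I I ℤ_[2]) (w : I → ZMod 2) :
    mact B (fun i => hf2 (w i)) = fun i => hf2 ((B.map red2).mulVec w i) := by
  funext a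
  rw [mact_apply, Matrix.mulVec, dotProduct, map_sum]
  refine Finset.sum_congr rfl fun b _ => ?_
  rw [ChL_smul_hf2, Matrix.map_apply]

private theorem ChL_mact (B A : Matrix I I ℤ_[2]) (w : I → ZMod 2) (z : I → QZ)
    (hz : ∀ i, (2 : ℕ) • z i = hf2 (w i)) (hB : A = 1 + (2 : ℤ_[2]) • B) :
    mact A z = z + fun i => hf2 ((B.map red2).mulVec w i) := by
  have h2 : (2 : ℤ_[2]) • z = fun i => hf2 (w i) := by
    funext i
    rw [Pi.smul_apply, ← hz i, ← Nat.cast_smul_eq_nsmul ℤ_[2]]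
    rfl
  rw [hB, add_mact, mact_one, smul_mact, ← mact_smul, h2, ChL_mact_hf2]

omit [Finite k] [IsSepClosure (RatFunc k) Ω] in
private theorem ChL_tor (L : Lat (Ω ≃ₐ[RatFunc k] Ω) I) (w : I → ZMod 2) (z : VL L)
    (hz : (2 : ℕ) • z = iotaL L w) (s : Ω ≃ₐ[RatFunc k] Ω) {B : Matrix I I ℤ_[2]}
    (hB : L.rho s = 1 + (2 : ℤ_[2]) • B) :
    s • z - z = iotaL L ((B.map red2).mulVec w) := by
  have h1 : s • z = z + iotaL L ((B.map red2).mulVec w) :=
    ChL_mact B (L.rho s) w z (fun i => congrFun hz i) hB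
  rw [h1]
  exact add_sub_cancel_left _ _

theorem chOk_L (h2 : (2 : k) ≠ 0) (hL : LatK Ω L c) (d : TwData k (I → ZMod 2))
    (he : eL L = d.e) (hell : ∀ P : k[X], P.Monic → Irreducible P → (P ∣ c ↔ ∃ i, P = d.ell i))
    (hk : KapL L d) : ChOk (sysL Ω L c) (chP Ω) d plF := by
  classical
  have h2K := Pool.Agent.Sm.Inst.two_K h2
  have : IsSepClosed Ω := IsSepClosure.sep_closed (RatFunc k)
  have H := locVals (k := k) (Om := Ω) h2
  have hinj : ∀ {f : k[X]}, f ≠ 0 → algebraMap k[X] (RatFunc k) f ≠ 0 := fun hf => Pool.Agent.SmithE.rf_ne_zero hf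
  have hu : ¬ IsSquare d.u := d.u_nonsq
  have hu0 : d.u ≠ 0 := by
    intro h0
    exact hu ⟨0, by rw [h0, mul_zero]⟩
  refine
    { two := h2
      e_eq := he
      hom := fun f hf => SmF.chi_homG h2K (hinj hf)
      mul := ?_
      kummer := ?_
      cst := ?_
      u_ne := ?_
      pl_inj := ?_
      pl_inf := ?_
      pl_cases := ?_
      good := ?_
      sg_self := ?_
      sg_off := ?_
      ph := ?_
      inf_sg := ?_
      inf_phi := ?_
      tor := ?_ }
  · intro f g hf hg s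
    change chi (RatFunc k) (algebraMap k[X] (RatFunc k) (f * g)) s = _
    rw [map_mul]
    exact SmF.chi_mul_elt h2K (hinj hf) (hinj hg) s
  · intro c hc
    obtain ⟨f, hf, h1⟩ := SmF.kummer h2K (c := c) hc
    have hn : f.num ≠ 0 := RatFunc.num_ne_zero hf
    have hd : f.denom ≠ 0 := RatFunc.denom_ne_zero f
    refine ⟨f.num * f.denom, mul_ne_zero hn hd, fun s => ?_⟩
    rw [h1 s]
    change _ = chi (RatFunc k) (algebraMap k[X] (RatFunc k) (f.num * f.denom)) s
    conv_lhs => rw [← RatFunc.num_div_denom f, div_eq_mul_inv]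
    rw [map_mul, SmF.chi_mul_elt h2K (hinj hn) (inv_ne_zero (hinj hd)),
      SmF.chi_mul_elt h2K (hinj hn) (hinj hd), SmF.chi_inv h2K (hinj hd)]
  · intro c hc
    by_cases hs : IsSquare c
    · left
      obtain ⟨d, hd⟩ := hs
      intro s
      have hd0 : d ≠ 0 := by
        rintro rfl
        rw [mul_zero] at hd
        exact hc hd
      change chi (RatFunc k) (algebraMap k[X] (RatFunc k) (C c)) s = 0
      rw [hd, C_mul, map_mul, ← sq]
      exact SmF.chi_sq h2K (hinj (C_ne_zero.mpr hd0)) s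
    · right
      intro s
      have h4 := Pool.Agent.SmithE.chi_const (Ω := Ω) h2K hu (f := C c) (C_ne_zero.mpr hc) s
      rw [leadingCoeff_C] at h4
      have h5 : Pool.Agent.SmithE.lcz (C c) = 1 := by
        unfold Pool.Agent.SmithE.lcz
        rw [leadingCoeff_C, if_neg hs]
      rw [h5, one_mul] at h4
      exact h4
  · by_contra hcon
    push Not at hcon
    have h5 : ∀ s : Ω ≃ₐ[RatFunc k] Ω,
        chi (RatFunc k) (algebraMap k[X] (RatFunc k) (C d.u)) s = 0 := hcon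
    have h6 := h5 (ph Ω (placeInfty k))
    rw [SmF.polyC, H.ph_const_infty hu0, SmF.sq2_eq_zero] at h6
    exact hu h6
  · intro P Q hP hPi hQ hQi hPQ
    rw [Pool.Agent.Sm.Inst.plF_eq hPi, Pool.Agent.Sm.Inst.plF_eq hQi] at hPQ
    exact placeOf_injective hPi hQi hP hQ hPQ
  · intro P hP hPi hh
    rw [Pool.Agent.Sm.Inst.plF_eq hPi] at hh
    exact SmF.placeInfty_ne hPi hh.symm
  · intro v
    rcases Pool.Agent.BSDP.R.place_cases v with rfl | ⟨P, hP, hm, rfl⟩
    · exact Or.inl rfl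
    · exact Or.inr ⟨P, hm, hP, (Pool.Agent.Sm.Inst.plF_eq hP).symm⟩
  · intro P hP hPi
    rw [Pool.Agent.Sm.Inst.plF_eq hPi]
    constructor
    · rintro ⟨Q, hQ, hQm, hQP, hnd⟩ i hi
      have h8 : P = Q := placeOf_injective hPi hQ hP hQm hQP
      rw [← h8] at hnd
      exact hnd ((hell P hP hPi).2 ⟨i, hi⟩)
    · intro hne
      refine ⟨P, hPi, hP, rfl, fun hd => ?_⟩
      obtain ⟨i, hi⟩ := (hell P hP hPi).1 hd
      exact hne i hi
  · intro P hP hPi
    rw [Pool.Agent.Sm.Inst.plF_eq hPi]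
    exact H.sg_self hPi
  · intro P f hP hPi hnd
    rw [Pool.Agent.Sm.Inst.plF_eq hPi]
    exact H.sg_of_not_dvd hPi hnd
  · intro P f hP hPi hnd
    rw [Pool.Agent.Sm.Inst.plF_eq hPi]
    exact H.ph_leg hPi hnd
  · intro P Q hP hQ hdeg
    have h8 := H.sg_infty h2 hP
    have h9 := H.sg_infty h2 hQ
    rw [hdeg] at h8
    exact h8.trans h9.symm
  · intro P Q hP hQ hdeg
    have h8 := H.ph_infty h2 hP
    have h9 := H.ph_infty h2 hQ
    rw [hdeg] at h8
    exact h8.trans h9.symm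
  · intro w z hz s
    obtain ⟨B, hB, hBw⟩ := hk s
    rw [← hBw w]
    exact ChL_tor L w z hz s hB

end ChL

end Pool.Agent.TTC
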