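import Pool.Agent.Lib.TTC.Fam
import Pool.Agent.Lib.SmJ.L.HalfTwo
import Pool.Agent.Lib.SmJ.I.GridThm
import Pool.Agent.Lib.SmJ.P.MInst
import Pool.Agent.Lib.SmB.P5Odd
import Pool.Agent.Lib.Sm.Inst.ChInst

/-!
# Project TTC (MP_950c68_ag), module CorL: corank `0` for all but `ε`

For a symplectic lattice `L` over `k(t)` with the Weil pairings and the reciprocity law, if all the
`2`-Selmer groups have even dimension, then all but `ε` of the monic squarefree `D` prime to `c`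
have corank `0`.
-/

set_option autoImplicit false

open Polynomial

namespace Pool.Agent.TTC

open Pool.Agent.BSDFF Pool.Agent.Lib.SmD Pool.Agent.SmJ
open Pool.Agent.SmithE (chP lcz vm Pt)
open Pool.Agent.Sm.Inst (plF)

section CorL

variable {k : Type} [Field k] [Finite k] {Ω : Type} [Field Ω] [Algebra (RatFunc k) Ω]
  [IsSepClosure (RatFunc k) Ω] {I : Type} [Fintype I] [DecidableEq I] [Nonempty I]
  {L : Lat (Ω ≃ₐ[RatFunc k] Ω) I} {c : k[X]}

omit [Nonempty I] in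
/-- Theorem I for the lattice. -/
private theorem CorL_grid (h2 : (2 : k) ≠ 0) (hok : (sysL Ω L c).Ok)
    {d : TwData k (I → ZMod 2)} (hc : ChOk (sysL Ω L c) (chP Ω) d plF) (m : ℕ) (hm : 1 ≤ m) :
    GridThm (sysL Ω L c) (chP Ω) d m := by
  have : IsSepClosed Ω := IsSepClosure.sep_closed (RatFunc k)
  have : IsGalois (RatFunc k) Ω := inferInstance
  refine grid_thm hok hc (a := 4) (C := 11 * Nat.card k) ?_ m hm
  exact SmB.chebOdd h2 _ _ (fun P h _ => by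
    change sg Ω (plF P) = _
    rw [Sm.Inst.plF, dif_pos h]) (fun P h _ => by
    change ph Ω (plF P) = _
    rw [Sm.Inst.plF, dif_pos h])

theorem cor0_L (h2 : (2 : k) ≠ 0) (hL : LatK Ω L c) (hok : (sysL Ω L c).Ok)
    {d : TwData k (I → ZMod 2)} (hc : ChOk (sysL Ω L c) (chP Ω) d plF)
    (hell : ∀ P : k[X], P.Monic → Irreducible P → (P ∣ c ↔ ∃ i, P = d.ell i))
    {e : ℕ → VL L → VL L → SmP.MuT Ω} (hw : Weil (sysL Ω L c) e (SmP.hfM Ω))
    (hR : (sysL Ω L c).RecipM (SmP.hfM Ω))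
    (hev : ∀ D : k[X], D ≠ 0 → IsCoprime D c → EvenSel hok (chP Ω) D) (ε : ℝ) (hε : 0 < ε) :
    ∃ n₀ : ℕ, ∀ n ≥ n₀, (Nat.card {D : k[X] // D.Monic ∧ Squarefree D ∧ IsCoprime D c ∧
      D.natDegree = n ∧ ¬ Cor0 (sysL Ω L c) (chP Ω) D} : ℝ) ≤ ε * (Nat.card k : ℝ) ^ n := by
  classical
  have hpar : Par hok (chP Ω) (badP d) := par_of hok hc fun J _ _ p hp =>
    altn_twJ_weil hok (Code.codeOk hok hc hp) hw hR
  have hMC : Main (sysL Ω L c) (chP Ω) (badP d) := main_of hok hc (CorL_grid h2 hok hc)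
  have hB : ∀ P : k[X], P.Monic → Irreducible P → (P ∈ badP d ↔ P ∣ c) := by
    intro P hPm hPi
    rw [mem_badP, hell P hPm hPi]
    exact ⟨fun ⟨i, hi⟩ => ⟨i, hi.symm⟩, fun ⟨i, hi⟩ => ⟨i, hi.symm⟩⟩
  obtain ⟨m₀, hm⟩ := hMC ε hε
  obtain ⟨n₁, hn₁⟩ := hm m₀ le_rfl
  refine ⟨max n₁ 1, fun n hn => ?_⟩
  have h1 := hn₁ n (le_trans (le_max_left _ _) hn)
  rw [card_Exc] at h1
  rw [card_filter_eq hL.c_ne (badP_irr d) hB (fun D => ¬ Cor0 (sysL Ω L c) (chP Ω) D) n]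
  refine le_trans ?_ h1
  have h3 : (SmK.DD (badP d) n).filter (fun D => ¬ Cor0 (sysL Ω L c) (chP Ω) D) ⊆
      Exc (sysL Ω L c) (chP Ω) (badP d) m₀ n := by
    intro D hD
    rw [Finset.mem_filter] at hD
    by_contra hE
    refine hD.2 ((cor_iff hok hpar (le_trans (le_max_right _ _) hn) hD.1 hE).1.2 ?_)
    obtain ⟨q1, -, q3, -⟩ := (mem_DD_iff hL.c_ne (badP_irr d) hB).1 hD.1
    exact hev D q1.ne_zero q3
  refine Nat.cast_le.2 (le_trans (le_of_eq ?_) (Finset.card_le_card h3))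
  congr

end CorL

end Pool.Agent.TTC
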