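import Pool.Agent.Lib.TTC.QZ

/-!
# Project TTC (MP_950c68_ag), module QZ2: the group `ℚ_2 / ℤ_2`

Torsion, generators, halving, homomorphisms from compatible sequences, the endomorphism ring.
-/

set_option autoImplicit false

namespace Pool.Agent.TTC

private theorem QZ2_frac (x : ℚ_[2]) : ∃ (m : ℕ) (a : ℤ_[2]), x = a / 2 ^ m := by
  obtain ⟨m, hm⟩ := pow_unbounded_of_one_lt ‖x‖ (one_lt_two : (1 : ℝ) < 2)
  have h2 : ‖(2 : ℚ_[2])‖ = 2⁻¹ := by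
    have := Padic.norm_p (p := 2)
    simpa using this
  have h : ‖(2 : ℚ_[2]) ^ m * x‖ ≤ 1 := by
    rw [norm_mul, norm_pow, h2, inv_pow]
    rw [inv_mul_le_iff₀ (by positivity), mul_one]
    exact hm.le
  refine ⟨m, ⟨(2 : ℚ_[2]) ^ m * x, h⟩, ?_⟩
  rw [eq_div_iff (pow_ne_zero _ two_ne_zero)]
  change x * 2 ^ m = 2 ^ m * x
  ring

private theorem QZ2_appr (a : ℤ_[2]) (m : ℕ) : ∃ (n : ℕ) (b : ℤ_[2]), a = n + 2 ^ m * b := by
  have h := PadicInt.appr_spec m a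
  rw [Ideal.mem_span_singleton] at h
  obtain ⟨b, hb⟩ := h
  refine ⟨a.appr m, b, ?_⟩
  have h2 : ((2 : ℕ) : ℤ_[2]) = 2 := rfl
  rw [h2] at hb
  rw [← hb]
  ring

private theorem QZ2_gen_aux (a : ℤ_[2]) (m : ℕ) : ∃ n : ℕ, qz (a / 2 ^ m) = n • qz (1 / 2 ^ m) := by
  obtain ⟨n, b, hb⟩ := QZ2_appr a m
  refine ⟨n, ?_⟩
  rw [qz_nsmul, qz_eq]
  refine ⟨b, ?_⟩
  have h2 : (2 : ℚ_[2]) ^ m ≠ 0 := pow_ne_zero _ two_ne_zero
  have h3 : (a : ℚ_[2]) = n + 2 ^ m * b := by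
    rw [hb]
    push_cast
    rfl
  rw [h3]
  field_simp

/-- every element is `n • qz (1 / 2 ^ m)` -/
theorem qz_gen (Q : QZ) : ∃ (n m : ℕ), Q = n • qz (1 / 2 ^ m) := by
  obtain ⟨x, rfl⟩ := qz_surj Q
  obtain ⟨m, a, rfl⟩ := QZ2_frac x
  obtain ⟨n, hn⟩ := QZ2_gen_aux a m
  exact ⟨n, m, hn⟩

theorem qz_zsmul_eq_zero (n : ℤ) (m : ℕ) : n • qz (1 / 2 ^ m) = 0 ↔ (2 : ℤ) ^ m ∣ n := by
  have h2 : (2 : ℚ_[2]) ^ m ≠ 0 := pow_ne_zero _ two_ne_zero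
  have h3 := PadicInt.pow_p_dvd_int_iff (p := 2) m n
  have h4 : ((2 : ℕ) : ℤ_[2]) = 2 := rfl
  have h5 : (((2 : ℕ) : ℤ)) = 2 := rfl
  rw [h4, h5] at h3
  rw [← h3, qz_zsmul, qz_eq_zero]
  constructor
  · rintro ⟨a, ha⟩
    refine ⟨a, ?_⟩
    have h6 : ((n : ℤ_[2]) : ℚ_[2]) = ((2 ^ m * a : ℤ_[2]) : ℚ_[2]) := by
      push_cast
      rw [ha]
      have h7 : ((2 : ℤ_[2]) : ℚ_[2]) = 2 := rfl
      rw [h7]
      field_simp
    exact Subtype.ext h6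
  · rintro ⟨a, ha⟩
    refine ⟨a, ?_⟩
    have h6 : ((n : ℤ_[2]) : ℚ_[2]) = ((2 ^ m * a : ℤ_[2]) : ℚ_[2]) := by rw [ha]
    push_cast at h6
    have h7 : ((2 : ℤ_[2]) : ℚ_[2]) = 2 := rfl
    rw [h7] at h6
    rw [h6]
    field_simp

private theorem QZ2_two_pow (m : ℕ) : (2 : ℕ) ^ m • qz (1 / 2 ^ m) = 0 := by
  have := (qz_zsmul_eq_zero ((2 : ℤ) ^ m) m).mpr dvd_rfl
  rw [← natCast_zsmul]
  push_cast
  exact this

theorem qz_tors (Q : QZ) : ∃ j : ℕ, (2 : ℕ) ^ j • Q = 0 := by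
  obtain ⟨n, m, rfl⟩ := qz_gen Q
  refine ⟨m, ?_⟩
  rw [smul_comm, QZ2_two_pow, smul_zero]

theorem qz_gen_of {Q : QZ} {m : ℕ} (hQ : (2 : ℕ) ^ m • Q = 0) : ∃ n : ℕ, Q = n • qz (1 / 2 ^ m) := by
  obtain ⟨x, rfl⟩ := qz_surj Q
  rw [qz_nsmul, qz_eq_zero] at hQ
  obtain ⟨a, ha⟩ := hQ
  have h2 : (2 : ℚ_[2]) ^ m ≠ 0 := pow_ne_zero _ two_ne_zero
  have hx : x = a / 2 ^ m := by
    rw [ha]
    push_cast
    field_simp
  rw [hx]
  exact QZ2_gen_aux a m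

theorem qz_half (Q : QZ) : ∃ R : QZ, (2 : ℕ) • R = Q := by
  obtain ⟨x, rfl⟩ := qz_surj Q
  refine ⟨qz (x / 2), ?_⟩
  rw [qz_nsmul]
  congr 1
  push_cast
  field_simp

private theorem QZ2_exists_int (w : ZMod 2) : ∃ n : ℤ, w = (n : ZMod 2) :=
  ⟨w.val, by rw [Int.cast_natCast, ZMod.natCast_zmod_val]⟩

private theorem QZ2_hf2_eq_smul (n : ℤ) : hf2 (n : ZMod 2) = n • qz (1 / 2 ^ 1) := by
  rw [hf2_intCast, qz_zsmul]
  congr 1
  ring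

theorem hf2_inj : Function.Injective hf2 := by
  rw [injective_iff_map_eq_zero]
  intro w hw
  obtain ⟨n, rfl⟩ := QZ2_exists_int w
  rw [QZ2_hf2_eq_smul, qz_zsmul_eq_zero, pow_one] at hw
  rw [ZMod.intCast_zmod_eq_zero_iff_dvd]
  exact_mod_cast hw

theorem hf2_range (Q : QZ) (h : (2 : ℕ) • Q = 0) : ∃ w, hf2 w = Q := by
  have h' : (2 : ℕ) ^ 1 • Q = 0 := h
  obtain ⟨n, hn⟩ := qz_gen_of h'
  refine ⟨((n : ℤ) : ZMod 2), ?_⟩
  rw [QZ2_hf2_eq_smul, hn, natCast_zsmul]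

theorem smul_hf2 (a : ℤ_[2]) (w : ZMod 2) : a • hf2 w = hf2 (red2 a * w) := by
  obtain ⟨n, rfl⟩ := QZ2_exists_int w
  have h1 : ((n : ℤ) : ZMod 2) = red2 (n : ℤ_[2]) := by rw [map_intCast]
  rw [h1, hf2_red2, ← map_mul, hf2_red2, qz_smul]
  congr 1
  push_cast
  ring

theorem qz_card (j : ℕ) : Nat.card {Q : QZ // (2 : ℕ) ^ j • Q = 0} = 2 ^ j := by
  have hf : Function.Bijective (fun n : Fin (2 ^ j) =>
      (⟨(n : ℕ) • qz (1 / 2 ^ j), by rw [smul_comm, QZ2_two_pow, smul_zero]⟩ :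
        {Q : QZ // (2 : ℕ) ^ j • Q = 0})) := by
    constructor
    · intro n n' hn
      have h1 : (n : ℕ) • qz (1 / 2 ^ j) = (n' : ℕ) • qz (1 / 2 ^ j) := congrArg Subtype.val hn
      have h2 : (((n : ℕ) : ℤ) - ((n' : ℕ) : ℤ)) • qz (1 / 2 ^ j) = 0 := by
        rw [sub_smul, natCast_zsmul, natCast_zsmul, h1, sub_self]
      rw [qz_zsmul_eq_zero] at h2
      have h3 := n.isLt
      have h4 := n'.isLt
      apply Fin.ext
      have h5 : ((2 ^ j : ℕ) : ℤ) ∣ ((n : ℕ) : ℤ) - ((n' : ℕ) : ℤ) := by exact_mod_cast h2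
      have h6 : ((n' : ℕ) : ℤ) ≡ ((n : ℕ) : ℤ) [ZMOD ((2 ^ j : ℕ) : ℤ)] :=
        (Int.modEq_iff_dvd).mpr h5
      have h7 := Int.natCast_modEq_iff.mp h6
      exact (Nat.ModEq.eq_of_lt_of_lt h7 h4 h3).symm
    · rintro ⟨Q, hQ⟩
      obtain ⟨n, hn⟩ := qz_gen_of hQ
      refine ⟨⟨n % 2 ^ j, Nat.mod_lt _ (by positivity)⟩, ?_⟩
      apply Subtype.ext
      change (n % 2 ^ j) • qz (1 / 2 ^ j) = Q
      rw [hn]
      conv_rhs => rw [← Nat.mod_add_div n (2 ^ j), add_smul, mul_comm, mul_smul, QZ2_two_pow,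
        smul_zero, add_zero]
  rw [← Nat.card_eq_of_bijective _ hf, Nat.card_fin]

theorem qz_kill {j : ℕ} {Q : QZ} (hQ : (2 : ℕ) ^ j • Q = 0) (b : ℤ_[2]) :
    ((2 : ℤ_[2]) ^ j * b) • Q = 0 := by
  have h : ((2 : ℤ_[2]) ^ j) • Q = 0 := by
    rw [← hQ, ← Nat.cast_smul_eq_nsmul ℤ_[2]]
    push_cast
    rfl
  rw [mul_comm, mul_smul, h, smul_zero]

private theorem QZ2_norm_two : ‖(2 : ℤ_[2])‖ = 2⁻¹ := by
  have := PadicInt.norm_p (p := 2)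
  simpa using this

private theorem QZ2_smul_zero {a : ℤ_[2]} {m : ℕ} :
    a • qz (1 / 2 ^ m) = 0 ↔ ∃ b : ℤ_[2], a = 2 ^ m * b := by
  have h2 : (2 : ℚ_[2]) ^ m ≠ 0 := pow_ne_zero _ two_ne_zero
  have h7 : ((2 : ℤ_[2]) : ℚ_[2]) = 2 := rfl
  rw [qz_smul, qz_eq_zero]
  constructor
  · rintro ⟨b, hb⟩
    refine ⟨b, Subtype.ext ?_⟩
    push_cast
    rw [hb, h7]
    field_simp
  · rintro ⟨b, hb⟩
    refine ⟨b, ?_⟩
    rw [hb]
    push_cast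
    rw [h7]
    field_simp

theorem qz_faithful {a : ℤ_[2]} (h : ∀ m : ℕ, a • qz (1 / 2 ^ m) = 0) : a = 0 := by
  by_contra ha
  have h0 : 0 < ‖a‖ := norm_pos_iff.mpr ha
  obtain ⟨m, hm⟩ := exists_pow_lt_of_lt_one h0 (by norm_num : (2⁻¹ : ℝ) < 1)
  obtain ⟨b, hb⟩ := QZ2_smul_zero.mp (h m)
  have h1 : ‖a‖ ≤ 2⁻¹ ^ m := by
    rw [hb, norm_mul, norm_pow, QZ2_norm_two]
    exact mul_le_of_le_one_right (by positivity) (PadicInt.norm_le_one b)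
  exact absurd h1 (not_le.mpr hm)

theorem qz_ext {A : Type} [AddCommGroup A] {f g : QZ →+ A}
    (h : ∀ m : ℕ, f (qz (1 / 2 ^ m)) = g (qz (1 / 2 ^ m))) : f = g := by
  ext Q
  obtain ⟨n, m, rfl⟩ := qz_gen Q
  rw [map_nsmul, map_nsmul, h]

private theorem QZ2_level (n m k : ℕ) :
    n • qz (1 / 2 ^ m) = (n * 2 ^ k) • qz (1 / 2 ^ (m + k)) := by
  have h2 : (2 : ℚ_[2]) ^ m ≠ 0 := pow_ne_zero _ two_ne_zero
  have h3 : (2 : ℚ_[2]) ^ k ≠ 0 := pow_ne_zero _ two_ne_zero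
  rw [qz_nsmul, qz_nsmul]
  congr 1
  push_cast
  rw [pow_add]
  field_simp

private theorem QZ2_x_level {A : Type} [AddCommGroup A] (x : ℕ → A)
    (h : ∀ m, (2 : ℕ) • x (m + 1) = x m) (m k : ℕ) : (2 : ℕ) ^ k • x (m + k) = x m := by
  induction k with
  | zero => rw [pow_zero, one_smul, add_zero]
  | succ k ih => rw [pow_succ, mul_smul, ← add_assoc, h, ih]

private theorem QZ2_wd {A : Type} [AddCommGroup A] (x : ℕ → A) (h0 : x 0 = 0)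
    (h : ∀ m, (2 : ℕ) • x (m + 1) = x m) {n m n' m' : ℕ}
    (he : n • qz (1 / 2 ^ m) = n' • qz (1 / 2 ^ m')) : n • x m = n' • x m' := by
  have hk : (2 : ℕ) ^ (m + m') • x (m + m') = 0 := by
    have := QZ2_x_level x h 0 (m + m')
    rw [zero_add] at this
    rw [this, h0]
  have e1 : n • x m = (n * 2 ^ m') • x (m + m') := by
    rw [mul_smul, QZ2_x_level x h]
  have e2 : n' • x m' = (n' * 2 ^ m) • x (m + m') := by
    rw [mul_smul, add_comm m m', QZ2_x_level x h]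
  rw [QZ2_level n m m', QZ2_level n' m' m, add_comm m' m] at he
  have h3 : (((n * 2 ^ m' : ℕ) : ℤ) - ((n' * 2 ^ m : ℕ) : ℤ)) • qz (1 / 2 ^ (m + m')) = 0 := by
    rw [sub_smul, natCast_zsmul, natCast_zsmul, he, sub_self]
  rw [qz_zsmul_eq_zero] at h3
  obtain ⟨c, hc⟩ := h3
  rw [e1, e2, ← sub_eq_zero, ← natCast_zsmul, ← natCast_zsmul, ← sub_smul, hc, mul_comm, mul_smul]
  have h4 : ((2 : ℤ) ^ (m + m')) • x (m + m') = 0 := by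
    rw [← hk, ← natCast_zsmul]
    push_cast
    rfl
  rw [h4, smul_zero]

theorem qz_hom {A : Type} [AddCommGroup A] (x : ℕ → A) (h0 : x 0 = 0)
    (h : ∀ m, (2 : ℕ) • x (m + 1) = x m) : ∃ f : QZ →+ A, ∀ m, f (qz (1 / 2 ^ m)) = x m := by
  choose N M hNM using qz_gen
  have key : ∀ (Q : QZ) (n m : ℕ), Q = n • qz (1 / 2 ^ m) → N Q • x (M Q) = n • x m := by
    intro Q n m hQ
    exact QZ2_wd x h0 h (by rw [← hNM Q, hQ])
  refine ⟨AddMonoidHom.mk' (fun Q => N Q • x (M Q)) ?_, ?_⟩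
  · intro Q Q'
    change N (Q + Q') • x (M (Q + Q')) = N Q • x (M Q) + N Q' • x (M Q')
    have e : Q + Q' = (N Q * 2 ^ M Q' + N Q' * 2 ^ M Q) • qz (1 / 2 ^ (M Q + M Q')) := by
      rw [add_smul, ← QZ2_level, ← hNM Q, add_comm (M Q), ← QZ2_level, ← hNM Q']
    rw [key _ _ _ e, add_smul, mul_smul, mul_smul, QZ2_x_level x h, add_comm (M Q),
      QZ2_x_level x h]
  · intro m
    change N (qz (1 / 2 ^ m)) • x (M (qz (1 / 2 ^ m))) = x m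
    rw [key _ 1 m (one_smul _ _).symm, one_smul]

theorem qz_end (f : QZ →+ QZ) : ∃ a : ℤ_[2], ∀ Q, f Q = a • Q := by
  have h1 : ∀ m : ℕ, ∃ n : ℕ, f (qz (1 / 2 ^ m)) = n • qz (1 / 2 ^ m) := by
    intro m
    apply qz_gen_of
    rw [← map_nsmul, QZ2_two_pow, map_zero]
  choose n hn using h1
  have h2 : ∀ m k : ℕ, (2 : ℤ) ^ m ∣ (n (m + k) : ℤ) - n m := by
    intro m k
    rw [← qz_zsmul_eq_zero, sub_smul, natCast_zsmul, natCast_zsmul, ← hn m, sub_eq_zero]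
    have e : qz (1 / 2 ^ m) = (2 : ℕ) ^ k • qz (1 / 2 ^ (m + k)) := by
      have := QZ2_level 1 m k
      rwa [one_smul, one_mul] at this
    rw [e, map_nsmul, hn (m + k), smul_comm]
  have h3 : ∀ m k : ℕ, ‖((n (m + k) : ℕ) : ℤ_[2]) - (n m : ℕ)‖ ≤ 2⁻¹ ^ m := by
    intro m k
    obtain ⟨c, hc⟩ := h2 m k
    have e : ((n (m + k) : ℕ) : ℤ_[2]) - (n m : ℕ) = 2 ^ m * (c : ℤ_[2]) := by
      have := congrArg (fun z : ℤ => (z : ℤ_[2])) hc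
      push_cast at this
      exact this
    rw [e, norm_mul, norm_pow, QZ2_norm_two]
    exact mul_le_of_le_one_right (by positivity) (PadicInt.norm_le_one _)
  have hc : CauchySeq (fun m => ((n m : ℕ) : ℤ_[2])) := by
    apply cauchySeq_of_le_geometric (2⁻¹ : ℝ) 1 (by norm_num)
    intro m
    rw [dist_comm, dist_eq_norm, one_mul]
    exact h3 m 1
  obtain ⟨a, ha⟩ := cauchySeq_tendsto_of_complete hc
  have h4 : ∀ m, ‖a - ((n m : ℕ) : ℤ_[2])‖ ≤ 2⁻¹ ^ m := by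
    intro m
    have ht : Filter.Tendsto (fun k => ‖((n k : ℕ) : ℤ_[2]) - (n m : ℕ)‖) Filter.atTop
        (nhds ‖a - ((n m : ℕ) : ℤ_[2])‖) := (ha.sub_const _).norm
    apply le_of_tendsto ht
    filter_upwards [Filter.eventually_ge_atTop m] with k hk
    obtain ⟨r, rfl⟩ := Nat.exists_eq_add_of_le hk
    exact h3 m r
  have h5 : ∀ m, a • qz (1 / 2 ^ m) = f (qz (1 / 2 ^ m)) := by
    intro m
    have h6 := h4 m
    have h7 : (a - ((n m : ℕ) : ℤ_[2])) • qz (1 / 2 ^ m) = 0 := by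
      rw [QZ2_smul_zero]
      have h8 := (PadicInt.norm_le_pow_iff_mem_span_pow (a - ((n m : ℕ) : ℤ_[2])) m).mp (by
        simpa using h6)
      rw [Ideal.mem_span_singleton] at h8
      obtain ⟨b, hb⟩ := h8
      exact ⟨b, hb⟩
    rw [sub_smul, sub_eq_zero, Nat.cast_smul_eq_nsmul] at h7
    rw [h7, hn]
  refine ⟨a, fun Q => ?_⟩
  obtain ⟨k, m, rfl⟩ := qz_gen Q
  rw [map_nsmul, ← h5, smul_comm]

end Pool.Agent.TTC
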