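import Pool.Agent.Lib.TTC.EDef
import Pool.Agent.Lib.TTC.QZ2
import Pool.Agent.Lib.Sm.P.MuLoc
import Pool.Agent.Lib.Sm.P.DTame

/-!
# Project TTC (MP_950c68_ag), module Cyc: the `2`-adic cyclotomic character

`cycK` modulo `2 ^ m` is `SmP.cyc m`; inertia, Frobenius, continuity, reduction modulo `4`;
the isomorphism `zq` of `ℚ_2 / ℤ_2` with the roots of unity of `2`-power order.
-/

set_option autoImplicit false

open Polynomial

namespace Pool.Agent.TTC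

open Pool.Agent.BSDFF Pool.Agent.Lib.SmD

/-- `cycK` is the action on the roots of unity of order `2 ^ m`. -/
theorem cycK_spec {K Ω : Type} [Field K] [Field Ω] [Algebra K Ω] [IsSepClosed Ω]
    (h2 : (2 : Ω) ≠ 0) (s : Ω ≃ₐ[K] Ω) (m : ℕ) {z : Ω} (hz : z ^ 2 ^ m = 1) :
    s z = z ^ ((PadicInt.toZModPow m) (cycK Ω K s : ℤ_[2])).val := by
  have : NeZero ((2 : ℕ) : Ω) := ⟨by rw [Nat.cast_ofNat]; exact h2⟩
  have := cyclotomicCharacter.spec (L := Ω) 2 s.toRingEquiv z hz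
  exact this

theorem cycK_toZModPow {K Ω : Type} [Field K] [Field Ω] [Algebra K Ω] [IsSepClosed Ω]
    (h2 : (2 : Ω) ≠ 0) (s : Ω ≃ₐ[K] Ω) (m : ℕ) :
    (PadicInt.toZModPow m) (cycK Ω K s : ℤ_[2]) = SmP.cyc m s := by
  obtain ⟨ζ, hζ⟩ := SmP.exists_prim_root h2 m
  rw [SmP.cyc_unique h2 m s hζ (cycK_spec h2 s m hζ.pow_eq_one), ZMod.natCast_zmod_val]

private theorem Cyc_eq_of {K Ω : Type} [Field K] [Field Ω] [Algebra K Ω] [IsSepClosed Ω]
    (h2 : (2 : Ω) ≠ 0) (s : Ω ≃ₐ[K] Ω) (n : ℕ)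
    (h : ∀ (m : ℕ) (z : Ω), z ^ 2 ^ m = 1 → s z = z ^ n) : (cycK Ω K s : ℤ_[2]) = n := by
  refine PadicInt.ext_of_toZModPow.mp fun m => ?_
  obtain ⟨ζ, hζ⟩ := SmP.exists_prim_root h2 m
  rw [cycK_toZModPow h2, map_natCast, SmP.cyc_unique h2 m s hζ (h m ζ hζ.pow_eq_one)]

/-- The residue modulo `2 ^ m`. -/
private theorem Cyc_res (a : ℤ_[2]) (m : ℕ) : ∃ b : ℤ_[2],
    a = ((PadicInt.toZModPow m a).val : ℤ_[2]) + 2 ^ m * b := by
  have h1 : a - ((PadicInt.toZModPow m a).val : ℤ_[2]) ∈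
      RingHom.ker (PadicInt.toZModPow (p := 2) m) := by
    rw [RingHom.mem_ker, map_sub, map_natCast, ZMod.natCast_zmod_val, sub_self]
  rw [PadicInt.ker_toZModPow, Ideal.mem_span_singleton] at h1
  obtain ⟨b, hb⟩ := h1
  refine ⟨b, ?_⟩
  have : ((2 : ℕ) : ℤ_[2]) = 2 := by norm_num
  rw [this] at hb
  rw [← hb]
  ring

private theorem Cyc_one {a : ℤ_[2]} {j : ℕ} (h : PadicInt.toZModPow j a = 1) :
    ∃ b : ℤ_[2], a = 1 + 2 ^ j * b := by
  have h1 : a - 1 ∈ RingHom.ker (PadicInt.toZModPow (p := 2) j) := by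
    rw [RingHom.mem_ker, map_sub, h, map_one, sub_self]
  rw [PadicInt.ker_toZModPow, Ideal.mem_span_singleton] at h1
  obtain ⟨b, hb⟩ := h1
  refine ⟨b, ?_⟩
  have : ((2 : ℕ) : ℤ_[2]) = 2 := by norm_num
  rw [this] at hb
  rw [← hb]
  ring

variable {k : Type} [Field k] [Finite k] {Ω : Type} [Field Ω] [Algebra (RatFunc k) Ω]
  [IsSepClosure (RatFunc k) Ω]

omit [Finite k] [IsSepClosure (RatFunc k) Ω] in
private theorem Cyc_two (h2 : (2 : k) ≠ 0) : (2 : Ω) ≠ 0 := by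
  intro h
  apply h2
  apply ((algebraMap (RatFunc k) Ω).comp (algebraMap k (RatFunc k))).injective
  rw [map_ofNat, h, map_zero]

omit [Finite k] in
theorem cycK_iner (h2 : (2 : k) ≠ 0) (v : Place k (RatFunc k)) {s : Ω ≃ₐ[RatFunc k] Ω}
    (hs : s ∈ iner (RatFunc k) (ab Ω v)) : cycK Ω (RatFunc k) s = 1 := by
  have hsc : IsSepClosed Ω := IsSepClosure.sep_closed (RatFunc k)
  apply Units.ext
  have h := Cyc_eq_of (Cyc_two (Ω := Ω) h2) s 1 fun m z hz => by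
    rw [pow_one]
    exact SmP.iner_root (val_two h2 v) hs m z hz
  rw [h, Nat.cast_one, Units.val_one]

theorem cycK_frob (h2 : (2 : k) ≠ 0) (v : Place k (RatFunc k)) :
    (cycK Ω (RatFunc k) (ph Ω v) : ℤ_[2]) = (resCard (below (RatFunc k) (ab Ω v)) : ℤ_[2]) := by
  have hsc : IsSepClosed Ω := IsSepClosure.sep_closed (RatFunc k)
  exact Cyc_eq_of (Cyc_two (Ω := Ω) h2) _ _ fun m z hz =>
    SmP.frob_root (val_two h2 v) (ph_frob v) m hz

omit [Finite k] in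
theorem cycK_cont (h2 : (2 : k) ≠ 0) (j : ℕ) : ∃ N ∈ SmD.NN (RatFunc k) Ω, ∀ s ∈ N, ∃ b : ℤ_[2],
    (cycK Ω (RatFunc k) s : ℤ_[2]) = 1 + 2 ^ j * b := by
  have hsc : IsSepClosed Ω := IsSepClosure.sep_closed (RatFunc k)
  obtain ⟨N, hN, h⟩ := SmP.cyc_fin (K := RatFunc k) (Cyc_two (Ω := Ω) h2) j
  refine ⟨N, hN, fun s hs => Cyc_one ?_⟩
  rw [cycK_toZModPow (Cyc_two h2), h s hs]

omit [Finite k] in
theorem cycK_four (h2 : (2 : k) ≠ 0) (s : Ω ≃ₐ[RatFunc k] Ω) : ∃ b : ℤ_[2],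
    (cycK Ω (RatFunc k) s : ℤ_[2]) = 1 + 2 * b ∧ red2 b = chf Ω (-1) s := by
  have hsc : IsSepClosed Ω := IsSepClosure.sep_closed (RatFunc k)
  have hO := Cyc_two (Ω := Ω) h2
  obtain ⟨y, hy⟩ : ∃ y : Ω, y ^ 2 = -1 := by
    obtain ⟨y, hy⟩ := Pool.Agent.Lib.SmD.exists_sqrt hO (-1 : Ω)
    exact ⟨y, hy⟩
  have hy' : y ^ 2 = algebraMap (RatFunc k) Ω (algebraMap k[X] (RatFunc k) (-1)) := by
    rw [hy, map_neg, map_one, map_neg, map_one]
  have hy4 : y ^ 2 ^ 2 = 1 := by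
    rw [show (2 : ℕ) ^ 2 = 2 * 2 by norm_num, pow_mul, hy]
    ring
  have hy0 : y ≠ 0 := by
    rintro rfl
    rw [zero_pow (by norm_num)] at hy
    have : (1 : Ω) = 0 := by linear_combination hy
    exact one_ne_zero this
  have hne : -y ≠ y := by
    intro h
    have : (2 : Ω) * y = 0 := by linear_combination -h
    exact (mul_ne_zero hO hy0) this
  have h1 := cycK_spec hO s 2 hy4
  obtain ⟨b, hb⟩ := Cyc_res (cycK Ω (RatFunc k) s : ℤ_[2]) 2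
  generalize (PadicInt.toZModPow 2 (cycK Ω (RatFunc k) s : ℤ_[2])) = c at h1 hb
  have hinj : s y ^ 2 = -1 := by rw [← map_pow, hy, map_neg, map_one]
  have hm1 : (-1 : Ω) ≠ 1 := by
    intro h
    apply hO
    linear_combination -h
  have hr4 : (4 : ℕ) = 2 ^ 2 := by norm_num
  have h01 : ∀ c : ZMod (2 ^ 2), c.val = 0 ∨ c.val = 1 ∨ c.val = 2 ∨ c.val = 3 := by decide
  rcases h01 c with h | h | h | h
  · exfalso
    rw [h, pow_zero] at h1
    rw [h1, one_pow] at hinj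
    exact hm1 hinj.symm
  · refine ⟨2 * b, ?_, ?_⟩
    · rw [hb, h]; push_cast; ring
    · rw [h, pow_one] at h1
      rw [map_mul, map_ofNat]
      rw [show ((OfNat.ofNat 2 : ZMod 2)) = 0 from rfl, zero_mul]
      exact ((SmF.chi_eq_zero_iff_fix hy' s).2 h1).symm
  · exfalso
    rw [h, hy] at h1
    rw [h1] at hinj
    apply hm1
    linear_combination -hinj
  · refine ⟨1 + 2 * b, ?_, ?_⟩
    · rw [hb, h]; push_cast; ring
    · rw [h] at h1
      have h3 : s y = -y := by rw [h1, pow_succ, hy]; ring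
      rw [map_add, map_one, map_mul, map_ofNat]
      rw [show ((OfNat.ofNat 2 : ZMod 2)) = 0 from rfl, zero_mul, add_zero]
      have h4 : chf Ω (-1) s ≠ 0 := by
        intro h5
        rw [SmF.chi_eq_zero_iff_fix hy' s, h3] at h5
        exact hne h5
      have : ∀ a : ZMod 2, a ≠ 0 → 1 = a := by decide
      exact this _ h4

omit [Finite k] in
/-- The isomorphism of `ℚ_2 / ℤ_2` with the roots of unity of `2`-power order. -/
theorem exists_zq (h2 : (2 : k) ≠ 0) : ∃ zq : QZ →+ SmP.MuT Ω, Function.Injective zq ∧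
    (∀ (s : Ω ≃ₐ[RatFunc k] Ω) (Q : QZ), s • zq Q = zq ((cycK Ω (RatFunc k) s : ℤ_[2]) • Q)) ∧
    ∀ a, zq (hf2 a) = SmP.hfM Ω a := by
  have hsc : IsSepClosed Ω := IsSepClosure.sep_closed (RatFunc k)
  have hO := Cyc_two (Ω := Ω) h2
  obtain ⟨f, hf⟩ := qz_hom (SmP.zet Ω) SmP.zet_zero SmP.two_zet
  have hone : ∀ m : ℕ, (2 : ℕ) ^ m • qz (1 / 2 ^ m) = 0 := by
    intro m
    have := (qz_zsmul_eq_zero ((2 ^ m : ℕ) : ℤ) m).2 (by push_cast; exact dvd_rfl)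
    rwa [natCast_zsmul] at this
  refine ⟨f, ?_, ?_, ?_⟩
  · rw [injective_iff_map_eq_zero]
    intro Q hQ
    obtain ⟨n, m, rfl⟩ := qz_gen Q
    rw [map_nsmul, hf] at hQ
    have h1 : (SmP.zet Ω m).el ^ n = 1 := by
      rw [← SmP.MuT.el_nsmul, hQ, SmP.MuT.el_zero]
    have h3 := ((SmP.zet_prim hO m).pow_eq_one_iff_dvd n).1 h1
    have h4 := (qz_zsmul_eq_zero (n : ℤ) m).2 (by exact_mod_cast h3)
    rwa [natCast_zsmul] at h4
  · intro s Q
    obtain ⟨n, m, rfl⟩ := qz_gen Q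
    have h1 : (cycK Ω (RatFunc k) s : ℤ_[2]) • qz (1 / 2 ^ m) =
        (SmP.cyc m s).val • qz (1 / 2 ^ m) := by
      obtain ⟨b, hb⟩ := Cyc_res (cycK Ω (RatFunc k) s : ℤ_[2]) m
      rw [cycK_toZModPow hO] at hb
      rw [hb, add_smul, qz_kill (hone m), add_zero, Nat.cast_smul_eq_nsmul]
    rw [smul_comm (cycK Ω (RatFunc k) s : ℤ_[2]) n, h1, map_nsmul, map_nsmul, map_nsmul, hf,
      ← SmP.smul_zet hO s m, smul_comm s n]
  · intro a
    obtain ⟨n, rfl⟩ := ZMod.intCast_surjective a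
    have h1 : (n / 2 : ℚ_[2]) = n * (1 / 2 ^ 1) := by ring
    rw [hf2_intCast, SmP.hfM_intCast, h1, ← qz_zsmul, map_zsmul, hf]

end Pool.Agent.TTC
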