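import Pool.Agent.Lib.TTC.QZ2

/-!
# Project TTC (MP_950c68_ag), module Mact: matrices over `ℤ_2` on `QZ ^ I`
-/

set_option autoImplicit false

namespace Pool.Agent.TTC

section Mact

variable {I J : Type} [Fintype I] [Fintype J] [DecidableEq I] [DecidableEq J]

theorem mact_end (f : (J → QZ) →+ (I → QZ)) : ∃ A : Matrix I J ℤ_[2], ∀ x, f x = mact A x := by
  have h1 : ∀ (i : I) (j : J), ∃ a : ℤ_[2], ∀ Q : QZ, f (Pi.single j Q) i = a • Q := by
    intro i j
    obtain ⟨a, ha⟩ := qz_end (((Pi.evalAddMonoidHom (fun _ : I => QZ) i).comp f).comp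
      (AddMonoidHom.single (fun _ : J => QZ) j))
    exact ⟨a, fun Q => ha Q⟩
  choose A hA using h1
  refine ⟨A, fun x => ?_⟩
  funext i
  have h2 : x = ∑ j, Pi.single j (x j) := (Finset.univ_sum_single x).symm
  conv_lhs => rw [h2]
  rw [map_sum, Finset.sum_apply, mact_apply]
  exact Finset.sum_congr rfl fun j _ => hA i j (x j)

theorem mact_inj {A B : Matrix I J ℤ_[2]} (h : ∀ x, mact A x = mact B x) : A = B := by
  ext i j
  rw [← sub_eq_zero]
  refine qz_faithful fun m => ?_
  have h1 := congrFun (h (Pi.single j (qz (1 / 2 ^ m)))) i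
  have h2 : ∀ C : Matrix I J ℤ_[2], mact C (Pi.single j (qz (1 / 2 ^ m))) i
      = C i j • qz (1 / 2 ^ m) := by
    intro C
    rw [mact_apply, Finset.sum_eq_single j]
    · rw [Pi.single_eq_same]
    · intro b _ hb
      rw [Pi.single_eq_of_ne hb, smul_zero]
    · intro hj
      exact absurd (Finset.mem_univ j) hj
  rw [h2, h2] at h1
  rw [sub_smul, h1, sub_self]

theorem exists_lift (x : I → QZ) : ∃ r : I → ℚ_[2], ∀ i, qz (r i) = x i := by
  choose r hr using fun i => qz_surj (x i)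
  exact ⟨r, hr⟩

theorem mact_hf2 (A : Matrix I J ℤ_[2]) (w : J → ZMod 2) :
    mact A (fun i => hf2 (w i)) = fun i => hf2 ((A.map red2).mulVec w i) := by
  funext i
  simp only [mact_apply, smul_hf2, Matrix.mulVec, dotProduct, Matrix.map_apply, map_sum]

theorem mact_kill {j : ℕ} (B : Matrix I I ℤ_[2]) {x : I → QZ} (hx : (2 : ℕ) ^ j • x = 0) :
    mact (1 + (2 : ℤ_[2]) ^ j • B) x = x := by
  rw [add_mact, mact_one, add_eq_left]
  funext a
  rw [mact_apply]
  refine Finset.sum_eq_zero fun b _ => ?_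
  rw [Matrix.smul_apply, smul_eq_mul]
  exact qz_kill (congrFun hx b) (B a b)

theorem card_tors (j : ℕ) :
    Nat.card {x : I → QZ // (2 : ℕ) ^ j • x = 0} = (2 ^ j) ^ Fintype.card I := by
  have e : {x : I → QZ // (2 : ℕ) ^ j • x = 0} ≃ (I → {Q : QZ // (2 : ℕ) ^ j • Q = 0}) :=
    { toFun := fun x i => ⟨x.1 i, congrFun x.2 i⟩
      invFun := fun y => ⟨fun i => (y i).1, funext fun i => (y i).2⟩
      left_inv := fun x => rfl
      right_inv := fun y => rfl }
  rw [Nat.card_congr e, Nat.card_fun, qz_card, Nat.card_eq_fintype_card]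

end Mact

end Pool.Agent.TTC
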