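import Pool.Agent.Lib.TTC.EDef
import Pool.Agent.Lib.TTC.QZ2
import Pool.Agent.Lib.TTC.Mact
import Pool.Agent.Lib.Sm.P.Psi

/-!
# Project TTC (MP_950c68_ag), module EA: the representation of `y ^ 2 = x (x - a) (x - b)` in matrices

The `2`-power torsion is `(ℚ_2 / ℤ_2) ^ 2` (a compatible basis above `T₁, T₂`), and every automorphism
acts by a matrix over `ℤ_2`.
-/

set_option autoImplicit false

open Polynomial

namespace Pool.Agent.TTC

open WeierstrassCurve Pool.Agent.SmithE Pool.Agent.Lib.SmD Pool.Agent.BSDFF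

section EA

open Pool.Agent.SmP

/-- The isomorphism `(ℚ_2 / ℤ_2) ^ 2 → V` given by a compatible basis. -/
private theorem EA_exists_th {V : Type} [AddCommGroup V] (B : CB V)
    (ht : ∀ x : V, ∃ j : ℕ, (2 : ℕ) ^ j • x = 0) :
    ∃ th : (Fin 2 → QZ) ≃+ V, (∀ Q : QZ, (2 : ℕ) • Q = 0 → th ![Q, 0] = 0 → Q = 0) ∧
      th ![qz (1 / 2), 0] = B.P 1 ∧ th ![0, qz (1 / 2)] = B.Q 1 := by
  obtain ⟨f, hf⟩ := qz_hom B.P B.P_zero B.P_succ
  obtain ⟨g, hg⟩ := qz_hom B.Q B.Q_zero B.Q_succ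
  let F : (Fin 2 → QZ) →+ V :=
    { toFun := fun x => f (x 0) + g (x 1)
      map_zero' := by
        rw [Pi.zero_apply, Pi.zero_apply, map_zero, map_zero, add_zero]
      map_add' := by
        intro x y
        rw [Pi.add_apply, Pi.add_apply, map_add, map_add]
        abel }
  have hF : ∀ x, F x = f (x 0) + g (x 1) := fun _ => rfl
  have hinj : Function.Injective F := by
    rw [injective_iff_map_eq_zero]
    intro x hx
    obtain ⟨j0, h0⟩ := qz_tors (x 0)
    obtain ⟨j1, h1⟩ := qz_tors (x 1)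
    have h0' : (2 : ℕ) ^ (j0 + j1) • x 0 = 0 := by
      rw [pow_add, mul_comm, mul_smul, h0, smul_zero]
    have h1' : (2 : ℕ) ^ (j0 + j1) • x 1 = 0 := by
      rw [pow_add, mul_smul, h1, smul_zero]
    obtain ⟨n0, e0⟩ := qz_gen_of h0'
    obtain ⟨n1, e1⟩ := qz_gen_of h1'
    rw [hF, e0, e1, map_nsmul, map_nsmul, hf, hg, ← natCast_zsmul, ← natCast_zsmul,
      B.coord_zero] at hx
    funext i
    fin_cases i
    · change x 0 = 0
      rw [e0, ← natCast_zsmul, qz_zsmul_eq_zero]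
      exact hx.1
    · change x 1 = 0
      rw [e1, ← natCast_zsmul, qz_zsmul_eq_zero]
      exact hx.2
  have hsurj : Function.Surjective F := by
    intro y
    obtain ⟨j, hj⟩ := ht y
    obtain ⟨a, b, hab⟩ := B.exists_coord j y hj
    refine ⟨![a • qz (1 / 2 ^ j), b • qz (1 / 2 ^ j)], ?_⟩
    rw [hF, hab]
    change f (a • qz (1 / 2 ^ j)) + g (b • qz (1 / 2 ^ j)) = _
    rw [map_zsmul, map_zsmul, hf, hg]
  refine ⟨AddEquiv.ofBijective F ⟨hinj, hsurj⟩, ?_, ?_, ?_⟩
  · intro Q _ h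
    have h1 : F ![Q, 0] = 0 := h
    have h2 := (injective_iff_map_eq_zero F).mp hinj _ h1
    exact congrFun h2 0
  · change F ![qz (1 / 2), 0] = _
    rw [hF]
    change f (qz (1 / 2)) + g 0 = _
    have h1 := hf 1
    rw [pow_one] at h1
    rw [h1, map_zero, add_zero]
  · change F ![0, qz (1 / 2)] = _
    rw [hF]
    change f 0 + g (qz (1 / 2)) = _
    have h1 := hg 1
    rw [pow_one] at h1
    rw [h1, map_zero, zero_add]

/-- The matrices of an action on `V` in the coordinates `th`. -/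
private theorem EA_exists_rho {V G : Type} [AddCommGroup V] [Group G] [DistribMulAction G V]
    (th : (Fin 2 → QZ) ≃+ V) :
    ∃ rho : G →* Matrix (Fin 2) (Fin 2) ℤ_[2], ∀ s x, th (mact (rho s) x) = s • th x := by
  have h1 : ∀ s : G, ∃ A : Matrix (Fin 2) (Fin 2) ℤ_[2], ∀ x, th (mact A x) = s • th x := by
    intro s
    obtain ⟨A, hA⟩ := mact_end
      ((th.symm.toAddMonoidHom.comp (DistribSMul.toAddMonoidHom V s)).comp th.toAddMonoidHom)
    refine ⟨A, fun x => ?_⟩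
    rw [← hA x]
    change th (th.symm (s • th x)) = _
    rw [AddEquiv.apply_symm_apply]
  choose A hA using h1
  refine ⟨⟨⟨A, ?_⟩, ?_⟩, hA⟩
  · apply mact_inj
    intro x
    apply th.injective
    rw [hA, one_smul, mact_one]
  · intro s t
    apply mact_inj
    intro x
    apply th.injective
    rw [hA, mact_mul, hA, hA, mul_smul]

private theorem EA_hf2_zero : hf2 0 = 0 := map_zero hf2

private theorem EA_hf2_one : hf2 1 = qz (1 / 2) := by
  have h := hf2_intCast 1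
  rw [Int.cast_one, Int.cast_one] at h
  exact h

end EA

section EOk

variable {k : Type} [Field k] [Finite k] {Ω : Type} [Field Ω] [Algebra (RatFunc k) Ω]
  [IsSepClosure (RatFunc k) Ω] [DecidableEq Ω]

theorem exists_EDat (h2 : (2 : RatFunc k) ≠ 0) {a b : k[X]}
    (h12 : (0 : RatFunc k) ≠ algebraMap k[X] (RatFunc k) a)
    (h13 : (0 : RatFunc k) ≠ algebraMap k[X] (RatFunc k) b)
    (h23 : algebraMap k[X] (RatFunc k) a ≠ algebraMap k[X] (RatFunc k) b) :
    ∃ E : EDat Ω a b, ∀ w : Fin 2 → ZMod 2,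
      E.th (fun i => hf2 (w i)) = iota h2 h12 h13 h23 Ω (w 0, w 1) := by
  have hsc : IsSepClosed Ω := IsSepClosure.sep_closed (RatFunc k)
  obtain ⟨B, hP, hQ⟩ := SmP.exists_CB (half_VV (Ω := Ω) h2 h12 h13 h23)
    (iota h2 h12 h13 h23 Ω) (iota_injective h2 h12 h13 h23) (iota_range h2 h12 h13 h23)
  obtain ⟨th, -, h0, h1⟩ := EA_exists_th B (fun Q => tors_VV Q)
  obtain ⟨rho, hrho⟩ := EA_exists_rho (G := Ω ≃ₐ[RatFunc k] Ω) th
  refine ⟨⟨rho, th, hrho⟩, fun w => ?_⟩
  change th (fun i => hf2 (w i)) = _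
  have e1 : (fun i => hf2 (w i)) = ![hf2 (w 0), 0] + ![0, hf2 (w 1)] := by
    funext i
    fin_cases i
    · change hf2 (w 0) = hf2 (w 0) + 0
      rw [add_zero]
    · change hf2 (w 1) = 0 + hf2 (w 1)
      rw [zero_add]
  have e2 : ((w 0, w 1) : ZMod 2 × ZMod 2) = (w 0, 0) + (0, w 1) := by
    rw [Prod.mk_add_mk, add_zero, zero_add]
  have hz : (![0, 0] : Fin 2 → QZ) = 0 := by
    funext i
    fin_cases i <;> rfl
  have e3 : ∀ z : ZMod 2, th ![hf2 z, 0] = iota h2 h12 h13 h23 Ω (z, 0) := by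
    intro z
    fin_cases z
    · change th ![hf2 0, 0] = iota h2 h12 h13 h23 Ω (0, 0)
      rw [EA_hf2_zero, hz, map_zero]
      exact (map_zero _).symm
    · change th ![hf2 1, 0] = iota h2 h12 h13 h23 Ω (1, 0)
      rw [EA_hf2_one, h0, hP]
  have e4 : ∀ z : ZMod 2, th ![0, hf2 z] = iota h2 h12 h13 h23 Ω (0, z) := by
    intro z
    fin_cases z
    · change th ![0, hf2 0] = iota h2 h12 h13 h23 Ω (0, 0)
      rw [EA_hf2_zero, hz, map_zero]
      exact (map_zero _).symm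
    · change th ![0, hf2 1] = iota h2 h12 h13 h23 Ω (0, 1)
      rw [EA_hf2_one, h1, hQ]
  rw [e1, map_add, e2, map_add, e3, e4]

end EOk

end Pool.Agent.TTC
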