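import Pool.Agent.Lib.TTC.EDef

/-!
# Project TTC (MP_950c68_ag), module Fam: the family of curves

`HypE a b`: the conditions on one curve `y ^ 2 = x (x - a) (x - b)`. `HypT a b`: the conditions on the
family `y ^ 2 = x (x - a i) (x - b i)`; `cT a b` the product of the bad polynomials; `kapT` the
action on the elements of order `4` in the tensor product; `latE` the lattice of the family.
-/

set_option autoImplicit false

open Polynomial Pool.Agent.Lib.SmD

namespace Pool.Agent.TTC

section

variable {k : Type} [Field k]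

/-- The conditions on one curve: `a b (a - b)` squarefree, equal even positive degrees. -/
structure HypE (a b : k[X]) : Prop where
  sqf : Squarefree (a * b * (a - b))
  deg_b : b.natDegree = a.natDegree
  deg_ab : (a - b).natDegree = a.natDegree
  even : Even a.natDegree
  pos : 0 < a.natDegree

theorem HypE.a_ne {a b : k[X]} (h : HypE a b) : a ≠ 0 := by
  rintro rfl
  exact absurd h.pos (by simp)

theorem HypE.b_ne {a b : k[X]} (h : HypE a b) : b ≠ 0 := by
  rintro rfl
  have h1 := h.deg_b
  rw [natDegree_zero] at h1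
  exact absurd h.pos (by rw [← h1]; exact lt_irrefl _)

theorem HypE.sub_ne {a b : k[X]} (h : HypE a b) : a - b ≠ 0 := by
  intro h0
  have h1 := h.deg_ab
  rw [h0, natDegree_zero] at h1
  exact absurd h.pos (by rw [← h1]; exact lt_irrefl _)

variable {ι : Type} [Fintype ι]

/-- The product of the bad polynomials. -/
noncomputable def cT (a b : ι → k[X]) : k[X] := ∏ i, (a i * b i * (a i - b i))

/-- (H1): `cT a b` is squarefree; (H2): for each `i` the degrees of `a i, b i, a i - b i` are equal,
even and positive. -/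
structure HypT (a b : ι → k[X]) : Prop where
  sqf : Squarefree (cT a b)
  deg_b : ∀ i, (b i).natDegree = (a i).natDegree
  deg_ab : ∀ i, (a i - b i).natDegree = (a i).natDegree
  even : ∀ i, Even (a i).natDegree
  pos : ∀ i, 0 < (a i).natDegree

theorem dvd_cT (a b : ι → k[X]) (i : ι) : a i * b i * (a i - b i) ∣ cT a b :=
  Finset.dvd_prod_of_mem _ (Finset.mem_univ i)

theorem HypT.hypE {a b : ι → k[X]} (h : HypT a b) (i : ι) : HypE (a i) (b i) where
  sqf := h.sqf.squarefree_of_dvd (dvd_cT a b i)
  deg_b := h.deg_b i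
  deg_ab := h.deg_ab i
  even := h.even i
  pos := h.pos i

theorem HypT.ne {a b : ι → k[X]} (h : HypT a b) : cT a b ≠ 0 := h.sqf.ne_zero

/-- A prime divides the bad polynomial of at most one curve. -/
theorem HypT.unique {a b : ι → k[X]} (h : HypT a b) {P : k[X]} (hP : Irreducible P) {i j : ι}
    (hi : P ∣ a i * b i * (a i - b i)) (hj : P ∣ a j * b j * (a j - b j)) : i = j := by
  classical
  by_contra hne
  have h1 : (a i * b i * (a i - b i)) * (a j * b j * (a j - b j)) ∣ cT a b := by
    rw [cT, ← Finset.mul_prod_erase _ _ (Finset.mem_univ i)]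
    exact mul_dvd_mul_left _ (Finset.dvd_prod_of_mem _ (Finset.mem_erase.mpr
      ⟨fun h => hne h.symm, Finset.mem_univ j⟩))
  exact hP.not_isUnit (h.sqf P ((mul_dvd_mul hi hj).trans h1))

variable [DecidableEq ι]

/-- The action on the elements of order `4` of the tensor product. -/
noncomputable def kapT (Ω : Type) [Field Ω] [Algebra (RatFunc k) Ω] (a b : ι → k[X]) (m : ℕ)
    (s : Ω ≃ₐ[RatFunc k] Ω) : Matrix (ι → Fin 2) (ι → Fin 2) (ZMod 2) :=
  ∑ j, ins j (chf Ω (a j) s • Ma + chf Ω (b j) s • Mb + chf Ω (a j - b j) s • Mab +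
    chf Ω (-1) s • M1) + ((m : ZMod 2) * chf Ω (-1) s) • 1

/-- The lattice of the family. -/
noncomputable abbrev latE {Ω : Type} [Field Ω] [Algebra (RatFunc k) Ω] [DecidableEq Ω]
    {a b : ι → k[X]} (E : ∀ i, EDat Ω (a i) (b i)) (m : ℕ) :
    Lat (Ω ≃ₐ[RatFunc k] Ω) (ι → Fin 2) :=
  latT (cycK Ω (RatFunc k)) (fun i => (E i).rho) m

end

section

variable {ι : Type} [Fintype ι] [DecidableEq ι]

/-- The quadratic form: the sum of `w_a w_abar` over the pairs `{a, abar}` (`abar` = complement); `i₀`
is used to choose a member of each pair. -/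
def qf (i₀ : ι) (w : (ι → Fin 2) → ZMod 2) : ZMod 2 :=
  ∑ a ∈ Finset.univ.filter (fun a : ι → Fin 2 => a i₀ = 0), w a * w (fun i => 1 - a i)

end

end Pool.Agent.TTC
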