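import Pool.Agent.Lib.TTC.H.Good
import Pool.Agent.Lib.SmD.Main

/-!
# TTC, row `RedFr`: the Frobenius relation on the `2`-power torsion of a curve with good reduction
-/

set_option autoImplicit false

open WeierstrassCurve Pool.Agent.SmithE Pool.Agent.Lib.SmD Pool.Agent.BSDFF

namespace Pool.Agent.TTC

variable {k : Type} [Field k] [Finite k] {Ω : Type} [Field Ω] [Algebra (RatFunc k) Ω]
  [IsSepClosure (RatFunc k) Ω] [DecidableEq Ω]

/-- Hasse's theorem at a place of good reduction, on the whole `2`-power torsion. -/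
theorem frob_VV (h2 : (2 : k) ≠ 0) (v : Place k (RatFunc k)) {e₁ e₂ e₃ g : RatFunc k} (hg : g ≠ 0)
    (h1 : (ab Ω v).valuation (algebraMap (RatFunc k) Ω (e₁ / g ^ 2)) ≤ 1)
    (h12 : (ab Ω v).valuation (algebraMap (RatFunc k) Ω ((e₁ - e₂) / g ^ 2)) = 1)
    (h13 : (ab Ω v).valuation (algebraMap (RatFunc k) Ω ((e₁ - e₃) / g ^ 2)) = 1)
    (h23 : (ab Ω v).valuation (algebraMap (RatFunc k) Ω ((e₂ - e₃) / g ^ 2)) = 1) :
    ∃ t : ℤ, t ^ 2 ≤ 4 * (resCard (below (RatFunc k) (ab Ω v)) : ℤ) ∧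
      ∀ P : VV Ω e₁ e₂ e₃, ph Ω v • (ph Ω v • P) - t • (ph Ω v • P) +
        (resCard (below (RatFunc k) (ab Ω v))) • P = 0 := by
  have : IsSepClosed Ω := IsSepClosure.sep_closed (RatFunc k)
  have : IsGalois (RatFunc k) Ω := IsSepClosure.isGalois
  have hg2 : g ^ 2 ≠ 0 := pow_ne_zero 2 hg
  obtain ⟨f₁, rfl⟩ : ∃ f, e₁ = g ^ 2 * f := ⟨e₁ / g ^ 2, by field_simp⟩
  obtain ⟨f₂, rfl⟩ : ∃ f, e₂ = g ^ 2 * f := ⟨e₂ / g ^ 2, by field_simp⟩
  obtain ⟨f₃, rfl⟩ : ∃ f, e₃ = g ^ 2 * f := ⟨e₃ / g ^ 2, by field_simp⟩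
  rw [mul_div_cancel_left₀ _ hg2] at h1
  rw [← mul_sub, mul_div_cancel_left₀ _ hg2] at h12 h13 h23
  have key : ∀ f : RatFunc k, (ab Ω v).valuation (algebraMap (RatFunc k) Ω (f₁ - f)) = 1 →
      (ab Ω v).valuation (algebraMap (RatFunc k) Ω f) ≤ 1 := by
    intro f hf
    have e : algebraMap (RatFunc k) Ω f = algebraMap (RatFunc k) Ω f₁ -
        algebraMap (RatFunc k) Ω (f₁ - f) := by rw [map_sub]; ring
    rw [e]
    exact (Valuation.map_sub _ _ _).trans (max_le h1 hf.le)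
  obtain ⟨π, -, hL⟩ := exists_locHyp (Om := Ω) h2 v
  obtain ⟨t, ht, hQ⟩ := H.hasse_good hL (ph_frob v) hg h1 (key f₂ h12) (key f₃ h13) h12 h13 h23
  refine ⟨t, ht, fun P => ?_⟩
  have := hQ P
  rwa [natCast_zsmul] at this

end Pool.Agent.TTC
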