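import Pool.Agent.Lib.TTC.EDef
import Pool.Agent.Lib.TTC.Fam
import Pool.Agent.Lib.TTC.QZ2
import Pool.Agent.Lib.TTC.Mact
import Pool.Agent.Lib.TTC.Cyc
import Pool.Agent.Lib.TTC.RedFr
import Pool.Agent.Lib.Sm.P.Det
import Pool.Agent.Lib.SM.E.Kappa
import Pool.Agent.Lib.SM.E.Inert
import Pool.Agent.Lib.SM.E.TwistIso
import Pool.Agent.Lib.Sm.Inst.Inst

/-!
# Project TTC (MP_950c68_ag), module EB: `EDat.Ok`

The representation of `Gal(Ω / k(t))` on the `2`-power torsion of `y ^ 2 = x (x - a) (x - b)` in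
matrices: the determinant is the cyclotomic character, the `2`-descent, continuity, good reduction
and Frobenius.
-/

set_option autoImplicit false

open Polynomial

namespace Pool.Agent.TTC

open WeierstrassCurve Pool.Agent.SmithE Pool.Agent.Lib.SmD Pool.Agent.BSDFF

/-! ### `ℚ_2 / ℤ_2` -/

private theorem EB_qz_two (m : ℕ) : (2 : ℕ) • qz (1 / 2 ^ (m + 1)) = qz (1 / 2 ^ m) := by
  rw [qz_nsmul]
  congr 1
  rw [pow_succ]
  field_simp
  norm_num

private theorem EB_qz_zero : qz (1 / 2 ^ 0) = 0 :=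
  qz_eq_zero.mpr ⟨1, by norm_num⟩

private theorem EB_qz_one : qz (1 / 2 ^ 1) = hf2 1 := by
  have h := hf2_intCast 1
  rw [Int.cast_one, Int.cast_one] at h
  rw [h, pow_one]

private theorem EB_smul_qz {c : ℤ_[2]} {n : ℤ} {m : ℕ}
    (h : PadicInt.toZModPow m c = (n : ZMod (2 ^ m))) : c • qz (1 / 2 ^ m) = n • qz (1 / 2 ^ m) := by
  have h1 : c - n ∈ RingHom.ker (PadicInt.toZModPow (p := 2) m) := by
    rw [RingHom.mem_ker, map_sub, h, map_intCast, sub_self]
  rw [PadicInt.ker_toZModPow, Ideal.mem_span_singleton] at h1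
  obtain ⟨d, hd⟩ := h1
  rw [qz_smul, qz_zsmul]
  refine qz_eq.mpr ⟨d, ?_⟩
  have h3 : (c : ℚ_[2]) = n + 2 ^ m * d := by
    have h4 : c = n + 2 ^ m * d := by
      push_cast at hd
      rw [← hd]
      ring
    rw [h4]
    push_cast
    rfl
  rw [h3]
  field_simp

private theorem EB_smul_qz_zero {c : ℤ_[2]} {m : ℕ} (h : c • qz (1 / 2 ^ m) = 0) :
    ∃ d, c = 2 ^ m * d := by
  rw [qz_smul, qz_eq_zero] at h
  obtain ⟨d, hd⟩ := h
  refine ⟨d, ?_⟩
  apply Subtype.ext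
  have h2 : ((2 : ℤ_[2]) : ℚ_[2]) = 2 := rfl
  rw [PadicInt.coe_mul, PadicInt.coe_pow, hd, h2]
  field_simp

/-! ### The compatible basis and the determinant -/

section mat

variable {k : Type} [Field k] {Ω : Type} [Field Ω] [Algebra (RatFunc k) Ω] [DecidableEq Ω]
  {a b : k[X]} (E : EDat Ω a b)

private theorem EB_pair (x : Fin 2 → QZ) :
    x = (Pi.single 0 (x 0) : Fin 2 → QZ) + (Pi.single 1 (x 1) : Fin 2 → QZ) := by
  funext i
  fin_cases i
  · simp
  · simp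

/-- the compatible basis of the images of `(1 / 2 ^ m, 0)` and `(0, 1 / 2 ^ m)` -/
private noncomputable def EB_CB : SmP.CB (VE Ω a b) where
  P m := E.th (Pi.single 0 (qz (1 / 2 ^ m)))
  Q m := E.th (Pi.single 1 (qz (1 / 2 ^ m)))
  P_zero := by rw [EB_qz_zero, Pi.single_zero, map_zero]
  Q_zero := by rw [EB_qz_zero, Pi.single_zero, map_zero]
  P_succ m := by rw [← map_nsmul, ← Pi.single_smul, EB_qz_two]
  Q_succ m := by rw [← map_nsmul, ← Pi.single_smul, EB_qz_two]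
  span := by
    intro x hx
    obtain ⟨y, rfl⟩ := E.th.surjective x
    rw [← map_nsmul, EmbeddingLike.map_eq_zero_iff] at hx
    obtain ⟨w, hw⟩ := hf2_range (y 0) (congrFun hx 0)
    obtain ⟨w', hw'⟩ := hf2_range (y 1) (congrFun hx 1)
    refine ⟨(w.val : ℤ), (w'.val : ℤ), ?_⟩
    have h1 : ∀ w : ZMod 2, (w.val : ℤ) • hf2 1 = hf2 w := by
      intro w
      rw [← map_zsmul, zsmul_eq_mul, mul_one, Int.cast_natCast, ZMod.natCast_zmod_val]
    rw [← map_zsmul, ← map_zsmul, ← map_add, EB_qz_one, ← Pi.single_smul, ← Pi.single_smul, h1, h1,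
      hw, hw', ← EB_pair]
  indep := by
    intro c d h
    rw [← map_zsmul, ← map_zsmul, ← map_add, EmbeddingLike.map_eq_zero_iff, ← Pi.single_smul,
      ← Pi.single_smul] at h
    have h1 := congrFun h 0
    have h2 := congrFun h 1
    simp only [Pi.add_apply, Pi.single_eq_same, Pi.zero_apply] at h1 h2
    rw [Pi.single_eq_of_ne (by decide), add_zero, qz_zsmul_eq_zero, pow_one] at h1
    rw [Pi.single_eq_of_ne (by decide), zero_add, qz_zsmul_eq_zero, pow_one] at h2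
    exact ⟨h1, h2⟩

private theorem EB_CB_P (m : ℕ) : (EB_CB E).P m = E.th (Pi.single 0 (qz (1 / 2 ^ m))) := rfl

private theorem EB_CB_Q (m : ℕ) : (EB_CB E).Q m = E.th (Pi.single 1 (qz (1 / 2 ^ m))) := rfl

private theorem EB_evv (m : ℕ) (x : Fin 2 → ℤ) :
    SmP.evv (EB_CB E) m (fun i => (x i : ZMod (2 ^ m))) =
      E.th (fun i => x i • qz (1 / 2 ^ m)) := by
  rw [SmP.evv, SmP.CB.ev_int, EB_CB_P, EB_CB_Q, ← map_zsmul, ← map_zsmul, ← map_add,
    ← Pi.single_smul, ← Pi.single_smul]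
  congr 1
  exact (EB_pair fun i => x i • qz (1 / 2 ^ m)).symm

private theorem EB_gm (m : ℕ) (s : Ω ≃ₐ[RatFunc k] Ω) :
    SmP.gm (EB_CB E) m s = (E.rho s).map (PadicInt.toZModPow m) := by
  have hn : ∀ i j, ∃ n : ℤ, PadicInt.toZModPow m (E.rho s i j) = (n : ZMod (2 ^ m)) := fun i j => by
    obtain ⟨n, hn⟩ := SmP.CB.exists_int m (PadicInt.toZModPow m (E.rho s i j))
    exact ⟨n, hn.symm⟩
  choose n hn using hn
  refine SmP.mf_unique (EB_CB E) m _ _ fun x => ?_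
  obtain ⟨y, rfl⟩ : ∃ y : Fin 2 → ℤ, (fun i => (y i : ZMod (2 ^ m))) = x := by
    choose y hy using fun i => SmP.CB.exists_int m (x i)
    exact ⟨y, funext hy⟩
  have h1 : (((E.rho s).map (PadicInt.toZModPow m)).mulVec fun i => (y i : ZMod (2 ^ m))) =
      fun i => ((∑ j, n i j * y j : ℤ) : ZMod (2 ^ m)) := by
    funext i
    simp only [Matrix.mulVec, dotProduct, Matrix.map_apply, hn]
    push_cast
    rfl
  rw [h1, EB_evv, EB_evv]
  change s • E.th _ = _
  rw [← E.act]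
  congr 1
  funext i
  rw [mact_apply, Finset.sum_smul]
  refine Finset.sum_congr rfl fun j _ => ?_
  rw [smul_comm, EB_smul_qz (hn i j), ← mul_smul, mul_comm]

private theorem EB_toZMod_det (m : ℕ) (s : Ω ≃ₐ[RatFunc k] Ω) :
    PadicInt.toZModPow m (E.rho s).det = SmP.dt (EB_CB E) m s := by
  rw [SmP.dt, EB_gm, RingHom.map_det]
  rfl

end mat

section det

variable {k : Type} [Field k] [Finite k] {Ω : Type} [Field Ω] [Algebra (RatFunc k) Ω]
  [IsSepClosure (RatFunc k) Ω] [DecidableEq Ω] {a b : k[X]}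

omit [Finite k] in
private theorem EB_not_mul (hab : HypE a b) (c : k) : b ≠ C c * a := by
  intro hb
  have h1 : a * a ∣ a * b * (a - b) := by
    rw [hb]
    exact ⟨C c * (a - C c * a), by ring⟩
  have h2 := hab.sqf a h1
  have h3 := natDegree_eq_zero_of_isUnit h2
  exact absurd hab.pos (by rw [h3]; exact lt_irrefl _)

private theorem EB_det (h2k : (2 : k) ≠ 0) (hab : HypE a b) (E : EDat Ω a b)
    (s : Ω ≃ₐ[RatFunc k] Ω) : (E.rho s).det = (cycK Ω (RatFunc k) s : ℤ_[2]) := by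
  have hsc : IsSepClosed Ω := IsSepClosure.sep_closed (RatFunc k)
  have h2Ω : (2 : Ω) ≠ 0 := two_ne_zero_of_algebraMap (K := RatFunc k) (SmF.two_ratFunc h2k)
  refine PadicInt.ext_of_toZModPow.mp fun m => ?_
  rw [EB_toZMod_det, cycK_toZModPow h2Ω]
  exact SmP.dt_eq_cyc h2k hab.a_ne hab.b_ne (sub_ne_zero.mp hab.sub_ne) (EB_not_mul hab) _ m s

end det

/-! ### The `2`-descent and continuity -/

section kap

variable {k : Type} [Field k] {Ω : Type} [Field Ω] [Algebra (RatFunc k) Ω]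
  [IsSepClosure (RatFunc k) Ω] [DecidableEq Ω] {a b : k[X]}

/-- a matrix acting trivially on the elements killed by `2 ^ j` -/
private theorem EB_mat {A : Matrix (Fin 2) (Fin 2) ℤ_[2]} {j : ℕ}
    (h : ∀ x : Fin 2 → QZ, (2 : ℕ) ^ j • x = 0 → mact A x = x) :
    ∃ B : Matrix (Fin 2) (Fin 2) ℤ_[2], A = 1 + (2 : ℤ_[2]) ^ j • B := by
  have key : ∀ i l, ∃ d, (A - 1) i l = 2 ^ j * d := by
    intro i l
    refine EB_smul_qz_zero ?_
    have h1 := h (Pi.single l (qz (1 / 2 ^ j))) (by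
      rw [← Pi.single_smul, qz_nsmul]
      have h3 : ((2 ^ j : ℕ) : ℚ_[2]) * (1 / 2 ^ j) = ((1 : ℤ_[2]) : ℚ_[2]) := by
        push_cast
        field_simp
      rw [h3, qz_coe, Pi.single_zero])
    have h2 : mact (A - 1) (Pi.single l (qz (1 / 2 ^ j))) = 0 := by
      have h3 := add_mact (A - 1) 1 (Pi.single l (qz (1 / 2 ^ j)))
      rw [sub_add_cancel, h1, mact_one] at h3
      exact (right_eq_add.mp h3)
    have h3 := congrFun h2 i
    rw [mact_apply, Pi.zero_apply, Finset.sum_eq_single l] at h3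
    · rwa [Pi.single_eq_same] at h3
    · intro l' _ hl
      rw [Pi.single_eq_of_ne hl, smul_zero]
    · intro hl
      exact absurd (Finset.mem_univ l) hl
  choose d hd using key
  refine ⟨Matrix.of d, ?_⟩
  rw [← sub_eq_iff_eq_add']
  ext i l
  rw [hd, Matrix.smul_apply, Matrix.of_apply, smul_eq_mul]

omit [IsSepClosure (RatFunc k) Ω] in
private theorem EB_rho_eq (E : EDat Ω a b) {s : Ω ≃ₐ[RatFunc k] Ω}
    (h : ∀ Q : VE Ω a b, s • Q = Q) : E.rho s = 1 := by
  refine mact_inj fun x => ?_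
  apply E.th.injective
  rw [E.act, h, mact_one]

private theorem EB_cont (h2 : (2 : RatFunc k) ≠ 0)
    (h12 : (0 : RatFunc k) ≠ algebraMap k[X] (RatFunc k) a)
    (h13 : (0 : RatFunc k) ≠ algebraMap k[X] (RatFunc k) b)
    (h23 : algebraMap k[X] (RatFunc k) a ≠ algebraMap k[X] (RatFunc k) b) (E : EDat Ω a b) (j : ℕ) :
    ∃ N ∈ SmD.NN (RatFunc k) Ω, ∀ s ∈ N, ∃ B : Matrix (Fin 2) (Fin 2) ℤ_[2],
      E.rho s = 1 + (2 : ℤ_[2]) ^ j • B := by
  have hsc : IsSepClosed Ω := IsSepClosure.sep_closed (RatFunc k)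
  have hg : IsGalois (RatFunc k) Ω := inferInstance
  obtain ⟨N, hN, hN'⟩ := act_fin (Ω := Ω) h2 h12 h13 h23 j
  refine ⟨N, hN, fun s hs => EB_mat fun x hx => ?_⟩
  apply E.th.injective
  rw [E.act]
  exact hN' s hs _ (by rw [← map_nsmul, hx, map_zero])

private theorem EB_quarter (w : ZMod 2) : ∃ y : QZ, (2 : ℕ) • y = hf2 w := by
  refine ⟨qz ((w.val : ℚ_[2]) / 4), ?_⟩
  have h1 := hf2_intCast (w.val : ℤ)
  rw [Int.cast_natCast, Int.cast_natCast, ZMod.natCast_zmod_val] at h1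
  rw [h1, qz_nsmul]
  congr 1
  push_cast
  ring

private theorem EB_kap (h2 : (2 : RatFunc k) ≠ 0)
    (h12 : (0 : RatFunc k) ≠ algebraMap k[X] (RatFunc k) a)
    (h13 : (0 : RatFunc k) ≠ algebraMap k[X] (RatFunc k) b)
    (h23 : algebraMap k[X] (RatFunc k) a ≠ algebraMap k[X] (RatFunc k) b) (E : EDat Ω a b)
    (hE : ∀ w : Fin 2 → ZMod 2, E.th (fun i => hf2 (w i)) = iota h2 h12 h13 h23 Ω (w 0, w 1))
    (s : Ω ≃ₐ[RatFunc k] Ω) : ∃ B : Matrix (Fin 2) (Fin 2) ℤ_[2],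
      E.rho s = 1 + (2 : ℤ_[2]) • B ∧ B.map red2 =
        chf Ω a s • Ma + chf Ω b s • Mb + chf Ω (a - b) s • Mab + chf Ω (-1) s • M1 := by
  obtain ⟨B, hB⟩ := EB_mat (A := E.rho s) (j := 1) fun x hx => by
    choose w hw using fun i => hf2_range (x i) (by
      have h1 := congrFun hx i
      rwa [pow_one] at h1)
    obtain rfl : (fun i => hf2 (w i)) = x := funext hw
    apply E.th.injective
    rw [E.act, hE, iota_fix]
  rw [pow_one] at hB
  refine ⟨B, hB, ?_⟩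
  have key : ∀ w : Fin 2 → ZMod 2, ((B.map red2).mulVec w 0, (B.map red2).mulVec w 1) =
      kap0 (0 : RatFunc k) (algebraMap k[X] (RatFunc k) a) (algebraMap k[X] (RatFunc k) b) s
        (w 0, w 1) := by
    intro w
    apply iota_injective h2 h12 h13 h23 (Ω := Ω)
    choose y hy using fun i => EB_quarter (w i)
    have hy' : (2 : ℕ) • y = fun i => hf2 (w i) := funext hy
    have h1 : (2 : ℕ) • E.th y = iota h2 h12 h13 h23 Ω (w 0, w 1) := by
      rw [← map_nsmul, hy', hE]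
    rw [← kappa h2 h12 h13 h23 (E.th y) _ h1 s, ← hE, ← E.act, ← map_sub]
    congr 1
    rw [hB, add_mact, mact_one, add_sub_cancel_left, smul_mact, ← mact_smul]
    have h3 : (2 : ℤ_[2]) • y = (2 : ℕ) • y := by
      rw [two_smul, two_smul]
    rw [h3, hy', mact_hf2]
  have hc : ∀ f : k[X], f ≠ 0 → algebraMap k[X] (RatFunc k) f ≠ 0 := fun f hf h =>
    hf (IsFractionRing.injective k[X] (RatFunc k) (by rw [h, map_zero]))
  have c1 : chi (RatFunc k) (0 - algebraMap k[X] (RatFunc k) a) s = chf Ω (-1) s + chf Ω a s := by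
    have h4 : (0 - algebraMap k[X] (RatFunc k) a) =
        algebraMap k[X] (RatFunc k) (-1) * algebraMap k[X] (RatFunc k) a := by
      rw [map_neg, map_one]
      ring
    rw [h4, SmF.chi_mul_elt h2 (hc _ (neg_ne_zero.mpr one_ne_zero)) h12.symm]
  have c1' : chi (RatFunc k) (0 - algebraMap k[X] (RatFunc k) b) s = chf Ω (-1) s + chf Ω b s := by
    have h4 : (0 - algebraMap k[X] (RatFunc k) b) =
        algebraMap k[X] (RatFunc k) (-1) * algebraMap k[X] (RatFunc k) b := by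
      rw [map_neg, map_one]
      ring
    rw [h4, SmF.chi_mul_elt h2 (hc _ (neg_ne_zero.mpr one_ne_zero)) h13.symm]
  have c2 : chi (RatFunc k) (algebraMap k[X] (RatFunc k) a - 0) s = chf Ω a s := by
    rw [sub_zero]
  have c3 : chi (RatFunc k) (algebraMap k[X] (RatFunc k) a - algebraMap k[X] (RatFunc k) b) s =
      chf Ω (a - b) s := by
    rw [chf, map_sub]
  have hk : ∀ w : Fin 2 → ZMod 2,
      kap0 (0 : RatFunc k) (algebraMap k[X] (RatFunc k) a) (algebraMap k[X] (RatFunc k) b) s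
        (w 0, w 1) = (w 0 * (chf Ω (-1) s + chf Ω a s) + w 1 * (chf Ω a s + chf Ω (a - b) s),
        w 0 * (chf Ω (-1) s + chf Ω a s + (chf Ω (-1) s + chf Ω b s)) + w 1 * chf Ω a s) := by
    intro w
    rw [kap0, SmF.chi_mul_elt h2 (sub_ne_zero.mpr h12.symm) (sub_ne_zero.mpr h23),
      SmF.chi_mul_elt h2 (sub_ne_zero.mpr h12) (sub_ne_zero.mpr h13), c1, c1', c2, c3]
  have k0 := key ![1, 0]
  have k1 := key ![0, 1]
  rw [hk, Prod.mk.injEq] at k0 k1
  simp only [Matrix.mulVec, dotProduct, Fin.sum_univ_two, Matrix.cons_val_zero,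
    Matrix.cons_val_one, mul_one, mul_zero, add_zero, zero_add, one_mul, zero_mul,
    Matrix.map_apply] at k0 k1
  have e2 : ∀ x y : ZMod 2, x + y + (x + y) = 0 := by decide
  ext i l
  fin_cases i <;> fin_cases l
  · simp only [Ma, Mb, Mab, M1]
    simp
    rw [k0.1]
    ring
  · simp only [Ma, Mb, Mab, M1]
    simp
    rw [k1.1]
  · simp only [Ma, Mb, Mab, M1]
    simp
    rw [k0.2]
    generalize chf Ω (-1) s = x
    generalize chf Ω a s = y
    generalize chf Ω b s = z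
    revert x y z
    decide
  · simp only [Ma, Mb, Mab, M1]
    simp
    rw [k1.2]

end kap

/-! ### Good places -/

section good

/-- scaling by an element of the ground field does not change the action -/
private theorem EB_scale {K Ω : Type} [Field K] [Field Ω] [Algebra K Ω] [DecidableEq Ω]
    {e₁ e₂ e₃ f₁ f₂ f₃ g : K} (hg : g ≠ 0) (h₁ : f₁ = g ^ 2 * e₁) (h₂ : f₂ = g ^ 2 * e₂)
    (h₃ : f₃ = g ^ 2 * e₃) {s : Ω ≃ₐ[K] Ω} (H : ∀ Q : VV Ω e₁ e₂ e₃, s • Q = Q)
    (Q : VV Ω f₁ f₂ f₃) : s • Q = Q := by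
  subst h₁ h₂ h₃
  have hD : g ^ 2 ≠ 0 := pow_ne_zero 2 hg
  have hd : (algebraMap K Ω g) ^ 2 = algebraMap K Ω (g ^ 2) := (map_pow _ _ _).symm
  obtain ⟨n, hn⟩ := Q.2
  have h1 := (twistEquiv e₁ e₂ e₃ hD hd).apply_symm_apply Q.1
  have h2 : (2 : ℕ) ^ n • (twistEquiv e₁ e₂ e₃ hD hd).symm Q.1 = 0 := by
    rw [← map_nsmul, hn, map_zero]
  have h3 := congrArg Subtype.val (H ⟨_, n, h2⟩)
  rw [coe_smul_VV] at h3
  apply Subtype.ext
  rw [coe_smul_VV, ← h1, smul_twistEquiv_of_fix hD hd (s.commutes g), h3]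

variable {k : Type} [Field k] {Ω : Type} [Field Ω] [Algebra (RatFunc k) Ω] {a b : k[X]}

private theorem EB_inf {f : k[X]} (hf : f ≠ 0) {m : ℕ} (hm : f.natDegree = 2 * m) :
    (ab Ω (placeInfty k)).valuation (algebraMap (RatFunc k) Ω
      (algebraMap k[X] (RatFunc k) f / (RatFunc.X ^ m) ^ 2)) = 1 := by
  have hX : (RatFunc.X : RatFunc k) ≠ 0 := RatFunc.X_ne_zero
  have hf0 : algebraMap k[X] (RatFunc k) f ≠ 0 := fun h =>
    hf (IsFractionRing.injective k[X] (RatFunc k) (by rw [h, map_zero]))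
  have hX0 : ((RatFunc.X ^ m : RatFunc k) ^ 2) ≠ 0 := pow_ne_zero _ (pow_ne_zero _ hX)
  have hXd : ((RatFunc.X ^ m : RatFunc k) ^ 2) = algebraMap k[X] (RatFunc k) (X ^ (m * 2)) := by
    rw [map_pow, RatFunc.algebraMap_X, pow_mul]
  have h1 : (algebraMap k[X] (RatFunc k) f / (RatFunc.X ^ m) ^ 2).intDegree = 0 := by
    rw [div_eq_mul_inv, RatFunc.intDegree_mul hf0 (inv_ne_zero hX0), RatFunc.intDegree_inv, hXd,
      RatFunc.intDegree_polynomial, RatFunc.intDegree_polynomial, natDegree_X_pow, hm]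
    push_cast
    ring
  refine val_unit_below (w := ab Ω (placeInfty k)) ?_ ?_ (div_ne_zero hf0 hX0)
  · rw [below_ab, mem_placeInfty_iff]
    right
    rw [h1]
  · rw [below_ab, mem_placeInfty_iff]
    right
    rw [RatFunc.intDegree_inv, h1, neg_zero]

/-- the scaling and the valuations at the good places -/
private theorem EB_vals [DecidableEq Ω] (hab : HypE a b) (v : Place k (RatFunc k))
    (hv : v = placeInfty k ∨
      ∃ (P : k[X]) (hP : Irreducible P), v = placeOf P hP ∧ ¬ P ∣ a * b * (a - b)) :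
    ∃ g : RatFunc k, g ≠ 0 ∧
      (ab Ω v).valuation (algebraMap (RatFunc k) Ω (0 / g ^ 2)) ≤ 1 ∧
      (ab Ω v).valuation (algebraMap (RatFunc k) Ω
        ((0 - algebraMap k[X] (RatFunc k) a) / g ^ 2)) = 1 ∧
      (ab Ω v).valuation (algebraMap (RatFunc k) Ω
        ((0 - algebraMap k[X] (RatFunc k) b) / g ^ 2)) = 1 ∧
      (ab Ω v).valuation (algebraMap (RatFunc k) Ω
        ((algebraMap k[X] (RatFunc k) a - algebraMap k[X] (RatFunc k) b) / g ^ 2)) = 1 := by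
  have key : ∃ g : RatFunc k, g ≠ 0 ∧
      (ab Ω v).valuation (algebraMap (RatFunc k) Ω (algebraMap k[X] (RatFunc k) a / g ^ 2)) = 1 ∧
      (ab Ω v).valuation (algebraMap (RatFunc k) Ω (algebraMap k[X] (RatFunc k) b / g ^ 2)) = 1 ∧
      (ab Ω v).valuation (algebraMap (RatFunc k) Ω
        (algebraMap k[X] (RatFunc k) (a - b) / g ^ 2)) = 1 := by
    rcases hv with rfl | ⟨P, hP, rfl, hd⟩
    · obtain ⟨m, hm⟩ := hab.even
      refine ⟨RatFunc.X ^ m, pow_ne_zero _ RatFunc.X_ne_zero, EB_inf hab.a_ne ?_,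
        EB_inf hab.b_ne ?_, EB_inf hab.sub_ne ?_⟩
      · omega
      · rw [hab.deg_b]
        omega
      · rw [hab.deg_ab]
        omega
    · have d1 : ¬ P ∣ a := fun h => hd (Dvd.dvd.mul_right (Dvd.dvd.mul_right h _) _)
      have d2 : ¬ P ∣ b := fun h => hd (Dvd.dvd.mul_right (Dvd.dvd.mul_left h _) _)
      have d3 : ¬ P ∣ a - b := fun h => hd (Dvd.dvd.mul_left h _)
      refine ⟨1, one_ne_zero, ?_, ?_, ?_⟩
      · rw [one_pow, div_one]
        exact val_poly_eq_one hP d1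
      · rw [one_pow, div_one]
        exact val_poly_eq_one hP d2
      · rw [one_pow, div_one]
        exact val_poly_eq_one hP d3
  obtain ⟨g, hg, h1, h2, h3⟩ := key
  refine ⟨g, hg, ?_, ?_, ?_, ?_⟩
  · rw [zero_div, map_zero, map_zero]
    exact zero_le
  · rw [zero_sub, neg_div, map_neg, Valuation.map_neg, h1]
  · rw [zero_sub, neg_div, map_neg, Valuation.map_neg, h2]
  · rw [← map_sub, h3]

private theorem EB_iner [DecidableEq Ω] (h2 : (2 : k) ≠ 0) (hab : HypE a b)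
    (v : Place k (RatFunc k)) (hv : v = placeInfty k ∨
      ∃ (P : k[X]) (hP : Irreducible P), v = placeOf P hP ∧ ¬ P ∣ a * b * (a - b))
    {s : Ω ≃ₐ[RatFunc k] Ω} (hs : s ∈ iner (RatFunc k) (ab Ω v)) (Q : VE Ω a b) : s • Q = Q := by
  obtain ⟨g, hg, h1, h12, h13, h23⟩ := EB_vals (Ω := Ω) hab v hv
  have hg2 : g ^ 2 ≠ 0 := pow_ne_zero 2 hg
  have hle : ∀ x : RatFunc k, (ab Ω v).valuation (algebraMap (RatFunc k) Ω ((0 - x) / g ^ 2)) = 1 →
      (ab Ω v).valuation (algebraMap (RatFunc k) Ω (x / g ^ 2)) ≤ 1 := by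
    intro x hx
    rw [zero_sub, neg_div, map_neg, Valuation.map_neg] at hx
    exact hx.le
  refine EB_scale (e₁ := 0 / g ^ 2) (e₂ := algebraMap k[X] (RatFunc k) a / g ^ 2)
    (e₃ := algebraMap k[X] (RatFunc k) b / g ^ 2) hg (mul_div_cancel₀ _ hg2).symm
    (mul_div_cancel₀ _ hg2).symm (mul_div_cancel₀ _ hg2).symm (fun R => ?_) Q
  refine iner_fix_VV (w := ab Ω v) (val_two h2 _) h1 (hle _ h12) (hle _ h13) ?_ ?_ ?_ hs R
  · rw [← sub_div]
    exact h12
  · rw [← sub_div]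
    exact h13
  · rw [← sub_div]
    exact h23

end good

/-! ### The main theorem -/

section main

variable {k : Type} [Field k] [Finite k] {Ω : Type} [Field Ω] [Algebra (RatFunc k) Ω]
  [IsSepClosure (RatFunc k) Ω] [DecidableEq Ω]

theorem eDat_ok (h2k : (2 : k) ≠ 0) {a b : k[X]} (hab : HypE a b) (h2 : (2 : RatFunc k) ≠ 0)
    (h12 : (0 : RatFunc k) ≠ algebraMap k[X] (RatFunc k) a)
    (h13 : (0 : RatFunc k) ≠ algebraMap k[X] (RatFunc k) b)
    (h23 : algebraMap k[X] (RatFunc k) a ≠ algebraMap k[X] (RatFunc k) b) (E : EDat Ω a b)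
    (hE : ∀ w : Fin 2 → ZMod 2, E.th (fun i => hf2 (w i)) = iota h2 h12 h13 h23 Ω (w 0, w 1)) :
    E.Ok where
  det := EB_det h2k hab E
  kap := EB_kap h2 h12 h13 h23 E hE
  cont := EB_cont h2 h12 h13 h23 E
  good := fun P hP hd s hs => EB_rho_eq E fun Q =>
    EB_iner h2k hab (placeOf P hP) (Or.inr ⟨P, hP, rfl, hd⟩) hs Q
  goodInf := fun s hs => EB_rho_eq E fun Q =>
    EB_iner h2k hab (placeInfty k) (Or.inl rfl) hs Q
  frob := by
    intro v hv
    obtain ⟨g, hg, v1, v12, v13, v23⟩ := EB_vals (Ω := Ω) hab v hv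
    obtain ⟨t, ht, hP⟩ := frob_VV h2k v hg v1 v12 v13 v23
    refine ⟨t, ht, mact_inj fun x => ?_⟩
    apply E.th.injective
    have hz : ∀ (n : ℤ) (y : Fin 2 → QZ), ((n : ℤ_[2])) • y = n • y := fun n y =>
      Int.cast_smul_eq_zsmul _ _ _
    have hn : ∀ (n : ℕ) (y : Fin 2 → QZ), ((n : ℤ_[2])) • y = n • y := fun n y =>
      Nat.cast_smul_eq_nsmul _ _ _
    have h0 : mact (0 : Matrix (Fin 2) (Fin 2) ℤ_[2]) x = 0 := by
      funext i
      simp [mact_apply]
    have hs : mact (E.rho (ph Ω v) ^ 2 - (t : ℤ_[2]) • E.rho (ph Ω v) +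
        (resCard (below (RatFunc k) (ab Ω v)) : ℤ_[2]) • (1 : Matrix (Fin 2) (Fin 2) ℤ_[2])) x =
        mact (E.rho (ph Ω v)) (mact (E.rho (ph Ω v)) x) - t • mact (E.rho (ph Ω v)) x +
          (resCard (below (RatFunc k) (ab Ω v))) • x := by
      have h3 := add_mact (E.rho (ph Ω v) ^ 2 - (t : ℤ_[2]) • E.rho (ph Ω v))
        ((t : ℤ_[2]) • E.rho (ph Ω v)) x
      rw [sub_add_cancel, smul_mact, hz, pow_two, mact_mul] at h3
      rw [add_mact, smul_mact, mact_one, hn, pow_two, h3]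
      abel
    rw [hs, h0, map_zero, map_add, map_sub, map_zsmul, map_nsmul, E.act, E.act]
    exact hP (E.th x)

end main

end Pool.Agent.TTC
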