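import Pool.Agent.Lib.TTC.KronD
import Pool.Agent.Lib.SM.E.Act

/-!
# Project TTC (MP_950c68_ag), module EDef: the Galois representation on the `2`-power torsion of
`y ^ 2 = x (x - a) (x - b)` in matrices

`EDat Ω a b`: an isomorphism `th : (ℚ_2 / ℤ_2) ^ 2 → E[2 ^ ∞]` and the matrices `rho s` of the action.
`EDat.Ok`: determinant, the `2`-descent, continuity, good reduction, Frobenius.
-/

set_option autoImplicit false

open Polynomial Pool.Agent.BSDFF Pool.Agent.Lib.SmD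

namespace Pool.Agent.TTC

open Pool.Agent.SmithE

section

variable {k : Type} [Field k] (Ω : Type) [Field Ω] [Algebra (RatFunc k) Ω] [DecidableEq Ω]

/-- The points of `y ^ 2 = x (x - a) (x - b)`. -/
abbrev PE (a b : k[X]) : Type :=
  Pt Ω (0 : RatFunc k) (algebraMap k[X] (RatFunc k) a) (algebraMap k[X] (RatFunc k) b)

/-- The `2`-power torsion of `y ^ 2 = x (x - a) (x - b)`. -/
abbrev VE (a b : k[X]) : Type :=
  VV Ω (0 : RatFunc k) (algebraMap k[X] (RatFunc k) a) (algebraMap k[X] (RatFunc k) b)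

/-- The Galois action on `E[2 ^ ∞]` in coordinates. -/
structure EDat (a b : k[X]) where
  rho : (Ω ≃ₐ[RatFunc k] Ω) →* Matrix (Fin 2) (Fin 2) ℤ_[2]
  th : (Fin 2 → QZ) ≃+ VE Ω a b
  act : ∀ s x, th (mact (rho s) x) = s • th x

/-- The quadratic character of `f`. -/
noncomputable abbrev chf (f : k[X]) (s : Ω ≃ₐ[RatFunc k] Ω) : ZMod 2 :=
  chi (RatFunc k) (algebraMap k[X] (RatFunc k) f) s

variable {Ω}

/-- What is needed of the representation: determinant, `2`-descent, continuity, places of good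
reduction (`P` not dividing `a b (a - b)`, and `∞` if the three degrees are even and equal). -/
structure EDat.Ok {a b : k[X]} (E : EDat Ω a b) : Prop where
  det : ∀ s, (E.rho s).det = (cycK Ω (RatFunc k) s : ℤ_[2])
  kap : ∀ s, ∃ B : Matrix (Fin 2) (Fin 2) ℤ_[2], E.rho s = 1 + (2 : ℤ_[2]) • B ∧
    B.map red2 = chf Ω a s • Ma + chf Ω b s • Mb + chf Ω (a - b) s • Mab + chf Ω (-1) s • M1
  cont : ∀ j : ℕ, ∃ N ∈ SmD.NN (RatFunc k) Ω, ∀ s ∈ N, ∃ B : Matrix (Fin 2) (Fin 2) ℤ_[2],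
    E.rho s = 1 + (2 : ℤ_[2]) ^ j • B
  good : ∀ (P : k[X]) (hP : Irreducible P), ¬ P ∣ a * b * (a - b) →
    ∀ s ∈ iner (RatFunc k) (ab Ω (placeOf P hP)), E.rho s = 1
  goodInf : ∀ s ∈ iner (RatFunc k) (ab Ω (placeInfty k)), E.rho s = 1
  frob : ∀ v : Place k (RatFunc k),
    (v = placeInfty k ∨ ∃ (P : k[X]) (hP : Irreducible P), v = placeOf P hP ∧ ¬ P ∣ a * b * (a - b)) →
    ∃ t : ℤ, t ^ 2 ≤ 4 * (resCard (below (RatFunc k) (ab Ω v)) : ℤ) ∧
      E.rho (ph Ω v) ^ 2 - (t : ℤ_[2]) • E.rho (ph Ω v) +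
        (resCard (below (RatFunc k) (ab Ω v)) : ℤ_[2]) • (1 : Matrix (Fin 2) (Fin 2) ℤ_[2]) = 0

end

end Pool.Agent.TTC
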