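import Pool.Agent.Lib.TTC.KronD

/-!
# Project TTC (MP_950c68_ag), module Kron: algebra of the tensor products `kron` and `ins`
-/

set_option autoImplicit false

namespace Pool.Agent.TTC

section Kron

variable {ι : Type} [Fintype ι] [DecidableEq ι] {R S : Type} [CommRing R] [CommRing S]

theorem kron_transpose (A : ι → Matrix (Fin 2) (Fin 2) R) :
    (kron A).transpose = kron fun i => (A i).transpose := by
  ext a b
  simp only [Matrix.transpose_apply, kron_apply]

theorem kron_smul (c : ι → R) (A : ι → Matrix (Fin 2) (Fin 2) R) :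
    kron (fun i => c i • A i) = (∏ i, c i) • kron A := by
  ext a b
  simp only [Matrix.smul_apply, kron_apply, smul_eq_mul, Finset.prod_mul_distrib]

theorem kron_map (f : R →+* S) (A : ι → Matrix (Fin 2) (Fin 2) R) :
    (kron A).map f = kron fun i => (A i).map f := by
  ext a b
  simp only [Matrix.map_apply, kron_apply, map_prod]

theorem kron_pow (A : ι → Matrix (Fin 2) (Fin 2) R) (n : ℕ) :
    kron (fun i => A i ^ n) = kron A ^ n := by
  induction n with
  | zero =>
    simp only [pow_zero]
    exact kron_one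
  | succ n ih =>
    rw [pow_succ, ← ih, ← kron_mul]
    simp only [pow_succ]

theorem J2_sim (A : Matrix (Fin 2) (Fin 2) R) : A.transpose * J2 R * A = A.det • J2 R := by
  ext i j
  fin_cases i <;> fin_cases j <;>
    simp [J2, Matrix.mul_apply, Fin.sum_univ_two, Matrix.det_fin_two] <;> ring

theorem kron_sim (A : ι → Matrix (Fin 2) (Fin 2) R) :
    (kron A).transpose * kron (fun _ => J2 R) * kron A =
      (∏ i, (A i).det) • kron (fun _ : ι => J2 R) := by
  rw [kron_transpose, ← kron_mul, ← kron_mul, ← kron_smul]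
  simp only [J2_sim]

private theorem Kron_J2t : (J2 R).transpose = (-1 : R) • J2 R := by
  ext i j
  fin_cases i <;> fin_cases j <;> simp [J2]

theorem kronJ_transpose : (kron (fun _ : ι => J2 R)).transpose =
    (-1) ^ Fintype.card ι • kron (fun _ : ι => J2 R) := by
  rw [kron_transpose]
  simp only [Kron_J2t]
  rw [kron_smul (fun _ => (-1 : R)) (fun _ : ι => J2 R), Finset.prod_const, Finset.card_univ]
  ext a b
  simp only [Matrix.smul_apply, smul_eq_mul, zsmul_eq_mul, Int.cast_pow, Int.cast_neg,
    Int.cast_one]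

theorem kronJ_diag [Nonempty ι] (a : ι → Fin 2) : kron (fun _ : ι => J2 R) a a = 0 := by
  rw [kron_apply]
  obtain ⟨i⟩ := ‹Nonempty ι›
  apply Finset.prod_eq_zero (Finset.mem_univ i)
  generalize a i = x
  fin_cases x <;> simp [J2]

private theorem Kron_J2sq : J2 R * (-J2 R) = 1 := by
  ext i j
  fin_cases i <;> fin_cases j <;> simp [J2, Matrix.mul_apply, Fin.sum_univ_two]

theorem kronJ_unit : IsUnit (kron (fun _ : ι => J2 R)).det := by
  apply Matrix.isUnit_det_of_right_inverse (B := kron (fun _ : ι => -J2 R))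
  rw [← kron_mul]
  simp only [Kron_J2sq]
  exact kron_one

private theorem Kron_J2_apply (x y : Fin 2) :
    J2 R x y = if y ≠ x then (if x = 0 then (1 : R) else -1) else 0 := by
  fin_cases x <;> fin_cases y <;> simp [J2]

/-- `J (a, b) = 0` unless `b` is the complement of `a`. -/
theorem kronJ_apply (a b : ι → Fin 2) : kron (fun _ : ι => J2 R) a b =
    if (∀ i, b i ≠ a i) then ∏ i, (if a i = 0 then (1 : R) else -1) else 0 := by
  rw [kron_apply]
  simp only [Kron_J2_apply]
  rw [Finset.prod_ite_zero]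
  simp only [Finset.mem_univ, forall_const]

theorem ins_eq_kron (i : ι) (B : Matrix (Fin 2) (Fin 2) R) :
    ins i B = kron fun j => if j = i then B else 1 := by
  ext a b
  rw [kron_apply, ← Finset.mul_prod_erase Finset.univ _ (Finset.mem_univ i), ins, Matrix.of_apply,
    if_pos rfl]
  have h1 : ∀ j ∈ Finset.univ.erase i, (if j = i then B else 1) (a j) (b j) =
      if a j = b j then (1 : R) else 0 := by
    intro j hj
    rw [if_neg (Finset.ne_of_mem_erase hj), Matrix.one_apply]
  rw [Finset.prod_congr rfl h1, Finset.prod_ite_zero]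
  split_ifs with h2 h3 h3
  · simp
  · exact absurd (fun j hj => h2 j (Finset.ne_of_mem_erase hj)) h3
  · exact absurd (fun j hj => h3 j (Finset.mem_erase.mpr ⟨hj, Finset.mem_univ j⟩)) h2
  · simp

theorem ins_mul (i : ι) (B B' : Matrix (Fin 2) (Fin 2) R) :
    (ins i (B * B') : Matrix (ι → Fin 2) (ι → Fin 2) R) = ins i B * ins i B' := by
  rw [ins_eq_kron, ins_eq_kron, ins_eq_kron, ← kron_mul]
  congr 1
  funext j
  split_ifs
  · rfl
  · rw [mul_one]

theorem ins_add (i : ι) (B B' : Matrix (Fin 2) (Fin 2) R) :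
    (ins i (B + B') : Matrix (ι → Fin 2) (ι → Fin 2) R) = ins i B + ins i B' := by
  ext a b
  simp only [ins, Matrix.of_apply, Matrix.add_apply]
  split_ifs
  · rfl
  · rw [add_zero]

theorem ins_smul (i : ι) (c : R) (B : Matrix (Fin 2) (Fin 2) R) :
    (ins i (c • B) : Matrix (ι → Fin 2) (ι → Fin 2) R) = c • ins i B := by
  ext a b
  simp only [ins, Matrix.of_apply, Matrix.smul_apply]
  split_ifs
  · rfl
  · rw [smul_zero]

theorem ins_one (i : ι) : (ins i 1 : Matrix (ι → Fin 2) (ι → Fin 2) R) = 1 := by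
  rw [ins_eq_kron]
  simp only [ite_self]
  exact kron_one

theorem ins_map (f : R →+* S) (i : ι) (B : Matrix (Fin 2) (Fin 2) R) :
    (ins i B : Matrix (ι → Fin 2) (ι → Fin 2) R).map f = ins i (B.map f) := by
  ext a b
  simp only [ins, Matrix.of_apply, Matrix.map_apply]
  split_ifs
  · rfl
  · rw [map_zero]

theorem ins_comm {i j : ι} (h : i ≠ j) (B B' : Matrix (Fin 2) (Fin 2) R) :
    (ins i B * ins j B' : Matrix (ι → Fin 2) (ι → Fin 2) R) = ins j B' * ins i B := by
  rw [ins_eq_kron, ins_eq_kron, ← kron_mul, ← kron_mul]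
  congr 1
  funext l
  by_cases h1 : l = i
  · have h2 : l ≠ j := fun h3 => h (h1.symm.trans h3)
    rw [if_pos h1, if_neg h2, mul_one, one_mul]
  · rw [if_neg h1, mul_one, one_mul]

theorem kron_eq_ins_mul (i : ι) (A : ι → Matrix (Fin 2) (Fin 2) R) :
    kron A = ins i (A i) * kron (Function.update A i 1) := by
  rw [ins_eq_kron, ← kron_mul]
  congr 1
  funext j
  by_cases h : j = i
  · subst h
    rw [if_pos rfl, Function.update_self, mul_one]
  · rw [if_neg h, Function.update_of_ne h, one_mul]

private theorem Kron_step (i : ι) (s : Finset ι) (hi : i ∉ s) (c : R)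
    (B : ι → Matrix (Fin 2) (Fin 2) R) :
    kron (fun j => if j ∈ insert i s then 1 + c • B j else 1) =
      (1 + c • ins i (B i)) * kron (fun j => if j ∈ s then 1 + c • B j else 1) := by
  rw [kron_eq_ins_mul i, if_pos (Finset.mem_insert_self i s), ins_add, ins_one, ins_smul]
  congr 2
  funext j
  by_cases h : j = i
  · subst h
    rw [Function.update_self, if_neg hi]
  · rw [Function.update_of_ne h]
    simp only [Finset.mem_insert, h, false_or]

private theorem Kron_ind (s : Finset ι) (B : ι → Matrix (Fin 2) (Fin 2) R) :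
    ∃ C : Matrix (ι → Fin 2) (ι → Fin 2) R,
      kron (fun j => if j ∈ s then 1 + (2 : R) • B j else 1) =
        1 + (2 : R) • ∑ i ∈ s, ins i (B i) + (4 : R) • C := by
  induction s using Finset.induction_on with
  | empty =>
    refine ⟨0, ?_⟩
    simp only [Finset.notMem_empty, if_false, Finset.sum_empty, smul_zero, add_zero]
    exact kron_one
  | insert i s hi ih =>
    obtain ⟨C, hC⟩ := ih
    refine ⟨C + ins i (B i) * ∑ i ∈ s, ins i (B i) + (2 : R) • (ins i (B i) * C), ?_⟩
    rw [Kron_step i s hi, hC, Finset.sum_insert hi]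
    simp only [add_mul, mul_add, one_mul, mul_one, Matrix.smul_mul, Matrix.mul_smul, smul_add,
      smul_smul]
    norm_num
    abel

private theorem Kron_ind_pow (j : ℕ) (s : Finset ι) (B : ι → Matrix (Fin 2) (Fin 2) R) :
    ∃ C : Matrix (ι → Fin 2) (ι → Fin 2) R,
      kron (fun l => if l ∈ s then 1 + (2 : R) ^ j • B l else 1) = 1 + (2 : R) ^ j • C := by
  induction s using Finset.induction_on with
  | empty =>
    refine ⟨0, ?_⟩
    simp only [Finset.notMem_empty, if_false, smul_zero, add_zero]
    exact kron_one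
  | insert i s hi ih =>
    obtain ⟨C, hC⟩ := ih
    refine ⟨ins i (B i) + C + (2 : R) ^ j • (ins i (B i) * C), ?_⟩
    rw [Kron_step i s hi, hC]
    simp only [add_mul, mul_add, one_mul, mul_one, Matrix.smul_mul, Matrix.mul_smul, smul_add]
    abel

/-- modulo `4` -/
theorem kron_one_add (B : ι → Matrix (Fin 2) (Fin 2) R) :
    ∃ C : Matrix (ι → Fin 2) (ι → Fin 2) R,
      kron (fun i => 1 + (2 : R) • B i) = 1 + (2 : R) • ∑ i, ins i (B i) + (4 : R) • C := by
  obtain ⟨C, hC⟩ := Kron_ind Finset.univ B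
  refine ⟨C, ?_⟩
  rw [← hC]
  simp only [Finset.mem_univ, if_true]

/-- the congruences modulo `2 ^ j` -/
theorem kron_one_add_pow (j : ℕ) (B : ι → Matrix (Fin 2) (Fin 2) R) :
    ∃ C : Matrix (ι → Fin 2) (ι → Fin 2) R,
      kron (fun i => 1 + (2 : R) ^ j • B i) = 1 + (2 : R) ^ j • C := by
  obtain ⟨C, hC⟩ := Kron_ind_pow j Finset.univ B
  refine ⟨C, ?_⟩
  rw [← hC]
  simp only [Finset.mem_univ, if_true]

end Kron

end Pool.Agent.TTC
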