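import Pool.Agent.Lib.TTC.Kron

/-!
# Project TTC (MP_950c68_ag), module LatT: the tensor product is a symplectic lattice

`latT cyc rho m` is symplectic for an odd number `2 m + 1` of factors with determinant `cyc`.
-/

set_option autoImplicit false

namespace Pool.Agent.TTC

section LatT

variable {G : Type} [Group G] {ι : Type} [Fintype ι] [DecidableEq ι]

/-- A unit of `ℤ_2` is odd. -/
private theorem LatT_unit (u : ℤ_[2]ˣ) : ∃ w : ℤ_[2], (u : ℤ_[2]) = 1 + 2 * w := by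
  have h1 : red2 (u : ℤ_[2]) = 1 := by
    have h2 : IsUnit (red2 (u : ℤ_[2])) := u.isUnit.map red2
    revert h2
    generalize red2 (u : ℤ_[2]) = x
    intro h2
    have h3 : ∀ y : ZMod 2, y = 0 ∨ y = 1 := by decide
    rcases h3 x with h | h
    · exact absurd (h ▸ h2) not_isUnit_zero
    · exact h
  have h2 : red2 ((u : ℤ_[2]) - 1) = 0 := by rw [map_sub, h1, map_one, sub_self]
  obtain ⟨w, hw⟩ := red2_eq_zero.mp h2
  exact ⟨w, by rw [← hw]; ring⟩

theorem latT_sy (cyc : G →* ℤ_[2]ˣ) (rho : ι → G →* Matrix (Fin 2) (Fin 2) ℤ_[2]) (m : ℕ)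
    (hm : Fintype.card ι = 2 * m + 1) (hdet : ∀ i s, (rho i s).det = (cyc s : ℤ_[2]))
    (h2 : ∀ i s, ∃ B : Matrix (Fin 2) (Fin 2) ℤ_[2], rho i s = 1 + (2 : ℤ_[2]) • B) :
    (latT cyc rho m).Sy := by
  have : Nonempty ι := Fintype.card_pos_iff.mp (by omega)
  refine ⟨?_, ?_, ?_, ?_, ?_⟩
  · change (kron fun _ : ι => J2 ℤ_[2]).transpose = -(kron fun _ : ι => J2 ℤ_[2])
    rw [kronJ_transpose, hm, pow_succ, pow_mul]
    simp
  · intro a
    exact kronJ_diag a
  · exact kronJ_unit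
  · intro s
    rw [latT_rho]
    change (_ : Matrix (ι → Fin 2) (ι → Fin 2) ℤ_[2]) * (kron fun _ : ι => J2 ℤ_[2]) * _ =
      (cyc s : ℤ_[2]) • (kron fun _ : ι => J2 ℤ_[2])
    rw [Matrix.transpose_smul, Matrix.smul_mul, Matrix.smul_mul, Matrix.mul_smul, smul_smul,
      kron_sim, smul_smul]
    congr 1
    rw [Finset.prod_congr rfl fun i _ => hdet i s, Finset.prod_const, Finset.card_univ, hm,
      ← Units.val_mul, ← Units.val_pow_eq_pow_val, ← Units.val_mul]
    congr 1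
    rw [← pow_add, ← two_mul, pow_succ, ← mul_assoc, inv_pow, inv_mul_cancel, one_mul]
  · intro s
    choose B hB using fun i => h2 i s
    obtain ⟨C, hC⟩ := kron_one_add_pow 1 B
    obtain ⟨w, hw⟩ := LatT_unit ((cyc s)⁻¹ ^ m)
    have h1 : (kron fun i => rho i s) = 1 + (2 : ℤ_[2]) • C := by
      rw [pow_one] at hC
      rw [← hC]
      congr 1
      funext i
      exact hB i
    refine ⟨w • 1 + (((cyc s)⁻¹ ^ m : ℤ_[2]ˣ) : ℤ_[2]) • C, ?_⟩
    rw [latT_rho, h1, smul_add, smul_add, smul_comm _ (2 : ℤ_[2]) C, ← add_assoc]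
    congr 1
    rw [hw, add_smul, one_smul, mul_smul]

end LatT

end Pool.Agent.TTC
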