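import Pool.Agent.Lib.TTC.Lat
import Pool.Agent.Lib.Sm.P.DTame
import Pool.Agent.Lib.Sm.Inst.Inst

/-!
# Project TTC (MP_950c68_ag), module LocRel: the tame relation for a lattice

`tame_rel`: `phi sg phi⁻¹ sg^(-q)` lies in every open normal subgroup of 2-power index.
`rho_rel`: hence `rho phi * rho sg = rho sg ^ q * rho phi` for a continuous `rho` over `ℤ_2`.
-/

set_option autoImplicit false

open Polynomial

namespace Pool.Agent.TTC

open Pool.Agent.BSDFF Pool.Agent.Lib.SmD Pool.Agent.SmJ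

variable {k : Type} [Field k] [Finite k] {Ω : Type} [Field Ω] [Algebra (RatFunc k) Ω]
  [IsSepClosure (RatFunc k) Ω]

/-- The relation in the quotients by the `N ∈ NN`. -/
theorem tame_rel (h2 : (2 : k) ≠ 0) (v : Place k (RatFunc k)) :
    ∃ m : ℕ, resCard (below (RatFunc k) (ab Ω v)) = 2 * m + 1 ∧ SmF.eps v = (m : ZMod 2) ∧
      ∀ N ∈ SmD.NN (RatFunc k) Ω,
        ph Ω v * sg Ω v * (ph Ω v)⁻¹ * ((sg Ω v) ^ (2 * m + 1))⁻¹ ∈ N := by
  have : IsSepClosed Ω := IsSepClosure.sep_closed (RatFunc k)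
  have : IsGalois (RatFunc k) Ω := inferInstance
  obtain ⟨m, hm, he⟩ := Pool.Agent.Sm.Inst.exists_half_resCard (Ω := Ω) h2 v
  obtain ⟨π, hπ, h⟩ := exists_locHyp (Om := Ω) h2 v
  refine ⟨m, hm, he, fun N hN => ?_⟩
  rw [← hm]
  exact SmP.tame h (isSg_sg h2 v hπ) (ph_frob v) hN

/-- A matrix over `ℤ_2` which is `1` modulo every `2 ^ j` is `1`. -/
private theorem LocRel_eq_one {I : Type} [Fintype I] [DecidableEq I] {A : Matrix I I ℤ_[2]}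
    (h : ∀ j : ℕ, ∃ B : Matrix I I ℤ_[2], A = 1 + (2 : ℤ_[2]) ^ j • B) : A = 1 := by
  ext a b
  refine PadicInt.ext_of_toZModPow.mp fun n => ?_
  obtain ⟨B, hB⟩ := h n
  have h2 : (PadicInt.toZModPow (p := 2) n) ((2 : ℤ_[2]) ^ n) = 0 := by
    have h3 : ((2 : ℤ_[2]) ^ n) = (((2 ^ n : ℕ)) : ℤ_[2]) := by push_cast; rfl
    rw [h3, map_natCast, ZMod.natCast_self]
  rw [hB, Matrix.add_apply, Matrix.smul_apply, smul_eq_mul, map_add, map_mul, h2, zero_mul,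
    add_zero]

/-- A continuous representation over `ℤ_2`. -/
theorem rho_rel {I : Type} [Fintype I] [DecidableEq I] (h2 : (2 : k) ≠ 0)
    (v : Place k (RatFunc k)) (rho : (Ω ≃ₐ[RatFunc k] Ω) →* Matrix I I ℤ_[2])
    (hc : ∀ j : ℕ, ∃ N ∈ SmD.NN (RatFunc k) Ω, ∀ s ∈ N, ∃ B : Matrix I I ℤ_[2],
      rho s = 1 + (2 : ℤ_[2]) ^ j • B) :
    ∃ m : ℕ, resCard (below (RatFunc k) (ab Ω v)) = 2 * m + 1 ∧ SmF.eps v = (m : ZMod 2) ∧
      rho (ph Ω v) * rho (sg Ω v) = rho (sg Ω v) ^ (2 * m + 1) * rho (ph Ω v) := by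
  obtain ⟨m, hm, he, hN⟩ := tame_rel (Ω := Ω) h2 v
  refine ⟨m, hm, he, ?_⟩
  have h1 : rho (ph Ω v * sg Ω v * (ph Ω v)⁻¹ * ((sg Ω v) ^ (2 * m + 1))⁻¹) = 1 := by
    refine LocRel_eq_one fun j => ?_
    obtain ⟨N, hNN, h⟩ := hc j
    exact h _ (hN N hNN)
  have h3 : ph Ω v * sg Ω v =
      (ph Ω v * sg Ω v * (ph Ω v)⁻¹ * ((sg Ω v) ^ (2 * m + 1))⁻¹) *
        ((sg Ω v) ^ (2 * m + 1) * ph Ω v) := by group
  rw [← map_mul, h3, map_mul, h1, one_mul, map_mul, map_pow]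

end Pool.Agent.TTC
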