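import Mathlib

/-!
# Numbers of weight one

A product of roots of polynomials `X ^ 2 - t X + q` with `t ^ 2 ≤ 4 q` has absolute value
`q ^ (card / 2)` in every complex embedding.
-/

namespace Pool.Agent.TTC

open Finset

/-- a complex root of `X ^ 2 - t X + q` with `t ^ 2 ≤ 4 q` has absolute value `√ q` -/
private theorem PureW_norm {q t : ℝ} (ht : t ^ 2 ≤ 4 * q) {α : ℂ}
    (h : α ^ 2 - (t : ℂ) * α + (q : ℂ) = 0) : ‖α‖ ^ 2 = q := by
  have hre : α.re * α.re - α.im * α.im - t * α.re + q = 0 := by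
    have := congrArg Complex.re h
    simpa [pow_two] using this
  have him : α.re * α.im + α.im * α.re - t * α.im = 0 := by
    have := congrArg Complex.im h
    simpa [pow_two] using this
  rw [← Complex.normSq_eq_norm_sq, Complex.normSq_apply]
  have h2 : α.im * (2 * α.re - t) = 0 := by linarith
  rcases mul_eq_zero.mp h2 with h0 | h0
  · rw [h0] at hre ⊢
    have h3 : (α.re - t / 2) ^ 2 = t ^ 2 / 4 - q := by ring_nf; linarith
    have h4 : (α.re - t / 2) ^ 2 = 0 := le_antisymm (by linarith) (sq_nonneg _)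
    have h5 : α.re = t / 2 := by
      have := pow_eq_zero_iff (two_ne_zero) |>.mp h4
      linarith
    rw [h4] at h3
    rw [h5]
    nlinarith
  · have h1 : t = 2 * α.re := by linarith
    rw [h1] at hre
    linarith

section Pure

variable {ι : Type} [Fintype ι] [DecidableEq ι]

/-- numbers: `∏ α i = ± q ^ j * q ^ b` is impossible for weights -/
theorem weight_no {L : Type} [Field L] [CharZero L] {q : ℕ} (hq : 1 < q) (s : Finset ι)
    {α : ι → L} {t : ι → ℤ} (ht : ∀ i ∈ s, (t i) ^ 2 ≤ 4 * (q : ℤ))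
    (hα : ∀ i ∈ s, α i ^ 2 - (t i : L) * α i + q = 0) {a b : ℕ} (hab : s.card + 2 * a ≠ 2 * b)
    {z : L} (hz : z = 1 ∨ z = -1) : (q : L) ^ a * ∏ i ∈ s, α i ≠ z * (q : L) ^ b := by
  intro heq
  have halg : ∀ i ∈ s, IsAlgebraic ℚ (α i) := by
    intro i hi
    refine ⟨Polynomial.X ^ 2 - Polynomial.C (t i : ℚ) * Polynomial.X + Polynomial.C (q : ℚ), ?_, ?_⟩
    · generalize (t i : ℚ) = c
      generalize (q : ℚ) = d
      intro h0
      have := congrArg (fun p => Polynomial.coeff p 2) h0
      simp at this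
    · have := hα i hi
      simpa using this
  let K := algebraicClosure ℚ L
  have : Algebra.IsAlgebraic ℚ K := algebraicClosure.isAlgebraic ℚ L
  let φ : K →ₐ[ℚ] ℂ := IsAlgClosed.lift
  let β : ι → K := fun i => if h : i ∈ s then ⟨α i, mem_algebraicClosure_iff'.mpr
    (halg i h).isIntegral⟩ else 0
  have hβ : ∀ i ∈ s, ((β i : K) : L) = α i := by
    intro i hi
    simp only [β, dif_pos hi]
  have hβ2 : ∀ i ∈ s, (β i) ^ 2 - (t i : K) * β i + (q : K) = 0 := by
    intro i hi
    apply Subtype.ext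
    have := hα i hi
    push_cast
    rw [hβ i hi]
    exact_mod_cast this
  obtain ⟨w, hw, hw1⟩ : ∃ w : K, (w : L) = z ∧ (w = 1 ∨ w = -1) := by
    rcases hz with h | h
    · exact ⟨1, by rw [h]; rfl, Or.inl rfl⟩
    · exact ⟨-1, by rw [h]; push_cast; rfl, Or.inr rfl⟩
  have heqK : (q : K) ^ a * ∏ i ∈ s, β i = w * (q : K) ^ b := by
    apply Subtype.ext
    push_cast
    rw [hw, Finset.prod_congr rfl hβ]
    exact_mod_cast heq
  have heqC := congrArg φ heqK
  rw [map_mul, map_mul, map_pow, map_pow, map_prod, map_natCast] at heqC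
  have hn := congrArg norm heqC
  rw [norm_mul, norm_mul, norm_pow, norm_pow, norm_prod, Complex.norm_natCast] at hn
  have hwn : ‖φ w‖ = 1 := by
    rcases hw1 with h | h <;> simp [h]
  rw [hwn, one_mul] at hn
  have hb : ∀ i ∈ s, ‖φ (β i)‖ ^ 2 = (q : ℝ) := by
    intro i hi
    apply PureW_norm (t := (t i : ℝ))
    · exact_mod_cast ht i hi
    · have := congrArg φ (hβ2 i hi)
      simpa using this
  have hsq : (q : ℝ) ^ (2 * a) * (q : ℝ) ^ s.card = (q : ℝ) ^ (2 * b) := by
    have h1 := congrArg (fun x : ℝ => x ^ 2) hn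
    simp only [mul_pow, ← pow_mul, ← Finset.prod_pow] at h1
    rw [Finset.prod_congr rfl hb, Finset.prod_const] at h1
    rw [mul_comm 2 a, mul_comm 2 b]
    exact h1
  rw [← pow_add] at hsq
  have hN : q ^ (2 * a + s.card) = q ^ (2 * b) := by exact_mod_cast hsq
  have := Nat.pow_right_injective hq hN
  omega

end Pure

end Pool.Agent.TTC
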