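import Pool.Agent.Lib.TTC.Kron
import Pool.Agent.Lib.TTC.PureW

/-!
# Project TTC (MP_950c68_ag), module PureG: purity of the tensor product, linear algebra

A common eigenvector of the commuting matrices `ins i (P i)` over the algebraic closure of `ℚ_[2]`;
`weight_no` (module PureW) excludes the eigenvalue `± q ^ m` of `kron P`.
-/

set_option autoImplicit false
set_option linter.unusedSectionVars false

namespace Pool.Agent.TTC

section PureG

variable {ι : Type} [Fintype ι] [DecidableEq ι]

/-- A common eigenvector of commuting matrices killed by quadratic polynomials. -/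
private theorem PureG_common {L : Type} [Field L] [IsAlgClosed L] {κ : Type} [Fintype κ]
    [DecidableEq κ] (T : ι → Matrix κ κ L) (t : ι → L) (q : L) (s : Finset ι)
    (hc : ∀ i ∈ s, ∀ j ∈ s, T i * T j = T j * T i)
    (hT : ∀ i ∈ s, T i ^ 2 - t i • T i + q • (1 : Matrix κ κ L) = 0)
    (W : Submodule L (κ → L)) (hW : ∀ i ∈ s, ∀ r ∈ W, (T i).mulVec r ∈ W)
    (hne : ∃ r ∈ W, r ≠ 0) :
    ∃ r ∈ W, r ≠ 0 ∧ ∃ α : ι → L, ∀ i ∈ s,
      α i ^ 2 - t i * α i + q = 0 ∧ (T i).mulVec r = α i • r := by
  classical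
  induction s using Finset.induction_on with
  | empty =>
    obtain ⟨r, hr, h0⟩ := hne
    exact ⟨r, hr, h0, fun _ => 0, fun i hi => absurd hi (Finset.notMem_empty i)⟩
  | insert a s ha ih =>
    obtain ⟨r, hr, h0, α, hα⟩ := ih
      (fun i hi j hj => hc i (Finset.mem_insert_of_mem hi) j (Finset.mem_insert_of_mem hj))
      (fun i hi => hT i (Finset.mem_insert_of_mem hi))
      (fun i hi => hW i (Finset.mem_insert_of_mem hi))
    -- the two roots
    obtain ⟨x, hx⟩ : ∃ x : L, x ^ 2 - t a * x + q = 0 := by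
      obtain ⟨x, hx⟩ := IsAlgClosed.exists_root
        (Polynomial.X ^ 2 - Polynomial.C (t a) * Polynomial.X + Polynomial.C q) (by
          have : (Polynomial.X ^ 2 - Polynomial.C (t a) * Polynomial.X + Polynomial.C q :
            Polynomial L).degree = 2 := by
            compute_degree!
          rw [this]; norm_num)
      refine ⟨x, ?_⟩
      simpa [Polynomial.IsRoot] using hx
    have hTa := hT a (Finset.mem_insert_self a s)
    have hy : (t a - x) ^ 2 - t a * (t a - x) + q = 0 := by
      rw [← hx]; ring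
    have hxy : (T a - x • 1) * (T a - (t a - x) • 1) = 0 := by
      have h1 : (T a - x • (1 : Matrix κ κ L)) * (T a - (t a - x) • 1) =
          T a ^ 2 - t a • T a + (x * (t a - x)) • 1 := by
        rw [sub_mul, mul_sub, mul_sub, smul_mul_assoc, one_mul, mul_smul_comm, mul_one,
          smul_mul_assoc, one_mul, smul_smul, pow_two, sub_smul]
        module
      have h2 : x * (t a - x) = q := by
        have := hx
        linear_combination -hx
      rw [h1, h2, hTa]
    by_cases hz : (T a - (t a - x) • (1 : Matrix κ κ L)).mulVec r = 0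
    · refine ⟨r, hr, h0, Function.update α a (t a - x), fun i hi => ?_⟩
      rcases Finset.mem_insert.mp hi with rfl | hi'
      · rw [Function.update_self]
        refine ⟨hy, ?_⟩
        rw [Matrix.sub_mulVec, Matrix.smul_mulVec, Matrix.one_mulVec, sub_eq_zero] at hz
        exact hz
      · have hia : i ≠ a := fun h => ha (h ▸ hi')
        rw [Function.update_of_ne hia]
        exact hα i hi'
    · refine ⟨(T a - (t a - x) • (1 : Matrix κ κ L)).mulVec r, ?_, hz,
        Function.update α a x, fun i hi => ?_⟩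
      · rw [Matrix.sub_mulVec, Matrix.smul_mulVec, Matrix.one_mulVec]
        exact W.sub_mem (hW a (Finset.mem_insert_self a s) r hr) (W.smul_mem _ hr)
      · rcases Finset.mem_insert.mp hi with rfl | hi'
        · rw [Function.update_self]
          refine ⟨hx, ?_⟩
          have h3 : (T i - x • (1 : Matrix κ κ L)).mulVec
              ((T i - (t i - x) • (1 : Matrix κ κ L)).mulVec r) = 0 := by
            rw [Matrix.mulVec_mulVec, hxy, Matrix.zero_mulVec]
          rw [Matrix.sub_mulVec, Matrix.smul_mulVec, Matrix.one_mulVec, sub_eq_zero] at h3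
          exact h3
        · have hia : i ≠ a := fun h => ha (h ▸ hi')
          rw [Function.update_of_ne hia]
          refine ⟨(hα i hi').1, ?_⟩
          have hcm : T i * (T a - (t a - x) • (1 : Matrix κ κ L)) =
              (T a - (t a - x) • (1 : Matrix κ κ L)) * T i := by
            rw [mul_sub, sub_mul, mul_smul_comm, mul_one, smul_mul_assoc, one_mul,
              hc i hi a (Finset.mem_insert_self a s)]
          rw [Matrix.mulVec_mulVec, hcm, ← Matrix.mulVec_mulVec, (hα i hi').2,
            Matrix.mulVec_smul]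

/-- The product of the eigenvalues. -/
private theorem PureG_prod {L : Type} [Field L] (A : ι → Matrix (Fin 2) (Fin 2) L)
    (r : (ι → Fin 2) → L) (α : ι → L) (s : Finset ι)
    (h : ∀ i ∈ s, (ins i (A i) : Matrix (ι → Fin 2) (ι → Fin 2) L).mulVec r = α i • r) :
    (kron fun i => if i ∈ s then A i else 1).mulVec r = (∏ i ∈ s, α i) • r := by
  classical
  induction s using Finset.induction_on with
  | empty =>
    have : (kron fun i : ι => if i ∈ (∅ : Finset ι) then A i else 1) =
        (1 : Matrix (ι → Fin 2) (ι → Fin 2) L) := by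
      rw [← kron_one]
      congr 1
    rw [this, Matrix.one_mulVec, Finset.prod_empty, one_smul]
  | insert a s ha ih =>
    have h1 : (kron fun i : ι => if i ∈ insert a s then A i else 1) =
        ins a (A a) * kron fun i : ι => if i ∈ s then A i else 1 := by
      rw [ins_eq_kron, ← kron_mul]
      congr 1
      funext i
      by_cases hi : i = a
      · subst hi
        simp [ha]
      · simp [hi]
    rw [h1, ← Matrix.mulVec_mulVec,
      ih (fun i hi => h i (Finset.mem_insert_of_mem hi)), Matrix.mulVec_smul,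
      h a (Finset.mem_insert_self a s), Finset.prod_insert ha, smul_smul, mul_comm]

private theorem PureG_map_pol {R S : Type} [CommRing R] [CommRing S] (f : R →+* S)
    {P : Matrix (Fin 2) (Fin 2) R} {t q : R}
    (h : P ^ 2 - t • P + q • (1 : Matrix (Fin 2) (Fin 2) R) = 0) (i : ι) :
    (ins i (P.map f) : Matrix (ι → Fin 2) (ι → Fin 2) S) ^ 2 - f t • ins i (P.map f) +
      f q • (1 : Matrix (ι → Fin 2) (ι → Fin 2) S) = 0 := by
  have h1 : P.map f ^ 2 - f t • P.map f + f q • (1 : Matrix (Fin 2) (Fin 2) S) = 0 := by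
    have h2 := congrArg (fun M : Matrix (Fin 2) (Fin 2) R => f.mapMatrix M) h
    simp only [map_add, map_sub, map_pow, map_zero] at h2
    have h3 : ∀ (c : R) (M : Matrix (Fin 2) (Fin 2) R), f.mapMatrix (c • M) = f c • f.mapMatrix M := by
      intro c M
      ext x y
      simp [RingHom.mapMatrix_apply, Matrix.map_apply, Matrix.smul_apply]
    rw [h3, h3, map_one] at h2
    exact h2
  have h4 : (ins i (P.map f ^ 2 - f t • P.map f + f q • (1 : Matrix (Fin 2) (Fin 2) S)) :
      Matrix (ι → Fin 2) (ι → Fin 2) S) = 0 := by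
    rw [h1]
    have := ins_smul (R := S) i (0 : S) (0 : Matrix (Fin 2) (Fin 2) S)
    rw [zero_smul, zero_smul] at this
    exact this
  rw [← h4, ins_add, sub_eq_add_neg, sub_eq_add_neg, ins_add, pow_two (P.map f), ins_mul,
    ← pow_two, ins_smul, ins_one, ← neg_smul, ← neg_smul, ins_smul]

/-- The engine: the eigenvector equation for `kron` and weights. -/
private theorem PureG_core {L : Type} [Field L] [CharZero L] [IsAlgClosed L] {q : ℕ} (hq : 1 < q)
    (A : ι → Matrix (Fin 2) (Fin 2) L) (s : Finset ι) {a b : ℕ}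
    (hP : ∀ i ∈ s, ∃ t : ℤ, t ^ 2 ≤ 4 * (q : ℤ) ∧
      (ins i (A i) : Matrix (ι → Fin 2) (ι → Fin 2) L) ^ 2 - (t : L) • ins i (A i) +
        (q : L) • (1 : Matrix (ι → Fin 2) (ι → Fin 2) L) = 0)
    (hab : s.card + 2 * a ≠ 2 * b) {z : L} (hz : z = 1 ∨ z = -1)
    {r : (ι → Fin 2) → L}
    (hr : ((q : L) ^ a) • (kron fun i => if i ∈ s then A i else 1).mulVec r = (z * (q : L) ^ b) • r) :
    r = 0 := by
  classical
  by_contra hr0
  choose! t ht htq using hP
  have hcomm : ∀ i ∈ s, ∀ j ∈ s, (ins i (A i) : Matrix (ι → Fin 2) (ι → Fin 2) L) * ins j (A j) =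
      ins j (A j) * ins i (A i) := by
    intro i _ j _
    by_cases h : i = j
    · subst h; rfl
    · exact ins_comm h _ _
  have hck : ∀ i ∈ s, (ins i (A i) : Matrix (ι → Fin 2) (ι → Fin 2) L) *
      (kron fun i => if i ∈ s then A i else 1) =
      (kron fun i => if i ∈ s then A i else 1) * ins i (A i) := by
    intro i hi
    rw [ins_eq_kron, ← kron_mul, ← kron_mul]
    congr 1
    funext j
    by_cases hj : j = i
    · subst hj
      simp [hi]
    · simp [hj]
  set W : Submodule L ((ι → Fin 2) → L) :=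
    { carrier := {r | ((q : L) ^ a) • (kron fun i => if i ∈ s then A i else 1).mulVec r =
        (z * (q : L) ^ b) • r}
      add_mem' := by
        intro x y hx hy
        simp only [Set.mem_ofPred_eq] at hx hy ⊢
        rw [Matrix.mulVec_add, smul_add, smul_add, hx, hy]
      zero_mem' := by simp
      smul_mem' := by
        intro c x hx
        simp only [Set.mem_ofPred_eq] at hx ⊢
        rw [Matrix.mulVec_smul, smul_comm, hx, smul_comm] } with hWd
  have hWm : ∀ x, x ∈ W ↔ ((q : L) ^ a) • (kron fun i => if i ∈ s then A i else 1).mulVec x =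
        (z * (q : L) ^ b) • x := fun x => Iff.rfl
  obtain ⟨x, hx, hx0, α, hα⟩ := PureG_common
    (fun i => (ins i (A i) : Matrix (ι → Fin 2) (ι → Fin 2) L)) (fun i => (t i : L)) (q : L) s
    hcomm htq W (by
      intro i hi x hx
      rw [hWm] at hx ⊢
      rw [Matrix.mulVec_mulVec, ← hck i hi, ← Matrix.mulVec_mulVec, ← Matrix.mulVec_smul, hx,
        Matrix.mulVec_smul]) ⟨r, hr, hr0⟩
  have h1 := PureG_prod A x α s fun i hi => (hα i hi).2
  rw [hWm, h1, smul_smul] at hx
  have h2 : (q : L) ^ a * ∏ i ∈ s, α i = z * (q : L) ^ b := by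
    obtain ⟨c, hc⟩ := Function.ne_iff.mp hx0
    have := congrFun hx c
    simp only [Pi.smul_apply, smul_eq_mul, Pi.zero_apply] at this hc
    exact mul_right_cancel₀ hc this
  exact weight_no hq s ht (fun i hi => (hα i hi).1) hab hz h2

private theorem PureG_f (x : ℤ_[2]) : ((algebraMap ℚ_[2] (AlgebraicClosure ℚ_[2])).comp
    PadicInt.Coe.ringHom) x = algebraMap ℚ_[2] (AlgebraicClosure ℚ_[2]) (x : ℚ_[2]) := rfl

/-- extension of the scalars from `ℚ_[2]` to its algebraic closure -/
private theorem PureG_mulVec (M : Matrix (ι → Fin 2) (ι → Fin 2) ℤ_[2]) {r v : (ι → Fin 2) → ℚ_[2]}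
    (h : (M.map fun x : ℤ_[2] => (x : ℚ_[2])).mulVec r = v) :
    (M.map ((algebraMap ℚ_[2] (AlgebraicClosure ℚ_[2])).comp PadicInt.Coe.ringHom)).mulVec
      (fun i => algebraMap ℚ_[2] (AlgebraicClosure ℚ_[2]) (r i)) =
      fun i => algebraMap ℚ_[2] (AlgebraicClosure ℚ_[2]) (v i) := by
  subst h
  funext i
  simp only [Matrix.mulVec, dotProduct, Matrix.map_apply, map_sum, map_mul]
  rfl

private theorem PureG_inj {r : (ι → Fin 2) → ℚ_[2]}
    (h : (fun i => algebraMap ℚ_[2] (AlgebraicClosure ℚ_[2]) (r i)) = 0) : r = 0 := by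
  funext i
  have := congrFun h i
  simpa using this

/-- good place -/
theorem pure_good {q : ℕ} (hq : 1 < q) (P : ι → Matrix (Fin 2) (Fin 2) ℤ_[2]) {m : ℕ}
    (hm : Fintype.card ι = 2 * m + 1)
    (hP : ∀ i, ∃ t : ℤ, t ^ 2 ≤ 4 * (q : ℤ) ∧
      P i ^ 2 - (t : ℤ_[2]) • P i + (q : ℤ_[2]) • (1 : Matrix (Fin 2) (Fin 2) ℤ_[2]) = 0)
    {z : ℤ} (hz : z = 1 ∨ z = -1) {r : (ι → Fin 2) → ℚ_[2]}
    (hr : ((kron P).map fun x : ℤ_[2] => (x : ℚ_[2])).mulVec r = ((z : ℚ_[2]) * (q : ℚ_[2]) ^ m) • r) :
    r = 0 := by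
  classical
  have hr' := PureG_mulVec (kron P) hr
  rw [kron_map] at hr'
  apply PureG_inj
  refine PureG_core (a := 0) (b := m) (z := (z : AlgebraicClosure ℚ_[2])) hq
    (fun i => (P i).map ((algebraMap ℚ_[2] (AlgebraicClosure ℚ_[2])).comp PadicInt.Coe.ringHom))
    Finset.univ ?_ ?_ ?_ ?_
  · intro i _
    obtain ⟨t, ht, h⟩ := hP i
    refine ⟨t, ht, ?_⟩
    have := PureG_map_pol (ι := ι)
      ((algebraMap ℚ_[2] (AlgebraicClosure ℚ_[2])).comp PadicInt.Coe.ringHom) h i
    rw [map_intCast, map_natCast] at this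
    exact this
  · rw [Finset.card_univ, hm]; omega
  · rcases hz with rfl | rfl
    · left; simp
    · right; simp
  · rw [pow_zero, one_smul]
    have h1 : (kron fun i => if i ∈ (Finset.univ : Finset ι) then
        (P i).map ((algebraMap ℚ_[2] (AlgebraicClosure ℚ_[2])).comp PadicInt.Coe.ringHom) else 1) =
        kron fun i => (P i).map
          ((algebraMap ℚ_[2] (AlgebraicClosure ℚ_[2])).comp PadicInt.Coe.ringHom) := by
      congr 1
      funext i
      simp
    rw [h1, hr']
    funext i
    simp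

/-- a nilpotent `2 × 2` matrix over a field -/
private theorem PureG_nil {F : Type} [Field F] {N : Matrix (Fin 2) (Fin 2) F} (h2 : N * N = 0)
    (h0 : N ≠ 0) : ∃ B : Matrix (Fin 2) (Fin 2) F, N * B + B * N = 1 := by
  have e00 := congrFun (congrFun h2 0) 0
  have e01 := congrFun (congrFun h2 0) 1
  have e10 := congrFun (congrFun h2 1) 0
  have e11 := congrFun (congrFun h2 1) 1
  simp only [Matrix.mul_apply, Fin.sum_univ_two, Matrix.zero_apply] at e00 e01 e10 e11
  by_cases hb : N 0 1 = 0
  · by_cases hc : N 1 0 = 0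
    · exfalso
      apply h0
      rw [hb, zero_mul, add_zero, mul_self_eq_zero] at e00
      rw [hc, zero_mul, zero_add, mul_self_eq_zero] at e11
      ext i j
      fin_cases i <;> fin_cases j
      · exact e00
      · exact hb
      · exact hc
      · exact e11
    · have htr : N 0 0 + N 1 1 = 0 := by
        have : N 1 0 * (N 0 0 + N 1 1) = 0 := by linear_combination e10
        rcases mul_eq_zero.mp this with h | h
        · exact absurd h hc
        · exact h
      refine ⟨!![0, (N 1 0)⁻¹; 0, 0], ?_⟩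
      ext i j
      rw [Matrix.add_apply, Matrix.mul_apply, Matrix.mul_apply, Fin.sum_univ_two, Fin.sum_univ_two]
      fin_cases i <;> fin_cases j
      · simp [hc]
      · simp
        linear_combination (N 1 0)⁻¹ * htr
      · simp
      · simp [hc]
  · have htr : N 0 0 + N 1 1 = 0 := by
      have : N 0 1 * (N 0 0 + N 1 1) = 0 := by linear_combination e01
      rcases mul_eq_zero.mp this with h | h
      · exact absurd h hb
      · exact h
    refine ⟨!![0, 0; (N 0 1)⁻¹, 0], ?_⟩
    ext i j
    rw [Matrix.add_apply, Matrix.mul_apply, Matrix.mul_apply, Fin.sum_univ_two, Fin.sum_univ_two]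
    fin_cases i <;> fin_cases j
    · simp [hb]
    · simp
    · simp
      linear_combination (N 0 1)⁻¹ * htr
    · simp [hb]

/-- bad place: the factor `j` is multiplicative -/
theorem pure_bad {q : ℕ} (hq : 1 < q) (j : ι) (S : Matrix (Fin 2) (Fin 2) ℤ_[2])
    (P : ι → Matrix (Fin 2) (Fin 2) ℤ_[2]) {m : ℕ} (hm : Fintype.card ι = 2 * m + 1)
    (hP : ∀ i, i ≠ j → ∃ t : ℤ, t ^ 2 ≤ 4 * (q : ℤ) ∧
      P i ^ 2 - (t : ℤ_[2]) • P i + (q : ℤ_[2]) • (1 : Matrix (Fin 2) (Fin 2) ℤ_[2]) = 0)
    (hS2 : (S - 1) * (S - 1) = 0) (hS1 : S ≠ 1)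
    {lam : ℤ_[2]} (hlam : lam = 1 ∨ lam = -1)
    (hPj : ∀ x : Fin 2 → ℤ_[2], S.mulVec x = x → (P j).mulVec x = (lam * q) • x)
    {z : ℤ} (hz : z = 1 ∨ z = -1) {r : (ι → Fin 2) → ℚ_[2]}
    (hr1 : ((ins j S : Matrix (ι → Fin 2) (ι → Fin 2) ℤ_[2]).map
      fun x : ℤ_[2] => (x : ℚ_[2])).mulVec r = r)
    (hr : ((kron P).map fun x : ℤ_[2] => (x : ℚ_[2])).mulVec r = ((z : ℚ_[2]) * (q : ℚ_[2]) ^ m) • r) :
    r = 0 := by
  classical
  set L := AlgebraicClosure ℚ_[2] with hL
  set f : ℤ_[2] →+* L := (algebraMap ℚ_[2] L).comp PadicInt.Coe.ringHom with hf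
  have hfinj : Function.Injective f := by
    intro x y hxy
    have h1 : ((x : ℚ_[2])) = (y : ℚ_[2]) := (algebraMap ℚ_[2] L).injective hxy
    exact Subtype.ext h1
  have hr' := PureG_mulVec (kron P) hr
  have hr1' := PureG_mulVec (ins j S : Matrix (ι → Fin 2) (ι → Fin 2) ℤ_[2]) hr1
  rw [← hf] at hr' hr1'
  rw [kron_map] at hr'
  rw [ins_map] at hr1'
  apply PureG_inj
  set r' : (ι → Fin 2) → L := fun i => algebraMap ℚ_[2] L (r i) with hr'd
  have hr'' : (kron fun i => (P i).map f).mulVec r' = ((z : L) * (q : L) ^ m) • r' := by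
    rw [hr']
    funext i
    simp only [Pi.smul_apply, smul_eq_mul, map_mul, map_intCast, map_pow, map_natCast]
    rfl
  -- the image and the kernel of S - 1
  set N : Matrix (Fin 2) (Fin 2) L := (S - 1).map f with hN
  have hN2 : N * N = 0 := by
    rw [hN, ← Matrix.map_mul, hS2]
    ext a b; simp
  have hN0 : N ≠ 0 := by
    intro h
    apply hS1
    rw [← sub_eq_zero]
    ext a b
    have := congrFun (congrFun h a) b
    rw [hN, Matrix.map_apply, Matrix.zero_apply] at this
    exact hfinj (by rw [this, Matrix.zero_apply, map_zero])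
  obtain ⟨B, hB⟩ := PureG_nil hN2 hN0
  have hNr : (ins j N : Matrix (ι → Fin 2) (ι → Fin 2) L).mulVec r' = 0 := by
    have h1 : S.map f = N + 1 := by
      ext a b
      rw [hN, Matrix.add_apply, Matrix.map_apply, Matrix.map_apply, Matrix.sub_apply, map_sub]
      by_cases hab : a = b
      · subst hab; simp
      · simp [hab]
    rw [h1, ins_add, ins_one, Matrix.add_mulVec, Matrix.one_mulVec] at hr1'
    exact add_eq_right.mp hr1'
  have hr2 : r' = (ins j N : Matrix (ι → Fin 2) (ι → Fin 2) L).mulVec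
      ((ins j B : Matrix (ι → Fin 2) (ι → Fin 2) L).mulVec r') := by
    have h1 : (ins j N * ins j B + ins j B * ins j N : Matrix (ι → Fin 2) (ι → Fin 2) L) = 1 := by
      rw [← ins_mul, ← ins_mul, ← ins_add, hB, ins_one]
    have h2 := congrArg (fun M : Matrix (ι → Fin 2) (ι → Fin 2) L => M.mulVec r') h1
    simp only [Matrix.add_mulVec, Matrix.one_mulVec, ← Matrix.mulVec_mulVec] at h2
    rw [hNr, Matrix.mulVec_zero, add_zero] at h2
    exact h2.symm
  have hPN : (P j).map f * N = (f lam * (q : L)) • N := by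
    have h1 : P j * (S - 1) = (lam * q) • (S - 1) := by
      ext a b
      have h2 : S.mulVec (fun c => (S - 1) c b) = fun c => (S - 1) c b := by
        have h3 : (S - 1).mulVec (fun c => (S - 1) c b) = 0 := by
          funext c
          exact congrFun (congrFun hS2 c) b
        rw [Matrix.sub_mulVec, Matrix.one_mulVec, sub_eq_zero] at h3
        exact h3
      have h4 := congrFun (hPj _ h2) a
      exact h4
    have h2 := congrArg (fun M : Matrix (Fin 2) (Fin 2) ℤ_[2] => M.map f) h1
    simp only [Matrix.map_mul] at h2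
    rw [hN, h2]
    ext a b
    simp [Matrix.map_apply, Matrix.smul_apply]
  have hPr : (ins j ((P j).map f) : Matrix (ι → Fin 2) (ι → Fin 2) L).mulVec r' =
      (f lam * (q : L)) • r' := by
    conv_lhs => rw [hr2]
    rw [Matrix.mulVec_mulVec, ← ins_mul, hPN, ins_smul, Matrix.smul_mulVec, ← hr2]
  -- the other factors
  have hk : (kron fun i => (P i).map f) =
      (kron fun i => if i ∈ Finset.univ.erase j then (P i).map f else 1) *
        ins j ((P j).map f) := by
    rw [ins_eq_kron, ← kron_mul]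
    congr 1
    funext i
    by_cases hi : i = j
    · subst hi; simp
    · simp [hi]
  have hlam' : f lam = 1 ∨ f lam = -1 := by
    rcases hlam with rfl | rfl
    · left; simp
    · right; simp
  have hlam2 : f lam * f lam = 1 := by
    rcases hlam' with h | h <;> rw [h] <;> ring
  refine PureG_core (a := 1) (b := m) (z := (z : L) * f lam) hq
    (fun i => (P i).map f) (Finset.univ.erase j) ?_ ?_ ?_ ?_
  · intro i hi
    obtain ⟨t, ht, h⟩ := hP i (Finset.ne_of_mem_erase hi)
    refine ⟨t, ht, ?_⟩
    have := PureG_map_pol (ι := ι) f h i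
    rw [map_intCast, map_natCast] at this
    exact this
  · rw [Finset.card_erase_of_mem (Finset.mem_univ j), Finset.card_univ, hm]; omega
  · rcases hz with rfl | rfl <;> rcases hlam' with h | h <;> rw [h]
    · left; simp
    · right; simp
    · right; simp
    · left; push_cast; ring
  · rw [hk, ← Matrix.mulVec_mulVec, hPr, Matrix.mulVec_smul] at hr''
    have h5 := congrArg (fun v : (ι → Fin 2) → L => f lam • v) hr''
    simp only [smul_smul] at h5
    rw [← mul_assoc, hlam2, one_mul] at h5
    rw [pow_one, h5]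
    congr 1
    ring

end PureG

end Pool.Agent.TTC
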