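import Pool.Agent.Lib.TTC.KronD

/-!
# Project TTC (MP_950c68_ag), module Two: the `2 × 2` lemma at a bad place
-/

set_option autoImplicit false

namespace Pool.Agent.TTC

private abbrev M22 := Matrix (Fin 2) (Fin 2) ℤ_[2]

private theorem sq_scal {k : ℤ_[2]} {A : M22} (hk : k ≠ 0) (h : k • A = 0) : A = 0 := by
  rcases smul_eq_zero.mp h with h | h
  · exact absurd h hk
  · exact h

/-- the reduction of matrices -/
private theorem map_red_mul (A B : M22) : (A * B).map red2 = A.map red2 * B.map red2 :=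
  Matrix.map_mul

private theorem pow_one_add (B : M22) (N : Matrix (Fin 2) (Fin 2) (ZMod 2)) (hB : B.map red2 = N)
    (n : ℕ) : ∃ C : M22, (1 + (2 : ℤ_[2]) • B) ^ n = 1 + (2 : ℤ_[2]) • C ∧
      C.map red2 = (n : ZMod 2) • N := by
  induction n with
  | zero => exact ⟨0, by simp, by simp [Matrix.map_zero]⟩
  | succ n ih =>
    obtain ⟨C, h1, h2⟩ := ih
    refine ⟨C + B + (2 : ℤ_[2]) • (C * B), ?_, ?_⟩
    · rw [pow_succ, h1]
      simp only [add_mul, mul_add, one_mul, mul_one, Matrix.smul_mul, Matrix.mul_smul, smul_add,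
        smul_smul]
      abel
    · have e : (C + B + (2 : ℤ_[2]) • (C * B)).map red2 = C.map red2 + B.map red2 := by
        ext i j
        simp only [Matrix.map_apply, Matrix.add_apply, Matrix.smul_apply, smul_eq_mul, map_add,
          map_mul]
        have : red2 (2 : ℤ_[2]) = 0 := red2_eq_zero.mpr ⟨1, by norm_num⟩
        rw [this]; ring
      rw [e, h2, hB]
      push_cast
      rw [add_smul, one_smul]

private theorem sq_step (B : M22) (N : Matrix (Fin 2) (Fin 2) (ZMod 2)) (hN : N * N = 0)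
    (hB : B.map red2 = N) (k : ℕ) : ∃ C : M22,
      (1 + (2 : ℤ_[2]) ^ (k + 1) • B) ^ 2 = 1 + (2 : ℤ_[2]) ^ (k + 2) • C ∧ C.map red2 = N := by
  refine ⟨B + (2 : ℤ_[2]) ^ k • (B * B), ?_, ?_⟩
  · rw [pow_two]
    simp only [add_mul, mul_add, one_mul, mul_one, Matrix.smul_mul, Matrix.mul_smul, smul_add,
      smul_smul]
    have e1 : (2 : ℤ_[2]) ^ (k + 2) • B = (2 : ℤ_[2]) ^ (k + 1) • B + (2 : ℤ_[2]) ^ (k + 1) • B := by
      rw [← add_smul]; congr 1; ring
    have e2 : (2 : ℤ_[2]) ^ (k + 1) * (2 : ℤ_[2]) ^ (k + 1) = (2 : ℤ_[2]) ^ (k + 2) * 2 ^ k := by ring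
    rw [e1, e2]
    abel
  · have h0 : (B * B).map red2 = 0 := by rw [map_red_mul, hB, hN]
    ext i j
    have h1 := congrFun (congrFun h0 i) j
    have h2 := congrFun (congrFun hB i) j
    simp only [Matrix.map_apply, Matrix.zero_apply] at h1 h2
    simp only [Matrix.map_apply, Matrix.add_apply, Matrix.smul_apply, smul_eq_mul, map_add,
      map_mul, h1, h2, mul_zero, add_zero]

private theorem sq_iter (N : Matrix (Fin 2) (Fin 2) (ZMod 2)) (hN : N * N = 0) (a : ℕ) :
    ∀ (k : ℕ) (B : M22), B.map red2 = N → ∃ C : M22,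
      (1 + (2 : ℤ_[2]) ^ (k + 1) • B) ^ (2 ^ a) = 1 + (2 : ℤ_[2]) ^ (k + 1 + a) • C ∧
        C.map red2 = N := by
  induction a with
  | zero => intro k B hB; exact ⟨B, by simp, hB⟩
  | succ a ih =>
    intro k B hB
    obtain ⟨C, h1, h2⟩ := sq_step B N hN hB k
    obtain ⟨D, h3, h4⟩ := ih (k + 1) C h2
    refine ⟨D, ?_, h4⟩
    rw [show (2 : ℕ) ^ (a + 1) = 2 * 2 ^ a from pow_succ' _ _, pow_mul, h1, h3]
    congr 3
    ring

/-- no finite order -/
private theorem no_order (S B : M22) (N : Matrix (Fin 2) (Fin 2) (ZMod 2)) (hS : S = 1 + (2 : ℤ_[2]) • B)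
    (hB : B.map red2 = N) (hN : N * N = 0) (hN0 : N ≠ 0) {n : ℕ} (hn : n ≠ 0) (h : S ^ n = 1) :
    False := by
  obtain ⟨a, r, hr, rfl⟩ := Nat.exists_eq_two_pow_mul_odd hn
  obtain ⟨C, h1, h2⟩ := pow_one_add B N hB r
  have h3 : (r : ZMod 2) = 1 := by
    obtain ⟨c, rfl⟩ := hr
    push_cast
    have : (2 : ZMod 2) = 0 := rfl
    rw [this]; ring
  rw [h3, one_smul] at h2
  obtain ⟨D, h4, h5⟩ := sq_iter N hN a 0 C h2
  rw [mul_comm, pow_mul, hS, h1] at h
  rw [zero_add, pow_one, h] at h4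
  have h6 : (2 : ℤ_[2]) ^ (1 + a) • D = 0 := by
    have := h4.symm
    rwa [add_eq_left] at this
  have h7 : D = 0 := sq_scal (pow_ne_zero _ (by norm_num)) h6
  rw [h7] at h5
  apply hN0
  rw [← h5]
  simp [Matrix.map_zero]

private theorem ch2 (A : M22) : A * A = A.trace • A - A.det • (1 : M22) := by
  ext i j
  fin_cases i <;> fin_cases j <;>
    simp [Matrix.mul_apply, Fin.sum_univ_two, Matrix.trace_fin_two, Matrix.det_fin_two] <;> ring

private theorem lin_pow (S : M22) (hd : S.det = 1) (n : ℕ) :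
    ∃ α β : ℤ_[2], S ^ n = α • S + β • (1 : M22) := by
  induction n with
  | zero => exact ⟨0, 1, by simp⟩
  | succ n ih =>
    obtain ⟨α, β, h⟩ := ih
    refine ⟨α * S.trace + β, -α, ?_⟩
    rw [pow_succ, h, add_mul, Matrix.smul_mul, Matrix.smul_mul, one_mul, ch2 S, hd, smul_sub,
      smul_smul, one_smul, add_smul]
    module

private theorem trace_conj {S P : M22} {q : ℕ} (hq : (q : ℤ_[2]) ≠ 0) (hdP : P.det = (q : ℤ_[2]))
    (hrel : P * S = S ^ q * P) : (S ^ q).trace = S.trace := by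
  have h1 : (P * S * P.adjugate).trace = (q : ℤ_[2]) * S.trace := by
    rw [Matrix.trace_mul_cycle, Matrix.adjugate_mul, hdP, Matrix.smul_mul, one_mul,
      Matrix.trace_smul, smul_eq_mul]
  have h2 : (P * S * P.adjugate).trace = (q : ℤ_[2]) * (S ^ q).trace := by
    rw [hrel, mul_assoc, Matrix.mul_adjugate, hdP, Matrix.mul_smul, mul_one,
      Matrix.trace_smul, smul_eq_mul]
  rw [h1] at h2
  exact (mul_left_cancel₀ hq h2).symm

private theorem one_add_pow_nil (N : M22) (h : N * N = 0) (n : ℕ) :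
    (1 + N) ^ n = 1 + (n : ℤ_[2]) • N := by
  induction n with
  | zero => simp
  | succ n ih =>
    rw [pow_succ, ih]
    push_cast
    rw [add_mul, one_mul, Matrix.smul_mul, mul_add, mul_one, h, add_zero]
    module

/-- At a bad place the tame generator is unipotent and the Frobenius acts by `± q` on its line. -/
theorem two_bad {S P : Matrix (Fin 2) (Fin 2) ℤ_[2]} {q : ℕ} (hq : Odd q) (hq1 : 1 < q)
    (hdS : S.det = 1) (hdP : P.det = (q : ℤ_[2])) (hrel : P * S = S ^ q * P)
    (hS : ∃ B : Matrix (Fin 2) (Fin 2) ℤ_[2], S = 1 + (2 : ℤ_[2]) • B ∧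
      (B.map red2 = Ma ∨ B.map red2 = Mb ∨ B.map red2 = Mab)) :
    (S - 1) * (S - 1) = 0 ∧ ∃ lam : ℤ_[2], (lam = 1 ∨ lam = -1) ∧
      P * (S - 1) = (q : ℤ_[2]) • ((S - 1) * P) ∧
      ∀ x : Fin 2 → ℤ_[2], S.mulVec x = x → P.mulVec x = (lam * q) • x := by
  obtain ⟨B, hSB, hB⟩ := hS
  have hq0 : (q : ℤ_[2]) ≠ 0 := by
    have : q ≠ 0 := by omega
    exact_mod_cast this
  have hqm : (q : ℤ_[2]) - 1 ≠ 0 := by
    intro h
    have h1 : (q : ℤ_[2]) = ((1 : ℕ) : ℤ_[2]) := by push_cast; linear_combination h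
    have h2 : q = 1 := by exact_mod_cast h1
    omega
  have hN : B.map red2 * B.map red2 = 0 ∧ B.map red2 ≠ 0 ∧ (B.map red2).det = 0 := by
    rcases hB with h | h | h <;> rw [h] <;> refine ⟨?_, ?_, ?_⟩ <;> simp only [Ma, Mb, Mab] <;>
      decide
  obtain ⟨hN1, hN2, hN3⟩ := hN
  have hdB : red2 B.det = 0 := by
    rw [← hN3, RingHom.map_det]; rfl
  -- the trace
  set T := S.trace with hT
  have hT2 : T = 2 - 4 * B.det := by
    have e1 : T = 2 + 2 * B.trace := by
      rw [hT, hSB]
      simp [Matrix.trace_add, Matrix.trace_smul]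
    have e2 : S.det = 1 + 2 * B.trace + 4 * B.det := by
      rw [hSB]
      simp [Matrix.det_fin_two, Matrix.trace_fin_two]
      ring
    rw [hdS] at e2
    linear_combination e1 - e2
  have hTm : T ≠ -2 := by
    intro h
    rw [h] at hT2
    have h4 : (4 : ℤ_[2]) * B.det = 4 * 1 := by linear_combination hT2
    have h5 := mul_left_cancel₀ (by norm_num) h4
    rw [h5, map_one] at hdB
    exact one_ne_zero hdB
  obtain ⟨α, β, hαβ⟩ := lin_pow S hdS q
  have ht := trace_conj hq0 hdP hrel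
  have h1 : α * T + 2 * β = T := by
    rw [hαβ, Matrix.trace_add, Matrix.trace_smul, Matrix.trace_smul, Matrix.trace_one] at ht
    simp only [smul_eq_mul, Fintype.card_fin] at ht
    push_cast at ht
    linear_combination ht
  have h2 : α ^ 2 + α * β * T + β ^ 2 = 1 := by
    have e : (S ^ q).det = 1 := by rw [Matrix.det_pow, hdS, one_pow]
    rw [hαβ] at e
    rw [Matrix.det_fin_two] at e hdS
    rw [hT, Matrix.trace_fin_two]
    simp at e
    linear_combination e - α ^ 2 * hdS
  have hno : ∀ n : ℕ, n ≠ 0 → S ^ n ≠ 1 := fun n hn h =>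
    no_order S B _ hSB rfl hN1 hN2 hn h
  have hSS : S * S = T • S - 1 := by
    have := ch2 S
    rwa [hdS, one_smul] at this
  have hTS : T = 2 := by
    have h3 : (α ^ 2 - 1) * (T ^ 2 - 4) = 0 := by
      have e2 : 2 * β = T * (1 - α) := by linear_combination h1
      linear_combination (-4) * h2 + (2 * α * T + 2 * β + T * (1 - α)) * e2
    rcases mul_eq_zero.mp h3 with h3 | h3
    · exfalso
      have h4 : (α - 1) * (α + 1) = 0 := by linear_combination h3
      rcases mul_eq_zero.mp h4 with h4 | h4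
      · have ea : α = 1 := by linear_combination h4
        have eb : β = 0 := by
          have : (2 : ℤ_[2]) * β = 2 * 0 := by rw [ea] at h1; linear_combination h1
          exact mul_left_cancel₀ (by norm_num) this
        rw [ea, eb, one_smul, zero_smul, add_zero] at hαβ
        obtain ⟨r, rfl⟩ : ∃ r, q = r + 1 := ⟨q - 1, by omega⟩
        apply hno r (by omega)
        rw [pow_succ] at hαβ
        have h5 : S ^ r * S * S.adjugate = S * S.adjugate := by rw [hαβ]
        rwa [mul_assoc, Matrix.mul_adjugate, hdS, one_smul, mul_one] at h5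
      · have ea : α = -1 := by linear_combination h4
        have eb : β = T := by
          have : (2 : ℤ_[2]) * β = 2 * T := by rw [ea] at h1; linear_combination h1
          exact mul_left_cancel₀ (by norm_num) this
        rw [ea, eb] at hαβ
        apply hno (q + 1) (by omega)
        rw [pow_succ, hαβ, add_mul, Matrix.smul_mul, Matrix.smul_mul, one_mul, hSS]
        module
    · have h4 : (T - 2) * (T + 2) = 0 := by linear_combination h3
      rcases mul_eq_zero.mp h4 with h4 | h4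
      · linear_combination h4
      · exact absurd (by linear_combination h4) hTm
  obtain ⟨N, hNd⟩ : ∃ N, N = S - 1 := ⟨_, rfl⟩
  have hSN : S = 1 + N := by rw [hNd]; abel
  have hNN : N * N = 0 := by
    rw [hNd, sub_mul, mul_sub, one_mul, mul_one, hSS, hTS]
    module
  have hN0 : N ≠ 0 := by
    intro h
    rw [h, add_zero] at hSN
    exact hno 1 one_ne_zero (by rw [pow_one, hSN])
  have hPN : P * N = (q : ℤ_[2]) • (N * P) := by
    have h3 := hrel
    rw [hSN, one_add_pow_nil N hNN, mul_add, add_mul, mul_one, one_mul, Matrix.smul_mul] at h3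
    exact add_left_cancel h3
  rw [← hNd]
  refine ⟨hNN, ?_⟩
  -- the line
  set τ := P.trace with hτ
  have hPP : P * P = τ • P - (q : ℤ_[2]) • (1 : M22) := by
    have := ch2 P
    rwa [hdP] at this
  obtain ⟨X, hX⟩ : ∃ X, X = N * P := ⟨_, rfl⟩
  have hXP : X * P = τ • X - (q : ℤ_[2]) • N := by
    rw [hX, mul_assoc, hPP, mul_sub, Matrix.mul_smul, Matrix.mul_smul, mul_one]
  have hPN' : P * N = (q : ℤ_[2]) • X := by rw [hPN, hX]
  have h5 : P * P * N = ((q : ℤ_[2]) * q) • (X * P) := by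
    rw [mul_assoc, hPN', Matrix.mul_smul, hX, ← mul_assoc, hPN', Matrix.smul_mul, smul_smul, hX]
  have h6 : P * P * N = (τ * q) • X - (q : ℤ_[2]) • N := by
    rw [hPP, sub_mul, Matrix.smul_mul, hPN', Matrix.smul_mul, one_mul, smul_smul]
  have h7 : τ • X = ((q : ℤ_[2]) + 1) • N := by
    have e : ((q : ℤ_[2]) * (q - 1)) • (τ • X - ((q : ℤ_[2]) + 1) • N) = 0 := by
      have e1 : ((q : ℤ_[2]) * q) • (X * P) = (τ * q) • X - (q : ℤ_[2]) • N := by rw [← h5, h6]
      rw [hXP] at e1
      have e2 : ((q : ℤ_[2]) * q) • (τ • X - (q : ℤ_[2]) • N) - ((τ * q) • X - (q : ℤ_[2]) • N) = 0 := by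
        rw [e1, sub_self]
      rw [← e2]
      module
    have e3 := sq_scal (mul_ne_zero hq0 hqm) e
    exact sub_eq_zero.mp e3
  have h8 : X * P = N := by
    rw [hXP, h7]; module
  have h9 : τ • N = ((q : ℤ_[2]) + 1) • X := by
    have := congrArg (· * P) h7
    simp only [Matrix.smul_mul, h8] at this
    rw [this, hX]
  have hqp : (q : ℤ_[2]) + 1 ≠ 0 := by
    have : q + 1 ≠ 0 := by omega
    exact_mod_cast this
  have h10 : (τ - (q + 1)) * (τ + (q + 1)) = 0 := by
    have e : ((τ - ((q : ℤ_[2]) + 1)) * (τ + (q + 1))) • N = 0 := by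
      have e1 : τ • τ • N = ((q : ℤ_[2]) + 1) • ((q : ℤ_[2]) + 1) • N := by
        rw [h9, smul_comm, h7]
      have e2 : τ • τ • N - ((q : ℤ_[2]) + 1) • ((q : ℤ_[2]) + 1) • N = 0 := by rw [e1, sub_self]
      rw [← e2]; module
    rcases smul_eq_zero.mp e with h | h
    · exact h
    · exact absurd h hN0
  obtain ⟨lam, hlam, hτl⟩ : ∃ lam : ℤ_[2], (lam = 1 ∨ lam = -1) ∧ τ = lam * (q + 1) := by
    rcases mul_eq_zero.mp h10 with h | h
    · exact ⟨1, Or.inl rfl, by linear_combination h⟩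
    · exact ⟨-1, Or.inr rfl, by linear_combination h⟩
  have h11 : X = lam • N := by
    have e : ((q : ℤ_[2]) + 1) • (X - lam • N) = 0 := by
      have e2 : ((q : ℤ_[2]) + 1) • X - τ • N = 0 := by rw [h9, sub_self]
      rw [hτl] at e2
      rw [← e2]; module
    exact sub_eq_zero.mp (sq_scal hqp e)
  refine ⟨lam, hlam, hPN, ?_⟩
  intro x hx
  have h12 : P * N = (lam * q) • N := by
    rw [hPN', h11, smul_smul]; congr 1; ring
  -- entries
  have n00 : N 0 0 = S 0 0 - 1 := by rw [hNd]; simp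
  have n01 : N 0 1 = S 0 1 := by rw [hNd]; simp
  have n10 : N 1 0 = S 1 0 := by rw [hNd]; simp
  have n11 : N 1 1 = S 1 1 - 1 := by rw [hNd]; simp
  have htr : S 0 0 + S 1 1 = 2 := by rw [← hTS, hT, Matrix.trace_fin_two]
  have hx0 : S 0 0 * x 0 + S 0 1 * x 1 = x 0 := by
    have := congrFun hx 0
    simpa [Matrix.mulVec, dotProduct, Fin.sum_univ_two] using this
  have hx1 : S 1 0 * x 0 + S 1 1 * x 1 = x 1 := by
    have := congrFun hx 1
    simpa [Matrix.mulVec, dotProduct, Fin.sum_univ_two] using this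
  have hp : ∀ i j, P i 0 * N 0 j + P i 1 * N 1 j = (lam * q) * N i j := by
    intro i j
    have := congrFun (congrFun h12 i) j
    simpa [Matrix.mul_apply, Fin.sum_univ_two] using this
  have key : ∀ i, P.mulVec x i = P i 0 * x 0 + P i 1 * x 1 := by
    intro i
    simp [Matrix.mulVec, dotProduct, Fin.sum_univ_two]
  have hor : N 0 1 ≠ 0 ∨ N 1 0 ≠ 0 := by
    by_contra hcon
    push Not at hcon
    obtain ⟨c1, c2⟩ := hcon
    rw [Matrix.det_fin_two, ← n01, ← n10, c1, c2] at hdS
    have e : (S 0 0 - 1) * (S 0 0 - 1) = 0 := by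
      linear_combination (-1 : ℤ_[2]) * hdS + (S 0 0) * htr
    have e1 : S 0 0 = 1 := by
      have := mul_self_eq_zero.mp e
      linear_combination this
    have e2 : S 1 1 = 1 := by linear_combination htr - e1
    apply hN0
    ext i j
    fin_cases i <;> fin_cases j
    · simp [n00, e1]
    · simpa using c1
    · simpa using c2
    · simp [n11, e2]
  rcases hor with hb | hc
  · funext i
    rw [key]
    apply mul_left_cancel₀ hb
    have e := hp i 1
    rw [Pi.smul_apply, smul_eq_mul]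
    have hbx : N 0 1 * x 1 = N 1 1 * x 0 := by
      rw [n01, n11]; linear_combination hx0 - x 0 * htr
    fin_cases i
    · simp only [Fin.zero_eta, Fin.isValue] at e ⊢
      linear_combination x 0 * e + P 0 1 * hbx
    · simp only [Fin.mk_one, Fin.isValue] at e ⊢
      linear_combination x 0 * e + (P 1 1 - lam * q) * hbx
  · funext i
    rw [key]
    apply mul_left_cancel₀ hc
    have e := hp i 0
    rw [Pi.smul_apply, smul_eq_mul]
    have hbx : N 1 0 * x 0 = N 0 0 * x 1 := by
      rw [n10, n00]; linear_combination hx1 - x 1 * htr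
    fin_cases i
    · simp only [Fin.zero_eta, Fin.isValue] at e ⊢
      linear_combination x 1 * e + (P 0 0 - lam * q) * hbx
    · simp only [Fin.mk_one, Fin.isValue] at e ⊢
      linear_combination x 1 * e + P 1 0 * hbx

end Pool.Agent.TTC
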