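import Pool.Agent.Lib.TTC.Fam
import Pool.Agent.Lib.TTC.Kron
import Pool.Agent.Lib.TTC.LatT
import Pool.Agent.Lib.TTC.Two
import Pool.Agent.Lib.TTC.PureG
import Pool.Agent.Lib.TTC.LocRel
import Pool.Agent.Lib.TTC.Cyc
import Pool.Agent.Lib.SmD.LocV
import Pool.Agent.Lib.Sm.Inst.Inst

/-!
# Project TTC (MP_950c68_ag), module LatKT: the tensor product over `k(t)`

`latK_T`: continuity, good places and PURITY at all places; `kap_T`: the action modulo `4`; `bad_T`,
`good_T`: the tame generator at the bad places and at the others.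
-/

set_option autoImplicit false

open Polynomial

namespace Pool.Agent.TTC

open Pool.Agent.BSDFF Pool.Agent.Lib.SmD Pool.Agent.SmJ

section aux

private theorem LatKT_red2_two : red2 2 = 0 := red2_eq_zero.mpr ⟨1, by ring⟩

private theorem LatKT_red2_four : red2 4 = 0 := red2_eq_zero.mpr ⟨2, by ring⟩

private theorem LatKT_unit_inv {b : ℤ_[2]} {v : ℤ_[2]ˣ} (h : (v : ℤ_[2]) = 1 + 2 * b) :
    ∃ c, ((v⁻¹ : ℤ_[2]ˣ) : ℤ_[2]) = 1 + 2 * c ∧ red2 c = red2 b := by
  have h1 : (v : ℤ_[2]) * ((v⁻¹ : ℤ_[2]ˣ) : ℤ_[2]) = 1 := v.mul_inv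
  refine ⟨-(b * ((v⁻¹ : ℤ_[2]ˣ) : ℤ_[2])), ?_, ?_⟩
  · rw [h] at h1
    linear_combination h1
  · have h3 : red2 ((v⁻¹ : ℤ_[2]ˣ) : ℤ_[2]) = 1 := by
      have h2 := congrArg red2 h1
      rw [map_mul, map_one, h, map_add, map_mul, map_one, LatKT_red2_two, zero_mul, add_zero,
        one_mul] at h2
      exact h2
    rw [map_neg, map_mul, h3, mul_one, ZMod.neg_eq_self_mod_two]

private theorem LatKT_pow {b w : ℤ_[2]} (h : w = 1 + 2 * b) (m : ℕ) :
    ∃ c, w ^ m = 1 + 2 * c ∧ red2 c = (m : ZMod 2) * red2 b := by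
  induction m with
  | zero => exact ⟨0, by rw [pow_zero, mul_zero, add_zero], by
      rw [map_zero, Nat.cast_zero, zero_mul]⟩
  | succ m ih =>
    obtain ⟨c, h1, h2⟩ := ih
    refine ⟨c + b + 2 * (c * b), by rw [pow_succ, h1, h]; ring, ?_⟩
    rw [map_add, map_add, map_mul red2 2, LatKT_red2_two, zero_mul, add_zero, h2, Nat.cast_succ]
    ring

private theorem LatKT_pow_cong {j : ℕ} {w b : ℤ_[2]} (h : w = 1 + 2 ^ j * b) (m : ℕ) :
    ∃ c, w ^ m = 1 + 2 ^ j * c := by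
  induction m with
  | zero => exact ⟨0, by rw [pow_zero, mul_zero, add_zero]⟩
  | succ m ih =>
    obtain ⟨c, h1⟩ := ih
    exact ⟨c + b + 2 ^ j * (c * b), by rw [pow_succ, h1, h]; ring⟩

private theorem LatKT_inv_cong {j : ℕ} {b : ℤ_[2]} {v : ℤ_[2]ˣ} (h : (v : ℤ_[2]) = 1 + 2 ^ j * b) :
    ∃ c, ((v⁻¹ : ℤ_[2]ˣ) : ℤ_[2]) = 1 + 2 ^ j * c := by
  have h1 : (v : ℤ_[2]) * ((v⁻¹ : ℤ_[2]ˣ) : ℤ_[2]) = 1 := v.mul_inv
  refine ⟨-(b * ((v⁻¹ : ℤ_[2]ˣ) : ℤ_[2])), ?_⟩
  rw [h] at h1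
  linear_combination h1

private theorem LatKT_mat_two {n : Type} [Fintype n] [DecidableEq n] {B : Matrix n n ℤ_[2]}
    (h : ((2 : ℤ_[2]) • B) * ((2 : ℤ_[2]) • B) = 0) : B * B = 0 := by
  rw [Matrix.smul_mul, Matrix.mul_smul, smul_smul] at h
  ext x y
  have h1 := congrFun (congrFun h x) y
  rw [Matrix.smul_apply, smul_eq_mul, Matrix.zero_apply] at h1
  rw [Matrix.zero_apply]
  rcases mul_eq_zero.mp h1 with h2 | h2
  · exact absurd h2 (by norm_num)
  · exact h2

private theorem LatKT_map_smul {n : Type} (u : ℤ_[2]) (A : Matrix n n ℤ_[2]) :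
    (u • A).map (fun x : ℤ_[2] => (x : ℚ_[2])) =
      (u : ℚ_[2]) • A.map (fun x : ℤ_[2] => (x : ℚ_[2])) := by
  ext x y
  rw [Matrix.map_apply, Matrix.smul_apply, Matrix.smul_apply, Matrix.map_apply, smul_eq_mul,
    smul_eq_mul, PadicInt.coe_mul]

private theorem LatKT_map_one {n : Type} [DecidableEq n] :
    (1 : Matrix n n ℤ_[2]).map (fun x : ℤ_[2] => (x : ℚ_[2])) = 1 :=
  Matrix.map_one _ PadicInt.coe_zero PadicInt.coe_one

private theorem LatKT_map_mul {n : Type} [Fintype n] (A B : Matrix n n ℤ_[2]) :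
    (A * B).map (fun x : ℤ_[2] => (x : ℚ_[2])) =
      A.map (fun x : ℤ_[2] => (x : ℚ_[2])) * B.map (fun x : ℤ_[2] => (x : ℚ_[2])) := by
  have h := Matrix.map_mul (L := A) (M := B) (f := PadicInt.Coe.ringHom (p := 2))
  exact h

private theorem LatKT_map_sub {n : Type} (A B : Matrix n n ℤ_[2]) :
    (A - B).map (fun x : ℤ_[2] => (x : ℚ_[2])) =
      A.map (fun x : ℤ_[2] => (x : ℚ_[2])) - B.map (fun x : ℤ_[2] => (x : ℚ_[2])) := by
  ext x y
  rw [Matrix.map_apply, Matrix.sub_apply, Matrix.sub_apply, Matrix.map_apply, Matrix.map_apply,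
    PadicInt.coe_sub]

private theorem LatKT_unip {n : Type} [Fintype n] [DecidableEq n] {M : Matrix n n ℤ_[2]}
    (h : (M - 1) * (M - 1) = 0) {r : n → ℚ_[2]}
    (hr : (M.map fun x : ℤ_[2] => (x : ℚ_[2])).mulVec r = -r) : r = 0 := by
  have h1 : ((M.map fun x : ℤ_[2] => (x : ℚ_[2])) - 1) * ((M.map fun x : ℤ_[2] => (x : ℚ_[2])) - 1)
      = 0 := by
    rw [← LatKT_map_one, ← LatKT_map_sub, ← LatKT_map_mul, h]
    ext x y
    rw [Matrix.map_apply, Matrix.zero_apply, Matrix.zero_apply, PadicInt.coe_zero]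
  have h2 : ((M.map fun x : ℤ_[2] => (x : ℚ_[2])) - 1).mulVec r = (-2 : ℚ_[2]) • r := by
    rw [Matrix.sub_mulVec, Matrix.one_mulVec, hr]
    module
  have h3 : (((M.map fun x : ℤ_[2] => (x : ℚ_[2])) - 1) *
      ((M.map fun x : ℤ_[2] => (x : ℚ_[2])) - 1)).mulVec r = (4 : ℚ_[2]) • r := by
    rw [← Matrix.mulVec_mulVec, h2, Matrix.mulVec_smul, h2]
    module
  rw [h1, Matrix.zero_mulVec] at h3
  exact (smul_eq_zero.mp h3.symm).resolve_left (by norm_num)

end aux

section LatKT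

variable {k : Type} [Field k] [Finite k] {Ω : Type} [Field Ω] [Algebra (RatFunc k) Ω]
  [IsSepClosure (RatFunc k) Ω] [DecidableEq Ω] {ι : Type} [Fintype ι] [DecidableEq ι]

theorem kap_T (h2 : (2 : k) ≠ 0) {a b : ι → k[X]} (E : ∀ i, EDat Ω (a i) (b i))
    (hE : ∀ i, (E i).Ok) (m : ℕ) (s : Ω ≃ₐ[RatFunc k] Ω) :
    ∃ B : Matrix (ι → Fin 2) (ι → Fin 2) ℤ_[2],
      (latE E m).rho s = 1 + (2 : ℤ_[2]) • B ∧ B.map red2 = kapT Ω a b m s := by
  choose B hB1 hB2 using fun i => (hE i).kap s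
  obtain ⟨b0, hb0, hb1⟩ := cycK_four (Ω := Ω) h2 s
  obtain ⟨c0, hc0, hc1⟩ := LatKT_unit_inv hb0
  obtain ⟨c, hc, hc2⟩ := LatKT_pow hc0 m
  obtain ⟨C, hC⟩ := kron_one_add B
  have hu : ((((cycK Ω (RatFunc k) s)⁻¹ ^ m : ℤ_[2]ˣ)) : ℤ_[2]) = 1 + 2 * c := by
    rw [Units.val_pow_eq_pow_val, hc]
  have hk : (kron fun i => (E i).rho s) = kron fun i => 1 + (2 : ℤ_[2]) • B i := by
    congr 1
    funext i
    exact hB1 i
  refine ⟨∑ i, ins i (B i) + (2 : ℤ_[2]) • C +
    c • (1 + (2 : ℤ_[2]) • ∑ i, ins i (B i) + (4 : ℤ_[2]) • C), ?_, ?_⟩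
  · rw [latT_rho, hu, hk, hC]
    module
  · have h3 : ∀ i x y, red2 (ins i (B i) x y) = ins i ((B i).map red2) x y := fun i x y =>
      congrFun (congrFun (ins_map red2 i (B i)) x) y
    ext x y
    rw [kapT]
    simp only [Matrix.map_apply, Matrix.add_apply, Matrix.smul_apply, Matrix.sum_apply,
      smul_eq_mul, map_add, map_mul, map_sum, h3, hB2, LatKT_red2_two, LatKT_red2_four, zero_mul,
      add_zero]
    rw [hc2, hc1, hb1]
    congr 2
    rw [Matrix.one_apply, Matrix.one_apply]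
    split_ifs
    · exact map_one red2
    · exact map_zero red2

omit [DecidableEq Ω] in
private theorem LatKT_sg_one (h2 : (2 : k) ≠ 0) {P f : k[X]} (hP : Irreducible P)
    (hf : Squarefree f) (hd : P ∣ f) : chf Ω f (sg Ω (placeOf P hP)) = 1 := by
  obtain ⟨g, rfl⟩ := hd
  have hg : ¬ P ∣ g := fun ⟨r, hr⟩ => hP.not_isUnit (hf P ⟨r, by rw [hr]; ring⟩)
  have hne : ∀ {f : k[X]}, f ≠ 0 → algebraMap k[X] (RatFunc k) f ≠ 0 := fun hf h =>
    hf (IsFractionRing.injective k[X] (RatFunc k) (by rw [h, map_zero]))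
  have hg0 : g ≠ 0 := fun h => hg (h ▸ dvd_zero P)
  have H := locVals (k := k) (Om := Ω) h2
  change chi (RatFunc k) (algebraMap k[X] (RatFunc k) (P * g)) _ = 1
  rw [map_mul, SmF.chi_mul_elt (Sm.Inst.two_K h2) (hne hP.ne_zero) (hne hg0)]
  have h3 := H.sg_self hP
  have h4 := H.sg_of_not_dvd hP hg
  rw [h3, h4, add_zero]

omit [DecidableEq Ω] in
private theorem LatKT_sg_zero (h2 : (2 : k) ≠ 0) {P f : k[X]} (hP : Irreducible P)
    (hd : ¬ P ∣ f) : chf Ω f (sg Ω (placeOf P hP)) = 0 :=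
  (locVals (k := k) (Om := Ω) h2).sg_of_not_dvd hP hd

omit [DecidableEq Ω] in
private theorem LatKT_sgi (h2 : (2 : k) ≠ 0) (v : Place k (RatFunc k)) :
    sg Ω v ∈ iner (RatFunc k) (ab Ω v) := by
  have : IsSepClosed Ω := IsSepClosure.sep_closed (RatFunc k)
  exact sg_iner h2 v

/-- the factors which are good at `v` -/
private theorem LatKT_good_i (h2 : (2 : k) ≠ 0) {a b : k[X]} {E : EDat Ω a b} (hE : E.Ok)
    {P : k[X]} (hP : Irreducible P) (hd : ¬ P ∣ a * b * (a - b)) :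
    E.rho (sg Ω (placeOf P hP)) = 1 := hE.good P hP hd _ (LatKT_sgi h2 _)

omit [DecidableEq Ω] in
private theorem LatKT_cyc_sg (h2 : (2 : k) ≠ 0) (v : Place k (RatFunc k)) (m : ℕ) :
    ((((cycK Ω (RatFunc k) (sg Ω v))⁻¹ ^ m : ℤ_[2]ˣ)) : ℤ_[2]) = 1 := by
  rw [cycK_iner h2 v (LatKT_sgi h2 v), inv_one, one_pow, Units.val_one]

theorem good_T (h2 : (2 : k) ≠ 0) {a b : ι → k[X]} (hT : HypT a b)
    (E : ∀ i, EDat Ω (a i) (b i)) (hE : ∀ i, (E i).Ok) (m : ℕ) (v : Place k (RatFunc k))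
    (hv : ∀ (P : k[X]) (hP : Irreducible P), P ∣ cT a b → v ≠ placeOf P hP) :
    (latE E m).rho (sg Ω v) = 1 := by
  have h3 : ∀ i, (E i).rho (sg Ω v) = 1 := by
    intro i
    rcases BSDP.R.place_cases v with rfl | ⟨P, hP, hm, rfl⟩
    · exact (hE i).goodInf _ (LatKT_sgi h2 _)
    · exact LatKT_good_i h2 (hE i) hP fun h => hv P hP (h.trans (dvd_cT a b i)) rfl
  rw [latT_rho, LatKT_cyc_sg h2, one_smul, show (kron fun i => (E i).rho (sg Ω v)) =
    kron fun _ => 1 from congrArg kron (funext h3), kron_one]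

omit [DecidableEq ι] in
/-- The data at a bad place. -/
private theorem LatKT_bad (h2 : (2 : k) ≠ 0) {a b : ι → k[X]} (hT : HypT a b)
    (E : ∀ i, EDat Ω (a i) (b i)) (hE : ∀ i, (E i).Ok) {P : k[X]} (hP : Irreducible P)
    (hd : P ∣ cT a b) : ∃ (j : ι) (nu : Matrix (Fin 2) (Fin 2) ℤ_[2]) (lam : ℤ_[2]),
      (∀ i, i ≠ j → ¬ P ∣ a i * b i * (a i - b i)) ∧
      (∀ i, i ≠ j → (E i).rho (sg Ω (placeOf P hP)) = 1) ∧
      nu * nu = 0 ∧ (nu.map red2 = Ma ∨ nu.map red2 = Mb ∨ nu.map red2 = Mab) ∧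
      (E j).rho (sg Ω (placeOf P hP)) = 1 + (2 : ℤ_[2]) • nu ∧ (lam = 1 ∨ lam = -1) ∧
      (E j).rho (ph Ω (placeOf P hP)) * nu =
        (resCard (below (RatFunc k) (ab Ω (placeOf P hP))) : ℤ_[2]) •
          (nu * (E j).rho (ph Ω (placeOf P hP))) ∧
      ∀ x : Fin 2 → ℤ_[2], ((E j).rho (sg Ω (placeOf P hP))).mulVec x = x →
        ((E j).rho (ph Ω (placeOf P hP))).mulVec x =
          (lam * (resCard (below (RatFunc k) (ab Ω (placeOf P hP))) : ℕ)) • x := by
  obtain ⟨j, -, hj⟩ := (hP.prime.dvd_finsetProd_iff _).mp hd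
  have hi : ∀ i, i ≠ j → ¬ P ∣ a i * b i * (a i - b i) := fun i hij hi =>
    hij (hT.unique hP hi hj)
  have hs := (hT.hypE j).sqf
  obtain ⟨B, hB1, hB2⟩ := (hE j).kap (sg Ω (placeOf P hP))
  have h1 : chf Ω (-1) (sg Ω (placeOf P hP)) = 0 := LatKT_sg_zero h2 hP fun h =>
    hP.not_isUnit (isUnit_of_dvd_unit h (isUnit_one.neg))
  have hsa : Squarefree (a j) := hs.squarefree_of_dvd ((dvd_mul_right _ _).trans (dvd_mul_right _ _))
  have hsb : Squarefree (b j) := hs.squarefree_of_dvd ((dvd_mul_left _ _).trans (dvd_mul_right _ _))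
  have hsc : Squarefree (a j - b j) := hs.squarefree_of_dvd (dvd_mul_left _ _)
  have hno : ∀ {f g r : k[X]}, f * g * r = a j * b j * (a j - b j) → P ∣ f → ¬ P ∣ g := by
    intro f g r h hf hg
    exact hP.not_isUnit (hs P (h ▸ (mul_dvd_mul hf hg).trans (dvd_mul_right _ _)))
  have hB : B.map red2 = Ma ∨ B.map red2 = Mb ∨ B.map red2 = Mab := by
    rw [hB2, h1, zero_smul, add_zero]
    rcases hP.prime.dvd_or_dvd hj with h | h
    · rcases hP.prime.dvd_or_dvd h with h | h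
      · left
        rw [LatKT_sg_one h2 hP hsa h, LatKT_sg_zero h2 hP (hno (r := a j - b j) rfl h),
          LatKT_sg_zero h2 hP (hno (f := a j) (g := a j - b j) (r := b j) (by ring) h)]
        simp
      · right; left
        rw [LatKT_sg_one h2 hP hsb h,
          LatKT_sg_zero h2 hP (hno (f := b j) (g := a j) (r := a j - b j) (by ring) h),
          LatKT_sg_zero h2 hP (hno (f := b j) (g := a j - b j) (r := a j) (by ring) h)]
        simp
    · right; right
      rw [LatKT_sg_one h2 hP hsc h,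
        LatKT_sg_zero h2 hP (hno (f := a j - b j) (g := a j) (r := b j) (by ring) h),
        LatKT_sg_zero h2 hP (hno (f := a j - b j) (g := b j) (r := a j) (by ring) h)]
      simp
  obtain ⟨m', hm1, -, hm2⟩ := rho_rel h2 (placeOf P hP) (E j).rho (hE j).cont
  have hodd : Odd (resCard (below (RatFunc k) (ab Ω (placeOf P hP)))) := ⟨m', hm1⟩
  have hone : 1 < resCard (below (RatFunc k) (ab Ω (placeOf P hP))) := by
    rw [resCard]
    exact Finite.one_lt_card
  have hdS : ((E j).rho (sg Ω (placeOf P hP))).det = 1 := by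
    rw [(hE j).det, cycK_iner h2 _ (LatKT_sgi h2 _), Units.val_one]
  have hdP : ((E j).rho (ph Ω (placeOf P hP))).det =
      (resCard (below (RatFunc k) (ab Ω (placeOf P hP))) : ℤ_[2]) := by
    rw [(hE j).det, cycK_frob h2]
  rw [← hm1] at hm2
  obtain ⟨h3, lam, hlam, h4, h5⟩ := two_bad hodd hone hdS hdP hm2 ⟨B, hB1, hB⟩
  have hS : (E j).rho (sg Ω (placeOf P hP)) - 1 = (2 : ℤ_[2]) • B := by
    rw [hB1, add_sub_cancel_left]
  rw [hS] at h3 h4
  refine ⟨j, B, lam, hi, fun i hij => LatKT_good_i h2 (hE i) hP (hi i hij), LatKT_mat_two h3, hB,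
    hB1, hlam, ?_, h5⟩
  rw [Matrix.mul_smul, Matrix.smul_mul, smul_comm] at h4
  ext x y
  have h6 := congrFun (congrFun h4 x) y
  rw [Matrix.smul_apply, Matrix.smul_apply, smul_eq_mul, smul_eq_mul] at h6
  exact mul_left_cancel₀ (by norm_num) h6

private theorem LatKT_kron_ins (j : ι) (A : ι → Matrix (Fin 2) (Fin 2) ℤ_[2])
    (B : Matrix (Fin 2) (Fin 2) ℤ_[2]) (h : ∀ i, i ≠ j → A i = 1) (hj : A j = B) :
    kron A = ins j B := by
  rw [ins_eq_kron]
  congr 1
  funext i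
  by_cases hij : i = j
  · rw [if_pos hij, hij, hj]
  · rw [if_neg hij, h i hij]

/-- The bad places: the tame generator is unipotent. -/
theorem bad_T (h2 : (2 : k) ≠ 0) {a b : ι → k[X]} (hT : HypT a b)
    (E : ∀ i, EDat Ω (a i) (b i)) (hE : ∀ i, (E i).Ok) (m : ℕ) {P : k[X]} (hP : Irreducible P)
    (hd : P ∣ cT a b) : ∃ (j : ι) (nu : Matrix (Fin 2) (Fin 2) ℤ_[2]),
      nu * nu = 0 ∧ (nu.map red2 = Ma ∨ nu.map red2 = Mb ∨ nu.map red2 = Mab) ∧
      (latE E m).rho (sg Ω (placeOf P hP)) = 1 + (2 : ℤ_[2]) • ins j nu ∧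
      (latE E m).rho (ph Ω (placeOf P hP)) * ins j nu =
        (resCard (below (RatFunc k) (ab Ω (placeOf P hP))) : ℤ_[2]) •
          (ins j nu * (latE E m).rho (ph Ω (placeOf P hP))) := by
  obtain ⟨j, nu, lam, -, h3, h4, h5, h6, -, h7, -⟩ := LatKT_bad h2 hT E hE hP hd
  refine ⟨j, nu, h4, h5, ?_, ?_⟩
  · rw [latT_rho, LatKT_cyc_sg h2, one_smul, LatKT_kron_ins j _ _ h3 h6, ins_add, ins_one,
      ins_smul]
  · rw [latT_rho, Matrix.smul_mul, Matrix.mul_smul, smul_comm]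
    congr 1
    rw [ins_eq_kron, ← kron_mul, ← kron_mul]
    have h8 : (fun i => (E i).rho (ph Ω (placeOf P hP)) *
        (if i = j then nu else (1 : Matrix (Fin 2) (Fin 2) ℤ_[2]))) = fun i =>
        (if i = j then (resCard (below (RatFunc k) (ab Ω (placeOf P hP))) : ℤ_[2]) else 1) •
          ((if i = j then nu else (1 : Matrix (Fin 2) (Fin 2) ℤ_[2])) *
            (E i).rho (ph Ω (placeOf P hP))) := by
      funext i
      by_cases hij : i = j
      · subst hij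
        rw [if_pos rfl, if_pos rfl, h7]
      · rw [if_neg hij, if_neg hij, mul_one, one_mul, one_smul]
    rw [h8, kron_smul, Finset.prod_ite_eq' Finset.univ j, if_pos (Finset.mem_univ j)]

private theorem LatKT_scal {q m : ℕ} {u : ℤ_[2]} (hu : u * (q : ℤ_[2]) ^ m = 1) {z : ℤ}
    (hz : z = 1 ∨ z = -1) {K : Matrix (ι → Fin 2) (ι → Fin 2) ℤ_[2]} {r : (ι → Fin 2) → ℚ_[2]}
    (h : z • ((u • K).map fun x : ℤ_[2] => (x : ℚ_[2])).mulVec r = r) :
    (K.map fun x : ℤ_[2] => (x : ℚ_[2])).mulVec r = ((z : ℚ_[2]) * (q : ℚ_[2]) ^ m) • r := by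
  have h1 : (u : ℚ_[2]) * (q : ℚ_[2]) ^ m = 1 := by
    have := congrArg (fun x : ℤ_[2] => (x : ℚ_[2])) hu
    simpa using this
  have h2 : (z : ℚ_[2]) * z = 1 := by
    rcases hz with rfl | rfl <;> norm_num
  rw [LatKT_map_smul, Matrix.smul_mulVec] at h
  funext x
  have h3 := congrFun h x
  rw [Pi.smul_apply, Pi.smul_apply, zsmul_eq_mul, smul_eq_mul] at h3
  rw [Pi.smul_apply, smul_eq_mul, ← h3]
  linear_combination (-(K.map fun x : ℤ_[2] => (x : ℚ_[2])).mulVec r x) * (h2 +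
    (z : ℚ_[2]) * z * h1)

theorem latK_T (h2 : (2 : k) ≠ 0) {a b : ι → k[X]} (hT : HypT a b)
    (E : ∀ i, EDat Ω (a i) (b i)) (hE : ∀ i, (E i).Ok) {m : ℕ}
    (hm : Fintype.card ι = 2 * m + 1) : LatK Ω (latE E m) (cT a b) where
  sy := latT_sy _ _ m hm (fun i => (hE i).det) fun i s => by
    obtain ⟨B, hB, -⟩ := (hE i).kap s
    exact ⟨B, hB⟩
  c_ne := hT.ne
  cyc _ := rfl
  cont j := by
    choose N hN hN1 using fun i => (hE i).cont j
    obtain ⟨N0, hN0, hN2⟩ := cycK_cont (k := k) (Ω := Ω) h2 j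
    have hinf : ∀ s : Finset ι, s.inf N ∈ SmD.NN (RatFunc k) Ω := by
      intro s
      induction s using Finset.induction_on with
      | empty =>
        rw [Finset.inf_empty]
        exact SmD.top_mem_NN
      | insert i s hi ih =>
        rw [Finset.inf_insert]
        exact SmD.inf_mem_NN (hN i) ih
    refine ⟨N0 ⊓ Finset.univ.inf N, SmD.inf_mem_NN hN0 (hinf _), fun s hs => ?_⟩
    have hs1 : s ∈ N0 := (Subgroup.mem_inf.mp hs).1
    have hs2 : ∀ i, s ∈ N i := fun i =>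
      (Finset.inf_le (f := N) (Finset.mem_univ i)) (Subgroup.mem_inf.mp hs).2
    choose B hB using fun i => hN1 i s (hs2 i)
    obtain ⟨b0, hb0⟩ := hN2 s hs1
    obtain ⟨c0, hc0⟩ := LatKT_inv_cong hb0
    obtain ⟨c, hc⟩ := LatKT_pow_cong hc0 m
    obtain ⟨C, hC⟩ := kron_one_add_pow j B
    refine ⟨C + c • (1 + (2 : ℤ_[2]) ^ j • C), ?_⟩
    rw [latT_rho, Units.val_pow_eq_pow_val, hc,
      show (kron fun i => (E i).rho s) = kron fun i => 1 + (2 : ℤ_[2]) ^ j • B i from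
        congrArg kron (funext hB), hC]
    module
  good P hP hd s hs := by
    have h3 : ∀ i, (E i).rho s = 1 := fun i =>
      (hE i).good P hP (fun h => hd (h.trans (dvd_cT a b i))) s hs
    rw [latT_rho, cycK_iner h2 _ hs, inv_one, one_pow, Units.val_one, one_smul,
      show (kron fun i => (E i).rho s) = kron fun _ => 1 from congrArg kron (funext h3), kron_one]
  pure v z1 z2 hz1 hz2 r h3 h4 := by
    have hone : 1 < resCard (below (RatFunc k) (ab Ω v)) := by
      rw [resCard]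
      exact Finite.one_lt_card
    have hu : (((cycK Ω (RatFunc k) (ph Ω v))⁻¹ ^ m : ℤ_[2]ˣ) : ℤ_[2]) *
        ((resCard (below (RatFunc k) (ab Ω v)) : ℕ) : ℤ_[2]) ^ m = 1 := by
      rw [← cycK_frob (Ω := Ω) h2 v, ← Units.val_pow_eq_pow_val, ← Units.val_mul, ← mul_pow,
        inv_mul_cancel, one_pow, Units.val_one]
    have h5 : ((kron fun i => (E i).rho (ph Ω v)).map fun x : ℤ_[2] => (x : ℚ_[2])).mulVec r =
        ((z2 : ℚ_[2]) * ((resCard (below (RatFunc k) (ab Ω v)) : ℕ) : ℚ_[2]) ^ m) • r :=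
      LatKT_scal hu hz2 h4
    by_cases hb : ∃ (P : k[X]) (hP : Irreducible P), P ∣ cT a b ∧ v = placeOf P hP
    · obtain ⟨P, hP, hd, rfl⟩ := hb
      obtain ⟨j, nu, lam, h6, h7, h8, h9, h10, h11, h12, h13⟩ := LatKT_bad h2 hT E hE hP hd
      have hS1 : (E j).rho (sg Ω (placeOf P hP)) ≠ 1 := by
        intro h
        rw [h10] at h
        have h14 : nu = 0 := by
          ext x y
          have h15 := congrFun (congrFun h x) y
          rw [Matrix.add_apply, Matrix.smul_apply, smul_eq_mul] at h15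
          have h16 : (2 : ℤ_[2]) * nu x y = 0 := by linear_combination h15
          rcases mul_eq_zero.mp h16 with h | h
          · exact absurd h (by norm_num)
          · rw [h, Matrix.zero_apply]
        rw [h14] at h9
        have h17 : ∀ x y, (0 : Matrix (Fin 2) (Fin 2) ℤ_[2]).map red2 x y = 0 := fun x y => by
          rw [Matrix.map_apply, Matrix.zero_apply, map_zero]
        rcases h9 with h | h | h
        · have := h17 0 0
          rw [h] at this
          exact one_ne_zero this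
        · have := h17 1 0
          rw [h] at this
          exact one_ne_zero this
        · have := h17 0 1
          rw [h] at this
          exact one_ne_zero this
      have hS2 : ((E j).rho (sg Ω (placeOf P hP)) - 1) * ((E j).rho (sg Ω (placeOf P hP)) - 1) =
          0 := by
        rw [h10, add_sub_cancel_left, Matrix.smul_mul, Matrix.mul_smul, h8, smul_zero, smul_zero]
      have hrq : (latE E m).rho (sg Ω (placeOf P hP)) = ins j ((E j).rho (sg Ω (placeOf P hP))) := by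
        rw [latT_rho, LatKT_cyc_sg h2, one_smul, LatKT_kron_ins j _ _ h7 rfl]
      have h18 : ((ins j ((E j).rho (sg Ω (placeOf P hP))) :
          Matrix (ι → Fin 2) (ι → Fin 2) ℤ_[2]).map fun x : ℤ_[2] => (x : ℚ_[2])).mulVec r =
          (z1 : ℚ_[2]) • r := by
        rw [Lat.rq, hrq] at h3
        have h19 : (z1 : ℚ_[2]) * z1 = 1 := by
          rcases hz1 with rfl | rfl <;> norm_num
        funext x
        have h20 := congrFun h3 x
        rw [Pi.smul_apply, zsmul_eq_mul] at h20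
        rw [Pi.smul_apply, smul_eq_mul]
        linear_combination (z1 : ℚ_[2]) * h20 - (((ins j ((E j).rho (sg Ω (placeOf P hP))) :
          Matrix (ι → Fin 2) (ι → Fin 2) ℤ_[2]).map fun x : ℤ_[2] => (x : ℚ_[2])).mulVec r x) * h19
      rcases hz1 with rfl | rfl
      · rw [Int.cast_one, one_smul] at h18
        exact pure_bad hone j _ (fun i => (E i).rho (ph Ω (placeOf P hP))) hm
          (fun i hi => (hE i).frob _ (Or.inr ⟨P, hP, rfl, h6 i hi⟩)) hS2 hS1 h11 h13 hz2 h18 h5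
      · -- `S r = - r` and `(S - 1)^2 = 0`
        have h21 : ((ins j ((E j).rho (sg Ω (placeOf P hP))) :
            Matrix (ι → Fin 2) (ι → Fin 2) ℤ_[2]) - 1) * (ins j ((E j).rho (sg Ω (placeOf P hP))) - 1)
              = 0 := by
          rw [h10, ins_add, ins_one, add_sub_cancel_left, ← ins_mul, Matrix.smul_mul,
            Matrix.mul_smul, h8, smul_zero, smul_zero]
          ext x y
          simp [ins]
        refine LatKT_unip h21 ?_
        rw [h18, Int.cast_neg, Int.cast_one, neg_smul, one_smul]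
    · have hv : ∀ (P : k[X]) (hP : Irreducible P), P ∣ cT a b → v ≠ placeOf P hP :=
        fun P hP hd h => hb ⟨P, hP, hd, h⟩
      refine pure_good hone (fun i => (E i).rho (ph Ω v)) hm (fun i => (hE i).frob v ?_) hz2 h5
      rcases BSDP.R.place_cases v with h | ⟨P, hP, -, h⟩
      · exact Or.inl h
      · exact Or.inr ⟨P, hP, h, fun h6 => hv P hP (h6.trans (dvd_cT a b i)) h⟩

end LatKT

end Pool.Agent.TTC
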