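import Pool.Agent.Lib.TTC.Lat
import Pool.Agent.Lib.SmJ.G.Kum

/-!
# Project TTC (MP_950c68_ag), module LocA: places where inertia acts trivially on the lattice
-/

set_option autoImplicit false

open Polynomial

namespace Pool.Agent.TTC

open Pool.Agent.BSDFF Pool.Agent.Lib.SmD Pool.Agent.SmJ

private theorem LocA_surj (w : ZMod 2) : ∃ a : ℤ_[2], red2 a = w :=
  ⟨((w.val : ℕ) : ℤ_[2]), by rw [map_natCast, ZMod.natCast_zmod_val]⟩

private theorem LocA_smul (a : ℤ_[2]) (w : ZMod 2) : a • hf2 w = hf2 (red2 a * w) := by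
  obtain ⟨b, rfl⟩ := LocA_surj w
  rw [← map_mul, hf2_red2, hf2_red2, qz_smul]
  congr 1
  push_cast
  ring

private theorem LocA_inj : Function.Injective hf2 := by
  rw [injective_iff_map_eq_zero]
  intro w hw
  obtain ⟨a, rfl⟩ := LocA_surj w
  rw [hf2_red2, qz_eq_zero] at hw
  obtain ⟨b, hb⟩ := hw
  rw [red2_eq_zero]
  refine ⟨b, ?_⟩
  apply PadicInt.ext
  rw [PadicInt.coe_mul, hb]
  have h2 : ((2 : ℤ_[2]) : ℚ_[2]) = 2 := rfl
  rw [h2]
  ring

section LocA

variable {k : Type} [Field k] [Finite k] {Ω : Type} [Field Ω] [Algebra (RatFunc k) Ω]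
  [IsSepClosure (RatFunc k) Ω] {I : Type} [Fintype I] [DecidableEq I]
  {L : Lat (Ω ≃ₐ[RatFunc k] Ω) I} {c : k[X]}

omit [IsSepClosure (RatFunc k) Ω] [Finite k] in
private theorem LocA_iota_inj : Function.Injective (iotaL L) := by
  intro w w' h
  funext i
  exact LocA_inj (congrFun h i)

omit [IsSepClosure (RatFunc k) Ω] [Finite k] in
private theorem LocA_mact (A : Matrix I I ℤ_[2]) (w : I → ZMod 2) :
    mact A (iotaL L w : I → QZ) = (iotaL L ((A.map red2).mulVec w) : I → QZ) := by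
  funext i
  rw [mact_apply, iotaL_apply]
  simp only [iotaL_apply, LocA_smul, Matrix.mulVec, dotProduct, Matrix.map_apply, map_sum]

omit [IsSepClosure (RatFunc k) Ω] [Finite k] in
private theorem LocA_triv {s : Ω ≃ₐ[RatFunc k] Ω} (hs : L.rho s = 1) (Q : VL L) : s • Q = Q := by
  rw [smul_VL, hs]
  exact mact_one Q

omit [IsSepClosure (RatFunc k) Ω] [Finite k] in
private theorem LocA_two (w : I → ZMod 2) : iotaL L w + iotaL L w = 0 := by
  rw [← map_add]
  have : w + w = 0 := by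
    funext i
    exact CharTwo.add_self_eq_zero (w i)
  rw [this, map_zero]

/-- `chi` unramified: `W = R` (`⊆` and the orders are equal). -/
theorem locA_unr (h2 : (2 : k) ≠ 0) (hL : LatK Ω L c) (hok : (sysL Ω L c).Ok)
    {chi : (Ω ≃ₐ[RatFunc k] Ω) → ZMod 2} (hchi : (sysL Ω L c).HomG chi)
    {v : Place k (RatFunc k)} (hv : L.rho (sg Ω v) = 1) (h0 : chi (sg Ω v) = 0)
    (x : (I → ZMod 2) × (I → ZMod 2)) : x ∈ (sysL Ω L c).Wl chi v ↔ x.1 = 0 := by
  have hle : (sysL Ω L c).W chi v ≤ Sys.Ur := by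
    rintro x ⟨Q, hQ, h1, h2⟩
    have h3 : dl chi Q (sg Ω v) = 0 := by
      unfold dl tw
      rw [h0, LocA_triv hv, sgn, if_pos rfl, one_smul, sub_self]
    have h4 : iotaL L x.1 = 0 := by
      rw [← h3]
      exact h1.symm
    exact hok.iota_inj (by rw [map_zero]; exact h4)
  have h3 : (sysL Ω L c).W chi v = Sys.Ur := by
    have := hok.fin1
    apply SetLike.coe_injective
    refine Set.eq_of_subset_of_ncard_le hle ?_ (Set.toFinite _)
    rw [← Nat.card_coe_set_eq, ← Nat.card_coe_set_eq]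
    have e1 : Nat.card ((sysL Ω L c).W chi v : Set ((I → ZMod 2) × (I → ZMod 2))) =
        Nat.card (I → ZMod 2) := Sys.card_W hok hchi v
    have e2 : Nat.card ((Sys.Ur : AddSubgroup ((I → ZMod 2) × (I → ZMod 2))) :
        Set ((I → ZMod 2) × (I → ZMod 2))) = Nat.card (I → ZMod 2) := Sys.card_Ur
    rw [e1, e2]
  rw [← Sys.mem_W, h3, Sys.mem_Ur]

/-- `chi` ramified: `r = - x1 / 4`, `x2 = κ(φ) x1` or `κ(φ) x1 + x1`. -/
theorem locA_ram (h2 : (2 : k) ≠ 0) (hL : LatK Ω L c)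
    {chi : (Ω ≃ₐ[RatFunc k] Ω) → ZMod 2}
    {v : Place k (RatFunc k)} (hv : L.rho (sg Ω v) = 1) (h1 : chi (sg Ω v) = 1)
    {B : Matrix I I ℤ_[2]} (hB : L.rho (ph Ω v) = 1 + (2 : ℤ_[2]) • B)
    {x : (I → ZMod 2) × (I → ZMod 2)} (hx : x ∈ (sysL Ω L c).Wl chi v) :
    x.2 = (B.map red2).mulVec x.1 + chi (ph Ω v) • x.1 := by
  obtain ⟨Q, -, h3, h4⟩ := hx
  -- `-2 Q = iota x1`
  have h5 : -(Q + Q) = iotaL L x.1 := by
    rw [show iotaL L x.1 = dl chi Q (sg Ω v) from h3.symm]
    unfold dl tw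
    rw [h1, LocA_triv hv, sgn, if_neg (by decide), neg_one_zsmul]
    abel
  have h5' : (Q + Q : VL L) = iotaL L x.1 := by
    have h6 := LocA_two (L := L) x.1
    rw [← h5] at h6
    rw [← h5]
    have h7 : (Q + Q : VL L) + (Q + Q) = 0 := by
      rw [← neg_eq_zero]
      rw [← h6]
      abel
    exact eq_neg_of_add_eq_zero_left h7
  -- the action of Frobenius
  have h6 : (ph Ω v • Q : VL L) = Q + iotaL L ((B.map red2).mulVec x.1) := by
    let Q' : I → QZ := Q
    have h7 : (iotaL L ((B.map red2).mulVec x.1) : I → QZ) = mact B (Q' + Q') := by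
      have h8 := LocA_mact (L := L) B x.1
      rw [← h5'] at h8
      exact h8.symm
    have h8 : mact (1 + (2 : ℤ_[2]) • B) Q' = Q' + mact B (Q' + Q') := by
      rw [add_mact, mact_one, smul_mact, mact_add, two_smul]
    rw [smul_VL, hB]
    exact h8.trans (congrArg (fun y : I → QZ => Q' + y) h7.symm)
  have h8 : dl chi Q (ph Ω v) = iotaL L x.2 := h4
  have h9 : dl chi Q (ph Ω v) = iotaL L ((B.map red2).mulVec x.1 + chi (ph Ω v) • x.1) := by
    unfold dl tw
    rw [h6]
    have hz : chi (ph Ω v) = 0 ∨ chi (ph Ω v) = 1 := by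
      generalize chi (ph Ω v) = z
      revert z
      decide
    rcases hz with hz | hz
    · rw [hz, zero_smul, add_zero, sgn, if_pos rfl, one_smul, add_sub_cancel_left]
    · rw [hz, one_smul, sgn, if_neg (by decide), neg_one_zsmul, map_add]
      have h10 : -(iotaL L ((B.map red2).mulVec x.1)) = iotaL L ((B.map red2).mulVec x.1) :=
        neg_eq_of_add_eq_zero_left (LocA_two _)
      calc -(Q + iotaL L ((B.map red2).mulVec x.1)) - Q
          = -(iotaL L ((B.map red2).mulVec x.1)) + -(Q + Q) := by abel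
        _ = _ := by rw [h10, h5]
  exact LocA_iota_inj (h8.symm.trans h9)

end LocA

end Pool.Agent.TTC
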