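import Pool.Agent.Lib.TTC.Kron
import Pool.Agent.Lib.TTC.Mact
import Pool.Agent.Lib.TTC.Cyc
import Pool.Agent.Lib.SmJ.G.Kum

/-!
# Project TTC (MP_950c68_ag), module LocB: the local conditions at the bad places

At a bad place `v` the tame generator acts on the lattice by `1 + 2 ν`, `ν = ins j nu`, `nu` nilpotent
and not `0` modulo `2`. For `chi` unramified at `v` and `x` in the local Kummer group: `x.1` is in the
image of `ν` modulo `2` (`locB_im`), `e (x.1, x.2) = e (x.2, ν x.2)` (`locB_e`), and the number of the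
unramified `x` is a power of `4` (`locB_card`).
-/

set_option autoImplicit false

open Polynomial

namespace Pool.Agent.TTC

open Pool.Agent.BSDFF Pool.Agent.Lib.SmD Pool.Agent.SmJ

section alg

variable {ι : Type} [Fintype ι] [DecidableEq ι]

/-- the homotopy -/
private theorem LocB_htp {nu : Matrix (Fin 2) (Fin 2) (ZMod 2)} (h : nu = Ma ∨ nu = Mb ∨ nu = Mab) :
    ∃ g : Matrix (Fin 2) (Fin 2) (ZMod 2), nu * g + g * nu = 1 := by
  rcases h with rfl | rfl | rfl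
  · exact ⟨Mab, by decide⟩
  · exact ⟨Mab, by decide⟩
  · exact ⟨Mb, by decide⟩

private theorem LocB_sq {nu : Matrix (Fin 2) (Fin 2) (ZMod 2)} (h : nu = Ma ∨ nu = Mb ∨ nu = Mab) :
    nu * nu = 0 := by
  rcases h with rfl | rfl | rfl <;> decide

private theorem LocB_ins_zero (R : Type) [CommRing R] (i : ι) :
    (ins i (0 : Matrix (Fin 2) (Fin 2) R) : Matrix (ι → Fin 2) (ι → Fin 2) R) = 0 := by
  ext a b
  simp [ins]

/-- the kernel of `ins j nu` modulo `2` is its image -/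
private theorem LocB_ker {nu : Matrix (Fin 2) (Fin 2) (ZMod 2)} (h : nu = Ma ∨ nu = Mb ∨ nu = Mab)
    (j : ι) (x : (ι → Fin 2) → ZMod 2) :
    (ins j nu).mulVec x = 0 ↔ ∃ y, x = (ins j nu).mulVec y := by
  constructor
  · intro h0
    obtain ⟨g, hg⟩ := LocB_htp h
    refine ⟨(ins j g).mulVec x, ?_⟩
    have h1 : (ins j (1 : Matrix (Fin 2) (Fin 2) (ZMod 2)) :
        Matrix (ι → Fin 2) (ι → Fin 2) (ZMod 2)).mulVec x = x := by
      rw [ins_one, Matrix.one_mulVec]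
    rw [← hg, ins_add, ins_mul, ins_mul, Matrix.add_mulVec, ← Matrix.mulVec_mulVec,
      ← Matrix.mulVec_mulVec, h0, Matrix.mulVec_zero, add_zero] at h1
    exact h1.symm
  · rintro ⟨y, rfl⟩
    rw [Matrix.mulVec_mulVec, ← ins_mul, LocB_sq h, LocB_ins_zero, Matrix.zero_mulVec]

private theorem LocB_lift {y : ℚ_[2]} {w : ZMod 2} (h : qz y = hf2 w) :
    ∃ a : ℤ_[2], (a : ℚ_[2]) = 2 * y ∧ red2 a = w := by
  have h1 : qz (2 * y) = 0 := by
    have h2 : (2 : ℕ) • qz y = 0 := by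
      rw [h, ← map_nsmul]
      have : (2 : ℕ) • w = 0 := by
        rw [nsmul_eq_mul]
        have : ((2 : ℕ) : ZMod 2) = 0 := rfl
        rw [this, zero_mul]
      rw [this, map_zero]
    rw [qz_nsmul] at h2
    exact_mod_cast h2
  obtain ⟨a, ha⟩ := qz_eq_zero.mp h1
  refine ⟨a, ha, hf2_inj ?_⟩
  rw [hf2_red2, ha, ← h]
  congr 1
  ring

/-- the algebra -/
private theorem LocB_alg {I : Type} [Fintype I] {F : Type} [Field F] (J ν φ : Matrix I I F)
    (q z : F) (hq : q ≠ 0) (hz : z * z = 1) (hJ : J.transpose = -J)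
    (hν : ν.transpose * J = -(J * ν)) (hφ : φ.transpose * J * φ = q • J)
    (hc : φ * ν = q • (ν * φ)) (r x1 x2 : I → F) (h1 : x1 = (4 : F) • ν.mulVec r)
    (h2 : x2 = (2 : F) • (z • φ.mulVec r - r)) :
    x1 ⬝ᵥ J.mulVec x2 = x2 ⬝ᵥ J.mulVec (ν.mulVec x2) := by
  have F1 : ∀ x y : I → F, x ⬝ᵥ J.mulVec y = -(y ⬝ᵥ J.mulVec x) := by
    intro x y
    rw [Matrix.dotProduct_mulVec, ← Matrix.mulVec_transpose, hJ, Matrix.neg_mulVec,
      neg_dotProduct, dotProduct_comm]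
  have F2 : ∀ x y : I → F, ν.mulVec x ⬝ᵥ J.mulVec y = -(x ⬝ᵥ J.mulVec (ν.mulVec y)) := by
    intro x y
    rw [dotProduct_comm, Matrix.dotProduct_mulVec, ← Matrix.mulVec_transpose, Matrix.mulVec_mulVec,
      hν, Matrix.neg_mulVec, neg_dotProduct, dotProduct_comm, Matrix.mulVec_mulVec]
  have F3 : ∀ x y : I → F, φ.mulVec x ⬝ᵥ J.mulVec (φ.mulVec y) = q * (x ⬝ᵥ J.mulVec y) := by
    intro x y
    rw [dotProduct_comm, Matrix.dotProduct_mulVec, ← Matrix.mulVec_transpose, Matrix.mulVec_mulVec,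
      Matrix.mulVec_mulVec, hφ, Matrix.smul_mulVec, smul_dotProduct, smul_eq_mul, dotProduct_comm]
  have F4 : φ.mulVec (ν.mulVec r) = q • ν.mulVec (φ.mulVec r) := by
    rw [Matrix.mulVec_mulVec, hc, Matrix.smul_mulVec, Matrix.mulVec_mulVec]
  -- the three numbers
  have E1 : φ.mulVec r ⬝ᵥ J.mulVec (ν.mulVec (φ.mulVec r)) = r ⬝ᵥ J.mulVec (ν.mulVec r) := by
    have h3 := F3 r (ν.mulVec r)
    rw [F4, Matrix.mulVec_smul, dotProduct_smul, smul_eq_mul] at h3
    exact mul_left_cancel₀ hq h3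
  have E2 : r ⬝ᵥ J.mulVec (ν.mulVec (φ.mulVec r)) = φ.mulVec r ⬝ᵥ J.mulVec (ν.mulVec r) := by
    have h3 := F2 r (φ.mulVec r)
    have h4 := F1 (ν.mulVec r) (φ.mulVec r)
    rw [h4] at h3
    exact (neg_injective h3).symm
  have E3 := F1 (ν.mulVec r) (φ.mulVec r)
  have E4 := F1 (ν.mulVec r) r
  rw [h1, h2]
  simp only [Matrix.mulVec_smul, Matrix.mulVec_sub, dotProduct_smul, smul_dotProduct, sub_dotProduct,
    dotProduct_sub, smul_eq_mul]
  rw [E1, E2, E3, E4]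
  linear_combination (-4 : F) * (r ⬝ᵥ J.mulVec (ν.mulVec r)) * hz

/-- the transpose of `ins j nu` -/
private theorem LocB_tr {R : Type} [CommRing R] (j : ι) {nu : Matrix (Fin 2) (Fin 2) R}
    (h : nu.transpose * J2 R = -(J2 R * nu)) :
    (ins j nu).transpose * kron (fun _ : ι => J2 R) = -(kron (fun _ : ι => J2 R) * ins j nu) := by
  rw [ins_eq_kron, kron_transpose, ← kron_mul, ← kron_mul]
  have h1 : (fun i => (if i = j then nu else 1).transpose * J2 R) =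
      fun i => (if i = j then (-1 : R) else 1) • (J2 R * (if i = j then nu else 1)) := by
    funext i
    split_ifs with h0
    · rw [h, neg_one_smul]
    · rw [Matrix.transpose_one, Matrix.one_mul, Matrix.mul_one, one_smul]
  rw [h1, kron_smul, Finset.prod_ite_eq' Finset.univ j (fun _ => (-1 : R)),
    if_pos (Finset.mem_univ j), neg_one_smul]

/-- a nilpotent matrix -/
private theorem LocB_nil {R : Type} [CommRing R] [IsDomain R] {nu : Matrix (Fin 2) (Fin 2) R}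
    (hnu : nu * nu = 0) : nu.transpose * J2 R = -(J2 R * nu) := by
  have e00 : nu 0 0 * nu 0 0 + nu 0 1 * nu 1 0 = 0 := by
    have := congrFun (congrFun hnu 0) 0
    simpa [Matrix.mul_apply, Fin.sum_univ_two] using this
  have e01 : nu 0 0 * nu 0 1 + nu 0 1 * nu 1 1 = 0 := by
    have := congrFun (congrFun hnu 0) 1
    simpa [Matrix.mul_apply, Fin.sum_univ_two] using this
  have e10 : nu 1 0 * nu 0 0 + nu 1 1 * nu 1 0 = 0 := by
    have := congrFun (congrFun hnu 1) 0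
    simpa [Matrix.mul_apply, Fin.sum_univ_two] using this
  have e11 : nu 1 0 * nu 0 1 + nu 1 1 * nu 1 1 = 0 := by
    have := congrFun (congrFun hnu 1) 1
    simpa [Matrix.mul_apply, Fin.sum_univ_two] using this
  have ht : nu 0 0 + nu 1 1 = 0 := by
    by_contra h0
    have h1 : nu 0 1 = 0 := by
      have : nu 0 1 * (nu 0 0 + nu 1 1) = 0 := by linear_combination e01
      exact (mul_eq_zero.mp this).resolve_right h0
    have h2 : nu 0 0 = 0 := by
      have : nu 0 0 * nu 0 0 = 0 := by rw [h1] at e00; linear_combination e00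
      exact mul_self_eq_zero.mp this
    have h3 : nu 1 1 = 0 := by
      have : nu 1 1 * nu 1 1 = 0 := by rw [h1] at e11; linear_combination e11
      exact mul_self_eq_zero.mp this
    rw [h2, h3, add_zero] at h0
    exact h0 rfl
  have hT : nu.transpose * J2 R = !![-(nu 1 0), nu 0 0; -(nu 1 1), nu 0 1] := by
    ext a b
    fin_cases a <;> fin_cases b <;> simp [J2, Matrix.mul_apply, Fin.sum_univ_two]
  have hN : J2 R * nu = !![nu 1 0, nu 1 1; -(nu 0 0), -(nu 0 1)] := by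
    ext a b
    fin_cases a <;> fin_cases b <;> simp [J2, Matrix.mul_apply, Fin.sum_univ_two]
  have h11 : nu 1 1 = -(nu 0 0) := by linear_combination ht
  rw [hT, hN, h11]
  ext a b
  fin_cases a <;> fin_cases b <;> simp

end alg

section LocB

variable {k : Type} [Field k] [Finite k] {Ω : Type} [Field Ω] [Algebra (RatFunc k) Ω]
  [IsSepClosure (RatFunc k) Ω] {ι : Type} [Fintype ι] [DecidableEq ι]
  {L : Lat (Ω ≃ₐ[RatFunc k] Ω) (ι → Fin 2)} {c : k[X]}

omit [Finite k] [IsSepClosure (RatFunc k) Ω] in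
private theorem LocB_dl {chi : (Ω ≃ₐ[RatFunc k] Ω) → ZMod 2} {s : Ω ≃ₐ[RatFunc k] Ω}
    {ν : Matrix (ι → Fin 2) (ι → Fin 2) ℤ_[2]} (hv : L.rho s = 1 + (2 : ℤ_[2]) • ν)
    (h0 : chi s = 0) (Q : (ι → Fin 2) → QZ) :
    @Eq ((ι → Fin 2) → QZ) (dl (V := VL L) chi Q s) (mact ν ((2 : ℤ_[2]) • Q)) := by
  have h1 : @Eq ((ι → Fin 2) → QZ) (dl (V := VL L) chi Q s)
      (sgn (chi s) • mact (L.rho s) Q - Q) := rfl
  have h2 : sgn (0 : ZMod 2) = 1 := rfl
  rw [h1, h0, h2, one_smul, hv, add_mact, mact_one, smul_mact, mact_smul, add_sub_cancel_left]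

omit [Finite k] [IsSepClosure (RatFunc k) Ω] in
private theorem LocB_nu {chi : (Ω ≃ₐ[RatFunc k] Ω) → ZMod 2}
    {v : Place k (RatFunc k)} {j : ι} {nu : Matrix (Fin 2) (Fin 2) ℤ_[2]} (hnu : nu * nu = 0)
    (hv : L.rho (sg Ω v) = 1 + (2 : ℤ_[2]) • ins j nu) (h0 : chi (sg Ω v) = 0)
    {x : ((ι → Fin 2) → ZMod 2) × ((ι → Fin 2) → ZMod 2)} (hx : x ∈ (sysL Ω L c).Wl chi v) :
    (ins j (nu.map red2)).mulVec x.1 = 0 := by
  obtain ⟨Q, -, h1, -⟩ := hx
  have h3 : mact (ins j nu) (fun i => hf2 (x.1 i)) = 0 := by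
    have h4 : (fun i => hf2 (x.1 i)) =
        mact (ins j nu) ((2 : ℤ_[2]) • (show (ι → Fin 2) → QZ from Q)) :=
      h1.symm.trans (LocB_dl hv h0 Q)
    rw [h4, ← mact_mul, ← ins_mul, hnu, LocB_ins_zero]
    funext i
    simp [mact_apply]
  rw [mact_hf2, ins_map] at h3
  funext i
  have h4 := congrFun h3 i
  exact hf2_inj (by rw [h4, Pi.zero_apply, Pi.zero_apply, map_zero])

theorem locB_im (h2 : (2 : k) ≠ 0) (hL : LatK Ω L c) {chi : (Ω ≃ₐ[RatFunc k] Ω) → ZMod 2}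
    {v : Place k (RatFunc k)} {j : ι} {nu : Matrix (Fin 2) (Fin 2) ℤ_[2]} (hnu : nu * nu = 0)
    (hnu2 : nu.map red2 = Ma ∨ nu.map red2 = Mb ∨ nu.map red2 = Mab)
    (hv : L.rho (sg Ω v) = 1 + (2 : ℤ_[2]) • ins j nu) (h0 : chi (sg Ω v) = 0)
    {x : ((ι → Fin 2) → ZMod 2) × ((ι → Fin 2) → ZMod 2)} (hx : x ∈ (sysL Ω L c).Wl chi v) :
    ∃ y, x.1 = (ins j (nu.map red2)).mulVec y :=
  (LocB_ker hnu2 j x.1).mp (LocB_nu hnu hv h0 hx)

theorem locB_e (h2 : (2 : k) ≠ 0) (hL : LatK Ω L c) (hJ : L.J = kron fun _ => J2 ℤ_[2])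
    {chi : (Ω ≃ₐ[RatFunc k] Ω) → ZMod 2}
    {v : Place k (RatFunc k)} {j : ι} {nu : Matrix (Fin 2) (Fin 2) ℤ_[2]} (hnu : nu * nu = 0)
    (hv : L.rho (sg Ω v) = 1 + (2 : ℤ_[2]) • ins j nu)
    (hph : L.rho (ph Ω v) * ins j nu =
      (resCard (below (RatFunc k) (ab Ω v)) : ℤ_[2]) • (ins j nu * L.rho (ph Ω v)))
    (h0 : chi (sg Ω v) = 0)
    {x : ((ι → Fin 2) → ZMod 2) × ((ι → Fin 2) → ZMod 2)} (hx : x ∈ (sysL Ω L c).Wl chi v) :
    eL L x.1 x.2 = eL L x.2 ((ins j (nu.map red2)).mulVec x.2) := by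
  obtain ⟨Q, -, h1, h3⟩ := hx
  obtain ⟨r, hr⟩ : ∃ r : (ι → Fin 2) → ℚ_[2],
      (fun i => qz (r i)) = (show (ι → Fin 2) → QZ from Q) := by
    choose r hr using fun i => qz_surj ((show (ι → Fin 2) → QZ from Q) i)
    exact ⟨r, funext hr⟩
  have h1' : mact (ins j nu) ((2 : ℤ_[2]) • fun i => qz (r i)) = fun i => hf2 (x.1 i) := by
    rw [hr]
    exact (LocB_dl hv h0 Q).symm.trans h1
  have h3' : sgn (chi (ph Ω v)) • mact (L.rho (ph Ω v)) (fun i => qz (r i)) - (fun i => qz (r i)) =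
      fun i => hf2 (x.2 i) := by
    rw [hr]
    exact h3
  set F : ℤ_[2] →+* ℚ_[2] := PadicInt.Coe.ringHom with hF
  set z : ℤ := sgn (chi (ph Ω v)) with hz
  -- the lift of `x.1`
  have h4 : ∀ i, ∃ a : ℤ_[2], (a : ℚ_[2]) = 2 * (2 * ((ins j nu).map F).mulVec r i) ∧
      red2 a = x.1 i := by
    intro i
    refine LocB_lift ?_
    rw [mact_smul, mact_qz] at h1'
    have h5 := congrFun h1' i
    change (2 : ℤ_[2]) • qz (((ins j nu).map F).mulVec r i) = hf2 (x.1 i) at h5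
    rw [qz_smul] at h5
    exact h5
  choose x1 hx1 hx1' using h4
  have h6 : ∀ i, ∃ a : ℤ_[2], (a : ℚ_[2]) =
      2 * ((z : ℚ_[2]) * ((L.rho (ph Ω v)).map F).mulVec r i - r i) ∧ red2 a = x.2 i := by
    intro i
    refine LocB_lift ?_
    rw [mact_qz] at h3'
    have h5 := congrFun h3' i
    change z • qz (((L.rho (ph Ω v)).map F).mulVec r i) - qz (r i) = hf2 (x.2 i) at h5
    rw [qz_zsmul, ← map_sub] at h5
    exact h5
  choose x2 hx2 hx2' using h6
  have hcyc : (L.cyc (ph Ω v) : ℤ_[2]) = (resCard (below (RatFunc k) (ab Ω v)) : ℤ_[2]) := by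
    rw [hL.cyc, cycK_frob h2]
  set q : ℕ := resCard (below (RatFunc k) (ab Ω v)) with hq
  have hq0 : (q : ℚ_[2]) ≠ 0 := by
    intro h5
    have h6 : (q : ℤ_[2]) = 0 := by exact_mod_cast h5
    rw [h6] at hcyc
    exact (L.cyc (ph Ω v)).ne_zero hcyc
  have hzz : (z : ℚ_[2]) * (z : ℚ_[2]) = 1 := by
    rw [hz, sgn]
    split_ifs <;> norm_num
  -- over `ℚ_2`
  have mneg : ∀ M : Matrix (ι → Fin 2) (ι → Fin 2) ℤ_[2], (-M).map F = -(M.map F) := by
    intro M
    ext a b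
    exact map_neg F _
  have msm : ∀ (a : ℤ_[2]) (M : Matrix (ι → Fin 2) (ι → Fin 2) ℤ_[2]),
      (a • M).map F = F a • M.map F := by
    intro a M
    ext a b
    exact map_mul F _ _
  have hJt : (L.J.map F).transpose = -(L.J.map F) := by
    rw [← Matrix.transpose_map, hL.sy.Jt, mneg]
  have hνt : ((ins j nu).map F).transpose * L.J.map F = -(L.J.map F * (ins j nu).map F) := by
    rw [← Matrix.transpose_map, ← Matrix.map_mul, ← Matrix.map_mul, hJ, LocB_tr j (LocB_nil hnu),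
      mneg]
  have hφt : ((L.rho (ph Ω v)).map F).transpose * L.J.map F * (L.rho (ph Ω v)).map F =
      (q : ℚ_[2]) • L.J.map F := by
    rw [← Matrix.transpose_map, ← Matrix.map_mul, ← Matrix.map_mul, hL.sy.sim, hcyc, msm,
      map_natCast]
  have hct : (L.rho (ph Ω v)).map F * (ins j nu).map F =
      (q : ℚ_[2]) • ((ins j nu).map F * (L.rho (ph Ω v)).map F) := by
    rw [← Matrix.map_mul, ← Matrix.map_mul, hph, msm, map_natCast]
  have key := LocB_alg (L.J.map F) ((ins j nu).map F) ((L.rho (ph Ω v)).map F) q z hq0 hzz hJt hνt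
    hφt hct r (fun i => F (x1 i)) (fun i => F (x2 i)) (by
      funext i
      rw [Pi.smul_apply, smul_eq_mul]
      refine (hx1 i).trans ?_
      ring) (by
      funext i
      refine (hx2 i).trans ?_
      simp only [Pi.smul_apply, Pi.sub_apply, smul_eq_mul])
  -- over `ℤ_2`
  have key2 : x1 ⬝ᵥ L.J.mulVec x2 = x2 ⬝ᵥ L.J.mulVec ((ins j nu).mulVec x2) := by
    have hinj : Function.Injective F := Subtype.val_injective
    apply hinj
    have e1 : ∀ (M : Matrix (ι → Fin 2) (ι → Fin 2) ℤ_[2]) (y : (ι → Fin 2) → ℤ_[2]),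
        (fun i => F (M.mulVec y i)) = (M.map F).mulVec (fun i => F (y i)) := by
      intro M y
      funext i
      exact RingHom.map_mulVec F M y i
    have e2 : ∀ y w : (ι → Fin 2) → ℤ_[2], F (y ⬝ᵥ w) = (fun i => F (y i)) ⬝ᵥ fun i => F (w i) := by
      intro y w
      exact RingHom.map_dotProduct F y w
    rw [e2, e2, e1, e1, e1]
    exact key
  -- modulo `2`
  have e1 : ∀ (M : Matrix (ι → Fin 2) (ι → Fin 2) ℤ_[2]) (y : (ι → Fin 2) → ℤ_[2]),
      (fun i => red2 (M.mulVec y i)) = (M.map red2).mulVec (fun i => red2 (y i)) := by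
    intro M y
    funext i
    exact RingHom.map_mulVec red2 M y i
  have e2 : ∀ y w : (ι → Fin 2) → ℤ_[2],
      red2 (y ⬝ᵥ w) = (fun i => red2 (y i)) ⬝ᵥ fun i => red2 (w i) := by
    intro y w
    exact RingHom.map_dotProduct red2 y w
  have e3 : ∀ y w : (ι → Fin 2) → ZMod 2, eL L y w = y ⬝ᵥ (L.J.map red2).mulVec w := by
    intro y w
    rw [eL, Matrix.toLinearMap₂'_apply']
  have key3 := congrArg red2 key2
  rw [e2, e2, e1, e1, e1, ins_map] at key3
  have hX1 : (fun i => red2 (x1 i)) = x.1 := funext hx1'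
  have hX2 : (fun i => red2 (x2 i)) = x.2 := funext hx2'
  rw [hX1, hX2] at key3
  rw [e3, e3]
  exact key3

/-- the order of `W ∩ R` is a power of `4` -/
theorem locB_card (h2 : (2 : k) ≠ 0) (hL : LatK Ω L c) (hok : (sysL Ω L c).Ok)
    (hι : 2 ≤ Fintype.card ι) (hJ : L.J = kron fun _ => J2 ℤ_[2])
    {chi : (Ω ≃ₐ[RatFunc k] Ω) → ZMod 2} (hchi : (sysL Ω L c).HomG chi)
    {v : Place k (RatFunc k)} {j : ι} {nu : Matrix (Fin 2) (Fin 2) ℤ_[2]} (hnu : nu * nu = 0)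
    (hnu2 : nu.map red2 = Ma ∨ nu.map red2 = Mb ∨ nu.map red2 = Mab)
    (hv : L.rho (sg Ω v) = 1 + (2 : ℤ_[2]) • ins j nu)
    (hph : L.rho (ph Ω v) * ins j nu =
      (resCard (below (RatFunc k) (ab Ω v)) : ℤ_[2]) • (ins j nu * L.rho (ph Ω v)))
    (h0 : chi (sg Ω v) = 0) :
    ∃ r, Nat.card {x : ((ι → Fin 2) → ZMod 2) × ((ι → Fin 2) → ZMod 2) //
      x ∈ (sysL Ω L c).Wl chi v ∧ x.1 = 0} = 4 ^ r := by
  classical
  set S := sysL Ω L c with hS
  set N : Matrix (ι → Fin 2) (ι → Fin 2) (ZMod 2) := ins j (nu.map red2) with hN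
  let f : S.W chi v →+ ((ι → Fin 2) → ZMod 2) := (AddMonoidHom.fst _ _).comp (S.W chi v).subtype
  let g : ((ι → Fin 2) → ZMod 2) →+ ((ι → Fin 2) → ZMod 2) := N.mulVecLin.toAddMonoidHom
  have hg : ∀ y, g y = N.mulVec y := fun y => rfl
  -- the kernel of `g` is its image
  have h1 : Nat.card g.ker = Nat.card g.range := by
    have : g.ker = g.range := by
      ext y
      rw [AddMonoidHom.mem_ker, AddMonoidHom.mem_range, hg, LocB_ker hnu2 j y]
      exact ⟨fun ⟨z, hz⟩ => ⟨z, hz.symm⟩, fun ⟨z, hz⟩ => ⟨z, hz.symm⟩⟩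
    rw [this]
  -- the first projection of `W`
  have h3 : f.range = g.range := by
    apply le_antisymm
    · rintro _ ⟨⟨x, hx⟩, rfl⟩
      obtain ⟨y, hy⟩ := locB_im h2 hL hnu hnu2 hv h0 hx
      exact ⟨y, hy.symm⟩
    · rintro _ ⟨w, rfl⟩
      obtain ⟨Q, hQ⟩ := hok.half (S.iota w)
      have e1 : ∀ s, (2 : ℕ) • dl chi Q s = 0 := by
        intro s
        rw [← dl_nsmul, hQ, Sys.dl_iota hok]
      obtain ⟨w', hw'⟩ := hok.iota_range _ (e1 (S.phi v))
      refine ⟨⟨(N.mulVec w, w'), Q, fun s _ => e1 s, ?_, hw'.symm⟩, rfl⟩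
      have e2 : (2 : ℤ_[2]) • (show (ι → Fin 2) → QZ from Q) = fun i => hf2 (w i) := by
        have e3 : (2 : ℕ) • (show (ι → Fin 2) → QZ from Q) = fun i => hf2 (w i) := hQ
        rw [← e3, two_smul, two_smul]
      refine (LocB_dl hv h0 Q).trans ?_
      have e4 := mact_hf2 (ins j nu) w
      rw [ins_map, ← e2] at e4
      exact e4
  have h4 := Sys.card_hom f
  have h5 := Sys.card_hom g
  have h6 : Nat.card (S.W chi v) = Nat.card ((ι → Fin 2) → ZMod 2) := Sys.card_W hok hchi v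
  rw [h1] at h5
  rw [h3, h6, ← h5] at h4
  have hpos : 0 < Nat.card g.range := Nat.card_pos
  have h7 : Nat.card f.ker = Nat.card g.range := Nat.eq_of_mul_eq_mul_right hpos h4
  have h8 : Nat.card {x : ((ι → Fin 2) → ZMod 2) × ((ι → Fin 2) → ZMod 2) //
      x ∈ S.Wl chi v ∧ x.1 = 0} = Nat.card f.ker := by
    refine Nat.card_congr ⟨fun x => ⟨⟨x.1, x.2.1⟩, x.2.2⟩, fun x => ⟨x.1.1, x.1.2, x.2⟩,
      fun _ => rfl, fun _ => rfl⟩
  rw [h8, h7]
  obtain ⟨n, hn⟩ : ∃ n, Fintype.card ι = n + 2 := ⟨_, (Nat.sub_add_cancel hι).symm⟩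
  refine ⟨2 ^ n, ?_⟩
  have h9 : Nat.card ((ι → Fin 2) → ZMod 2) = (4 ^ 2 ^ n) ^ 2 := by
    rw [Nat.card_eq_fintype_card, Fintype.card_pi, Finset.prod_const, ZMod.card, Finset.card_univ,
      Fintype.card_pi, Finset.prod_const, Fintype.card_fin, Finset.card_univ, hn]
    have : (4 : ℕ) = 2 ^ 2 := rfl
    rw [this, ← pow_mul, ← pow_mul]
    congr 1
    ring
  rw [h9, ← sq] at h5
  exact Nat.pow_left_injective (n := 2) (by norm_num) h5

end LocB

end Pool.Agent.TTC
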