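import Pool.Agent.Lib.TTC.Fam

/-!
# Project TTC (MP_950c68_ag), module QRec: global reciprocity for the quadratic form
`q_v (x) = e (x1, x2) + eps_v Q (x1)`

It is additive in the global homomorphism by `Sys.Ok.recip`, and it vanishes on `chi ⊗ e_a`.
-/

set_option autoImplicit false

namespace Pool.Agent.TTC

open Pool.Agent.SmJ

section QRec

variable {G V Pl : Type} [Group G] [AddCommGroup V] [DistribMulAction G V]
  {ι : Type} [Fintype ι] [DecidableEq ι] {S : Sys G V ((ι → Fin 2) → ZMod 2) Pl}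

private theorem QRec_J2 (x y : Fin 2) : J2 (ZMod 2) x y = if y = 1 - x then 1 else 0 := by
  have h1 : (-1 : ZMod 2) = 1 := by decide
  fin_cases x <;> fin_cases y <;> simp [J2, h1]

private theorem QRec_kron (a b : ι → Fin 2) :
    kron (fun _ : ι => J2 (ZMod 2)) a b = if b = fun i => 1 - a i then 1 else 0 := by
  rw [kron_apply]
  simp only [QRec_J2]
  split_ifs with h
  · exact Finset.prod_eq_one fun i _ => if_pos (congrFun h i)
  · obtain ⟨i, hi⟩ := Function.ne_iff.mp h
    exact Finset.prod_eq_zero (Finset.mem_univ i) (if_neg hi)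

private theorem QRec_form (x y : (ι → Fin 2) → ZMod 2) :
    Matrix.toLinearMap₂' (ZMod 2) (kron fun _ : ι => J2 (ZMod 2)) x y =
      ∑ a, x a * y (fun i => 1 - a i) := by
  rw [Matrix.toLinearMap₂'_apply]
  refine Finset.sum_congr rfl fun a _ => ?_
  simp only [QRec_kron, smul_eq_mul, mul_ite, mul_one, mul_zero, Finset.sum_ite_eq',
    Finset.mem_univ, if_true]

omit [Fintype ι] [DecidableEq ι] in
private theorem QRec_bar (a : ι → Fin 2) : (fun i => 1 - (fun i => 1 - a i) i) = a :=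
  funext fun i => sub_sub_cancel 1 (a i)

private theorem QRec_split (i₀ : ι) (f : (ι → Fin 2) → ZMod 2) :
    ∑ a, f a = ∑ a ∈ Finset.univ.filter (fun a : ι → Fin 2 => a i₀ = 0),
      (f a + f fun i => 1 - a i) := by
  rw [Finset.sum_add_distrib, ← Finset.sum_filter_add_sum_filter_not Finset.univ
    (fun a : ι → Fin 2 => a i₀ = 0) f]
  congr 1
  refine Finset.sum_nbij' (fun a i => 1 - a i) (fun a i => 1 - a i) ?_ ?_ ?_ ?_ ?_
  · intro a ha
    simp only [Finset.mem_filter, Finset.mem_univ, true_and] at ha ⊢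
    revert ha
    generalize a i₀ = z
    revert z
    decide
  · intro a ha
    simp only [Finset.mem_filter, Finset.mem_univ, true_and] at ha ⊢
    revert ha
    generalize a i₀ = z
    revert z
    decide
  · intro a _
    exact QRec_bar a
  · intro a _
    exact QRec_bar a
  · intro a _
    exact congrArg f (QRec_bar a).symm

private theorem QRec_add (i₀ : ι) (x y : (ι → Fin 2) → ZMod 2) :
    qf i₀ (x + y) = qf i₀ x + qf i₀ y +
    Matrix.toLinearMap₂' (ZMod 2) (kron fun _ : ι => J2 (ZMod 2)) x y := by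
  rw [QRec_form, QRec_split i₀ fun a => x a * y fun i => 1 - a i, qf, qf, qf,
    ← Finset.sum_add_distrib, ← Finset.sum_add_distrib]
  refine Finset.sum_congr rfl fun a _ => ?_
  beta_reduce
  rw [QRec_bar a, Pi.add_apply, Pi.add_apply]
  ring

private theorem QRec_qf_zero (i₀ : ι) : qf i₀ (0 : (ι → Fin 2) → ZMod 2) = 0 := by
  simp [qf]

private theorem QRec_qf_single (i₀ : ι) (a : ι → Fin 2) (x : ZMod 2) :
    qf i₀ (Pi.single a x) = 0 := by
  refine Finset.sum_eq_zero fun b _ => ?_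
  by_cases hb : b = a
  · have h1 : (fun i => 1 - b i) ≠ a := by
      intro h2
      have h3 := congrFun (h2.trans hb.symm) i₀
      revert h3
      generalize b i₀ = z
      revert z
      decide
    rw [Pi.single_eq_of_ne h1, mul_zero]
  · rw [Pi.single_eq_of_ne hb, zero_mul]

private theorem QRec_one {A : Type} [AddCommGroup A] {c : G → A}
    (hc : ∀ s t, c (s * t) = c s + c t) : c 1 = 0 := by
  have h := hc 1 1
  rw [mul_one] at h
  exact left_eq_add.mp h

omit [Fintype ι] [DecidableEq ι] in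
private theorem QRec_ker {c : G → (ι → Fin 2) → ZMod 2} (hc : S.HomG c) :
    ∃ N ∈ S.NN, ∀ n ∈ N, c n = 0 := by
  obtain ⟨⟨N, hN, h1⟩, h2⟩ := hc
  refine ⟨N, hN, fun n hn => ?_⟩
  have h3 := h1 1 n hn
  rw [one_mul, QRec_one h2] at h3
  exact h3

private def QRec_q (S : Sys G V ((ι → Fin 2) → ZMod 2) Pl) (i₀ : ι)
    (c : G → (ι → Fin 2) → ZMod 2) (v : Pl) : ZMod 2 :=
  S.e (c (S.sg v)) (c (S.phi v)) + S.eps v * qf i₀ (c (S.sg v))

private theorem QRec_fin (h : S.Ok) (i₀ : ι) {c : G → (ι → Fin 2) → ZMod 2} (hc : S.HomG c) :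
    (Function.support (QRec_q S i₀ c)).Finite := by
  obtain ⟨N, hN, h1⟩ := QRec_ker hc
  refine (h.unr N hN).subset fun v hv hm => hv ?_
  rw [QRec_q, h1 _ hm, map_zero, LinearMap.zero_apply, QRec_qf_zero, mul_zero, add_zero]

omit [Fintype ι] [DecidableEq ι] in
private theorem QRec_fin2 (h : S.Ok) {c d : G → (ι → Fin 2) → ZMod 2} (hc : S.HomG c)
    (hd : S.HomG d) : (Function.support fun v => S.sy v (S.loc v c) (S.loc v d)).Finite := by
  obtain ⟨N, hN, h1⟩ := QRec_ker hc
  obtain ⟨N', hN', h2⟩ := QRec_ker hd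
  refine ((h.unr N hN).union (h.unr N' hN')).subset fun v hv => ?_
  by_contra hm
  simp only [Set.mem_union, Set.mem_ofPred_eq, not_or, not_not] at hm
  refine hv ?_
  simp only [Sys.sy, sym, Sys.loc, h1 _ hm.1, h2 _ hm.2, map_zero, LinearMap.zero_apply, mul_zero,
    add_zero]

omit [Fintype ι] [DecidableEq ι] in
private theorem QRec_swap (h : S.Ok) (x y : (ι → Fin 2) → ZMod 2) : S.e x y = S.e y x := by
  have h1 := h.e_alt (x + y)
  rw [map_add, map_add, LinearMap.add_apply, LinearMap.add_apply, h.e_alt, h.e_alt, zero_add,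
    add_zero] at h1
  have h2 := eq_neg_of_add_eq_zero_left h1
  rw [ZMod.neg_eq_self_mod_two] at h2
  exact h2.symm

private theorem QRec_q_add (h : S.Ok) (i₀ : ι)
    (he : S.e = Matrix.toLinearMap₂' (ZMod 2) (kron fun _ : ι => J2 (ZMod 2)))
    (c d : G → (ι → Fin 2) → ZMod 2) (v : Pl) :
    QRec_q S i₀ (fun s => c s + d s) v = QRec_q S i₀ c v + QRec_q S i₀ d v +
      S.sy v (S.loc v c) (S.loc v d) := by
  simp only [QRec_q, Sys.sy, sym, Sys.loc, QRec_add, ← he, map_add, LinearMap.add_apply]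
  rw [QRec_swap h (d (S.sg v)) (c (S.phi v))]
  ring

private theorem QRec_sum_add (h : S.Ok) (i₀ : ι)
    (he : S.e = Matrix.toLinearMap₂' (ZMod 2) (kron fun _ : ι => J2 (ZMod 2)))
    {c d : G → (ι → Fin 2) → ZMod 2} (hc : S.HomG c) (hd : S.HomG d) :
    ∑ᶠ v, QRec_q S i₀ (fun s => c s + d s) v =
      ∑ᶠ v, QRec_q S i₀ c v + ∑ᶠ v, QRec_q S i₀ d v := by
  have h1 : (fun v => QRec_q S i₀ (fun s => c s + d s) v) = fun v =>
      (QRec_q S i₀ c v + QRec_q S i₀ d v) + S.sy v (S.loc v c) (S.loc v d) :=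
    funext fun v => QRec_q_add h i₀ he c d v
  rw [h1, finsum_add_distrib _ (QRec_fin2 h hc hd), h.recip c d hc hd, add_zero,
    finsum_add_distrib (QRec_fin h i₀ hc) (QRec_fin h i₀ hd)]
  exact ((QRec_fin h i₀ hc).union (QRec_fin h i₀ hd)).subset
    (Function.support_add (QRec_q S i₀ c) (QRec_q S i₀ d))

private theorem QRec_single (h : S.Ok) (i₀ : ι) (c : G → (ι → Fin 2) → ZMod 2)
    (a : ι → Fin 2) (v : Pl) : QRec_q S i₀ (fun s => Pi.single a (c s a)) v = 0 := by
  have h1 : ∀ x : ZMod 2, (Pi.single a x : (ι → Fin 2) → ZMod 2) = x • Pi.single a 1 := by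
    intro x
    rw [← Pi.single_smul, smul_eq_mul, mul_one]
  rw [QRec_q, QRec_qf_single, mul_zero, add_zero]
  rw [h1 (c (S.sg v) a), h1 (c (S.phi v) a), map_smul, map_smul, LinearMap.smul_apply, h.e_alt,
    smul_zero, smul_zero]

omit [DecidableEq ι] in
private theorem QRec_homG_part {c : G → (ι → Fin 2) → ZMod 2} (hc : S.HomG c)
    (s : Finset (ι → Fin 2)) : S.HomG fun g => ∑ a ∈ s, Pi.single a (c g a) := by
  obtain ⟨⟨N, hN, h1⟩, h2⟩ := hc
  refine ⟨⟨N, hN, fun g n hn => ?_⟩, fun g t => ?_⟩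
  · beta_reduce
    rw [h1 g n hn]
  · beta_reduce
    rw [h2 g t, ← Finset.sum_add_distrib]
    exact Finset.sum_congr rfl fun a _ => by rw [Pi.add_apply, Pi.single_add]

theorem q_recip (h : S.Ok) [Nonempty ι] (i₀ : ι)
    (he : S.e = Matrix.toLinearMap₂' (ZMod 2) (kron fun _ : ι => J2 (ZMod 2)))
    (c : G → (ι → Fin 2) → ZMod 2) (hc : S.HomG c) :
    ∑ᶠ v, (S.e (c (S.sg v)) (c (S.phi v)) + S.eps v * qf i₀ (c (S.sg v))) = 0 := by
  have key : ∀ s : Finset (ι → Fin 2),
      ∑ᶠ v, QRec_q S i₀ (fun g => ∑ a ∈ s, Pi.single a (c g a)) v = 0 := by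
    intro s
    induction s using Finset.induction_on with
    | empty =>
      refine (finsum_congr fun v => ?_).trans finsum_zero
      simp only [Finset.sum_empty, QRec_q, map_zero, QRec_qf_zero, mul_zero, add_zero]
    | insert a s ha ih =>
      have h1 : (fun g : G => ∑ b ∈ insert a s, (Pi.single b (c g b) : (ι → Fin 2) → ZMod 2)) =
          fun g => Pi.single a (c g a) + ∑ b ∈ s, Pi.single b (c g b) :=
        funext fun g => Finset.sum_insert ha
      have h2 : S.HomG fun g => (Pi.single a (c g a) : (ι → Fin 2) → ZMod 2) := by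
        have h3 := QRec_homG_part hc {a}
        simpa only [Finset.sum_singleton] using h3
      rw [h1, QRec_sum_add h i₀ he h2 (QRec_homG_part hc s), ih, add_zero]
      exact (finsum_congr fun v => QRec_single h i₀ c a v).trans finsum_zero
  have h1 := key Finset.univ
  have h2 : (fun g : G => ∑ a, (Pi.single a (c g a) : (ι → Fin 2) → ZMod 2)) = c :=
    funext fun g => Finset.univ_sum_single (c g)
  rw [h2] at h1
  exact h1

end QRec

end Pool.Agent.TTC
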