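import Pool.Agent.Lib.TTC.Fam

/-!
# Project TTC (MP_950c68_ag), module QfT: the quadratic form (paper section 5)

The quadratic form `qf` on `(ι → Fin 2) → ZMod 2` refines the form `kron J2`; for `ν = ins i B` one has
`e (y, ν y) = tr B * qf y` and, if `det B = 0`, `qf (ν y) = 0`.
-/

set_option autoImplicit false

open Polynomial

namespace Pool.Agent.TTC

open Pool.Agent.BSDFF Pool.Agent.Lib.SmD

section QfT

variable {ι : Type} [Fintype ι] [DecidableEq ι]

private def QfT_bar (a : ι → Fin 2) : ι → Fin 2 := fun i => 1 - a i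

omit [Fintype ι] [DecidableEq ι] in
private theorem QfT_bar_bar (a : ι → Fin 2) : QfT_bar (QfT_bar a) = a := by
  funext i
  simp only [QfT_bar, sub_sub_cancel]

private theorem QfT_fin (s : Fin 2) (h : s ≠ 0) : 1 - s = 0 := by
  revert h
  revert s
  decide

private theorem QfT_fin' (s : Fin 2) : 1 - s ≠ s := by
  revert s
  decide

private theorem QfT_J2 (s t : Fin 2) : J2 (ZMod 2) s t = if t = 1 - s then 1 else 0 := by
  have h1 : (-1 : ZMod 2) = 1 := by decide
  fin_cases s <;> fin_cases t <;> simp [J2, h1]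

private theorem QfT_e (x y : (ι → Fin 2) → ZMod 2) :
    Matrix.toLinearMap₂' (ZMod 2) (kron fun _ : ι => J2 (ZMod 2)) x y =
      ∑ a, x a * y (QfT_bar a) := by
  rw [Matrix.toLinearMap₂'_apply]
  refine Finset.sum_congr rfl fun a _ => ?_
  rw [Finset.sum_eq_single (QfT_bar a)]
  · have h : kron (fun _ : ι => J2 (ZMod 2)) a (QfT_bar a) = 1 := by
      rw [kron_apply]
      refine Finset.prod_eq_one fun i _ => ?_
      rw [QfT_J2]
      exact if_pos rfl
    rw [h]
    simp only [smul_eq_mul, mul_one]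
  · intro b _ hb
    have h : kron (fun _ : ι => J2 (ZMod 2)) a b = 0 := by
      rw [kron_apply]
      obtain ⟨i, hi⟩ := Function.ne_iff.mp hb
      refine Finset.prod_eq_zero (Finset.mem_univ i) ?_
      rw [QfT_J2]
      exact if_neg hi
    rw [h]
    simp only [smul_eq_mul, mul_zero]
  · intro h
    exact absurd (Finset.mem_univ _) h

private theorem QfT_split (i₀ : ι) (F : (ι → Fin 2) → ZMod 2) :
    ∑ a, F a = ∑ a ∈ Finset.univ.filter (fun a : ι → Fin 2 => a i₀ = 0), (F a + F (QfT_bar a)) := by
  rw [Finset.sum_add_distrib, ← Finset.sum_filter_add_sum_filter_not Finset.univ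
    (fun a : ι → Fin 2 => a i₀ = 0)]
  congr 1
  refine Finset.sum_nbij' QfT_bar QfT_bar ?_ ?_ ?_ ?_ ?_
  · intro a ha
    rw [Finset.mem_filter] at ha ⊢
    exact ⟨Finset.mem_univ _, QfT_fin _ ha.2⟩
  · intro a ha
    rw [Finset.mem_filter] at ha ⊢
    refine ⟨Finset.mem_univ _, fun h => ?_⟩
    change 1 - a i₀ = 0 at h
    rw [ha.2] at h
    exact absurd h (by decide)
  · intro a _
    exact QfT_bar_bar a
  · intro a _
    exact QfT_bar_bar a
  · intro a _
    rw [QfT_bar_bar]

private theorem QfT_qf (i₀ : ι) (w : (ι → Fin 2) → ZMod 2) : qf i₀ w =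
    ∑ a ∈ Finset.univ.filter (fun a : ι → Fin 2 => a i₀ = 0), w a * w (QfT_bar a) := rfl

/-- the choice of the index does not matter -/
private theorem QfT_indep (i₀ i₁ : ι) (w : (ι → Fin 2) → ZMod 2) : qf i₀ w = qf i₁ w := by
  rw [QfT_qf, QfT_qf]
  refine Finset.sum_nbij' (fun a => if a i₁ = 0 then a else QfT_bar a)
    (fun a => if a i₀ = 0 then a else QfT_bar a) ?_ ?_ ?_ ?_ ?_
  · intro a ha
    rw [Finset.mem_filter]
    refine ⟨Finset.mem_univ _, ?_⟩
    by_cases h : a i₁ = 0
    · rw [if_pos h]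
      exact h
    · rw [if_neg h]
      exact QfT_fin _ h
  · intro a ha
    rw [Finset.mem_filter]
    refine ⟨Finset.mem_univ _, ?_⟩
    by_cases h : a i₀ = 0
    · rw [if_pos h]
      exact h
    · rw [if_neg h]
      exact QfT_fin _ h
  · intro a ha
    rw [Finset.mem_filter] at ha
    by_cases h : a i₁ = 0
    · simp only [if_pos h, if_pos ha.2]
    · have h1 : ¬ (QfT_bar a) i₀ = 0 := by
        intro h2
        change 1 - a i₀ = 0 at h2
        rw [ha.2] at h2
        exact absurd h2 (by decide)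
      simp only [if_neg h, if_neg h1, QfT_bar_bar]
  · intro a ha
    rw [Finset.mem_filter] at ha
    by_cases h : a i₀ = 0
    · simp only [if_pos h, if_pos ha.2]
    · have h1 : ¬ (QfT_bar a) i₁ = 0 := by
        intro h2
        change 1 - a i₁ = 0 at h2
        rw [ha.2] at h2
        exact absurd h2 (by decide)
      simp only [if_neg h, if_neg h1, QfT_bar_bar]
  · intro a ha
    by_cases h : a i₁ = 0
    · simp only [if_pos h]
    · simp only [if_neg h, QfT_bar_bar]
      exact mul_comm _ _

private theorem QfT_ins (i : ι) (B : Matrix (Fin 2) (Fin 2) (ZMod 2))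
    (y : (ι → Fin 2) → ZMod 2) (c : ι → Fin 2) :
    ((ins i B).mulVec y) c = ∑ s, B (c i) s * y (Function.update c i s) := by
  have h : ∀ b : ι → Fin 2, (ins i B) c b * y b =
      if ∀ j, j ≠ i → c j = b j then B (c i) (b i) * y b else 0 := by
    intro b
    rw [ins, Matrix.of_apply]
    split_ifs
    · rfl
    · exact zero_mul _
  rw [Matrix.mulVec, dotProduct, Finset.sum_congr rfl fun b _ => h b, ← Finset.sum_filter]
  refine Finset.sum_nbij' (fun b => b i) (fun s => Function.update c i s) ?_ ?_ ?_ ?_ ?_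
  · intro b _
    exact Finset.mem_univ _
  · intro s _
    rw [Finset.mem_filter]
    refine ⟨Finset.mem_univ _, fun j hj => ?_⟩
    rw [Function.update_of_ne hj]
  · intro b hb
    rw [Finset.mem_filter] at hb
    funext j
    by_cases hj : j = i
    · subst hj
      rw [Function.update_self]
    · rw [Function.update_of_ne hj]
      exact hb.2 j hj
  · intro s _
    exact Function.update_self _ _ _
  · intro b hb
    rw [Finset.mem_filter] at hb
    have : Function.update c i (b i) = b := by
      funext j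
      by_cases hj : j = i
      · subst hj
        rw [Function.update_self]
      · rw [Function.update_of_ne hj]
        exact hb.2 j hj
    rw [this]

theorem qf_add (i₀ : ι) (x y : (ι → Fin 2) → ZMod 2) : qf i₀ (x + y) = qf i₀ x + qf i₀ y +
    Matrix.toLinearMap₂' (ZMod 2) (kron fun _ : ι => J2 (ZMod 2)) x y := by
  rw [QfT_e, QfT_split i₀, QfT_qf, QfT_qf, QfT_qf, ← Finset.sum_add_distrib,
    ← Finset.sum_add_distrib]
  refine Finset.sum_congr rfl fun a _ => ?_
  rw [QfT_bar_bar, Pi.add_apply, Pi.add_apply]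
  ring

private theorem QfT_self (y : (ι → Fin 2) → ZMod 2) (i₀ : ι) :
    Matrix.toLinearMap₂' (ZMod 2) (kron fun _ : ι => J2 (ZMod 2)) y y = 0 := by
  have h := qf_add i₀ y y
  have h2 : y + y = 0 := CharTwo.add_self_eq_zero y
  have h3 : qf i₀ (0 : (ι → Fin 2) → ZMod 2) = 0 := by
    rw [QfT_qf]
    refine Finset.sum_eq_zero fun a _ => ?_
    rw [Pi.zero_apply, zero_mul]
  rw [h2, h3, CharTwo.add_self_eq_zero, zero_add] at h
  exact h.symm

/-- `e (y, ins i B y) = tr B * qf y` -/
theorem e_ins (i₀ : ι) (hι : 2 ≤ Fintype.card ι) (i : ι) (B : Matrix (Fin 2) (Fin 2) (ZMod 2))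
    (y : (ι → Fin 2) → ZMod 2) : Matrix.toLinearMap₂' (ZMod 2) (kron fun _ : ι => J2 (ZMod 2)) y
      ((ins i B).mulVec y) = B.trace * qf i₀ y := by
  obtain ⟨j, hj⟩ : ∃ j : ι, j ≠ i := by
    have : Nontrivial ι := Fintype.one_lt_card_iff_nontrivial.mp (by omega)
    exact exists_ne i
  have h1 : ∀ a : ι → Fin 2, y a * ((ins i B).mulVec y) (QfT_bar a) =
      B (1 - a i) (1 - a i) * (y a * y (QfT_bar a)) +
        B (1 - a i) (a i) * (y a * y (Function.update (QfT_bar a) i (a i))) := by
    intro a
    rw [QfT_ins]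
    have h2 : ∀ f : Fin 2 → ZMod 2, ∑ s, f s = f (1 - a i) + f (a i) := by
      intro f
      rw [Fin.sum_univ_two]
      have h3 : ∀ s : Fin 2, f 0 + f 1 = f (1 - s) + f s := by
        intro s
        fin_cases s
        · exact add_comm _ _
        · rfl
      exact h3 _
    rw [h2]
    have h4 : Function.update (QfT_bar a) i (1 - a i) = QfT_bar a := by
      have : (1 - a i : Fin 2) = QfT_bar a i := rfl
      rw [this, Function.update_eq_self]
    rw [h4]
    change y a * (B (1 - a i) (1 - a i) * y (QfT_bar a) +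
      B (1 - a i) (a i) * y (Function.update (QfT_bar a) i (a i))) = _
    ring
  rw [QfT_e, Finset.sum_congr rfl fun a _ => h1 a, Finset.sum_add_distrib]
  have h5 : ∑ a : ι → Fin 2, B (1 - a i) (a i) *
      (y a * y (Function.update (QfT_bar a) i (a i))) = 0 := by
    refine Finset.sum_involution (fun a _ => Function.update (QfT_bar a) i (a i)) ?_ ?_ ?_ ?_
    · intro a _
      have h6 : Function.update (QfT_bar (Function.update (QfT_bar a) i (a i))) i
          ((Function.update (QfT_bar a) i (a i)) i) = a := by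
        funext l
        by_cases hl : l = i
        · subst hl
          rw [Function.update_self, Function.update_self]
        · rw [Function.update_of_ne hl]
          change 1 - (Function.update (QfT_bar a) i (a i)) l = a l
          rw [Function.update_of_ne hl]
          change 1 - (1 - a l) = a l
          rw [sub_sub_cancel]
      rw [h6, Function.update_self, mul_comm (y (Function.update (QfT_bar a) i (a i))) (y a)]
      exact CharTwo.add_self_eq_zero _
    · intro a _ _ h6
      have h7 := congrFun h6 j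
      rw [Function.update_of_ne hj] at h7
      exact QfT_fin' _ h7
    · intro a _
      exact Finset.mem_univ _
    · intro a _
      funext l
      by_cases hl : l = i
      · subst hl
        rw [Function.update_self, Function.update_self]
      · rw [Function.update_of_ne hl]
        change 1 - (Function.update (QfT_bar a) i (a i)) l = a l
        rw [Function.update_of_ne hl]
        change 1 - (1 - a l) = a l
        rw [sub_sub_cancel]
  rw [h5, add_zero, QfT_split i₀, QfT_qf, Finset.mul_sum]
  refine Finset.sum_congr rfl fun a _ => ?_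
  have h8 : (QfT_bar a) i = 1 - a i := rfl
  have h9 : B.trace = B (1 - a i) (1 - a i) + B (a i) (a i) := by
    rw [Matrix.trace_fin_two]
    have h3 : ∀ s : Fin 2, B 0 0 + B 1 1 = B (1 - s) (1 - s) + B s s := by
      intro s
      fin_cases s
      · exact add_comm _ _
      · rfl
    exact h3 _
  rw [h8, sub_sub_cancel, QfT_bar_bar, h9]
  ring

/-- `Q (ν y) = 0` for `ν = ins i B`, `det B = 0` -/
theorem qf_ins (i₀ : ι) (hι : 2 ≤ Fintype.card ι) (i : ι) {B : Matrix (Fin 2) (Fin 2) (ZMod 2)}
    (hB : B.det = 0) (y : (ι → Fin 2) → ZMod 2) : qf i₀ ((ins i B).mulVec y) = 0 := by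
  obtain ⟨j, hj⟩ : ∃ j : ι, j ≠ i := by
    have : Nontrivial ι := Fintype.one_lt_card_iff_nontrivial.mp (by omega)
    exact exists_ne i
  rw [QfT_indep i₀ j, QfT_qf]
  refine Finset.sum_involution (fun a _ => Function.update a i (1 - a i)) ?_ ?_ ?_ ?_
  · intro a _
    have h1 : QfT_bar (Function.update a i (1 - a i)) = Function.update (QfT_bar a) i (a i) := by
      funext l
      by_cases hl : l = i
      · subst hl
        rw [Function.update_self]
        change 1 - (Function.update a l (1 - a l)) l = a l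
        rw [Function.update_self, sub_sub_cancel]
      · rw [Function.update_of_ne hl]
        change 1 - (Function.update a i (1 - a i)) l = 1 - a l
        rw [Function.update_of_ne hl]
    rw [h1, QfT_ins, QfT_ins, QfT_ins, QfT_ins, Function.update_self, Function.update_self]
    simp only [Function.update_idem, Fin.sum_univ_two]
    have h2 : (QfT_bar a) i = 1 - a i := rfl
    have h20 : (2 : ZMod 2) = 0 := rfl
    rw [h2]
    rw [Matrix.det_fin_two] at hB
    generalize y (Function.update a i 0) = Y0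
    generalize y (Function.update a i 1) = Y1
    generalize y (Function.update (QfT_bar a) i 0) = Z0
    generalize y (Function.update (QfT_bar a) i 1) = Z1
    have h3 : ∀ s : Fin 2, (B s 0 * Y0 + B s 1 * Y1) * (B (1 - s) 0 * Z0 + B (1 - s) 1 * Z1) +
        (B (1 - s) 0 * Y0 + B (1 - s) 1 * Y1) * (B s 0 * Z0 + B s 1 * Z1) = 0 := by
      intro s
      have h4 : (B 0 0 * Y0 + B 0 1 * Y1) * (B 1 0 * Z0 + B 1 1 * Z1) +
          (B 1 0 * Y0 + B 1 1 * Y1) * (B 0 0 * Z0 + B 0 1 * Z1) = 0 := by
        linear_combination (Y0 * Z1 + Y1 * Z0) * hB + (B 0 0 * B 1 0 * Y0 * Z0 +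
          B 0 1 * B 1 1 * Y1 * Z1 + B 1 0 * B 0 1 * (Y0 * Z1 + Y1 * Z0)) * h20
      fin_cases s
      · exact h4
      · rw [add_comm]
        exact h4
    exact h3 _
  · intro a _ _ h6
    have h7 := congrFun h6 i
    rw [Function.update_self] at h7
    exact QfT_fin' _ h7
  · intro a ha
    rw [Finset.mem_filter] at ha ⊢
    refine ⟨Finset.mem_univ _, ?_⟩
    rw [Function.update_of_ne hj]
    exact ha.2
  · intro a _
    rw [Function.update_self, Function.update_idem, sub_sub_cancel, Function.update_eq_self]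

/-- `e (y, κ y) = χ_(-1) qf y` -/
theorem e_kapT {k : Type} [Field k] (Ω : Type) [Field Ω] [Algebra (RatFunc k) Ω] (i₀ : ι)
    (a b : ι → k[X]) {m : ℕ} (hm : Fintype.card ι = 2 * m + 1) (hm1 : 1 ≤ m)
    (s : Ω ≃ₐ[RatFunc k] Ω) (y : (ι → Fin 2) → ZMod 2) :
    Matrix.toLinearMap₂' (ZMod 2) (kron fun _ : ι => J2 (ZMod 2)) y
      ((kapT Ω a b m s).mulVec y) = chf Ω (-1) s * qf i₀ y := by
  have h2 : (2 : ZMod 2) = 0 := rfl
  rw [kapT, Matrix.add_mulVec, map_add, Matrix.smul_mulVec, map_smul, Matrix.one_mulVec,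
    QfT_self y i₀, smul_zero, add_zero, Matrix.sum_mulVec, map_sum]
  rw [Finset.sum_congr rfl fun j _ => e_ins i₀ (by omega) j _ y]
  have h3 : ∀ j : ι, (chf Ω (a j) s • Ma + chf Ω (b j) s • Mb + chf Ω (a j - b j) s • Mab +
      chf Ω (-1) s • M1).trace = chf Ω (-1) s := by
    intro j
    rw [Matrix.trace_fin_two]
    have h4 : Ma 0 0 = 1 ∧ Ma 1 1 = 1 ∧ Mb 0 0 = 0 ∧ Mb 1 1 = 0 ∧ Mab 0 0 = 0 ∧ Mab 1 1 = 0 ∧
        M1 0 0 = 1 ∧ M1 1 1 = 0 := ⟨rfl, rfl, rfl, rfl, rfl, rfl, rfl, rfl⟩
    obtain ⟨h5, h6, h7, h8, h9, h10, h11, h12⟩ := h4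
    simp only [Matrix.add_apply, Matrix.smul_apply, smul_eq_mul, h5, h6, h7, h8, h9, h10, h11, h12]
    linear_combination chf Ω (a j) s * h2
  rw [Finset.sum_congr rfl fun j _ => by rw [h3 j]]
  rw [Finset.sum_const, Finset.card_univ, hm, nsmul_eq_mul]
  push_cast
  rw [h2, zero_mul, zero_add, one_mul]

end QfT

end Pool.Agent.TTC
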