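import Pool.Agent.Lib.TTC.ParAbs
import Pool.Agent.Lib.TTC.QfT
import Pool.Agent.Lib.TTC.QRec
import Pool.Agent.Lib.TTC.LocA
import Pool.Agent.Lib.TTC.LocB
import Pool.Agent.Lib.TTC.LatKT
import Pool.Agent.Lib.SmJ.L.HalfAbs
import Pool.Agent.Lib.Sm.Inst.ChInst
import Pool.Agent.Lib.SmF.Inst

/-!
# Project TTC (MP_950c68_ag), module EvenT: every 2-Selmer group has even dimension

`even_T`: the 2-Selmer group of the twist by `D` (prime to the bad polynomials) of the tensor product of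
`2 m + 1 ≥ 3` curves has order a power of `4` (the absolute parity `par_abs`, with the local quadratic
forms `e (x1, x2) + eps v * qf x1`).
-/

set_option autoImplicit false

open Polynomial

namespace Pool.Agent.TTC

open Pool.Agent.BSDFF Pool.Agent.Lib.SmD Pool.Agent.SmJ
open Pool.Agent.SmithE (chP lcz vm Pt)
open Pool.Agent.Sm.Inst (plF)

section EvenT

variable {k : Type} [Field k] [Finite k] {Ω : Type} [Field Ω] [Algebra (RatFunc k) Ω]
  [IsSepClosure (RatFunc k) Ω] [DecidableEq Ω] {ι : Type} [Fintype ι] [DecidableEq ι]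

omit [Finite k] [IsSepClosure (RatFunc k) Ω] in
private theorem EvenT_e {a b : ι → k[X]} (E : ∀ i, EDat Ω (a i) (b i)) (m : ℕ) (c : k[X]) :
    (sysL Ω (latE E m) c).e = Matrix.toLinearMap₂' (ZMod 2) (kron fun _ : ι => J2 (ZMod 2)) := by
  have h1 : (kron (fun _ : ι => J2 ℤ_[2])).map red2 = kron fun _ : ι => J2 (ZMod 2) := by
    rw [kron_map]
    congr 1
    funext _
    ext i j
    fin_cases i <;> fin_cases j <;> simp [J2]
  change Matrix.toLinearMap₂' (ZMod 2) ((kron (fun _ : ι => J2 ℤ_[2])).map red2) = _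
  rw [h1]

private theorem EvenT_dt {B : Matrix (Fin 2) (Fin 2) (ZMod 2)}
    (h : B = Ma ∨ B = Mb ∨ B = Mab) : B.det = 0 ∧ B.trace = 0 := by
  rcases h with rfl | rfl | rfl <;>
    simp [Ma, Mb, Mab, Matrix.det_fin_two, Matrix.trace_fin_two, CharTwo.add_self_eq_zero]

omit [DecidableEq Ω] in
private theorem EvenT_eps (h2 : (2 : k) ≠ 0) (v : Place k (RatFunc k)) :
    chf Ω (-1 : k[X]) (ph Ω v) = SmF.eps v := by
  have h := (SmF.locVals_sg_ph Ω h2).eps_eq h2 v
  rw [← h]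
  change chi (RatFunc k) (algebraMap k[X] (RatFunc k) (-1)) _ = _
  rw [map_neg, map_one]

omit [DecidableEq Ω] in
private theorem EvenT_u (h2 : (2 : k) ≠ 0) {u : k} (hu : u ≠ 0) (v : Place k (RatFunc k)) :
    chP Ω (C u) (sg Ω v) = 0 := by
  have h := (SmF.locVals_sg_ph Ω h2).sg_const v hu
  rw [← h]
  change chi (RatFunc k) (algebraMap k[X] (RatFunc k) (C u)) _ = _
  rw [SmF.polyC]

omit [Finite k] in
/-- The 2-Selmer group is a finite 2-group. -/
private theorem EvenT_fin {G V V1 Pl : Type} [Group G] [AddCommGroup V]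
    [DistribMulAction G V] [AddCommGroup V1] [Module (ZMod 2) V1] {S : Sys G V V1 Pl}
    {ch : k[X] → G → ZMod 2} {d : TwData k V1} {pl : k[X] → Pl} (h : S.Ok) (hc : ChOk S ch d pl)
    {D : k[X]} (hD : D ≠ 0) : ∃ i : ℕ, Nat.card (S.Sel1 h (ch D)) = 2 ^ i := by
  classical
  have hf1 := h.fin1
  set Q : Finset k[X] := Finset.univ.image d.ell ∪ BSDP.R.primesOf D with hQ
  have hQ1 : ∀ P ∈ Q, P.Monic ∧ Irreducible P := by
    intro P hP
    rcases Finset.mem_union.1 hP with hP | hP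
    · obtain ⟨i, -, rfl⟩ := Finset.mem_image.1 hP
      exact ⟨d.ell_monic i, d.ell_irr i⟩
    · have h2 := (BSDP.R.mem_primesOf hD).1 hP
      exact ⟨h2.1, h2.2.1⟩
  have hfin : Finite (S.Sel1 h (ch D)) := by
    let f : V1 × (Q → V1) → (G → V1) := fun x s =>
      ch (C d.u) s • x.1 + ∑ P : Q, ch P.1 s • x.2 P
    have hfin : (Set.range f).Finite := Set.finite_range f
    refine (hfin.subset ?_).to_subtype
    intro b hb
    have hb' : S.IsSel1 (ch D) b := hb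
    obtain ⟨w, hw⟩ := hc.unr_expand_V1 h hb'.1 Q hQ1 (by
      intro P hP hP' hPQ
      rw [hQ, Finset.mem_union, not_or] at hPQ
      have hg : pl P ∈ S.good := (hc.good P hP hP').2 fun i hi =>
        hPQ.1 (Finset.mem_image.2 ⟨i, Finset.mem_univ i, hi.symm⟩)
      have hnd : ¬ P ∣ D := fun hd => hPQ.2 ((BSDP.R.mem_primesOf hD).2 ⟨hP, hP', hd⟩)
      exact (Sys.mem_Wl_good h (hc.hom D hD) hg (hc.sg_off P D hP hP' hnd) _).1
        (hb'.2 (pl P)))
    refine ⟨(w, fun P => b (S.sg (pl P.1))), ?_⟩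
    funext s
    rw [hw s]
    change ch (C d.u) s • w + ∑ P : Q, ch P.1 s • b (S.sg (pl P.1)) = _
    rw [← Finset.sum_coe_sort Q]
  have h2 : ∀ x : S.Sel1 h (ch D), (2 : ℕ) • x = 0 := by
    intro x
    apply Subtype.ext
    funext s
    change (2 : ℕ) • (x.1 s) = 0
    rw [two_nsmul]
    exact ZModModule.add_self _
  let hmod : Module (ZMod 2) (S.Sel1 h (ch D)) := AddCommGroup.zmodModule h2
  have hmf : Module.Finite (ZMod 2) (S.Sel1 h (ch D)) := Module.Finite.of_finite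
  refine ⟨Module.finrank (ZMod 2) (S.Sel1 h (ch D)), ?_⟩
  rw [Module.natCard_eq_pow_finrank (K := ZMod 2), Nat.card_eq_fintype_card, ZMod.card]

private theorem EvenT_sq {i : ℕ} (hi : IsSquare (2 ^ i)) : Even i := by
  obtain ⟨r, hr⟩ := hi
  obtain ⟨a, -, ha⟩ := (Nat.dvd_prime_pow Nat.prime_two).1 (show r ∣ 2 ^ i from ⟨r, hr⟩)
  rw [ha, ← pow_add] at hr
  exact ⟨a, Nat.pow_right_injective le_rfl hr⟩

private theorem EvenT_four {i : ℕ} (hi : Even i) : ∃ r : ℕ, 2 ^ i = 4 ^ r := by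
  obtain ⟨r, rfl⟩ := hi
  exact ⟨r, by rw [← two_mul, pow_mul]; norm_num⟩

private theorem EvenT_prod {α : Type} (T : Finset α) (f : α → ℕ) (h : ∀ x ∈ T, ∃ r, f x = 4 ^ r) :
    ∃ r, ∏ x ∈ T, f x = 4 ^ r := by
  classical
  induction T using Finset.induction_on with
  | empty => exact ⟨0, by simp⟩
  | insert x T hx ih =>
    obtain ⟨r, hr⟩ := h x (Finset.mem_insert_self x T)
    obtain ⟨s, hs⟩ := ih fun y hy => h y (Finset.mem_insert_of_mem hy)
    exact ⟨r + s, by rw [Finset.prod_insert hx, hr, hs, pow_add]⟩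

private theorem EvenT_place {k : Type} [Field k] {c : k[X]} (hc : c ≠ 0)
    (v : Place k (RatFunc k)) : (∃ P ∈ BSDP.R.primesOf c, plF P = v) ↔
      ∃ (P : k[X]) (hP : Irreducible P), P ∣ c ∧ v = placeOf P hP := by
  constructor
  · rintro ⟨P, hP, rfl⟩
    obtain ⟨h1, h2, h3⟩ := (BSDP.R.mem_primesOf hc).1 hP
    exact ⟨P, h2, h3, Sm.Inst.plF_eq h2⟩
  · rintro ⟨P, hP, hd, rfl⟩
    have hlc : P.leadingCoeff ≠ 0 := leadingCoeff_ne_zero.mpr hP.ne_zero
    have hu : IsUnit (C (P.leadingCoeff⁻¹) : k[X]) := isUnit_C.2 (inv_ne_zero hlc).isUnit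
    have hPm : (P * C (P.leadingCoeff⁻¹)).Monic := monic_mul_leadingCoeff_inv hP.ne_zero
    have hPi : Irreducible (P * C (P.leadingCoeff⁻¹)) := (irreducible_mul_isUnit hu).mpr hP
    refine ⟨P * C (P.leadingCoeff⁻¹), (BSDP.R.mem_primesOf hc).2
      ⟨hPm, hPi, (hu.mul_right_dvd).2 hd⟩, ?_⟩
    rw [Sm.Inst.plF_eq hPi]
    symm
    refine eq_placeOf (placeOf P hP) (X_mem_placeOf P hP) hPi fun h => ?_
    exact (polyHom_unit_iff _ _ hP (nonunit_placeOf P hP) _).1 h (dvd_mul_right _ _)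

theorem even_T (h2 : (2 : k) ≠ 0) {a b : ι → k[X]} (hT : HypT a b)
    (E : ∀ i, EDat Ω (a i) (b i)) (hE : ∀ i, (E i).Ok) {m : ℕ}
    (hm : Fintype.card ι = 2 * m + 1) (hm1 : 1 ≤ m) (hok : (sysL Ω (latE E m) (cT a b)).Ok)
    {d : TwData k ((ι → Fin 2) → ZMod 2)} (hc : ChOk (sysL Ω (latE E m) (cT a b)) (chP Ω) d plF)
    {D : k[X]} (hD : D ≠ 0) (hco : IsCoprime D (cT a b)) : EvenSel hok (chP Ω) D := by
  classical
  have hL := latK_T h2 hT E hE hm
  have hchi := hc.hom D hD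
  have hcard2 : 2 ≤ Fintype.card ι := by omega
  have hne : Nonempty ι := Fintype.card_pos_iff.mp (by omega)
  obtain ⟨i₀⟩ := hne
  have hne : Nonempty ι := ⟨i₀⟩
  set S := sysL Ω (latE E m) (cT a b) with hS
  set chi0 : (Ω ≃ₐ[RatFunc k] Ω) → ZMod 2 := chP Ω D with hchi0
  have he : S.e = Matrix.toLinearMap₂' (ZMod 2) (kron fun _ : ι => J2 (ZMod 2)) := EvenT_e E m _
  have hJ : (latE E m).J = kron fun _ => J2 ℤ_[2] := rfl
  have z01 : ∀ x : ZMod 2, x = 0 ∨ x = 1 := by decide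
  set qv : Place k (RatFunc k) → (((ι → Fin 2) → ZMod 2) × ((ι → Fin 2) → ZMod 2)) → ZMod 2 :=
    fun v x => S.e x.1 x.2 + S.eps v * qf i₀ x.1 with hqv
  have hq0 : qf i₀ (0 : (ι → Fin 2) → ZMod 2) = 0 := by
    simp [qf]
  have hsw : ∀ x y, S.e x y = S.e y x := fun x y => by
    have h5 := hok.e_alt (x + y)
    rw [LinearMap.map_add₂, map_add, map_add, hok.e_alt, hok.e_alt, zero_add,
      add_zero] at h5
    exact CharTwo.add_eq_zero.mp h5
  -- the bad places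
  set T : Finset (Place k (RatFunc k)) := (BSDP.R.primesOf (cT a b)).image plF with hTdef
  have hTmem : ∀ v, v ∈ T ↔ ∃ (P : k[X]) (hP : Irreducible P), P ∣ cT a b ∧ v = placeOf P hP := by
    intro v
    rw [hTdef, Finset.mem_image]
    exact EvenT_place hT.ne v
  -- the primes not dividing
  have hDun : ∀ (P : k[X]) (hP : Irreducible P), P ∣ cT a b → chi0 (sg Ω (placeOf P hP)) = 0 := by
    intro P hP hd
    exact (SmF.locVals_sg_ph Ω h2).sg_of_not_dvd hP (f := D)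
      fun h => hP.not_isUnit (hco.isUnit_of_dvd' h hd)
  have hgood : ∀ v, v ∉ T → (latE E m).rho (sg Ω v) = 1 := by
    intro v hv
    refine good_T h2 hT E hE m v fun P hP hd hvP => hv ((hTmem v).2 ⟨P, hP, hd, hvP⟩)
  have hram : ∀ v, v ∉ T → chi0 (sg Ω v) = 1 → ∀ x ∈ S.Wl chi0 v,
      x.2 = (kapT Ω a b m (ph Ω v)).mulVec x.1 + chi0 (ph Ω v) • x.1 := by
    intro v hv h1 x hx
    obtain ⟨B, hB, hB2⟩ := kap_T h2 E hE m (ph Ω v)
    have h3 := locA_ram h2 hL (hgood v hv) h1 hB hx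
    rw [hB2] at h3
    exact h3
  have hvan : ∀ v, ∀ x ∈ S.Wl chi0 v, qv v x = 0 := by
    intro v x hx
    by_cases hv : v ∈ T
    · obtain ⟨P, hP, hd, rfl⟩ := (hTmem v).1 hv
      obtain ⟨j, nu, hnu, hnu2, hsg, hph⟩ := bad_T h2 hT E hE m hP hd
      obtain ⟨hdet, htr⟩ := EvenT_dt hnu2
      have h0 := hDun P hP hd
      obtain ⟨y, hy⟩ := locB_im h2 hL hnu hnu2 hsg h0 hx
      have h3 := locB_e h2 hL hJ hnu hsg hph h0 hx
      have h4 : S.e x.1 x.2 = 0 := by
        change eL (latE E m) x.1 x.2 = 0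
        rw [h3]
        change S.e x.2 _ = 0
        rw [he, e_ins i₀ hcard2, htr, zero_mul]
      change S.e x.1 x.2 + S.eps (placeOf P hP) * qf i₀ x.1 = 0
      rw [h4, hy, qf_ins i₀ hcard2 j hdet, mul_zero, add_zero]
    · rcases z01 (chi0 (sg Ω v)) with h0 | h1
      · have h3 := (locA_unr h2 hL hok hchi (hgood v hv) h0 x).1 hx
        change S.e x.1 x.2 + S.eps v * qf i₀ x.1 = 0
        rw [h3, hq0, mul_zero, map_zero, LinearMap.zero_apply, add_zero]
      · have h3 := hram v hv h1 x hx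
        change S.e x.1 x.2 + S.eps v * qf i₀ x.1 = 0
        rw [h3, map_add, map_smul, hok.e_alt, smul_zero, add_zero, he,
          e_kapT Ω i₀ a b hm hm1, EvenT_eps h2]
        exact CharTwo.add_self_eq_zero _
  have key := par_abs hok (qv := qv) (by
      intro v x y
      have h5 := qf_add i₀ x.1 y.1
      rw [← he] at h5
      change S.e (x.1 + y.1) (x.2 + y.2) + S.eps v * qf i₀ (x.1 + y.1) =
        (S.e x.1 x.2 + S.eps v * qf i₀ x.1) + (S.e y.1 y.2 + S.eps v * qf i₀ y.1) +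
          (S.e x.1 y.2 + S.e x.2 y.1 + S.eps v * S.e x.1 y.1)
      rw [h5, LinearMap.map_add₂, map_add, map_add, hsw x.2 y.1]
      ring)
    (fun c hcc => q_recip hok i₀ he c hcc)
    (by
      intro v x hx
      change S.e x.1 x.2 + S.eps v * qf i₀ x.1 = 0
      rw [hx, hq0, mul_zero, map_zero, LinearMap.zero_apply, add_zero])
    hchi hvan T (by
      intro v hv
      rcases z01 (chi0 (sg Ω v)) with h0 | h1
      · exact Or.inl (locA_unr h2 hL hok hchi (hgood v hv) h0)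
      · refine Or.inr fun x hx h3 => ?_
        have h4 := hram v hv h1 x hx
        rw [h3, Matrix.mulVec_zero, smul_zero, add_zero] at h4
        exact Prod.ext h3 h4)
  have hu0 : d.u ≠ 0 := ChOk.u_ne_zero
  rw [card_unr hok hc (fun v => EvenT_u h2 hu0 v)] at key
  obtain ⟨r, hr⟩ := EvenT_prod T (fun v => Nat.card {x : ((ι → Fin 2) → ZMod 2) ×
      ((ι → Fin 2) → ZMod 2) // x ∈ S.Wl chi0 v ∧ x.1 = 0}) (fun v hv => by
    obtain ⟨P, hP, hd, rfl⟩ := (hTmem v).1 hv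
    obtain ⟨j, nu, hnu, hnu2, hsg, hph⟩ := bad_T h2 hT E hE m hP hd
    exact locB_card h2 hL hok hcard2 hJ hchi hnu hnu2 hsg hph (hDun P hP hd))
  obtain ⟨i, hi⟩ := EvenT_fin hok hc hD
  have hV : Nat.card ((ι → Fin 2) → ZMod 2) = 4 ^ (2 ^ (Fintype.card ι - 1)) := by
    rw [Nat.card_eq_fintype_card, Fintype.card_fun, Fintype.card_fun, ZMod.card, Fintype.card_fin]
    obtain ⟨n, hn⟩ : ∃ n, Fintype.card ι = n + 1 := ⟨Fintype.card ι - 1, by omega⟩
    rw [hn, Nat.add_sub_cancel, pow_succ, mul_comm, pow_mul]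
    norm_num
  rw [hV, hr, hi] at key
  rw [EvenSel]
  change ∃ r : ℕ, Nat.card (S.Sel1 hok (chP Ω D)) = 4 ^ r
  rw [hi]
  apply EvenT_four
  have h7 : (2 : ℕ) ^ i * 4 ^ (2 ^ (Fintype.card ι - 1)) * 4 ^ r =
      2 ^ (i + 2 * (2 ^ (Fintype.card ι - 1) + r)) := by
    rw [pow_add, pow_mul, pow_add]
    norm_num
    ring
  rw [h7] at key
  have h8 := EvenT_sq key
  rw [Nat.even_add] at h8
  exact h8.2 (even_two_mul _)

end EvenT

end Pool.Agent.TTC
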