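import Pool.Agent.Lib.TTC.TateD
import Pool.Agent.Lib.TTC.Fam
import Pool.Agent.Lib.SmJ.L.SelDefs

/-!
# Project TTC (MP_950c68_ag), module FinD: the Galois module of the final theorem

`MT Ω a b = (⨂ i, T_2(E_i)) ⊗ ℚ_2 / ℤ_2`, `E_i : y ^ 2 = x (x - a i) (x - b i)`, with the action
`rhoT Ω a b m D` = tensor product of the actions, twisted by `cyc ^ (-m)` and by the quadratic
character of `D`.
-/

set_option autoImplicit false

open Polynomial TensorProduct

namespace Pool.Agent.TTC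

section

variable {k : Type} [Field k] (Ω : Type) [Field Ω] [Algebra (RatFunc k) Ω] [DecidableEq Ω]
  {ι : Type} [Fintype ι]

/-- `(⨂ i, T_2(E_i)) ⊗ ℚ_2 / ℤ_2`. -/
abbrev MT (a b : ι → k[X]) : Type :=
  (⨂[ℤ_[2]] i, Tate (PE Ω (a i) (b i))) ⊗[ℤ_[2]] QZ

/-- The action of `s` on the Tate module of `E_i`. -/
noncomputable def tateAct (a b : k[X]) (s : Ω ≃ₐ[RatFunc k] Ω) :
    Tate (PE Ω a b) →ₗ[ℤ_[2]] Tate (PE Ω a b) :=
  tateMap (DistribSMul.toAddMonoidHom (PE Ω a b) s)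

/-- The action: the tensor product of the actions, twisted by `cyc ^ (-m)` and by the quadratic
character of `D`. -/
noncomputable def rhoT (a b : ι → k[X]) (m : ℕ) (D : k[X]) (s : Ω ≃ₐ[RatFunc k] Ω) :
    MT Ω a b →+ MT Ω a b :=
  SmJ.sgn (chf Ω D s) • ((((cycK Ω (RatFunc k) s)⁻¹ ^ m : ℤ_[2]ˣ) : ℤ_[2]) •
    TensorProduct.map (PiTensorProduct.map fun i => tateAct Ω (a i) (b i) s)
      LinearMap.id).toAddMonoidHom

end

end Pool.Agent.TTC
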