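import Pool.Agent.Lib.TTC.Isot
import Pool.Agent.Lib.TTC.LocRel
import Pool.Agent.Lib.TTC.Cyc

/-!
# Project TTC (MP_950c68_ag), module OkC: the local Kummer groups of a lattice are isotropic
-/

set_option autoImplicit false

open Polynomial

namespace Pool.Agent.TTC

open Pool.Agent.BSDFF Pool.Agent.Lib.SmD Pool.Agent.SmJ

section alg

variable {G : Type} [Group G] {I : Type} [Fintype I] [DecidableEq I] {L : Lat G I}

/-- The sign `(-1) ^ a` in `ℤ_2`. -/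
private noncomputable def OkC_sg (a : ZMod 2) : ℤ_[2] := ((sgn a : ℤ) : ℤ_[2])

private theorem OkC_sgn (a : ZMod 2) : sgn a = 1 ∨ sgn a = -1 := by
  unfold sgn
  split_ifs
  · exact Or.inl rfl
  · exact Or.inr rfl

private theorem OkC_sg_mul (a : ZMod 2) : OkC_sg a * OkC_sg a = 1 := by
  unfold OkC_sg
  rcases OkC_sgn a with h | h <;> rw [h] <;> norm_num

private theorem OkC_sg_pow (a : ZMod 2) (m : ℕ) : OkC_sg a ^ (2 * m + 1) = OkC_sg a := by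
  rw [pow_succ, pow_mul, pow_two, OkC_sg_mul, one_pow, one_mul]

private theorem OkC_two (hL : L.Sy) (a : ZMod 2) (s : G) :
    ∃ B : Matrix I I ℤ_[2], OkC_sg a • L.rho s = 1 + (2 : ℤ_[2]) • B := by
  obtain ⟨B, hB⟩ := hL.two s
  unfold OkC_sg
  rcases OkC_sgn a with h | h
  · exact ⟨B, by rw [h, Int.cast_one, one_smul, hB]⟩
  · refine ⟨-1 - B, ?_⟩
    rw [h, hB, Int.cast_neg, Int.cast_one, neg_smul, one_smul, smul_sub, smul_neg,
      two_smul ℤ_[2] (1 : Matrix I I ℤ_[2])]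
    abel

private theorem OkC_sim (hL : L.Sy) (a : ZMod 2) (s : G) :
    (OkC_sg a • L.rho s).transpose * L.J * (OkC_sg a • L.rho s) = (L.cyc s : ℤ_[2]) • L.J := by
  rw [Matrix.transpose_smul, Matrix.smul_mul, Matrix.smul_mul, Matrix.mul_smul, hL.sim, smul_smul,
    OkC_sg_mul, one_smul]

/-- A lift of the pair of values. -/
private theorem OkC_lift (a : ZMod 2) (s : G) (Q : VL L) (r : I → ℚ_[2])
    (hr : ∀ i, qz (r i) = Q i) (w : I → ZMod 2) (h : sgn a • (s • Q) - Q = iotaL L w) :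
    ∃ x : I → ℤ_[2], (∀ i, red2 (x i) = w i) ∧
      ∀ i, 2 * (((OkC_sg a • L.rho s).map fun x : ℤ_[2] => (x : ℚ_[2])).mulVec r i - r i) = x i := by
  have h1 : ∀ i, qz (((OkC_sg a • L.rho s).map fun x : ℤ_[2] => (x : ℚ_[2])).mulVec r i - r i) =
      hf2 (w i) := by
    intro i
    have h2 := congrFun (mact_qz (OkC_sg a • L.rho s) r) i
    rw [map_sub, ← h2, smul_mact, ← iotaL_apply L w i, ← h]
    have h3 : (fun b => qz (r b)) = (Q : I → QZ) := funext hr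
    rw [h3, hr i]
    have h4 : (OkC_sg a • mact (L.rho s) (Q : I → QZ)) i = (sgn a • mact (L.rho s) (Q : I → QZ)) i := by
      unfold OkC_sg
      rw [Int.cast_smul_eq_zsmul]
    rw [h4]
    rfl
  have h2 : ∀ i, ∃ x : ℤ_[2], red2 x = w i ∧
      2 * (((OkC_sg a • L.rho s).map fun x : ℤ_[2] => (x : ℚ_[2])).mulVec r i - r i) = x := by
    intro i
    obtain ⟨n, hn⟩ : ∃ n : ℤ, w i = (n : ZMod 2) := ⟨(w i).val, by
      rw [Int.cast_natCast, ZMod.natCast_zmod_val]⟩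
    have h3 := h1 i
    rw [hn, hf2_intCast, qz_eq] at h3
    obtain ⟨b, hb⟩ := h3
    refine ⟨n + 2 * b, ?_, ?_⟩
    · rw [map_add, map_intCast, map_mul, hn, map_ofNat]
      have h4 : (OfNat.ofNat 2 : ZMod 2) = 0 := rfl
      rw [h4, zero_mul, add_zero]
    · rw [hb]
      have h4 : ((2 : ℤ_[2]) : ℚ_[2]) = 2 := rfl
      push_cast
      rw [h4]
      ring
  choose x hx hx' using h2
  exact ⟨x, hx, hx'⟩

private theorem OkC_bil (x y : I → ℤ_[2]) (w w' : I → ZMod 2) (hx : ∀ i, red2 (x i) = w i)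
    (hy : ∀ i, red2 (y i) = w' i) : red2 (bil L.J x y) = eL L w w' := by
  rw [eL_apply]
  unfold bil
  simp only [dotProduct, Matrix.mulVec, map_sum, map_mul, hx, hy, Finset.mul_sum, mul_assoc]

end alg

section field

variable {k : Type} [Field k] [Finite k] {Ω : Type} [Field Ω] [Algebra (RatFunc k) Ω]
  [IsSepClosure (RatFunc k) Ω] {I : Type} [Fintype I] [DecidableEq I]
  {L : Lat (Ω ≃ₐ[RatFunc k] Ω) I} {c : k[X]}

/-- **The local Kummer groups of a lattice are isotropic.** -/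
theorem okL_isot (h2 : (2 : k) ≠ 0) (hL : LatK Ω L c) (chi : (Ω ≃ₐ[RatFunc k] Ω) → ZMod 2)
    (v : Place k (RatFunc k)) (x y : (I → ZMod 2) × (I → ZMod 2))
    (hx : x ∈ (sysL Ω L c).Wl chi v) (hy : y ∈ (sysL Ω L c).Wl chi v) :
    (sysL Ω L c).sy v x y = 0 := by
  have : IsSepClosed Ω := IsSepClosure.sep_closed (RatFunc k)
  obtain ⟨m, hm, hm', hrel⟩ := rho_rel h2 v L.rho hL.cont
  obtain ⟨Q, -, hQ1, hQ2⟩ := hx
  obtain ⟨R, -, hR1, hR2⟩ := hy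
  have hr : ∀ Q : VL L, ∃ r : I → ℚ_[2], ∀ i, qz (r i) = Q i := fun Q => by
    choose r hr using fun i => qz_surj (Q i)
    exact ⟨r, hr⟩
  obtain ⟨r, hr1⟩ := hr Q
  obtain ⟨r', hr2⟩ := hr R
  obtain ⟨x1, hx1, hx1'⟩ := OkC_lift (chi (sg Ω v)) (sg Ω v) Q r hr1 x.1 hQ1
  obtain ⟨x2, hx2, hx2'⟩ := OkC_lift (chi (ph Ω v)) (ph Ω v) Q r hr1 x.2 hQ2
  obtain ⟨y1, hy1, hy1'⟩ := OkC_lift (chi (sg Ω v)) (sg Ω v) R r' hr2 y.1 hR1
  obtain ⟨y2, hy2, hy2'⟩ := OkC_lift (chi (ph Ω v)) (ph Ω v) R r' hr2 y.2 hR2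
  have hS := OkC_sim hL.sy (chi (sg Ω v)) (sg Ω v)
  have hP := OkC_sim hL.sy (chi (ph Ω v)) (ph Ω v)
  rw [hL.cyc, cycK_iner h2 v (sg_iner h2 v), Units.val_one, one_smul] at hS
  rw [hL.cyc, cycK_frob h2 v, hm] at hP
  have h := isot_alg L.J _ _ m hL.sy.Jt (OkC_two hL.sy _ _) (OkC_two hL.sy _ _) hS hP (by
    rw [_root_.smul_pow, OkC_sg_pow, Matrix.smul_mul, Matrix.mul_smul, hrel, Matrix.smul_mul,
      Matrix.mul_smul, smul_comm]) hx1' hx2' hy1' hy2'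
  rw [map_add, map_add, map_mul, map_natCast, OkC_bil x1 y2 x.1 y.2 hx1 hy2,
    OkC_bil x2 y1 x.2 y.1 hx2 hy1, OkC_bil x1 y1 x.1 y.1 hx1 hy1, ← hm'] at h
  exact h

end field

end Pool.Agent.TTC
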