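import Pool.Agent.Lib.TTC.OkB
import Pool.Agent.Lib.TTC.OkC
import Pool.Agent.Lib.TTC.Mact
import Pool.Agent.Lib.SmJ.Inst.Inst

/-!
# Project TTC (MP_950c68_ag), module OkL: `Sys.Ok` for the system of a lattice
-/

set_option autoImplicit false

open Polynomial Pool.Agent.BSDFF Pool.Agent.Lib.SmD Pool.Agent.SmithE Pool.Agent.BSDP.R

namespace Pool.Agent.TTC

open Pool.Agent.SmJ

section OkL

variable {k : Type} [Field k] [Finite k] {Ω : Type} [Field Ω] [Algebra (RatFunc k) Ω]
  [IsSepClosure (RatFunc k) Ω] {I : Type} [Fintype I] [DecidableEq I]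
  {L : Lat (Ω ≃ₐ[RatFunc k] Ω) I} {c : k[X]}

private theorem OkL_iota_range (Q : VL L) (hQ : (2 : ℕ) • Q = 0) : ∃ w, iotaL L w = Q := by
  have h1 : ∀ i, ∃ w, hf2 w = (Q : I → QZ) i := fun i => hf2_range _ (congrFun hQ i)
  choose w hw using h1
  exact ⟨w, funext hw⟩

private theorem OkL_fix (hL : L.Sy) (s : Ω ≃ₐ[RatFunc k] Ω) (w : I → ZMod 2) :
    s • iotaL L w = iotaL L w := by
  obtain ⟨B, hB⟩ := hL.two s
  have h1 : (2 : ℕ) ^ 1 • (iotaL L w : VL L) = 0 := by
    rw [← map_nsmul]
    have : (2 : ℕ) ^ 1 • w = 0 := by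
      funext i
      rw [pow_one, Pi.smul_apply, Pi.zero_apply, nsmul_eq_mul]
      exact mul_eq_zero_of_left (by decide) _
    rw [this, map_zero]
  rw [smul_VL, hB, ← pow_one (2 : ℤ_[2])]
  exact mact_kill B h1

private theorem OkL_e_nondeg (hL : L.Sy) (w : I → ZMod 2) (h : ∀ w', eL L w w' = 0) : w = 0 := by
  have hu : IsUnit (L.J.map red2).det := by
    rw [← RingHom.mapMatrix_apply, ← RingHom.map_det]
    exact hL.Ju.map red2
  have h1 : (L.J.map red2).vecMul w = 0 := by
    funext j
    have h3 := h (Pi.single j 1)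
    rw [eL_apply] at h3
    rw [Matrix.vecMul, dotProduct, Pi.zero_apply, ← h3]
    refine Finset.sum_congr rfl fun i _ => ?_
    rw [Finset.sum_eq_single j]
    · rw [Pi.single_eq_same, mul_one, Matrix.map_apply]
    · intro b _ hb
      rw [Pi.single_eq_of_ne hb, mul_zero]
    · intro hj
      exact absurd (Finset.mem_univ j) hj
  have h3 := congrArg (fun x => Matrix.vecMul x (L.J.map red2)⁻¹) h1
  simpa [Matrix.vecMul_vecMul, Matrix.mul_nonsing_inv _ hu] using h3

/-- The form modulo `2` is alternating. -/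
private theorem OkL_e_alt (hL : L.Sy) (w : I → ZMod 2) : eL L w w = 0 := by
  have h1 : ∀ i, red2 (L.J i i) = 0 := fun i => by rw [hL.Jd i, map_zero]
  have h2 : ∀ i j, red2 (L.J j i) = red2 (L.J i j) := by
    intro i j
    have h3 : L.J j i = -L.J i j := congrFun (congrFun hL.Jt i) j
    rw [h3, map_neg]
    exact CharTwo.neg_eq _
  rw [eL_apply, ← Finset.sum_product']
  refine Finset.sum_involution (fun p _ => (p.2, p.1)) ?_ ?_ ?_ ?_
  · rintro ⟨i, j⟩ -
    change w i * red2 (L.J i j) * w j + w j * red2 (L.J j i) * w i = 0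
    rw [h2 i j, show w j * red2 (L.J i j) * w i = w i * red2 (L.J i j) * w j by ring]
    exact CharTwo.add_self_eq_zero _
  · rintro ⟨i, j⟩ - h3 h4
    obtain rfl : j = i := congrArg Prod.fst h4
    apply h3
    change w j * red2 (L.J j j) * w j = 0
    rw [h1 j, mul_zero, zero_mul]
  · intro p _
    exact Finset.mem_product.mpr ⟨Finset.mem_univ _, Finset.mem_univ _⟩
  · intro p _
    rfl

theorem okL (h2 : (2 : k) ≠ 0) (hL : LatK Ω L c) : (sysL Ω L c).Ok := by
  have : IsSepClosed Ω := IsSepClosure.sep_closed (RatFunc k)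
  have : IsGalois (RatFunc k) Ω := inferInstance
  have : Infinite (RatFunc k) := Infinite.of_injective _ (IsFractionRing.injective k[X] (RatFunc k))
  refine
    { top_mem := SmD.top_mem_NN
      inf_mem := fun N hN N' hN' => SmD.inf_mem_NN hN hN'
      normal := fun N hN => SmD.NN.normal hN
      two_pow := fun N hN => hN.2.2
      phi_mem := fun v => ph_mem v
      sg_mem := fun v => sg_mem h2 v
      fin1 := inferInstanceAs (Finite (I → ZMod 2))
      e_alt := OkL_e_alt hL.sy
      e_nondeg := OkL_e_nondeg hL.sy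
      iota_inj := ?_
      iota_range := OkL_iota_range
      iota_fix := OkL_fix hL.sy
      half := ?_
      tors := ?_
      act_fin := ?_
      unr := fun N hN => (Sm.Inst.finite_iner_not_le hN).subset
        fun v hv hle => hv (hle (sg_iner h2 v))
      good_fin := ?_
      good_triv := ?_
      inf_not_good := ?_
      homD := fun v c h1 h3 h4 h5 => homD h2 v c h1 h3 h4 h5
      hasse := SmithC.hasse h2
      recip := (sysL Ω L c).smfj_recip h2 rfl rfl rfl rfl
      corr := (sysL Ω L c).smfj_corr h2 rfl rfl rfl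
      dual := (sysL Ω L c).smfj_dual h2 (OkL_e_alt hL.sy) (OkL_e_nondeg hL.sy) rfl rfl rfl rfl
      fin_inv := fun chi _ v => okL_fin h2 hL chi v
      isot := fun chi _ v x hx y hy => okL_isot h2 hL chi v x y hx hy }
  · intro x y hxy
    funext i
    exact hf2_inj (congrFun hxy i)
  · intro Q
    choose R hR using fun i => qz_half ((Q : I → QZ) i)
    exact ⟨(R : I → QZ), funext hR⟩
  · intro Q
    choose j hj using fun i => qz_tors ((Q : I → QZ) i)
    refine ⟨Finset.univ.sup j, funext fun i => ?_⟩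
    have hle : j i ≤ Finset.univ.sup j := Finset.le_sup (Finset.mem_univ i)
    obtain ⟨d, hd⟩ := Nat.exists_eq_add_of_le hle
    change (2 : ℕ) ^ (Finset.univ.sup j) • (Q : I → QZ) i = 0
    rw [hd, add_comm, pow_add, mul_smul, hj i, smul_zero]
  · intro j
    obtain ⟨N, hN, h⟩ := hL.cont j
    refine ⟨N, hN, fun s hs Q hQ => ?_⟩
    obtain ⟨B, hB⟩ := h s hs
    rw [smul_VL, hB]
    exact mact_kill B hQ
  · refine ((Set.finite_singleton (placeInfty k)).union
      (Sm.Inst.finite_dvd hL.c_ne)).subset ?_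
    intro v hv
    rcases place_cases v with rfl | ⟨P, hP, hm, rfl⟩
    · exact Or.inl rfl
    · right
      refine ⟨P, hP, hm, rfl, ?_⟩
      by_contra hd
      exact hv ⟨P, hP, hm, rfl, hd⟩
  · rintro v ⟨P, hP, hm, rfl, hd⟩ Q
    change sg Ω (placeOf P hP) • Q = Q
    rw [smul_VL, hL.good P hP hd _ (sg_iner h2 _)]
    exact mact_one _
  · rintro ⟨P, hP, hm, h, -⟩
    exact SmF.placeInfty_ne hP h

end OkL

end Pool.Agent.TTC
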