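import Pool.Agent.Lib.TTC.OkL
import Pool.Agent.Lib.Sm.P.LHInst
import Pool.Agent.Lib.SmJ.P.Sym
import Pool.Agent.Lib.SmJ.P.MInst
import Pool.Agent.Lib.SM.C.Hasse

/-!
# Project TTC (MP_950c68_ag), module RecL: reciprocity for the system of a lattice

`RecipM` (reciprocity with coefficients in the roots of unity of 2-power order) for `sysL Ω L c`.
-/

set_option autoImplicit false

open Polynomial Pool.Agent.BSDFF Pool.Agent.Lib.SmD Pool.Agent.SmJ Pool.Agent.SmithE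
  Pool.Agent.BSDP.R

namespace Pool.Agent.TTC

section RecL

variable {k : Type} [Field k] [Finite k] {Ω : Type} [Field Ω] [Algebra (RatFunc k) Ω]
  [IsSepClosure (RatFunc k) Ω] {I : Type} [Fintype I] [DecidableEq I]
  {L : Lat (Ω ≃ₐ[RatFunc k] Ω) I} {c : k[X]}

/-- The homomorphisms `al`, `be`. -/
private theorem recL_LH (h2 : (2 : k) ≠ 0) (L : Lat (Ω ≃ₐ[RatFunc k] Ω) I) (c : k[X]) :
    ∃ al be : Place k (RatFunc k) → (Ω ≃ₐ[RatFunc k] Ω) → ZMod 2, (sysL Ω L c).LH al be := by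
  have : IsSepClosed Ω := IsSepClosure.sep_closed (RatFunc k)
  have : IsGalois (RatFunc k) Ω := inferInstance
  choose f hf0 hfs hfp using fun v : Place k (RatFunc k) => exists_chi_pair (Om := Ω) h2 v 1 0
  choose g hg0 hgs hgp using fun v : Place k (RatFunc k) => exists_chi_pair (Om := Ω) h2 v 0 1
  exact ⟨fun v => chi (RatFunc k) (f v), fun v => chi (RatFunc k) (g v),
    { al_hom := fun v => SmF.chi_homG (SmF.two_ratFunc h2) (hf0 v)
      be_hom := fun v => SmF.chi_homG (SmF.two_ratFunc h2) (hg0 v)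
      al_sg := hfs
      al_phi := hfp
      be_sg := hgs
      be_phi := hgp }⟩

/-- `MFr` for the roots of unity of 2-power order. -/
private theorem recL_MFr (h2 : (2 : k) ≠ 0) (L : Lat (Ω ≃ₐ[RatFunc k] Ω) I) (c : k[X]) :
    (sysL Ω L c).MFr (SmP.MuT Ω) := by
  intro v
  obtain ⟨m, h1, h3, h4, h5⟩ := Sm.Inst.mfr_core (Ω := Ω) h2 v
  let j : SmP.MuT Ω →+ Additive Ωˣ := (SmP.muSub Ω).subtype
  have hj : Function.Injective j := Subtype.val_injective
  have hjs : ∀ (s : Ω ≃ₐ[RatFunc k] Ω) (x : SmP.MuT Ω), (((j (s • x)).toMul : Ωˣ) : Ω) =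
      s (((j x).toMul : Ωˣ) : Ω) := fun _ _ => rfl
  have hz : ∀ x : SmP.MuT Ω, ∃ r : ℕ, (((j x).toMul : Ωˣ) : Ω) ^ 2 ^ r = 1 := by
    intro x
    obtain ⟨r, hr⟩ := SmP.MuT.tors x
    refine ⟨r, ?_⟩
    have h6 : (2 : ℕ) ^ r • j x = 0 := by rw [← map_nsmul, hr, map_zero]
    have h7 : ((j x).toMul : Ωˣ) ^ 2 ^ r = 1 := by
      have := congrArg Additive.toMul h6
      simpa using this
    rw [← Units.val_pow_eq_pow_val, h7, Units.val_one]
  refine ⟨m, h1, fun x => ?_, fun x => ?_, h5⟩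
  · obtain ⟨r, hr⟩ := hz x
    apply hj
    apply Additive.toMul.injective
    apply Units.ext
    exact (hjs _ x).trans (h3 r _ hr)
  · obtain ⟨r, hr⟩ := hz x
    apply hj
    apply Additive.toMul.injective
    apply Units.ext
    refine (hjs _ x).trans ((h4 r _ hr).trans ?_)
    rw [map_nsmul, toMul_nsmul, Units.val_pow_eq_pow_val]

/-- The Hasse principle without a condition at infinity. -/
private theorem recL_hasseF (h2 : (2 : k) ≠ 0) (L : Lat (Ω ≃ₐ[RatFunc k] Ω) I) (c : k[X]) :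
    (sysL Ω L c).HasseF := by
  intro c hc hcoc loc
  refine SmithC.hasse_fin h2 c hc hcoc fun v hv => ?_
  obtain ⟨b, ⟨N, hN, h⟩, hs⟩ := loc v hv
  exact ⟨b, ⟨N, SmD.NN.normal hN, SmD.NN.isOpen hN, h⟩, hs⟩

/-- Reciprocity with coefficients in the roots of unity of 2-power order, from `Sys.Ok`. -/
theorem recipM_of_ok (h2 : (2 : k) ≠ 0) (hok : (sysL Ω L c).Ok) :
    (sysL Ω L c).RecipM (SmP.hfM Ω) := by
  obtain ⟨al, be, hl⟩ := recL_LH (Ω := Ω) h2 L c
  have hM : (sysL Ω L c).MOk (SmP.hfM Ω) :=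
    Sys.mok_ratFunc h2 hok rfl (fun _ => rfl) fun _ => rfl
  have hF := recL_MFr (Ω := Ω) h2 L c
  have hZ : (sysL Ω L c).RecipZ :=
    Sys.recipZ_of hok hM hF (recL_hasseF h2 L c) hl
      (Sys.Rz.theta h2 hok hM hF hl rfl rfl rfl rfl rfl)
  exact hZ.recipM hok hM

theorem recipM_L (h2 : (2 : k) ≠ 0) (hL : LatK Ω L c) : (sysL Ω L c).RecipM (SmP.hfM Ω) :=
  recipM_of_ok h2 (okL h2 hL)

end RecL

end Pool.Agent.TTC
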