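import Pool.Agent.Lib.TTC.Fam
import Pool.Agent.Lib.SmJ.L.HalfAbs
import Pool.Agent.Lib.SmJ.L.Brg2
import Pool.Agent.Lib.SmJ.E.Act
import Pool.Agent.Lib.SmJ.G.Tw
import Pool.Agent.Lib.SM.E.KapJ
import Pool.Agent.Lib.Sm.L.OstE6
import Pool.Agent.Lib.SmF.Base

/-!
# Project TTC (MP_950c68_ag), module ShaFin: corank zero gives finite `Sha`

If the numbers of the Selmer cocycles of level `i` are `≤ B (#V1)^i` then `Sha` of the discrete
module is finite: every class is killed by a power of `2`, so it is in the image of some `Sel (2^i)`,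
and the numbers of the elements of the groups `Sel (2^i)` are bounded.
-/

set_option autoImplicit false

open Polynomial

namespace Pool.Agent.TTC

open Pool.Agent.BSDFF Pool.Agent.Lib.SmD Pool.Agent.SmJ
open Pool.Agent.SmithE (chP)

section abs

variable {k K Ω : Type} [Field k] [Field K] [Field Ω] [Algebra k K] [Algebra K Ω]
variable {M : Type} [AddCommGroup M] {ρ : (Ω ≃ₐ[K] Ω) → M →+ M}

private theorem ShaFin_div {A : Type} [AddCommGroup A] (hd : ∀ Q : A, ∃ R, (2 : ℕ) • R = Q) (i : ℕ) :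
    ∀ P : A, ∃ Q, (2 : ℕ) ^ i • Q = P := by
  induction i with
  | zero => exact fun P => ⟨P, by rw [pow_zero, one_smul]⟩
  | succ i ih =>
    intro P
    obtain ⟨R, hR⟩ := hd P
    obtain ⟨Q, hQ⟩ := ih R
    exact ⟨Q, by rw [pow_succ', mul_smul, hQ, hR]⟩

/-- A power of `2` which kills an element kills it for all larger exponents. -/
private theorem ShaFin_mono {A : Type} [AddCommGroup A] {x : A} {i j : ℕ} (hij : i ≤ j)
    (h : (2 : ℕ) ^ i • x = 0) : (2 : ℕ) ^ j • x = 0 := by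
  obtain ⟨d, rfl⟩ := Nat.exists_eq_add_of_le hij
  rw [add_comm, pow_add, mul_smul, h, smul_zero]

private theorem ShaFin_range {ψ : (Ω ≃ₐ[K] Ω) → M}
    (hc : ∃ L : IntermediateField K Ω, FiniteDimensional K L ∧
      ∀ s t : Ω ≃ₐ[K] Ω, (∀ x ∈ L, s x = t x) → ψ s = ψ t) : (Set.range ψ).Finite := by
  obtain ⟨L, hL, h⟩ := hc
  have h1 : ∀ m : Set.range ψ, ∃ s, ψ s = m := fun m => m.2
  choose g hg using h1
  have h2 : Function.Injective
      (fun m : Set.range ψ => ((g m : Ω ≃ₐ[K] Ω) : Ω →ₐ[K] Ω).comp L.val) := by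
    intro m m' he
    apply Subtype.ext
    rw [← hg m, ← hg m']
    refine h _ _ fun x hx => ?_
    exact DFunLike.congr_fun he ⟨x, hx⟩
  exact Set.finite_coe_iff.mp (Finite.of_injective _ h2)

private theorem ShaFin_abs (h : SmJ.L.GMod ρ) (hd : ∀ Q : M, ∃ R, (2 : ℕ) • R = Q)
    (htors : ∀ Q : M, ∃ i : ℕ, (2 : ℕ) ^ i • Q = 0)
    (hfin : ∀ i, Finite (SmJ.L.Sel k ρ (2 ^ i))) {C : ℕ}
    (hC : ∀ i, Nat.card (SmJ.L.Sel k ρ (2 ^ i)) ≤ C) : Finite (SmJ.L.Sha k ρ) := by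
  have h1 : ∀ x : SmJ.L.Sha k ρ, ∃ i : ℕ, (2 : ℕ) ^ i • x = 0 := by
    intro x
    obtain ⟨ψ, rfl⟩ := QuotientAddGroup.mk_surjective x
    choose e he using htors
    obtain ⟨B, hB⟩ := ((ShaFin_range ψ.2.cont).image e).bddAbove
    refine ⟨B, ?_⟩
    rw [← QuotientAddGroup.mk_nsmul]
    have h2 : (2 : ℕ) ^ B • ψ = 0 := by
      apply Subtype.ext
      funext s
      exact ShaFin_mono (hB ⟨_, ⟨s, rfl⟩, rfl⟩) (he _)
    rw [h2, QuotientAddGroup.mk_zero]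
  by_contra hinf
  rw [not_finite_iff_infinite] at hinf
  obtain ⟨t, ht⟩ := Infinite.exists_subset_card_eq (SmJ.L.Sha k ρ) (C + 1)
  choose e he using h1
  have h3 : ∀ x : t, ∃ y : SmJ.L.Sel k ρ (2 ^ (t.sup e)),
      SmJ.L.selToSha k ρ (2 ^ (t.sup e)) y = x := by
    intro x
    have h4 : (x : SmJ.L.Sha k ρ) ∈ BSDFF.MW.Gn (SmJ.L.Sha k ρ) (2 ^ (t.sup e)) :=
      BSDFF.MW.mem_Gn.mpr (ShaFin_mono (Finset.le_sup x.2) (he _))
    rw [← SmJ.L.range_selToSha h _ (ShaFin_div hd _)] at h4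
    exact h4
  choose y hy using h3
  have h5 : Function.Injective y := by
    intro a b hab
    apply Subtype.ext
    rw [← hy a, ← hy b, hab]
  have := hfin (t.sup e)
  have h6 := Nat.card_le_card_of_injective y h5
  rw [Nat.card_eq_fintype_card, Fintype.card_coe, ht] at h6
  have h7 := hC (t.sup e)
  omega

end abs

section main

variable {k Ω : Type} [Field k] [Finite k] [Field Ω] [Algebra (RatFunc k) Ω]
  [IsSepClosure (RatFunc k) Ω] {I : Type} [Fintype I] [DecidableEq I]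
  {L : Lat (Ω ≃ₐ[RatFunc k] Ω) I} {c : k[X]}

private theorem ShaFin_h2 (h2 : (2 : k) ≠ 0) : (2 : RatFunc k) ≠ 0 := by
  have h := (map_ne_zero (algebraMap k (RatFunc k))).mpr h2
  rwa [map_ofNat] at h

private theorem ShaFin_chi (h2 : (2 : k) ≠ 0) {D : k[X]} (hD : D ≠ 0) :
    (sysL Ω L c).HomG (chP Ω D) :=
  SmF.chi_homG (Ω := Ω) (ShaFin_h2 h2) (fun h => hD
    ((IsFractionRing.injective k[X] (RatFunc k)) (h.trans (map_zero _).symm)))

theorem sha_fin (h2 : (2 : k) ≠ 0) (hL : LatK Ω L c) (hok : (sysL Ω L c).Ok) {D : k[X]}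
    (hD : D ≠ 0) (hcor : Cor0 (sysL Ω L c) (chP Ω) D) {M' : Type} [AddCommGroup M']
    {ρ' : (Ω ≃ₐ[RatFunc k] Ω) → M' →+ M'} (φ : VL L ≃+ M')
    (hφ : ∀ (s : Ω ≃ₐ[RatFunc k] Ω) (Q : VL L), ρ' s (φ Q) = φ (sgn (chP Ω D s) • s • Q)) :
    Finite (Pool.Agent.SmJ.L.Sha k ρ') := by
  have _ := hL.c_ne
  have hG : IsGalois (RatFunc k) Ω := IsSepClosure.isGalois
  obtain ⟨hfin, B, hB⟩ := hcor
  have hχ : (sysL Ω L c).HomG (chP Ω D) := ShaFin_chi h2 hD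
  set χ : (Ω ≃ₐ[RatFunc k] Ω) → ZMod 2 := chP Ω D with hχd
  have hχm := hχ.2
  have hφt : ∀ (s : Ω ≃ₐ[RatFunc k] Ω) (Q : VL L), ρ' s (φ Q) = φ (tw χ s Q) := hφ
  -- the common level
  have hlev : ∀ j : ℕ, ∃ N ∈ SmD.NN (RatFunc k) Ω, ∀ n ∈ N, χ n = 0 ∧
      ∀ Q : VL L, (2 : ℕ) ^ j • Q = 0 → n • Q = Q := by
    intro j
    obtain ⟨N1, hN1, h1⟩ := hok.act_fin j
    obtain ⟨N2, hN2, h3⟩ := hχ.1
    refine ⟨N1 ⊓ N2, SmD.inf_mem_NN hN1 hN2, fun n hn => ⟨?_, h1 n hn.1⟩⟩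
    have h4 := h3 1 n hn.2
    rw [one_mul, chi_one hχm] at h4
    exact h4
  have hmem : ∀ (j : ℕ) (Q : VL L), (2 : ℕ) ^ j • φ Q = 0 ↔ (2 : ℕ) ^ j • Q = 0 := by
    intro j Q
    rw [← map_nsmul, AddEquiv.map_eq_zero_iff]
  have hG' : SmJ.L.GMod ρ' := by
    refine ⟨fun Q => ?_, fun s t Q => ?_, fun Q => ?_⟩
    · obtain ⟨Q, rfl⟩ := φ.surjective Q
      rw [hφt, tw_one hχm]
    · obtain ⟨Q, rfl⟩ := φ.surjective Q
      rw [hφt, hφt, hφt, tw_mul hχm]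
    · obtain ⟨Q, rfl⟩ := φ.surjective Q
      obtain ⟨j, hj⟩ := hok.tors Q
      obtain ⟨N, hN, hN'⟩ := hlev j
      obtain ⟨F, hF, hFN⟩ := (krullTopology_mem_nhds_one_iff (RatFunc k) Ω
        (N : Set (Ω ≃ₐ[RatFunc k] Ω))).mp ((SmD.NN.isOpen hN).mem_nhds N.one_mem)
      refine ⟨F, hF, fun s t hst => ?_⟩
      have h1 : s⁻¹ * t ∈ N := by
        apply hFN
        rw [SetLike.mem_coe, IntermediateField.mem_fixingSubgroup_iff]
        intro x hx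
        rw [AlgEquiv.mul_apply, ← hst x hx, ← AlgEquiv.mul_apply, inv_mul_cancel,
          AlgEquiv.one_apply]
      obtain ⟨h3, h4⟩ := hN' _ h1
      have h5 : tw χ t Q = tw χ s Q := by
        conv_lhs => rw [← mul_inv_cancel_left s t]
        rw [tw_mul hχm, tw_of_zero χ h3, h4 Q hj]
      rw [hφt, hφt, h5]
  have hact : ∀ j : ℕ, ∃ N ∈ SmD.NN (RatFunc k) Ω, ∀ s ∈ N, ∀ Q : M',
      (2 : ℕ) ^ j • Q = 0 → ρ' s Q = Q := by
    intro j
    obtain ⟨N, hN, hN'⟩ := hlev j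
    refine ⟨N, hN, fun s hs Q hQ => ?_⟩
    obtain ⟨Q, rfl⟩ := φ.surjective Q
    obtain ⟨h3, h4⟩ := hN' s hs
    rw [hφt, tw_of_zero χ h3, h4 Q ((hmem j Q).mp hQ)]
  have htors : ∀ Q : M', ∃ i : ℕ, (2 : ℕ) ^ i • Q = 0 := by
    intro Q
    obtain ⟨Q, rfl⟩ := φ.surjective Q
    obtain ⟨j, hj⟩ := hok.tors Q
    exact ⟨j, (hmem j Q).mpr hj⟩
  have hd : ∀ Q : M', ∃ R, (2 : ℕ) • R = Q := by
    intro Q
    obtain ⟨Q, rfl⟩ := φ.surjective Q
    obtain ⟨R, hR⟩ := hok.half Q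
    exact ⟨φ R, by rw [← map_nsmul, hR]⟩
  have hE6 : SmJ.L.E6Prop k ρ' := fun w _ _ j Q _ => ⟨Q, htors Q, fun s _ => rfl⟩
  -- the bridge
  have hbr : ∀ j, ∃ f : SmJ.L.ZSel k ρ' (2 ^ j) →
      {Psi // (sysL Ω L c).IsSel χ j Psi}, Function.Injective f := fun j =>
    SmJ.L.bridge (k := k) (ρ := fun s => DistribMulAction.toAddMonoidHom (VL L) s) hG' φ χ hφ
      (AddMonoidHom.id (VL L)) (fun _ _ h => h) (fun Q _ => ⟨Q, rfl⟩) (fun _ _ => rfl) hact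
      (sysL Ω L c) rfl (fun v => ⟨Pool.Agent.Lib.SmD.ab Ω v, Sm.L.ab_ne_top v,
        Sm.L.ab_const v, rfl⟩) hE6 j
  have hZfin : ∀ j, Finite (SmJ.L.ZSel k ρ' (2 ^ j)) := by
    intro j
    obtain ⟨f, hf⟩ := hbr j
    have := hfin j
    exact Finite.of_injective f hf
  have hSfin : ∀ j, Finite (SmJ.L.Sel k ρ' (2 ^ j)) := by
    intro j
    have := hZfin j
    infer_instance
  have hZle : ∀ j, Nat.card (SmJ.L.ZSel k ρ' (2 ^ j)) ≤ B * (Nat.card (I → ZMod 2)) ^ j := by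
    intro j
    obtain ⟨f, hf⟩ := hbr j
    have := hfin j
    exact (Nat.card_le_card_of_injective f hf).trans (hB j)
  -- the rational elements
  have hRfin : Finite (SmJ.L.Rat ρ') := by
    have h1 := hok.fin_inv χ hχ (placeInfty k)
    have : Finite {Q : VL L | ∀ s ∈ (sysL Ω L c).D (placeInfty k), dl χ Q s = 0} := h1
    refine Finite.of_injective (fun P : SmJ.L.Rat ρ' =>
      (⟨φ.symm P.1, fun s _ => ?_⟩ :
        {Q : VL L | ∀ s ∈ (sysL Ω L c).D (placeInfty k), dl χ Q s = 0})) ?_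
    · rw [dl, sub_eq_zero]
      apply φ.injective
      rw [← hφt, AddEquiv.apply_symm_apply]
      exact P.2 s
    · intro P P' h
      exact Subtype.ext (φ.symm.injective (congrArg Subtype.val h))
  have hN : 0 < Nat.card (I → ZMod 2) := Nat.card_pos
  -- the torsion
  have htwo : Nat.card {Q : M' // (2 : ℕ) • Q = 0} = Nat.card (I → ZMod 2) := by
    refine (Nat.card_congr (Equiv.ofBijective (fun w : I → ZMod 2 =>
      (⟨φ ((sysL Ω L c).iota w), ?_⟩ : {Q : M' // (2 : ℕ) • Q = 0})) ⟨?_, ?_⟩)).symm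
    · rw [← map_nsmul, ← map_nsmul]
      have : (2 : ℕ) • w = 0 := by
        funext i
        rw [Pi.smul_apply, Pi.zero_apply, nsmul_eq_mul]
        have h3 : ((2 : ℕ) : ZMod 2) = 0 := by decide
        rw [h3, zero_mul]
      rw [this, map_zero, map_zero]
    · intro w w' h
      exact hok.iota_inj (φ.injective (congrArg Subtype.val h))
    · rintro ⟨Q, hQ⟩
      obtain ⟨Q, rfl⟩ := φ.surjective Q
      rw [← map_nsmul, AddEquiv.map_eq_zero_iff] at hQ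
      obtain ⟨w, hw⟩ := hok.iota_range Q hQ
      exact ⟨w, Subtype.ext (congrArg φ hw)⟩
  have hcard : ∀ i, Nat.card (BSDFF.MW.Gn M' (2 ^ i)) = (Nat.card (I → ZMod 2)) ^ i := by
    intro i
    rw [← htwo, ← SmJ.card_tors hd i]
    rfl
  refine ShaFin_abs hG' hd htors hSfin (C := B * Nat.card (SmJ.L.Rat ρ')) fun i => ?_
  have h3 := SmJ.L.card_zsel (k := k) hG' (2 ^ i)
  have h4 := SmJ.L.card_bsel (ρ := ρ') (2 ^ i)
  rw [hcard] at h4
  have h5 : 0 < Nat.card (SmJ.L.BSel ρ' (2 ^ i)) := by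
    rcases Nat.eq_zero_or_pos (Nat.card (SmJ.L.BSel ρ' (2 ^ i))) with h6 | h6
    · rw [h6, mul_zero] at h4
      exact absurd h4 (pow_pos hN i).ne'
    · exact h6
  have h6 : Nat.card (BSDFF.MW.Gn (SmJ.L.Rat ρ') (2 ^ i)) ≤ Nat.card (SmJ.L.Rat ρ') :=
    Nat.card_le_card_of_injective _ Subtype.val_injective
  have h7 := hZle i
  rw [h3, h4] at h7
  have h8 : Nat.card (SmJ.L.Sel k ρ' (2 ^ i)) * Nat.card (SmJ.L.BSel ρ' (2 ^ i)) ≤
      (B * Nat.card (SmJ.L.Rat ρ')) * Nat.card (SmJ.L.BSel ρ' (2 ^ i)) := by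
    refine h7.trans ?_
    rw [← mul_assoc]
    exact Nat.mul_le_mul_right _ (Nat.mul_le_mul_left _ h6)
  exact Nat.le_of_mul_le_mul_right h8 h5

end main

end Pool.Agent.TTC
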