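import Pool.Agent.Lib.TTC.TateD
import Pool.Agent.Lib.TTC.QZ2
import Pool.Agent.Lib.TTC.Mact
import Pool.Agent.Lib.TTC.EDef
import Pool.Agent.Lib.TTC.FinD

/-!
# Project TTC (MP_950c68_ag), module TateB: a basis of the Tate module from the coordinates of the
`2`-power torsion
-/

set_option autoImplicit false

open Polynomial TensorProduct

namespace Pool.Agent.TTC

open Pool.Agent.BSDFF Pool.Agent.Lib.SmD Pool.Agent.SmJ

section TateB

private theorem TateB_tz_sub (a : ℤ_[2]) (m : ℕ) :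
    ∃ b : ℤ_[2], a = (tz a m : ℤ_[2]) + (2 : ℤ_[2]) ^ m * b := by
  have h1 : PadicInt.toZModPow m (a - (tz a m : ℤ_[2])) = 0 := by
    rw [map_sub, map_natCast, tz_cast, sub_self]
  have h2 : a - (tz a m : ℤ_[2]) ∈ RingHom.ker (PadicInt.toZModPow (p := 2) m) := h1
  rw [PadicInt.ker_toZModPow, Ideal.mem_span_singleton] at h2
  obtain ⟨b, hb⟩ := h2
  refine ⟨b, ?_⟩
  have h3 : a = (tz a m : ℤ_[2]) + (a - (tz a m : ℤ_[2])) := by ring
  rw [hb] at h3
  exact h3

private theorem TateB_pow (m : ℕ) : (2 : ℕ) ^ m • qz (1 / 2 ^ m) = 0 := by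
  rw [qz_nsmul]
  refine qz_eq_zero.mpr ⟨1, ?_⟩
  push_cast
  field_simp

private theorem TateB_smul (a : ℤ_[2]) (m : ℕ) (Q : QZ) (hQ : (2 : ℕ) ^ m • Q = 0) :
    a • Q = tz a m • Q := by
  obtain ⟨b, hb⟩ := TateB_tz_sub a m
  have h1 : a • Q = ((tz a m : ℤ_[2]) + (2 : ℤ_[2]) ^ m * b) • Q := by rw [← hb]
  rw [h1, add_smul, qz_kill hQ b, add_zero]
  exact Nat.cast_smul_eq_nsmul ℤ_[2] (tz a m) Q

private theorem TateB_succ (m : ℕ) : (2 : ℕ) • qz (1 / 2 ^ (m + 1)) = qz (1 / 2 ^ m) := by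
  rw [qz_nsmul]
  congr 1
  push_cast
  rw [pow_succ]
  field_simp

variable {P : Type} [AddCommGroup P] (V : AddSubgroup P) (th : (Fin 2 → QZ) ≃+ V)

private noncomputable def TateB_F : (Fin 2 → ℤ_[2]) →ₗ[ℤ_[2]] Tate P where
  toFun v := ⟨fun m => (th (fun i => v i • qz (1 / 2 ^ m)) : P), by
    refine ⟨?_, fun m => ?_⟩
    · have h1 : (fun i => v i • qz (1 / 2 ^ 0)) = (0 : Fin 2 → QZ) := by
        funext i
        have h2 : qz (1 / 2 ^ 0) = 0 := by
          have := TateB_pow 0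
          rwa [pow_zero, one_smul] at this
        rw [h2, smul_zero]
        rfl
      change (th (fun i => v i • qz (1 / 2 ^ 0)) : P) = 0
      rw [h1, map_zero]
      rfl
    · rw [← AddSubgroup.coe_nsmul, ← map_nsmul]
      congr 2
      funext i
      rw [Pi.smul_apply, smul_comm, TateB_succ]⟩
  map_add' v w := Subtype.ext (funext fun m => by
    change (th (fun i => (v + w) i • qz (1 / 2 ^ m)) : P) =
      (th (fun i => v i • qz (1 / 2 ^ m)) : P) + (th (fun i => w i • qz (1 / 2 ^ m)) : P)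
    rw [← AddSubgroup.coe_add, ← map_add]
    congr 2
    funext i
    rw [Pi.add_apply, Pi.add_apply, add_smul])
  map_smul' a v := Subtype.ext (funext fun m => by
    change (th (fun i => (a • v) i • qz (1 / 2 ^ m)) : P) =
      tz a m • (th (fun i => v i • qz (1 / 2 ^ m)) : P)
    rw [← AddSubgroup.coe_nsmul, ← map_nsmul]
    congr 2
    funext i
    rw [Pi.smul_apply, Pi.smul_apply, smul_eq_mul, mul_smul]
    refine TateB_smul a m _ ?_
    rw [smul_comm, TateB_pow, smul_zero])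

private theorem TateB_F_val (v : Fin 2 → ℤ_[2]) (m : ℕ) :
    (TateB_F V th v).1 m = (th (fun i => v i • qz (1 / 2 ^ m)) : P) := rfl

private theorem TateB_inj : Function.Injective (TateB_F V th) := by
  rw [injective_iff_map_eq_zero]
  intro v hv
  funext i
  refine qz_faithful fun m => ?_
  have h1 : (TateB_F V th v).1 m = 0 := by
    rw [hv]
    rfl
  rw [TateB_F_val] at h1
  have h2 : th (fun i => v i • qz (1 / 2 ^ m)) = 0 := Subtype.ext h1
  have h3 := (map_eq_zero_iff th th.injective).mp h2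
  exact congrFun h3 i

private theorem TateB_surj (hV : ∀ (x : P) (n : ℕ), (2 : ℕ) ^ n • x = 0 → x ∈ V) :
    Function.Surjective (TateB_F V th) := by
  intro x
  let y : ℕ → V := fun m => ⟨x.1 m, hV _ m (x.tors m)⟩
  have h0 : y 0 = 0 := Subtype.ext x.2.1
  have hs : ∀ m, (2 : ℕ) • y (m + 1) = y m := fun m => Subtype.ext (x.2.2 m)
  have h1 : ∀ i : Fin 2, ∃ a : ℤ_[2], ∀ m, a • qz (1 / 2 ^ m) = th.symm (y m) i := by
    intro i
    obtain ⟨f, hf⟩ := qz_hom (fun m => th.symm (y m) i) (by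
      rw [h0, map_zero]
      rfl) (fun m => by
      rw [← Pi.smul_apply, ← map_nsmul, hs])
    obtain ⟨a, ha⟩ := qz_end f
    exact ⟨a, fun m => by rw [← ha, hf]⟩
  choose a ha using h1
  refine ⟨a, Subtype.ext (funext fun m => ?_)⟩
  rw [TateB_F_val]
  have h2 : (fun i => a i • qz (1 / 2 ^ m)) = th.symm (y m) := funext fun i => ha i m
  rw [h2, AddEquiv.apply_symm_apply]

variable {k : Type} [Field k] {Ω : Type} [Field Ω] [Algebra (RatFunc k) Ω] [DecidableEq Ω]

private noncomputable abbrev TateB_V (Ω : Type) [Field Ω] [Algebra (RatFunc k) Ω] [DecidableEq Ω] (a b : k[X]) :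
    AddSubgroup (PE Ω a b) :=
  SmithE.VV Ω (0 : RatFunc k) (algebraMap k[X] (RatFunc k) a) (algebraMap k[X] (RatFunc k) b)

theorem exists_basis {a b : k[X]} (E : EDat Ω a b) :
    ∃ B : Module.Basis (Fin 2) ℤ_[2] (Tate (PE Ω a b)),
      ∀ s j, tateAct Ω a b s (B j) = ∑ i, E.rho s i j • B i := by
  have hbij : Function.Bijective (TateB_F (TateB_V Ω a b) E.th) :=
    ⟨TateB_inj _ _, TateB_surj _ _ fun x n hx => ⟨n, hx⟩⟩
  let L : (Fin 2 → ℤ_[2]) ≃ₗ[ℤ_[2]] Tate (PE Ω a b) := LinearEquiv.ofBijective _ hbij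
  refine ⟨Module.Basis.ofEquivFun L.symm, fun s j => ?_⟩
  have hB : ∀ i, Module.Basis.ofEquivFun L.symm i = TateB_F (TateB_V Ω a b) E.th (Pi.single i 1) := by
    intro i
    rw [Module.Basis.coe_ofEquivFun]
    rfl
  simp only [hB]
  have h1 : ∑ i, E.rho s i j • TateB_F (TateB_V Ω a b) E.th (Pi.single i 1) =
      TateB_F (TateB_V Ω a b) E.th (fun i => E.rho s i j) := by
    simp only [← map_smul, ← map_sum]
    congr 1
    funext i
    simp [Finset.sum_apply, Pi.single_apply]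
  rw [h1]
  refine Subtype.ext (funext fun m => ?_)
  rw [TateB_F_val]
  have h2 : (tateAct Ω a b s (TateB_F (TateB_V Ω a b) E.th (Pi.single j 1))).1 m =
      s • ((E.th (fun i => (Pi.single j 1 : Fin 2 → ℤ_[2]) i • qz (1 / 2 ^ m)) : VE Ω a b) :
        PE Ω a b) := rfl
  rw [h2]
  have h3 := E.act s (fun i => (Pi.single j 1 : Fin 2 → ℤ_[2]) i • qz (1 / 2 ^ m))
  have h4 := congrArg (fun Q : VE Ω a b => (Q : PE Ω a b)) h3
  beta_reduce at h4
  rw [SmithE.coe_smul_VV] at h4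
  rw [← h4]
  congr 2
  funext i
  rw [mact_apply]
  simp [Pi.single_apply]

end TateB

end Pool.Agent.TTC
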