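import Pool.Agent.Lib.TTC.FinD
import Pool.Agent.Lib.TTC.TateB
import Pool.Agent.Lib.TTC.Fam

/-!
# Project TTC (MP_950c68_ag), module TateT: the module `(⨂ i, T_2(E_i)) ⊗ ℚ_2 / ℤ_2` in coordinates
-/

set_option autoImplicit false

open Polynomial TensorProduct

namespace Pool.Agent.TTC

open Pool.Agent.BSDFF Pool.Agent.Lib.SmD Pool.Agent.SmJ

section TateT

/-- The coordinates of `M ⊗ N` for a finite basis of `M`. -/
private noncomputable def TateT_eq {R M N κ : Type} [CommRing R] [AddCommGroup M] [AddCommGroup N]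
    [Module R M] [Module R N] [Fintype κ] [DecidableEq κ] (B : Module.Basis κ R M) :
    (κ → N) ≃ₗ[R] M ⊗[R] N :=
  (Finsupp.linearEquivFunOnFinite R N κ).symm ≪≫ₗ (TensorProduct.equivFinsuppOfBasisLeft B).symm

private theorem TateT_eq_apply {R M N κ : Type} [CommRing R] [AddCommGroup M] [AddCommGroup N]
    [Module R M] [Module R N] [Fintype κ] [DecidableEq κ] (B : Module.Basis κ R M) (Q : κ → N) :
    TateT_eq B Q = ∑ p, B p ⊗ₜ[R] Q p := by
  rw [TateT_eq, LinearEquiv.trans_apply, TensorProduct.equivFinsuppOfBasisLeft_symm_apply,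
    Finsupp.sum_fintype _ _ (fun i => TensorProduct.tmul_zero _ _)]
  rfl

/-- The tensor product of maps given by matrices. -/
private theorem TateT_map {R ι : Type} [CommRing R] [Fintype ι] [DecidableEq ι]
    {M : ι → Type} [∀ i, AddCommGroup (M i)] [∀ i, Module R (M i)]
    (B : ∀ i, Module.Basis (Fin 2) R (M i)) (f : ∀ i, M i →ₗ[R] M i)
    (A : ι → Matrix (Fin 2) (Fin 2) R) (hf : ∀ i j, f i (B i j) = ∑ l, A i l j • B i l)
    (p : ι → Fin 2) :
    PiTensorProduct.map f (Basis.piTensorProduct B p) =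
      ∑ q, kron A q p • Basis.piTensorProduct B q := by
  rw [Basis.piTensorProduct_apply, PiTensorProduct.map_tprod]
  simp only [hf]
  rw [MultilinearMap.map_sum]
  refine Finset.sum_congr rfl fun q _ => ?_
  rw [MultilinearMap.map_smul_univ, Basis.piTensorProduct_apply, kron_apply]

variable {k : Type} [Field k] {Ω : Type} [Field Ω] [Algebra (RatFunc k) Ω] [DecidableEq Ω]
  {ι : Type} [Fintype ι] [DecidableEq ι]

theorem exists_phi {a b : ι → k[X]} (E : ∀ i, EDat Ω (a i) (b i)) (m : ℕ) :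
    ∃ φ : VL (latE E m) ≃+ MT Ω a b, ∀ (D : k[X]) (s : Ω ≃ₐ[RatFunc k] Ω) (Q : VL (latE E m)),
      rhoT Ω a b m D s (φ Q) = φ (sgn (chf Ω D s) • s • Q) := by
  choose B hB using fun i => exists_basis (E i)
  let φ : VL (latE E m) ≃+ MT Ω a b :=
    (TateT_eq (N := QZ) (Basis.piTensorProduct B)).toAddEquiv
  have hφ : ∀ Q : VL (latE E m), φ Q = ∑ p, Basis.piTensorProduct B p ⊗ₜ[ℤ_[2]] Q p :=
    fun Q => TateT_eq_apply (Basis.piTensorProduct B) Q
  refine ⟨φ, fun D s Q => ?_⟩
  rw [map_zsmul]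
  change sgn (chf Ω D s) • ((((cycK Ω (RatFunc k) s)⁻¹ ^ m : ℤ_[2]ˣ) : ℤ_[2]) •
    TensorProduct.map (PiTensorProduct.map fun i => tateAct Ω (a i) (b i) s)
      LinearMap.id (φ Q)) = _
  congr 1
  rw [hφ Q, hφ (s • Q), map_sum, Finset.smul_sum]
  have h1 : ∀ p, TensorProduct.map (PiTensorProduct.map fun i => tateAct Ω (a i) (b i) s)
      LinearMap.id (Basis.piTensorProduct B p ⊗ₜ[ℤ_[2]] Q p) =
      ∑ q, Basis.piTensorProduct B q ⊗ₜ[ℤ_[2]] ((kron (fun i => (E i).rho s) q p) • Q p) := by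
    intro p
    rw [TensorProduct.map_tmul, LinearMap.id_apply,
      TateT_map B (fun i => tateAct Ω (a i) (b i) s) (fun i => (E i).rho s)
        (fun i j => hB i s j) p, TensorProduct.sum_tmul]
    exact Finset.sum_congr rfl fun q _ => TensorProduct.smul_tmul _ _ _
  simp only [h1, Finset.smul_sum]
  rw [Finset.sum_comm]
  refine Finset.sum_congr rfl fun q _ => ?_
  rw [smul_VL, mact_apply, TensorProduct.tmul_sum]
  refine Finset.sum_congr rfl fun p _ => ?_
  rw [← TensorProduct.tmul_smul, smul_smul, latT_rho, Matrix.smul_apply, smul_eq_mul]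

end TateT

end Pool.Agent.TTC
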