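import Pool.Agent.Lib.TTC.KronD

/-!
# Project TTC (MP_950c68_ag), module KronGen: the matrices `ins i Ma, ins i Mb, ins i Mab` generate
the algebra of all endomorphisms, and they are self-adjoint
-/

set_option autoImplicit false

namespace Pool.Agent.TTC

section KronGen

variable {ι : Type} [Fintype ι] [DecidableEq ι]

private theorem KronGen_ins_eq {R : Type} [CommRing R] (i : ι) (B : Matrix (Fin 2) (Fin 2) R) :
    (ins i B : Matrix (ι → Fin 2) (ι → Fin 2) R) = kron fun j => if j = i then B else 1 := by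
  ext a b
  rw [kron_apply]
  simp only [ins, Matrix.of_apply]
  by_cases h : ∀ j, j ≠ i → a j = b j
  · rw [if_pos h, Finset.prod_eq_single i]
    · rw [if_pos rfl]
    · intro j _ hj
      rw [if_neg hj, h j hj, Matrix.one_apply_eq]
    · intro hi
      exact absurd (Finset.mem_univ i) hi
  · rw [if_neg h]
    push Not at h
    obtain ⟨j, hj, hab⟩ := h
    refine (Finset.prod_eq_zero (Finset.mem_univ j) ?_).symm
    rw [if_neg hj, Matrix.one_apply_ne hab]

private theorem KronGen_ins_mul {R : Type} [CommRing R] (i : ι) (B B' : Matrix (Fin 2) (Fin 2) R) :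
    (ins i (B * B') : Matrix (ι → Fin 2) (ι → Fin 2) R) = ins i B * ins i B' := by
  rw [KronGen_ins_eq, KronGen_ins_eq, KronGen_ins_eq, ← kron_mul]
  congr 1
  funext j
  by_cases h : j = i
  · simp only [if_pos h]
  · simp only [if_neg h, one_mul]

private theorem KronGen_ins_add {R : Type} [CommRing R] (i : ι) (B B' : Matrix (Fin 2) (Fin 2) R) :
    (ins i (B + B') : Matrix (ι → Fin 2) (ι → Fin 2) R) = ins i B + ins i B' := by
  ext a b
  simp only [ins, Matrix.of_apply, Matrix.add_apply]
  split_ifs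
  · rfl
  · rw [add_zero]

private theorem KronGen_ins_smul {R : Type} [CommRing R] (i : ι) (c : R)
    (B : Matrix (Fin 2) (Fin 2) R) :
    (ins i (c • B) : Matrix (ι → Fin 2) (ι → Fin 2) R) = c • ins i B := by
  ext a b
  simp only [ins, Matrix.of_apply, Matrix.smul_apply]
  split_ifs
  · rfl
  · rw [smul_zero]

private theorem KronGen_two (B : Matrix (Fin 2) (Fin 2) (ZMod 2)) :
    B = B 0 0 • (Mab * Mb) + B 0 1 • Mab + B 1 0 • Mb + B 1 1 • (Mb * Mab) := by
  ext i j
  fin_cases i <;> fin_cases j <;>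
    simp [Mb, Mab]

private theorem KronGen_unit (a b : ι → Fin 2) :
    (kron fun i => Matrix.single (a i) (b i) (1 : ZMod 2)) = Matrix.single a b (1 : ZMod 2) := by
  ext c d
  rw [kron_apply]
  by_cases h : a = c ∧ b = d
  · obtain ⟨rfl, rfl⟩ := h
    rw [Matrix.single_apply_same]
    exact Finset.prod_eq_one fun i _ => Matrix.single_apply_same _ _ _
  · rw [Matrix.single_apply_of_ne _ _ _ _ _ h]
    have h1 : ∃ i, ¬ (a i = c i ∧ b i = d i) := by
      by_contra hn
      push Not at hn
      exact h ⟨funext fun i => (hn i).1, funext fun i => (hn i).2⟩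
    obtain ⟨i, hi⟩ := h1
    exact Finset.prod_eq_zero (Finset.mem_univ i) (Matrix.single_apply_of_ne _ _ _ _ _ hi)

theorem ins_gen : Algebra.adjoin (ZMod 2) (Set.range fun p : ι × Fin 3 =>
    (Matrix.toLin' (ins p.1 (![Ma, Mb, Mab] p.2)) :
      Module.End (ZMod 2) ((ι → Fin 2) → ZMod 2))) = ⊤ := by
  set A := Algebra.adjoin (ZMod 2) (Set.range fun p : ι × Fin 3 =>
    (Matrix.toLin' (ins p.1 (![Ma, Mb, Mab] p.2)) :
      Module.End (ZMod 2) ((ι → Fin 2) → ZMod 2))) with hA
  let e : Matrix (ι → Fin 2) (ι → Fin 2) (ZMod 2) ≃ₐ[ZMod 2]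
    Module.End (ZMod 2) ((ι → Fin 2) → ZMod 2) := Matrix.toLinAlgEquiv'
  have he : ∀ M, e M = Matrix.toLin' M := fun M => rfl
  -- the generators
  have hb : ∀ i : ι, e (ins i Mb) ∈ A := fun i => by
    rw [he]
    exact Algebra.subset_adjoin ⟨(i, 1), rfl⟩
  have hab : ∀ i : ι, e (ins i Mab) ∈ A := fun i => by
    rw [he]
    exact Algebra.subset_adjoin ⟨(i, 2), rfl⟩
  have hins : ∀ (i : ι) (B : Matrix (Fin 2) (Fin 2) (ZMod 2)), e (ins i B) ∈ A := by
    intro i B
    rw [KronGen_two B, KronGen_ins_add, KronGen_ins_add, KronGen_ins_add, KronGen_ins_smul,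
      KronGen_ins_smul, KronGen_ins_smul, KronGen_ins_smul, KronGen_ins_mul, KronGen_ins_mul]
    simp only [map_add, map_smul, map_mul]
    exact A.add_mem (A.add_mem (A.add_mem (A.smul_mem (A.mul_mem (hab i) (hb i)) _)
      (A.smul_mem (hab i) _)) (A.smul_mem (hb i) _)) (A.smul_mem (A.mul_mem (hb i) (hab i)) _)
  have hkron : ∀ (f : ι → Matrix (Fin 2) (Fin 2) (ZMod 2)) (s : Finset ι),
      e (kron fun j => if j ∈ s then f j else 1) ∈ A := by
    intro f s
    induction s using Finset.induction_on with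
    | empty =>
      have h1 : (kron fun j : ι => if j ∈ (∅ : Finset ι) then f j else 1) = 1 := by
        rw [← kron_one]
        congr 1
      rw [h1, map_one]
      exact A.one_mem
    | insert i s hi ih =>
      have h1 : (kron fun j : ι => if j ∈ insert i s then f j else 1) =
          ins i (f i) * kron fun j => if j ∈ s then f j else 1 := by
        rw [KronGen_ins_eq, ← kron_mul]
        congr 1
        funext j
        by_cases h : j = i
        · subst h
          simp [hi]
        · simp [h, Finset.mem_insert]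
      rw [h1, map_mul]
      exact A.mul_mem (hins i _) ih
  have hkron1 : ∀ f : ι → Matrix (Fin 2) (Fin 2) (ZMod 2), e (kron f) ∈ A := by
    intro f
    have h := hkron f Finset.univ
    simpa only [Finset.mem_univ, if_true] using h
  rw [eq_top_iff]
  intro x _
  obtain ⟨M, rfl⟩ := e.surjective x
  have hM : M = ∑ a, ∑ b, M a b • Matrix.single a b (1 : ZMod 2) := by
    conv_lhs => rw [Matrix.matrix_eq_sum_single M]
    refine Finset.sum_congr rfl fun a _ => Finset.sum_congr rfl fun b _ => ?_
    rw [Matrix.smul_single, smul_eq_mul, mul_one]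
  rw [hM, map_sum]
  refine A.sum_mem fun a _ => ?_
  rw [map_sum]
  refine A.sum_mem fun b _ => ?_
  rw [map_smul, ← KronGen_unit]
  exact A.smul_mem (hkron1 _) _

/-- self-adjoint -/
theorem ins_selfadj (i : ι) {M : Matrix (Fin 2) (Fin 2) (ZMod 2)}
    (hM : M = Ma ∨ M = Mb ∨ M = Mab) :
    (ins i M).transpose * kron (fun _ : ι => J2 (ZMod 2)) =
      kron (fun _ : ι => J2 (ZMod 2)) * ins i M := by
  have hJ : M.transpose * J2 (ZMod 2) = J2 (ZMod 2) * M := by
    rcases hM with rfl | rfl | rfl
    · decide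
    · decide
    · decide
  have ht : (ins i M : Matrix (ι → Fin 2) (ι → Fin 2) (ZMod 2)).transpose =
      kron fun j => if j = i then M.transpose else 1 := by
    rw [KronGen_ins_eq]
    ext a b
    rw [Matrix.transpose_apply, kron_apply, kron_apply]
    refine Finset.prod_congr rfl fun j _ => ?_
    by_cases h : j = i
    · rw [if_pos h, if_pos h, Matrix.transpose_apply]
    · rw [if_neg h, if_neg h, Matrix.one_apply, Matrix.one_apply]
      simp only [eq_comm]
  rw [ht, KronGen_ins_eq, ← kron_mul, ← kron_mul]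
  congr 1
  funext j
  by_cases h : j = i
  · simp only [if_pos h, hJ]
  · simp only [if_neg h, one_mul, mul_one]

end KronGen

end Pool.Agent.TTC
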