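import Pool.Agent.Lib.TTC.Fam
import Pool.Agent.Lib.TTC.Kron
import Pool.Agent.Lib.TTC.KronGen
import Pool.Agent.Lib.SM.E.KapJ
import Pool.Agent.Lib.SmJ.Defs

/-!
# Project TTC (MP_950c68_ag), module TwT: the data `TwData` of the tensor product
-/

set_option autoImplicit false

open Polynomial

namespace Pool.Agent.TTC

open Pool.Agent.BSDFF Pool.Agent.Lib.SmD Pool.Agent.SmJ
open Pool.Agent.SmithE (chP lcz vm Pt)

section TwT

open UniqueFactorizationMonoid
open Pool.Agent.BSDP.R (primesOf)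

variable {k : Type} [Field k] {ι : Type} [Fintype ι] [DecidableEq ι]

/-- The linear combinations of the matrices with coefficients `g (a j)`, `g (b j)`, ... -/
private noncomputable def TwT_M (a b : ι → k[X]) (m : ℕ) :
    (k[X] → ZMod 2) →ₗ[ZMod 2] Matrix (ι → Fin 2) (ι → Fin 2) (ZMod 2) where
  toFun g := ∑ j, ins j (g (a j) • Ma + g (b j) • Mb + g (a j - b j) • Mab + g (-1) • M1) +
    ((m : ZMod 2) * g (-1)) • 1
  map_add' g g' := by
    simp only [Pi.add_apply, add_smul, mul_add, ins_add, Finset.sum_add_distrib]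
    abel
  map_smul' t g := by
    simp only [Pi.smul_apply, smul_eq_mul, RingHom.id_apply, mul_smul, smul_add, ins_add, ins_smul,
      Finset.smul_sum, Finset.sum_add_distrib, smul_comm t (m : ZMod 2)]

private theorem TwT_M_apply (a b : ι → k[X]) (m : ℕ) (g : k[X] → ZMod 2) :
    TwT_M a b m g = ∑ j, ins j (g (a j) • Ma + g (b j) • Mb + g (a j - b j) • Mab + g (-1) • M1) +
      ((m : ZMod 2) * g (-1)) • 1 := rfl

/-- The three polynomials of the curve `p.1`. -/
private noncomputable def TwT_sl (a b : ι → k[X]) (p : ι × Fin 3) : k[X] :=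
  ![a p.1, b p.1, a p.1 - b p.1] p.2

omit [DecidableEq ι] in
private theorem TwT_cT (a b : ι → k[X]) : cT a b = ∏ p, TwT_sl a b p := by
  rw [Fintype.prod_prod_type, cT]
  refine Finset.prod_congr rfl fun i _ => ?_
  rw [Fin.prod_univ_three]
  rfl

omit [DecidableEq ι] in
private theorem TwT_dvd (a b : ι → k[X]) (p : ι × Fin 3) : TwT_sl a b p ∣ cT a b := by
  rw [TwT_cT]
  exact Finset.dvd_prod_of_mem _ (Finset.mem_univ p)

private theorem TwT_no {a b : ι → k[X]} (hT : HypT a b) {P : k[X]} (hi : Irreducible P)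
    {p q : ι × Fin 3} (hp : P ∣ TwT_sl a b p) (hq : P ∣ TwT_sl a b q) : q = p := by
  by_contra hne
  have h1 : TwT_sl a b p * TwT_sl a b q ∣ cT a b := by
    rw [TwT_cT, ← Finset.mul_prod_erase _ _ (Finset.mem_univ p)]
    exact mul_dvd_mul_left _ (Finset.dvd_prod_of_mem _ (Finset.mem_erase.mpr ⟨hne, Finset.mem_univ q⟩))
  exact hi.not_isUnit (hT.sqf P ((mul_dvd_mul hp hq).trans h1))

private theorem TwT_vm0 {P f : k[X]} (h : ¬ P ∣ f) : vm P f = 0 := by
  by_cases hf : f = 0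
  · exact absurd (hf ▸ dvd_zero P) h
  · exact SmithE.vm_eq_zero fun h1 => h ((SmithE.mem_primesOf hf).mp h1).2.2

private theorem TwT_vm1 {P f : k[X]} (hs : Squarefree f) (hm : P.Monic) (hi : Irreducible P)
    (h : P ∣ f) : vm P f = 1 := by
  classical
  have hf : f ≠ 0 := hs.ne_zero
  have h1 : P ∈ normalizedFactors f := by
    have := (SmithE.mem_primesOf hf).mpr ⟨hm, hi, h⟩
    rwa [primesOf, Multiset.mem_toFinset] at this
  unfold vm
  rw [Multiset.count_eq_one_of_mem ((squarefree_iff_nodup_normalizedFactors hf).mp hs) h1,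
    Nat.cast_one]

private theorem TwT_ins0 (i : ι) :
    (ins i 0 : Matrix (ι → Fin 2) (ι → Fin 2) (ZMod 2)) = 0 := by
  have h := ins_smul (R := ZMod 2) i 0 (0 : Matrix (Fin 2) (Fin 2) (ZMod 2))
  rwa [zero_smul, zero_smul] at h

private theorem TwT_unit {P : k[X]} (hi : Irreducible P) : vm P (-1) = 0 := by
  apply TwT_vm0
  intro h
  exact hi.not_isUnit (isUnit_of_dvd_unit h isUnit_one.neg)

private theorem TwT_Mp {a b : ι → k[X]} (hT : HypT a b) (m : ℕ) {P : k[X]} (hm : P.Monic)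
    (hi : Irreducible P) {p : ι × Fin 3} (hp : P ∣ TwT_sl a b p) :
    TwT_M a b m (vm P) = ins p.1 (![Ma, Mb, Mab] p.2) := by
  have hv : ∀ q, vm P (TwT_sl a b q) = if q = p then 1 else 0 := by
    intro q
    split_ifs with h
    · rw [h]
      exact TwT_vm1 (hT.sqf.squarefree_of_dvd (TwT_dvd a b p)) hm hi hp
    · exact TwT_vm0 fun h1 => h (TwT_no hT hi hp h1)
  rw [TwT_M_apply, TwT_unit hi]
  have h0 : ∀ j, vm P (a j) = if (j, (0 : Fin 3)) = p then 1 else 0 := fun j => hv (j, 0)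
  have h1 : ∀ j, vm P (b j) = if (j, (1 : Fin 3)) = p then 1 else 0 := fun j => hv (j, 1)
  have h2 : ∀ j, vm P (a j - b j) = if (j, (2 : Fin 3)) = p then 1 else 0 := fun j => hv (j, 2)
  simp only [h0, h1, h2, mul_zero, zero_smul, add_zero]
  obtain ⟨i, x⟩ := p
  rw [Finset.sum_eq_single i]
  · congr 1
    fin_cases x <;> simp
  · intro j _ hj
    simp only [Prod.mk.injEq, hj, false_and, if_false, zero_smul, add_zero]
    exact TwT_ins0 j
  · intro h
    exact absurd (Finset.mem_univ i) h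

private theorem TwT_Jt : (kron (fun _ : ι => J2 (ZMod 2))).transpose =
    kron (fun _ : ι => J2 (ZMod 2)) := by
  rw [kron_transpose]
  congr 1
  funext _
  decide

private theorem TwT_symm {a b : ι → k[X]} (m : ℕ) {P : k[X]}
    (hi : Irreducible P) : (TwT_M a b m (vm P)).transpose * kron (fun _ : ι => J2 (ZMod 2)) =
      kron (fun _ : ι => J2 (ZMod 2)) * TwT_M a b m (vm P) := by
  rw [TwT_M_apply, TwT_unit hi]
  simp only [mul_zero, zero_smul, add_zero, ins_add, ins_smul, Matrix.transpose_sum, Matrix.transpose_add,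
    Matrix.transpose_smul, Finset.sum_mul, Finset.mul_sum, add_mul, mul_add, Matrix.smul_mul,
    Matrix.mul_smul]
  refine Finset.sum_congr rfl fun j _ => ?_
  rw [ins_selfadj j (Or.inl rfl), ins_selfadj j (Or.inr (Or.inl rfl)),
    ins_selfadj j (Or.inr (Or.inr rfl))]

private theorem TwT_e (x y : (ι → Fin 2) → ZMod 2) :
    Matrix.toLinearMap₂' (ZMod 2) (kron fun _ : ι => J2 (ZMod 2)) x y =
      x ⬝ᵥ (kron fun _ : ι => J2 (ZMod 2)).mulVec y :=
  Matrix.toLinearMap₂'_apply' _ _ _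

private theorem TwT_alt [Nonempty ι] (x : (ι → Fin 2) → ZMod 2) :
    Matrix.toLinearMap₂' (ZMod 2) (kron fun _ : ι => J2 (ZMod 2)) x x = 0 := by
  rw [TwT_e]
  have h1 : x ⬝ᵥ (kron fun _ : ι => J2 (ZMod 2)).mulVec x =
      ∑ p : (ι → Fin 2) × (ι → Fin 2), x p.1 * (kron (fun _ : ι => J2 (ZMod 2)) p.1 p.2 * x p.2) := by
    rw [Fintype.sum_prod_type]
    simp only [dotProduct, Matrix.mulVec, Finset.mul_sum]
  rw [h1]
  have hs : ∀ c d : ι → Fin 2, kron (fun _ : ι => J2 (ZMod 2)) c d =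
      kron (fun _ : ι => J2 (ZMod 2)) d c := by
    intro c d
    conv_lhs => rw [← TwT_Jt]
    rfl
  refine Finset.sum_involution (fun p _ => (p.2, p.1)) ?_ ?_ ?_ ?_
  · intro p _
    simp only []
    rw [hs p.2 p.1]
    have : x p.2 * (kron (fun _ : ι => J2 (ZMod 2)) p.1 p.2 * x p.1) =
        x p.1 * (kron (fun _ : ι => J2 (ZMod 2)) p.1 p.2 * x p.2) := by ring
    rw [this]
    exact CharTwo.add_self_eq_zero _
  · intro p _ h h2
    apply h
    have h3 : p.2 = p.1 := congrArg Prod.fst h2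
    rw [h3, kronJ_diag, zero_mul, mul_zero]
  · intro p _
    exact Finset.mem_univ _
  · intro p _
    rfl

private theorem TwT_nd (x : (ι → Fin 2) → ZMod 2)
    (h : ∀ y : (ι → Fin 2) → ZMod 2,
      Matrix.toLinearMap₂' (ZMod 2) (kron fun _ : ι => J2 (ZMod 2)) y x = 0) : x = 0 := by
  have h1 : (kron fun _ : ι => J2 (ZMod 2)).mulVec x = 0 := by
    funext c
    have h2 := h (Pi.single c 1)
    rwa [TwT_e, single_one_dotProduct] at h2
  exact Matrix.eq_zero_of_mulVec_eq_zero (kronJ_unit (ι := ι) (R := ZMod 2)).ne_zero h1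

omit [DecidableEq ι] in
private theorem TwT_chi {Ω : Type} [Field Ω] [Algebra (RatFunc k) Ω] [IsSepClosure (RatFunc k) Ω]
    [Finite k] (h2 : (2 : k) ≠ 0) {u : k} (hu : ¬ IsSquare u) {a b : ι → k[X]} (hT : HypT a b)
    {f : k[X]} (hf : f ∣ cT a b) (s : Ω ≃ₐ[RatFunc k] Ω) :
    chf Ω f s = chP Ω (C u) s * lcz f + ∑ P ∈ primesOf (cT a b), chP Ω P s * vm P f := by
  have h2' : (2 : RatFunc k) ≠ 0 := by
    have h3 : (2 : RatFunc k) = algebraMap k (RatFunc k) 2 := (map_ofNat _ 2).symm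
    rw [h3]
    exact (map_ne_zero_iff _ (algebraMap k (RatFunc k)).injective).mpr h2
  have hf0 : f ≠ 0 := ne_zero_of_dvd_ne_zero hT.ne hf
  have h := SmithE.chi_poly (Ω := Ω) h2' hu hf0 (primesOf (cT a b)) (fun P hP => by
    obtain ⟨hm, hi, hd⟩ := (SmithE.mem_primesOf hf0).mp hP
    exact (SmithE.mem_primesOf hT.ne).mpr ⟨hm, hi, hd.trans hf⟩) s
  refine h.trans ?_
  rw [mul_comm]
  congr 1
  exact Finset.sum_congr rfl fun P _ => mul_comm _ _

private theorem TwT_congr {a b : ι → k[X]} (m : ℕ) {g g' : k[X] → ZMod 2}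
    (h : ∀ p, g (TwT_sl a b p) = g' (TwT_sl a b p)) (h1 : g (-1) = g' (-1)) :
    TwT_M a b m g = TwT_M a b m g' := by
  rw [TwT_M_apply, TwT_M_apply, h1]
  have e0 : ∀ j, g (a j) = g' (a j) := fun j => h (j, 0)
  have e1 : ∀ j, g (b j) = g' (b j) := fun j => h (j, 1)
  have e2 : ∀ j, g (a j - b j) = g' (a j - b j) := fun j => h (j, 2)
  simp only [e0, e1, e2]

theorem exists_twT [Nonempty ι] [Finite k] (h2 : (2 : k) ≠ 0) {u : k} (hu : ¬ IsSquare u)
    {a b : ι → k[X]}
    (hT : HypT a b) (m : ℕ) : ∃ d : TwData k ((ι → Fin 2) → ZMod 2),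
      d.e = Matrix.toLinearMap₂' (ZMod 2) (kron fun _ : ι => J2 (ZMod 2)) ∧ d.u = u ∧
      (∀ P : k[X], P.Monic → Irreducible P → (P ∣ cT a b ↔ ∃ i, P = d.ell i)) ∧
      ∀ (Ω : Type) [Field Ω] [Algebra (RatFunc k) Ω] [IsSepClosure (RatFunc k) Ω]
        (s : Ω ≃ₐ[RatFunc k] Ω) (w : (ι → Fin 2) → ZMod 2),
        (kapT Ω a b m s).mulVec w =
          ∑ i, chP Ω (d.ell i) s • d.T i w + chP Ω (C d.u) s • d.Tc w := by
  classical
  set S : Finset k[X] := primesOf (cT a b) with hS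
  have hmem : ∀ i : Fin S.card, ((S.equivFin.symm i).1).Monic ∧ Irreducible (S.equivFin.symm i).1 ∧
      (S.equivFin.symm i).1 ∣ cT a b := fun i => (SmithE.mem_primesOf hT.ne).mp (S.equivFin.symm i).2
  have hex : ∀ P ∈ S, ∃ i, (S.equivFin.symm i).1 = P := fun P hP =>
    ⟨S.equivFin ⟨P, hP⟩, by simp⟩
  refine ⟨{
    e := Matrix.toLinearMap₂' (ZMod 2) (kron fun _ : ι => J2 (ZMod 2))
    alt := TwT_alt
    nd := TwT_nd
    h := S.card
    ell := fun i => (S.equivFin.symm i).1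
    u := u
    T := fun i => Matrix.toLin' (TwT_M a b m (vm (S.equivFin.symm i).1))
    Tc := Matrix.toLin' (TwT_M a b m lcz)
    ell_monic := fun i => (hmem i).1
    ell_irr := fun i => (hmem i).2.1
    ell_inj := fun i j h => S.equivFin.symm.injective (Subtype.ext h)
    u_nonsq := hu
    symm := ?_
    gen := ?_ }, rfl, rfl, ?_, ?_⟩
  · intro i w w'
    rw [TwT_e, TwT_e, Matrix.toLin'_apply, Matrix.toLin'_apply, Matrix.mulVec_mulVec,
      Matrix.mulVec_mulVec, ← TwT_symm m (hmem i).2.1, Matrix.dotProduct_mulVec,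
      dotProduct_comm, ← Matrix.mulVec_transpose, Matrix.transpose_mul, TwT_Jt,
      Matrix.transpose_transpose, ← TwT_symm m (hmem i).2.1]
  · rw [eq_top_iff, ← ins_gen (ι := ι)]
    refine Algebra.adjoin_mono ?_
    rintro _ ⟨p, rfl⟩
    have hne : TwT_sl a b p ≠ 0 := ne_zero_of_dvd_ne_zero hT.ne (TwT_dvd a b p)
    have hu' : ¬ IsUnit (TwT_sl a b p) := by
      intro h
      have h1 := natDegree_eq_zero_of_isUnit h
      have h3 := hT.pos p.1
      obtain ⟨i, x⟩ := p
      fin_cases x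
      · exact absurd h1 h3.ne'
      · exact absurd ((hT.deg_b i).symm.trans h1) h3.ne'
      · exact absurd ((hT.deg_ab i).symm.trans h1) h3.ne'
    obtain ⟨Q, hQi, hQd⟩ := WfDvdMonoid.exists_irreducible_factor hu' hne
    have hPm : (normalize Q).Monic := Polynomial.monic_normalize hQi.ne_zero
    have hPi : Irreducible (normalize Q) := (normalize_associated Q).symm.irreducible hQi
    have hPd : normalize Q ∣ TwT_sl a b p := (normalize_associated Q).dvd.trans hQd
    obtain ⟨i, hi⟩ := hex (normalize Q) ((SmithE.mem_primesOf hT.ne).mpr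
      ⟨hPm, hPi, hPd.trans (TwT_dvd a b p)⟩)
    refine ⟨i, ?_⟩
    simp only [hi]
    rw [TwT_Mp hT m hPm hPi hPd]
  · intro P hPm hPi
    constructor
    · intro h
      obtain ⟨i, hi⟩ := hex P ((SmithE.mem_primesOf hT.ne).mpr ⟨hPm, hPi, h⟩)
      exact ⟨i, hi.symm⟩
    · rintro ⟨i, rfl⟩
      exact (hmem i).2.2
  · intro Ω _ _ _ s w
    have h1 : kapT Ω a b m s = TwT_M a b m (chP Ω (C u) s • (lcz : k[X] → ZMod 2) +
        ∑ i : Fin S.card, chP Ω (S.equivFin.symm i).1 s • (vm (S.equivFin.symm i).1 : k[X] → ZMod 2)) := by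
      have hsum : ∀ f : k[X], ∑ i : Fin S.card, chP Ω (S.equivFin.symm i).1 s *
          vm (S.equivFin.symm i).1 f = ∑ P ∈ S, chP Ω P s * vm P f := by
        intro f
        refine Finset.sum_bij (fun i _ => (S.equivFin.symm i).1) (fun i _ => (S.equivFin.symm i).2)
          (fun i _ j _ hij => S.equivFin.symm.injective (Subtype.ext hij)) (fun P hP => ?_)
          (fun i _ => rfl)
        obtain ⟨i, hi⟩ := hex P hP
        exact ⟨i, Finset.mem_univ _, hi⟩
      have h3 : kapT Ω a b m s = TwT_M a b m (fun f => chf Ω f s) := rfl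
      rw [h3]
      refine TwT_congr m (fun p => ?_) ?_
      · rw [TwT_chi h2 hu hT (TwT_dvd a b p) s]
        simp only [Pi.add_apply, Pi.smul_apply, smul_eq_mul, Finset.sum_apply]
        rw [hsum]
      · rw [TwT_chi h2 hu hT (IsUnit.dvd isUnit_one.neg) s]
        simp only [Pi.add_apply, Pi.smul_apply, smul_eq_mul, Finset.sum_apply]
        rw [hsum]
    have h4 : kapT Ω a b m s = chP Ω (C u) s • TwT_M a b m lcz +
        ∑ i : Fin S.card, chP Ω (S.equivFin.symm i).1 s • TwT_M a b m (vm (S.equivFin.symm i).1) := by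
      rw [h1, map_add, map_smul, map_sum]
      congr 1
      exact Finset.sum_congr rfl fun i _ => map_smul _ _ _
    have h5 : (kapT Ω a b m s).mulVec w = chP Ω (C u) s • (TwT_M a b m lcz).mulVec w +
        ∑ i : Fin S.card, chP Ω (S.equivFin.symm i).1 s •
          (TwT_M a b m (vm (S.equivFin.symm i).1)).mulVec w := by
      rw [h4, Matrix.add_mulVec, Matrix.smul_mulVec, Matrix.sum_mulVec]
      congr 1
      exact Finset.sum_congr rfl fun i _ => Matrix.smul_mulVec _ _ _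
    rw [h5, add_comm]
    rfl

end TwT

end Pool.Agent.TTC
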