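import Pool.Agent.Lib.TTC.Cyc
import Pool.Agent.Lib.SmJ.P.Weil

/-!
# Project TTC (MP_950c68_ag), module WeilL: the Weil pairing of a symplectic lattice

`e m x y = zq (2 ^ m * r_x^T J r_y)`, `r_x, r_y` lifts of `x, y` to `ℚ_2 ^ I`, is a compatible family
of alternating equivariant pairings on the groups `(VL L)[2 ^ m]`.
-/

set_option autoImplicit false

open Polynomial

namespace Pool.Agent.TTC

open Pool.Agent.BSDFF Pool.Agent.Lib.SmD Pool.Agent.SmJ

section WeilL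

section alg

variable {I : Type}

private theorem WeilL_lift (Q : QZ) : ∃ r : ℚ_[2], qz r = Q := qz_surj Q

/-- a lift -/
private noncomputable def WeilL_lf (x : I → QZ) : I → ℚ_[2] := fun i => (WeilL_lift (x i)).choose

private theorem WeilL_qz_lf (x : I → QZ) (i : I) : qz (WeilL_lf x i) = x i :=
  (WeilL_lift (x i)).choose_spec

private theorem WeilL_kill {x : I → QZ} {m : ℕ} (hx : (2 : ℕ) ^ m • x = 0) {r : I → ℚ_[2]}
    (hr : ∀ i, qz (r i) = x i) : ∃ a : I → ℤ_[2], ∀ i, 2 ^ m * r i = a i := by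
  have h : ∀ i, ∃ a : ℤ_[2], 2 ^ m * r i = a := by
    intro i
    have h1 : (2 : ℕ) ^ m • x i = 0 := congrFun hx i
    rw [← hr, qz_nsmul, qz_eq_zero] at h1
    obtain ⟨a, ha⟩ := h1
    exact ⟨a, by rw [ha]; push_cast; rfl⟩
  choose a ha using h
  exact ⟨a, ha⟩

private theorem WeilL_diff {x : I → QZ} {r s : I → ℚ_[2]} (hr : ∀ i, qz (r i) = x i)
    (hs : ∀ i, qz (s i) = x i) : ∃ z : I → ℤ_[2], ∀ i, r i = s i + z i := by
  have h : ∀ i, ∃ z : ℤ_[2], r i = s i + z := fun i => qz_eq.mp ((hr i).trans (hs i).symm)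
  choose z hz using h
  exact ⟨z, hz⟩

variable [Fintype I]

/-- the bilinear form over `ℚ_2` -/
private noncomputable def WeilL_b (J : Matrix I I ℤ_[2]) (r r' : I → ℚ_[2]) : ℚ_[2] :=
  r ⬝ᵥ (J.map fun x : ℤ_[2] => (x : ℚ_[2])).mulVec r'

private noncomputable def WeilL_E (J : Matrix I I ℤ_[2]) (m : ℕ) (r r' : I → ℚ_[2]) : QZ :=
  qz (2 ^ m * WeilL_b J r r')

private theorem WeilL_b_add_left (J : Matrix I I ℤ_[2]) (r s r' : I → ℚ_[2]) :
    WeilL_b J (r + s) r' = WeilL_b J r r' + WeilL_b J s r' := by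
  rw [WeilL_b, add_dotProduct]
  rfl

private theorem WeilL_b_add_right (J : Matrix I I ℤ_[2]) (r r' s' : I → ℚ_[2]) :
    WeilL_b J r (r' + s') = WeilL_b J r r' + WeilL_b J r s' := by
  rw [WeilL_b, Matrix.mulVec_add, dotProduct_add]
  rfl

private theorem WeilL_b_smul_left (J : Matrix I I ℤ_[2]) (c : ℚ_[2]) (r r' : I → ℚ_[2]) :
    WeilL_b J (c • r) r' = c * WeilL_b J r r' := by
  rw [WeilL_b, smul_dotProduct, smul_eq_mul]
  rfl

private theorem WeilL_b_smul_right (J : Matrix I I ℤ_[2]) (c : ℚ_[2]) (r r' : I → ℚ_[2]) :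
    WeilL_b J r (c • r') = c * WeilL_b J r r' := by
  rw [WeilL_b, Matrix.mulVec_smul, dotProduct_smul, smul_eq_mul]
  rfl

/-- integral vectors -/
private theorem WeilL_b_int (J : Matrix I I ℤ_[2]) (x y : I → ℤ_[2]) :
    WeilL_b J (fun i => (x i : ℚ_[2])) (fun i => (y i : ℚ_[2])) =
      ((∑ i, ∑ j, x i * J i j * y j : ℤ_[2]) : ℚ_[2]) := by
  rw [WeilL_b, dotProduct, PadicInt.coe_sum]
  refine Finset.sum_congr rfl fun i _ => ?_
  rw [Matrix.mulVec, dotProduct, PadicInt.coe_sum, Finset.mul_sum]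
  refine Finset.sum_congr rfl fun j _ => ?_
  rw [Matrix.map_apply, PadicInt.coe_mul, PadicInt.coe_mul, mul_assoc]

private theorem WeilL_b_self (J : Matrix I I ℤ_[2]) (hJ : J.transpose = -J) (r : I → ℚ_[2]) :
    WeilL_b J r r = 0 := by
  have h : WeilL_b J r r = -WeilL_b J r r := by
    conv_lhs =>
      rw [WeilL_b, Matrix.dotProduct_mulVec, ← Matrix.mulVec_transpose, dotProduct_comm]
    rw [WeilL_b, ← Matrix.transpose_map, hJ, ← dotProduct_neg, ← Matrix.neg_mulVec]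
    congr 2
  have h2 : (2 : ℚ_[2]) * WeilL_b J r r = 0 := by
    rw [two_mul]
    nth_rewrite 1 [h]
    exact neg_add_cancel _
  exact (mul_eq_zero.mp h2).resolve_left two_ne_zero

/-- change of the second vector -/
private theorem WeilL_right (J : Matrix I I ℤ_[2]) {m : ℕ} {r r' s' : I → ℚ_[2]} {a z : I → ℤ_[2]}
    (ha : ∀ i, 2 ^ m * r i = a i) (hz : ∀ i, r' i = s' i + z i) :
    WeilL_E J m r r' = WeilL_E J m r s' := by
  have h1 : r' = s' + fun i => (z i : ℚ_[2]) := funext hz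
  have h2 : (2 ^ m : ℚ_[2]) • r = fun i => (a i : ℚ_[2]) := funext ha
  rw [WeilL_E, WeilL_E, qz_eq]
  refine ⟨∑ i, ∑ j, a i * J i j * z j, ?_⟩
  rw [← WeilL_b_int, ← h2, h1, WeilL_b_add_right, WeilL_b_smul_left]
  ring

/-- change of the first vector -/
private theorem WeilL_left (J : Matrix I I ℤ_[2]) {m : ℕ} {r s r' : I → ℚ_[2]} {a z : I → ℤ_[2]}
    (ha : ∀ i, 2 ^ m * r' i = a i) (hz : ∀ i, r i = s i + z i) :
    WeilL_E J m r r' = WeilL_E J m s r' := by
  have h1 : r = s + fun i => (z i : ℚ_[2]) := funext hz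
  have h2 : (2 ^ m : ℚ_[2]) • r' = fun i => (a i : ℚ_[2]) := funext ha
  rw [WeilL_E, WeilL_E, qz_eq]
  refine ⟨∑ i, ∑ j, z i * J i j * a j, ?_⟩
  rw [← WeilL_b_int, ← h2, h1, WeilL_b_add_left, WeilL_b_smul_right]
  ring

/-- the pairing -/
private noncomputable def WeilL_P (J : Matrix I I ℤ_[2]) (m : ℕ) (x y : I → QZ) : QZ :=
  WeilL_E J m (WeilL_lf x) (WeilL_lf y)

private theorem WeilL_P_def (J : Matrix I I ℤ_[2]) (m : ℕ) (x y : I → QZ) :
    WeilL_P J m x y = qz (2 ^ m * WeilL_b J (WeilL_lf x) (WeilL_lf y)) := rfl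

/-- the pairing by any lifts -/
private theorem WeilL_P_eq (J : Matrix I I ℤ_[2]) {m : ℕ} {x y : I → QZ}
    (hx : (2 : ℕ) ^ m • x = 0) (hy : (2 : ℕ) ^ m • y = 0) {r r' : I → ℚ_[2]}
    (hr : ∀ i, qz (r i) = x i) (hr' : ∀ i, qz (r' i) = y i) :
    WeilL_P J m x y = WeilL_E J m r r' := by
  obtain ⟨a, ha⟩ := WeilL_kill hx (WeilL_qz_lf x)
  obtain ⟨b, hb⟩ := WeilL_kill hy hr'
  obtain ⟨z, hz⟩ := WeilL_diff (WeilL_qz_lf x) hr
  obtain ⟨z', hz'⟩ := WeilL_diff (WeilL_qz_lf y) hr'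
  rw [WeilL_P, WeilL_right J ha hz', WeilL_left J hb hz]

end alg

variable {k : Type} [Field k] [Finite k] {Ω : Type} [Field Ω] [Algebra (RatFunc k) Ω]
  [IsSepClosure (RatFunc k) Ω] {I : Type} [Fintype I] [DecidableEq I]
  {L : Lat (Ω ≃ₐ[RatFunc k] Ω) I} {c : k[X]}

private theorem WeilL_main (h20 : (2 : Ω) ≠ 0) (hsc : IsSepClosed Ω) (hL : LatK Ω L c)
    (zq : QZ →+ SmP.MuT Ω)
    (h1 : ∀ (s : Ω ≃ₐ[RatFunc k] Ω) (Q : QZ),
      s • zq Q = zq ((cycK Ω (RatFunc k) s : ℤ_[2]) • Q))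
    (h2 : ∀ a, zq (hf2 a) = SmP.hfM Ω a) :
    Weil (sysL Ω L c) (fun m x y => zq (WeilL_P L.J m x y)) (SmP.hfM Ω) where
  add_left m x x' y hx hx' hy := by
    have hxx : (2 : ℕ) ^ m • (x + x') = 0 := by rw [smul_add, hx, hx', add_zero]
    have e1 : WeilL_P L.J m (x + x') y =
        WeilL_E L.J m (WeilL_lf x + WeilL_lf x') (WeilL_lf y) :=
      WeilL_P_eq L.J hxx hy (fun i => (map_add qz _ _).trans
        (congrArg₂ (· + ·) (WeilL_qz_lf x i) (WeilL_qz_lf x' i))) (WeilL_qz_lf y)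
    change zq (WeilL_P L.J m (x + x') y) = _
    rw [e1, WeilL_E, WeilL_b_add_left, mul_add, map_add, map_add]
    rfl
  add_right m x y y' hx hy hy' := by
    have hyy : (2 : ℕ) ^ m • (y + y') = 0 := by rw [smul_add, hy, hy', add_zero]
    have e1 : WeilL_P L.J m x (y + y') =
        WeilL_E L.J m (WeilL_lf x) (WeilL_lf y + WeilL_lf y') :=
      WeilL_P_eq L.J hx hyy (WeilL_qz_lf x) (fun i => (map_add qz _ _).trans
        (congrArg₂ (· + ·) (WeilL_qz_lf y i) (WeilL_qz_lf y' i)))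
    change zq (WeilL_P L.J m x (y + y')) = _
    rw [e1, WeilL_E, WeilL_b_add_right, mul_add, map_add, map_add]
    rfl
  alt m x hx := by
    have e1 : WeilL_P L.J m x x = 0 := by
      refine (WeilL_P_def L.J m x x).trans ?_
      rw [WeilL_b_self _ hL.sy.Jt, mul_zero, map_zero]
    change zq (WeilL_P L.J m x x) = 0
    rw [e1, map_zero]
  comp m x y hx hy := by
    have hx1 : (2 : ℕ) ^ (m + 1) • x = 0 := pow_smul_of_le (Nat.le_succ m) hx
    have hy1 : (2 : ℕ) ^ m • ((2 : ℕ) • y) = 0 := by rw [← mul_smul, ← pow_succ]; exact hy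
    have e1 : WeilL_P L.J m x ((2 : ℕ) • y) =
        WeilL_E L.J m (WeilL_lf x) ((2 : ℚ_[2]) • WeilL_lf y) :=
      WeilL_P_eq L.J hx hy1 (WeilL_qz_lf x) (fun i => by
        have e2 : ((2 : ℕ) • y : VL L) i = (2 : ℕ) • y i := rfl
        rw [e2, ← WeilL_qz_lf y i, qz_nsmul, Pi.smul_apply, smul_eq_mul]
        push_cast
        rfl)
    change zq (WeilL_P L.J (m + 1) x y) = zq (WeilL_P L.J m x ((2 : ℕ) • y))
    rw [e1]
    refine congrArg zq ((WeilL_P_def L.J (m + 1) x y).trans ?_)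
    rw [WeilL_E, WeilL_b_smul_right, pow_succ, mul_assoc]
  equiv m s x y hx hy := by
    have hlf : ∀ (z : VL L) (i : I), qz ((L.rq s).mulVec (WeilL_lf z) i) = (s • z) i := by
      intro z i
      have h3 := congrFun (mact_qz (L.rho s) (WeilL_lf z)) i
      have h4 : (fun b => qz (WeilL_lf z b)) = (z : I → QZ) := funext (WeilL_qz_lf z)
      rw [h4] at h3
      exact h3.symm
    have hs : ∀ {z : VL L}, (2 : ℕ) ^ m • z = 0 → (2 : ℕ) ^ m • (s • z) = 0 := by
      intro z hz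
      rw [← (smul_comm s ((2 : ℕ) ^ m) z), hz, smul_zero]
    have e1 : WeilL_P L.J m (s • x) (s • y) =
        WeilL_E L.J m ((L.rq s).mulVec (WeilL_lf x)) ((L.rq s).mulVec (WeilL_lf y)) :=
      WeilL_P_eq L.J (hs hx) (hs hy) (hlf x) (hlf y)
    change zq (WeilL_P L.J m (s • x) (s • y)) = s • zq (WeilL_P L.J m x y)
    rw [e1, h1, ← hL.cyc]
    refine congrArg zq (Eq.trans ?_
      (congrArg (fun z => (L.cyc s : ℤ_[2]) • z) (WeilL_P_def L.J m x y).symm))
    change _ = (L.cyc s : ℤ_[2]) • qz (2 ^ m * WeilL_b L.J (WeilL_lf x) (WeilL_lf y))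
    rw [WeilL_E, qz_smul]
    congr 1
    have e2 : WeilL_b L.J ((L.rq s).mulVec (WeilL_lf x)) ((L.rq s).mulVec (WeilL_lf y)) =
        ((L.cyc s : ℤ_[2]) : ℚ_[2]) * WeilL_b L.J (WeilL_lf x) (WeilL_lf y) := by
      have e3 : (L.rq s).transpose * (L.J.map fun x : ℤ_[2] => (x : ℚ_[2])) * L.rq s =
          ((L.cyc s : ℤ_[2]) : ℚ_[2]) • (L.J.map fun x : ℤ_[2] => (x : ℚ_[2])) := by
        have e4 := congrArg (fun A : Matrix I I ℤ_[2] => A.map (PadicInt.Coe.ringHom (p := 2)))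
          (hL.sy.sim s)
        simp only [Matrix.map_mul] at e4
        rw [Matrix.transpose_map] at e4
        have e5 : ((L.cyc s : ℤ_[2]) • L.J).map (PadicInt.Coe.ringHom (p := 2)) =
            ((L.cyc s : ℤ_[2]) : ℚ_[2]) • (L.J.map fun x : ℤ_[2] => (x : ℚ_[2])) := by
          ext i j
          rw [Matrix.map_apply, Matrix.smul_apply, Matrix.smul_apply, smul_eq_mul, map_mul,
            Matrix.map_apply, smul_eq_mul]
          rfl
        rw [e5] at e4
        exact e4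
      have e6 : ∀ r r' : I → ℚ_[2], WeilL_b L.J ((L.rq s).mulVec r) ((L.rq s).mulVec r') =
          r ⬝ᵥ ((L.rq s).transpose * (L.J.map fun x : ℤ_[2] => (x : ℚ_[2])) *
            L.rq s).mulVec r' := by
        intro r r'
        rw [WeilL_b, Matrix.mul_assoc, ← Matrix.mulVec_mulVec, ← Matrix.mulVec_mulVec,
          Matrix.mulVec_transpose, dotProduct_comm, Matrix.dotProduct_mulVec, dotProduct_comm]
      rw [e6, e3, Matrix.smul_mulVec, dotProduct_smul, smul_eq_mul]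
      rfl
    rw [e2]
    ring
  one w w' := by
    have hsurj : ∀ a : ZMod 2, ∃ b : ℤ_[2], red2 b = a := fun a =>
      ⟨((a.val : ℕ) : ℤ_[2]), by rw [map_natCast, ZMod.natCast_zmod_val]⟩
    choose t ht using hsurj
    have hlf : ∀ (w : I → ZMod 2) (i : I),
        qz (((1 / 2 : ℚ_[2]) • fun j => ((t (w j) : ℤ_[2]) : ℚ_[2])) i) = iotaL L w i := by
      intro w i
      have e1 : iotaL L w i = qz ((t (w i) : ℚ_[2]) / 2) := by
        rw [iotaL_apply, ← hf2_red2, ht]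
      refine Eq.trans (congrArg qz ?_) e1.symm
      change (1 / 2 : ℚ_[2]) * (t (w i) : ℚ_[2]) = _
      ring
    have h0 : ∀ w : I → ZMod 2, (2 : ℕ) ^ 1 • iotaL L w = 0 := by
      intro w
      rw [pow_one, ← map_nsmul]
      have e : (2 : ℕ) • w = 0 := by
        funext i
        have e3 : ∀ x : ZMod 2, (2 : ℕ) • x = 0 := by decide
        exact e3 (w i)
      rw [e, map_zero]
    have e1 := WeilL_P_eq L.J (h0 w) (h0 w') (hlf w) (hlf w')
    change zq (WeilL_P L.J 1 (iotaL L w) (iotaL L w')) = SmP.hfM Ω (eL L w w')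
    rw [e1, ← h2]
    congr 1
    rw [WeilL_E, WeilL_b_smul_left, WeilL_b_smul_right, WeilL_b_int, eL_apply]
    have e2 : (∑ i, ∑ j, w i * red2 (L.J i j) * w' j) =
        red2 (∑ i, ∑ j, t (w i) * L.J i j * t (w' j)) := by
      simp only [map_sum, map_mul, ht]
    rw [e2, hf2_red2]
    congr 1
    ring
  fix s a := by
    have h01 : ∀ a : ZMod 2, a = 0 ∨ a = 1 := by decide
    rcases h01 a with rfl | rfl
    · rw [map_zero, smul_zero]
    · have e1 : (2 : ℕ) • (s • SmP.hfM Ω 1) = 0 := by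
        rw [← (smul_comm s (2 : ℕ) (SmP.hfM Ω 1)), ← map_nsmul]
        have e : (2 : ℕ) • (1 : ZMod 2) = 0 := by decide
        rw [e, map_zero, smul_zero]
      obtain ⟨b, hb⟩ := SmP.MuT.two h20 _ e1
      rcases h01 b with rfl | rfl
      · exfalso
        rw [map_zero] at hb
        have e3 : SmP.hfM Ω 1 = 0 := by
          have e4 := congrArg (fun z => s⁻¹ • z) hb
          simp only [smul_zero, inv_smul_smul] at e4
          exact e4.symm
        have e5 := SmP.hfM_inj h20 (e3.trans (map_zero _).symm)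
        exact absurd e5 (by decide)
      · exact hb.symm

theorem weilL (h2 : (2 : k) ≠ 0) (hL : LatK Ω L c) :
    ∃ e : ℕ → VL L → VL L → SmP.MuT Ω, Weil (sysL Ω L c) e (SmP.hfM Ω) := by
  have h20 : (2 : Ω) ≠ 0 := by
    rw [← map_ofNat (algebraMap (RatFunc k) Ω) 2, ← map_ofNat (algebraMap k (RatFunc k)) 2]
    exact (map_ne_zero_iff _ (algebraMap (RatFunc k) Ω).injective).2
      ((map_ne_zero_iff _ (algebraMap k (RatFunc k)).injective).2 h2)
  have hsc : IsSepClosed Ω := IsSepClosure.sep_closed (RatFunc k)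
  obtain ⟨zq, -, h3, h4⟩ := exists_zq (k := k) (Ω := Ω) h2
  exact ⟨_, WeilL_main h20 hsc hL zq h3 h4⟩

end WeilL

end Pool.Agent.TTC
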