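import Pool.Agent.Lib.TTC.CorL
import Pool.Agent.Lib.TTC.EB
import Pool.Agent.Lib.TTC.EA
import Pool.Agent.Lib.TTC.EvenT
import Pool.Agent.Lib.TTC.ShaFin
import Pool.Agent.Lib.TTC.TateT
import Pool.Agent.Lib.TTC.TwT
import Pool.Agent.Lib.TTC.LatKT
import Pool.Agent.Lib.TTC.OkL
import Pool.Agent.Lib.TTC.RecL
import Pool.Agent.Lib.TTC.ChL
import Pool.Agent.Lib.TTC.WeilL
import Pool.Agent.Lib.TTC.FinD

/-!
# Project TTC (MP_950c68_ag), module FinT: the theorem in coordinate free form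
-/

set_option autoImplicit false

open Polynomial TensorProduct

namespace Pool.Agent.TTC

section FinT

open Pool.Agent.BSDFF Pool.Agent.Lib.SmD Pool.Agent.SmJ
open Pool.Agent.SmithE (chP)
open Pool.Agent.Sm.Inst (plF)

variable {k : Type} [Field k] [Finite k] {Ω : Type} [Field Ω] [Algebra (RatFunc k) Ω]
  [IsSepClosure (RatFunc k) Ω] [DecidableEq Ω] {ι : Type} [Fintype ι] [DecidableEq ι]

omit [Finite k] in
private theorem FinT_map_ne {f g : k[X]} (h : f ≠ g) :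
    algebraMap k[X] (RatFunc k) f ≠ algebraMap k[X] (RatFunc k) g :=
  fun h' => h (IsFractionRing.injective k[X] (RatFunc k) h')

omit [Finite k] [IsSepClosure (RatFunc k) Ω] in
theorem eL_latE {a b : ι → k[X]} (E : ∀ i, EDat Ω (a i) (b i)) (m : ℕ) :
    eL (latE E m) = Matrix.toLinearMap₂' (ZMod 2) (kron fun _ : ι => J2 (ZMod 2)) := by
  have h1 : (latE E m).J.map red2 = kron fun _ : ι => J2 (ZMod 2) := by
    change (kron fun _ : ι => J2 ℤ_[2]).map red2 = _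
    rw [kron_map]
    congr 1
    funext _
    ext i j
    fin_cases i <;> fin_cases j <;> simp [J2]
  rw [eL, h1]

/-- **The theorem in coordinate free form.** -/
theorem final_T (h2 : (2 : k) ≠ 0) {a b : ι → k[X]} (hT : HypT a b) {m : ℕ}
    (hm : Fintype.card ι = 2 * m + 1) (hm1 : 1 ≤ m) (ε : ℝ) (hε : 0 < ε) :
    ∃ n₀ : ℕ, ∀ n ≥ n₀, (Nat.card {D : k[X] // D.Monic ∧ Squarefree D ∧ IsCoprime D (cT a b) ∧
      D.natDegree = n ∧ ¬ Finite (Pool.Agent.SmJ.L.Sha k (rhoT Ω a b m D))} : ℝ) ≤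
        ε * (Nat.card k : ℝ) ^ n := by
  classical
  have h2R : (2 : RatFunc k) ≠ 0 := SmF.two_ratFunc h2
  have hne : Nonempty ι := Fintype.card_pos_iff.mp (by omega)
  have h12 : ∀ i, (0 : RatFunc k) ≠ algebraMap k[X] (RatFunc k) (a i) := fun i => by
    rw [← map_zero (algebraMap k[X] (RatFunc k))]
    exact FinT_map_ne (hT.hypE i).a_ne.symm
  have h13 : ∀ i, (0 : RatFunc k) ≠ algebraMap k[X] (RatFunc k) (b i) := fun i => by
    rw [← map_zero (algebraMap k[X] (RatFunc k))]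
    exact FinT_map_ne (hT.hypE i).b_ne.symm
  have h23 : ∀ i, algebraMap k[X] (RatFunc k) (a i) ≠ algebraMap k[X] (RatFunc k) (b i) :=
    fun i => FinT_map_ne fun h => (hT.hypE i).sub_ne (sub_eq_zero.mpr h)
  choose E hE using fun i => exists_EDat (Ω := Ω) h2R (h12 i) (h13 i) (h23 i)
  have hEok : ∀ i, (E i).Ok := fun i =>
    eDat_ok h2 (hT.hypE i) h2R (h12 i) (h13 i) (h23 i) (E i) (hE i)
  have hL := latK_T h2 hT E hEok hm
  have hok := okL h2 hL
  have hchar : ringChar k ≠ 2 := by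
    intro h
    apply h2
    have := ringChar.Nat.cast_ringChar (R := k)
    rw [h] at this
    exact_mod_cast this
  obtain ⟨u, hu⟩ := FiniteField.exists_nonsquare (F := k) hchar
  obtain ⟨d, hde, -, hell, hkap⟩ := exists_twT h2 hu hT m
  have hc : ChOk (sysL Ω (latE E m) (cT a b)) (chP Ω) d plF := by
    refine chOk_L h2 hL d ((eL_latE E m).trans hde.symm) hell fun s => ?_
    obtain ⟨B, hB, hB'⟩ := kap_T h2 E hEok m s
    exact ⟨B, hB, fun w => by rw [hB']; exact hkap Ω s w⟩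
  obtain ⟨e, hw⟩ := weilL h2 hL
  obtain ⟨φ, hφ⟩ := exists_phi E m
  obtain ⟨n₀, hn⟩ := cor0_L h2 hL hok hc hell hw (recipM_of_ok h2 hok)
    (fun D hD hco => even_T h2 hT E hEok hm hm1 hok hc hD hco) ε hε
  refine ⟨n₀, fun n hn' => le_trans ?_ (hn n hn')⟩
  have hfin : Finite {D : k[X] // D.Monic ∧ Squarefree D ∧ IsCoprime D (cT a b) ∧
      D.natDegree = n ∧ ¬ Cor0 (sysL Ω (latE E m) (cT a b)) (chP Ω) D} := by
    refine Finite.of_injective (β := {D : k[X] // D ∈ SmK.Mon k n})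
      (fun D => ⟨D.1, SmK.mem_Mon.mpr ⟨D.2.1, D.2.2.2.2.1⟩⟩) fun D D' h =>
        Subtype.ext (congrArg (fun z : {D : k[X] // D ∈ SmK.Mon k n} => z.1) h)
  refine Nat.cast_le.mpr (Nat.card_le_card_of_injective
    (fun D => ⟨D.1, D.2.1, D.2.2.1, D.2.2.2.1, D.2.2.2.2.1, fun hcor => D.2.2.2.2.2 ?_⟩)
    fun D D' h => Subtype.ext (congrArg (fun z : {D : k[X] // D.Monic ∧ Squarefree D ∧
      IsCoprime D (cT a b) ∧ D.natDegree = n ∧
        ¬ Cor0 (sysL Ω (latE E m) (cT a b)) (chP Ω) D} => z.1) h))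
  exact sha_fin h2 hL hok D.2.1.ne_zero hcor φ (hφ D.1)

end FinT

end Pool.Agent.TTC
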