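import Pool.Agent.Lib.TTC.HalfCop
import Pool.Agent.Lib.Sm.L.FinalP
import Pool.Agent.Lib.Sm.L.HalfDone

/-!
# TTC, row `HalfR`: rank `0` for half of the twists prime to `M`
-/

set_option autoImplicit false

open Polynomial Pool.Agent.BSDFF Pool.Agent

namespace Pool.Agent.TTC

open Pool.Agent.Sm.L

variable {k : Type} [Field k]

private lemma halfR_finite [Finite k] {n : ℕ} {P : k[X] → Prop}
    (hP : ∀ D, P D → D.natDegree = n) : Finite {D : k[X] // P D} := by
  have h : {D : k[X] | D.natDegree ≤ n} ⊆ (degreeLT k (n + 1) : Set k[X]) := by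
    intro D hD
    rw [SetLike.mem_coe, mem_degreeLT]
    exact lt_of_le_of_lt degree_le_natDegree (by exact_mod_cast Nat.lt_succ_of_le hD)
  have h1 : {D : k[X] | D.natDegree ≤ n}.Finite := by
    refine Set.Finite.subset ?_ h
    have : Finite (degreeLT k (n + 1)) := Finite.of_equiv _ (degreeLTEquiv k (n + 1)).toEquiv.symm
    exact Set.toFinite _
  have h2 := h1.to_subtype
  exact Finite.of_injective (β := {D : k[X] | D.natDegree ≤ n}) (fun D => ⟨D.1, (hP _ D.2).le⟩)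
    fun D D' h => Subtype.ext (congrArg (fun z : {D : k[X] | D.natDegree ≤ n} => z.1) h)

private lemma halfR_card [Finite k] {n : ℕ} {P : k[X] → Prop}
    (hP : ∀ D, P D → D.natDegree = n) :
    (Nat.card {D : k[X] // P D} : ℝ) ≤ (Nat.card k : ℝ) ^ (n + 1) := by
  have hfin : Finite (degreeLT k (n + 1)) :=
    Finite.of_equiv _ (degreeLTEquiv k (n + 1)).toEquiv.symm
  have h1 : Nat.card {D : k[X] // P D} ≤ Nat.card (degreeLT k (n + 1)) := by
    refine Nat.card_le_card_of_injective (fun D => ⟨D.1, ?_⟩)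
      fun D D' h => Subtype.ext (congrArg (fun z : degreeLT k (n + 1) => z.1) h)
    rw [mem_degreeLT]
    exact lt_of_le_of_lt degree_le_natDegree
      (by exact_mod_cast Nat.lt_succ_of_le (hP _ D.2).le)
  have h2 : Nat.card (degreeLT k (n + 1)) = Nat.card k ^ (n + 1) := by
    rw [Nat.card_congr (degreeLTEquiv k (n + 1)).toEquiv, Nat.card_fun]
    simp
  rw [h2] at h1
  exact_mod_cast h1

private lemma halfR_abs {A A' F : ℝ} {e1 e2 : ℝ} (h1 : A' ≤ A) (h2 : A ≤ A' + e1)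
    (h3 : |A - F / 2| ≤ e2) : |A' - F / 2| ≤ e1 + e2 := by
  rw [abs_le] at h3 ⊢
  constructor <;> linarith [h3.1, h3.2]

/-- Comparison of two counts. -/
private lemma halfR_cmp [Finite k] {n : ℕ} {F Q Q' B : k[X] → Prop} {e1 e2 : ℝ}
    (hF : ∀ D, F D → D.natDegree = n) (hQ : ∀ D, F D → Q' D → Q D)
    (hB : ∀ D, F D → Q D → ¬ Q' D → B D)
    (h1 : (Nat.card {D : k[X] // F D ∧ B D} : ℝ) ≤ e1)
    (h2 : |(Nat.card {D : k[X] // F D ∧ Q D} : ℝ) - (Nat.card {D : k[X] // F D} : ℝ) / 2| ≤ e2) :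
    |(Nat.card {D : k[X] // F D ∧ Q' D} : ℝ) - (Nat.card {D : k[X] // F D} : ℝ) / 2| ≤
      e1 + e2 := by
  classical
  have f1 : Finite {D : k[X] // F D ∧ Q D} := halfR_finite fun D h => hF D h.1
  have f2 : Finite {D : k[X] // F D ∧ Q' D} := halfR_finite fun D h => hF D h.1
  have f3 : Finite {D : k[X] // F D ∧ B D} := halfR_finite fun D h => hF D h.1
  refine halfR_abs (A := (Nat.card {D : k[X] // F D ∧ Q D} : ℝ)) ?_ ?_ h2
  · have : Nat.card {D : k[X] // F D ∧ Q' D} ≤ Nat.card {D : k[X] // F D ∧ Q D} :=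
      Nat.card_le_card_of_injective (fun D => ⟨D.1, D.2.1, hQ D.1 D.2.1 D.2.2⟩)
        fun D D' h => Subtype.ext (congrArg (fun z : {D : k[X] // F D ∧ Q D} => z.1) h)
    exact_mod_cast this
  · have h3 : Nat.card {D : k[X] // F D ∧ Q D} ≤
        Nat.card ({D : k[X] // F D ∧ Q' D} ⊕ {D : k[X] // F D ∧ B D}) := by
      refine Nat.card_le_card_of_injective (fun D => if h : Q' D.1 then
        Sum.inl ⟨D.1, D.2.1, h⟩ else Sum.inr ⟨D.1, D.2.1, hB D.1 D.2.1 D.2.2 h⟩) ?_
      intro D D' h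
      by_cases h4 : Q' D.1 <;> by_cases h5 : Q' D'.1
      · simp only [h4, h5, dif_pos, Sum.inl.injEq, Subtype.mk.injEq] at h
        exact Subtype.ext h
      · simp only [h4, h5, dif_pos, dif_neg, not_false_eq_true, reduceCtorEq] at h
      · simp only [h4, h5, dif_pos, dif_neg, not_false_eq_true, reduceCtorEq] at h
      · simp only [h4, h5, dif_neg, not_false_eq_true, Sum.inr.injEq, Subtype.mk.injEq] at h
        exact Subtype.ext h
    rw [Nat.card_sum] at h3
    have h4 : (Nat.card {D : k[X] // F D ∧ Q D} : ℝ) ≤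
        (Nat.card {D : k[X] // F D ∧ Q' D} : ℝ) + (Nat.card {D : k[X] // F D ∧ B D} : ℝ) := by
      exact_mod_cast h3
    linarith

/-- Rank `0` for half of the twists prime to `M`. -/
theorem half_rank0 {k : Type} [Field k] [Finite k] (h2 : (2 : k) ≠ 0) (M : k[X]) (hM : M ≠ 0)
    (a b : k[X]) (hab : No4 a b) (hl : ∃ l : k[X], Irreducible l ∧ MultAt l a b ∧ ¬ l ∣ M)
    (ε : ℝ) (hε : 0 < ε) :
    ∃ n₀ : ℕ, ∀ n ≥ n₀,
      |(Nat.card {D : k[X] // D.Monic ∧ Squarefree D ∧ IsCoprime D (a * b * (a - b) * M) ∧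
        D.natDegree = n ∧ Rank0 a b D} : ℝ) -
        (Nat.card {D : k[X] // D.Monic ∧ Squarefree D ∧ IsCoprime D (a * b * (a - b) * M) ∧
        D.natDegree = n} : ℝ) / 2| ≤ ε * (Nat.card k : ℝ) ^ n := by
  classical
  have hq : (0 : ℝ) < (Nat.card k : ℝ) := by
    have : 0 < Nat.card k := Nat.card_pos
    exact_mod_cast this
  obtain ⟨n1, hn1⟩ := half_cop
    (fun a b => HasCorank k (SeparableClosure (RatFunc k)) (crv2 a b) 0)
    (fun a b hab hm ε hε => by
      obtain ⟨n₀, h⟩ := half_hhalf h2 a b hab hm ε hε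
      exact ⟨n₀, fun n hn => h n hn 0 (Nat.zero_le _)⟩) M hM a b hab hl (ε / 2) (half_pos hε)
  obtain ⟨j, n2, hn2⟩ := all_twists h2 a b hab (ε / 2 / (Nat.card k : ℝ)) (by positivity)
  refine ⟨max n1 n2, fun n hn => ?_⟩
  have m1 := hn1 n (le_trans (le_max_left _ _) hn)
  have m2 := hn2 n (le_trans (le_max_right _ _) hn)
  set F : k[X] → Prop := fun D => D.Monic ∧ Squarefree D ∧ IsCoprime D (a * b * (a - b) * M) ∧
    D.natDegree = n with hF
  have hass : ∀ Q : k[X] → Prop,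
      Nat.card {D : k[X] // D.Monic ∧ Squarefree D ∧ IsCoprime D (a * b * (a - b) * M) ∧
        D.natDegree = n ∧ Q D} = Nat.card {D : k[X] // F D ∧ Q D} := by
    intro Q
    refine Nat.card_congr (Equiv.subtypeEquivRight fun D => ?_)
    constructor
    · rintro ⟨a, b, c, d, e⟩
      exact ⟨⟨a, b, c, d⟩, e⟩
    · rintro ⟨⟨a, b, c, d⟩, e⟩
      exact ⟨a, b, c, d, e⟩
  rw [hass fun D => HasCorank k (SeparableClosure (RatFunc k)) (crv2 (D * a) (D * b)) 0] at m1
  rw [hass fun D => Rank0 a b D]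
  have hbad : (Nat.card {D : k[X] // F D ∧ ¬ Good a b j D} : ℝ) ≤
      ε / 2 * (Nat.card k : ℝ) ^ n := by
    have f1 : Finite {D : k[X] // Squarefree D ∧ D.natDegree = n ∧ ¬ Good a b j D} :=
      halfR_finite (n := n) fun D h => h.2.1
    have h5 : Nat.card {D : k[X] // F D ∧ ¬ Good a b j D} ≤
        Nat.card {D : k[X] // Squarefree D ∧ D.natDegree = n ∧ ¬ Good a b j D} :=
      Nat.card_le_card_of_injective (fun D => ⟨D.1, D.2.1.2.1, D.2.1.2.2.2, D.2.2⟩)
        fun D D' h => Subtype.ext (congrArg (fun z : {D : k[X] // Squarefree D ∧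
          D.natDegree = n ∧ ¬ Good a b j D} => z.1) h)
    calc _ ≤ (Nat.card {D : k[X] // Squarefree D ∧ D.natDegree = n ∧ ¬ Good a b j D} : ℝ) := by
          exact_mod_cast h5
      _ ≤ ε / 2 / (Nat.card k : ℝ) *
          (Nat.card {D : k[X] // Squarefree D ∧ D.natDegree = n} : ℝ) := m2
      _ ≤ ε / 2 / (Nat.card k : ℝ) * (Nat.card k : ℝ) ^ (n + 1) :=
          mul_le_mul_of_nonneg_left (halfR_card fun D h => h.2) (by positivity)
      _ = _ := by rw [pow_succ]; field_simp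
  have h := halfR_cmp (F := F) (Q' := fun D => Rank0 a b D) (B := fun D => ¬ Good a b j D)
    (fun D h => h.2.2.2) (fun D _ h => h.1) (fun D _ h h' hg => h' ?_) hbad m1
  · refine h.trans (le_of_eq ?_)
    ring
  · obtain ⟨h5, h6⟩ := GoodOn.of_corank_zero k (SeparableClosure (RatFunc k)) _ hg h
    exact ⟨h, h5, h6⟩

end Pool.Agent.TTC
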