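import Pool.Agent.Lib.TTC.Stmt
import Pool.Agent.Lib.TTC.FinD

/-!
# Project TTC (MP_950c68_ag), module Link: the module of the statement is the module of FinD
-/

set_option autoImplicit false

open Polynomial TensorProduct Pool.Agent.Sm.L

namespace Pool.Agent.TTC

section

variable {k : Type} [Field k] (Ω : Type) [Field Ω] [Algebra (RatFunc k) Ω] {n : ℕ}

theorem sgn_chf (D : k[X]) (s : Ω ≃ₐ[RatFunc k] Ω) :
    SmJ.sgn (chf Ω D s) = quadChar Ω (algebraMap k[X] (RatFunc k) D) s := by
  classical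
  rw [chf, Pool.Agent.Lib.SmD.chi, quadChar, SmJ.sgn]
  by_cases h : ∀ r : Ω, r ^ 2 = algebraMap (RatFunc k) Ω (algebraMap k[X] (RatFunc k) D) → s r = r
  · rw [if_pos h, if_pos h, if_pos rfl]
  · rw [if_neg h, if_neg h, if_neg one_ne_zero]

theorem rhoT_eq (a b : Fin n → k[X]) (m : ℕ) (D : k[X]) :
    letI : DecidableEq Ω := fun a b => Classical.propDecidable (a = b)
    rhoT Ω a b m D = actN Ω (fun i => crv2 (a i) (b i)) m (algebraMap k[X] (RatFunc k) D) := by
  letI : DecidableEq Ω := fun a b => Classical.propDecidable (a = b)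
  funext s
  rw [rhoT, actN, sgn_chf]
  rfl

end

end Pool.Agent.TTC
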