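import Pool.Agent.Lib.Sm.L.PosP

/-!
# Project TTC (MP_950c68_ag), module LowT: lower bound for the number of twists

The number of monic squarefree polynomials of degree `n` prime to `M` is at least `c q ^ n`.
-/

set_option autoImplicit false

open Polynomial Pool.Agent UniqueFactorizationMonoid

namespace Pool.Agent.TTC

open Pool.Agent.SmK (DD)
open Pool.Agent.BSDP.R (primesOf)

variable {k : Type} [Field k] [Finite k]

theorem LowT_fin (n : ℕ) (P : k[X] → Prop) (hP : ∀ D, P D → D.natDegree = n) :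
    Finite {D : k[X] // P D} := by
  have h : {D : k[X] | D.natDegree ≤ n} ⊆ (degreeLT k (n + 1) : Set k[X]) := by
    intro D hD
    rw [SetLike.mem_coe, mem_degreeLT]
    exact lt_of_le_of_lt degree_le_natDegree (by exact_mod_cast Nat.lt_succ_of_le hD)
  have h1 : {D : k[X] | D.natDegree ≤ n}.Finite := by
    refine Set.Finite.subset ?_ h
    have : Finite (degreeLT k (n + 1)) := Finite.of_equiv _ (degreeLTEquiv k (n + 1)).toEquiv.symm
    exact Set.toFinite _
  have h2 := h1.to_subtype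
  exact Finite.of_injective (β := {D : k[X] | D.natDegree ≤ n}) (fun D => ⟨D.1, (hP _ D.2).le⟩)
    fun D D' h => Subtype.ext (congrArg (fun z : {D : k[X] | D.natDegree ≤ n} => z.1) h)

/-- Lower bound for the number of the monic squarefree polynomials prime to `M`. -/
theorem low_coprime (h2 : (2 : k) ≠ 0) {M : k[X]} (hM : M ≠ 0) :
    ∃ c : ℝ, 0 < c ∧ ∃ n₁ : ℕ, ∀ n ≥ n₁, c * (Nat.card k : ℝ) ^ n ≤
      (Nat.card {D : k[X] // D.Monic ∧ Squarefree D ∧ IsCoprime D M ∧ D.natDegree = n} : ℝ) := by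
  classical
  obtain ⟨c, hc, n₁, hn₁⟩ := SmK.card_DD_ge (primesOf M)
    (fun P hP => ⟨((SmithE.mem_primesOf hM).1 hP).1, ((SmithE.mem_primesOf hM).1 hP).2.1⟩)
    (Sm.L.three_le_card h2)
  refine ⟨c, hc, n₁, fun n hn => (hn₁ n hn).trans ?_⟩
  have h1 : Finite {D : k[X] // D.Monic ∧ Squarefree D ∧ IsCoprime D M ∧ D.natDegree = n} :=
    LowT_fin n _ fun D h => h.2.2.2
  have hcop : ∀ D ∈ DD (primesOf M) n, IsCoprime D M := by
    intro D hD
    obtain ⟨hm, hdeg, hsq, hbad⟩ := SmK.mem_DD.1 hD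
    by_contra hcon
    obtain ⟨P, hPi, hPD, hPM⟩ : ∃ P, Irreducible P ∧ P ∣ D ∧ P ∣ M := by
      rw [← gcd_isUnit_iff] at hcon
      have hg0 : gcd D M ≠ 0 := fun h => hM ((gcd_eq_zero_iff _ _).1 h).2
      obtain ⟨P, hPi, hPd⟩ := WfDvdMonoid.exists_irreducible_factor hcon hg0
      exact ⟨P, hPi, hPd.trans (gcd_dvd_left _ _), hPd.trans (gcd_dvd_right _ _)⟩
    have hass := normalize_associated P
    refine hbad (normalize P) ((SmithE.mem_primesOf hM).2
      ⟨Polynomial.monic_normalize hPi.ne_zero, hass.irreducible_iff.2 hPi,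
        hass.dvd.trans hPM⟩) (hass.dvd.trans hPD)
  have h3 : Nat.card {D : k[X] // D ∈ DD (primesOf M) n} ≤
      Nat.card {D : k[X] // D.Monic ∧ Squarefree D ∧ IsCoprime D M ∧ D.natDegree = n} := by
    refine Nat.card_le_card_of_injective (fun D => ⟨D.1, ?_⟩) fun D D' h => Subtype.ext
      (congrArg (fun z : {D : k[X] // D.Monic ∧ Squarefree D ∧ IsCoprime D M ∧
        D.natDegree = n} => z.1) h)
    obtain ⟨hm, hdeg, hsq, hbad⟩ := SmK.mem_DD.1 D.2
    exact ⟨hm, hsq, hcop D.1 D.2, hdeg⟩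
  rw [Nat.card_eq_fintype_card (α := {D : k[X] // D ∈ DD (primesOf M) n}),
    Fintype.card_coe] at h3
  exact_mod_cast h3

end Pool.Agent.TTC
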