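import Pool.Agent.Lib.Sm.L.AllP

/-!
# Project TTC (MP_950c68_ag), module No4Sq: the hypotheses for a curve of the family
-/

set_option autoImplicit false

open Polynomial

namespace Pool.Agent.TTC

open Pool.Agent.Sm.L

/-- A squarefree polynomial of positive degree is not a constant times a square. -/
private theorem No4Sq_ne {k : Type} [Field k] {x y : k[X]} (hs : Squarefree x) (hy : y ∣ x)
    (hd : 0 < y.natDegree) (c : k) (f : k[X]) : x ≠ C c * f ^ 2 := by
  intro h
  have hyu : ¬ IsUnit y := fun hu => by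
    rw [natDegree_eq_zero_of_isUnit hu] at hd
    exact lt_irrefl 0 hd
  have hy0 : y ≠ 0 := fun h0 => by
    rw [h0, natDegree_zero] at hd
    exact lt_irrefl 0 hd
  obtain ⟨l, hl, hly⟩ := WfDvdMonoid.exists_irreducible_factor hyu hy0
  have hlx : l ∣ C c * f ^ 2 := h ▸ hly.trans hy
  have hc : c ≠ 0 := fun hc => hs.ne_zero (by rw [h, hc, C_0, zero_mul])
  rcases hl.prime.dvd_or_dvd hlx with h1 | h1
  · exact hl.not_isUnit (isUnit_of_dvd_unit h1 (isUnit_C.2 (isUnit_iff_ne_zero.2 hc)))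
  · have h2 : l ∣ f := hl.prime.dvd_of_dvd_pow h1
    refine hl.not_isUnit (hs l ?_)
    rw [h, ← pow_two]
    exact (pow_dvd_pow_of_dvd h2 2).mul_left _

theorem no4_of {k : Type} [Field k] {a b : k[X]} (hs : Squarefree (a * b * (a - b)))
    (ha : 0 < a.natDegree) (hb : 0 < b.natDegree) (hab : 0 < (a - b).natDegree) : No4 a b where
  n0 := No4Sq_ne (hs.squarefree_of_dvd (dvd_mul_right _ _)) (dvd_mul_right a b) ha
  n1 := No4Sq_ne (hs.squarefree_of_dvd ⟨b, by ring⟩) (dvd_mul_right a _) ha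
  n2 := No4Sq_ne (hs.squarefree_of_dvd ⟨-a, by ring⟩) (dvd_mul_right b _) hb

theorem multAt_of {k : Type} [Field k] {a b l : k[X]} (hs : Squarefree (a * b * (a - b)))
    (hl : Irreducible l) (h : l ∣ a * b * (a - b)) : MultAt l a b := by
  refine ⟨0, ?_, ?_, ?_, ?_⟩
  · rw [mul_zero, pow_zero]
    exact one_dvd a
  · rw [mul_zero, pow_zero]
    exact one_dvd b
  · rintro ⟨h1, h2⟩
    rw [mul_zero, zero_add, pow_one] at h1 h2
    exact hl.not_isUnit (hs l ((mul_dvd_mul h1 h2).mul_right _))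
  · rw [mul_zero, zero_add, pow_one]
    rcases hl.prime.dvd_or_dvd h with h1 | h1
    · rcases hl.prime.dvd_or_dvd h1 with h2 | h2
      · exact Or.inl h2
      · exact Or.inr (Or.inl h2)
    · exact Or.inr (Or.inr h1)

end Pool.Agent.TTC
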