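import Pool.Agent.Lib.TTC.FinT
import Pool.Agent.Lib.TTC.Link
import Pool.Agent.Lib.TTC.LowT
import Pool.Agent.Lib.TTC.No4Sq
import Pool.Agent.Lib.TTC.HalfR

/-!
# Project TTC (MP_950c68_ag), module FinU: the theorem for the statement
-/

set_option autoImplicit false

open Polynomial TensorProduct

namespace Pool.Agent.TTC

open Pool.Agent.Sm.L

variable {k : Type} [Field k]

private theorem FinU_mult {n : ℕ} {a b : Fin n → k[X]} (h : Family a b) (i : Fin n) :
    ∃ M : k[X], M ≠ 0 ∧ (∀ D : k[X], IsCoprime D (a i * b i * (a i - b i) * M) ↔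
      IsCoprime D (badP a b)) ∧ No4 (a i) (b i) ∧
      ∃ l : k[X], Irreducible l ∧ MultAt l (a i) (b i) ∧ ¬ l ∣ M := by
  classical
  have hM : badP a b = a i * b i * (a i - b i) *
      ∏ j ∈ Finset.univ.erase i, (a j * b j * (a j - b j)) := by
    rw [badP, ← Finset.mul_prod_erase _ _ (Finset.mem_univ i)]
  have hsq := h.squarefree
  rw [hM] at hsq
  have hsi : Squarefree (a i * b i * (a i - b i)) := hsq.squarefree_of_dvd (dvd_mul_right _ _)
  have hpb : 0 < (b i).natDegree := by rw [h.deg_b]; exact h.pos i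
  have hpab : 0 < (a i - b i).natDegree := by rw [h.deg_sub]; exact h.pos i
  refine ⟨∏ j ∈ Finset.univ.erase i, (a j * b j * (a j - b j)), ?_, fun D => by rw [hM],
    no4_of hsi (h.pos i) hpb hpab, ?_⟩
  · intro h0
    rw [h0, mul_zero] at hsq
    exact not_squarefree_zero hsq
  · have ha0 : a i ≠ 0 := fun h0 => absurd (h.pos i) (by rw [h0]; simp)
    have hau : ¬ IsUnit (a i) := fun hu => absurd (h.pos i) (by
      rw [natDegree_eq_zero_of_isUnit hu]
      exact lt_irrefl _)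
    obtain ⟨l, hl, hla⟩ := WfDvdMonoid.exists_irreducible_factor hau ha0
    have hl' : l ∣ a i * b i * (a i - b i) := (hla.mul_right _).mul_right _
    refine ⟨l, hl, multAt_of hsi hl hl', fun hlM => ?_⟩
    exact hl.not_isUnit (hsq l (mul_dvd_mul hl' hlM))

/-- A finitely generated group of rank `0` is finite. -/
private theorem FinU_finite {K : Type} [Field K] [Algebra k K] {Ω : Type} [Field Ω]
    [Algebra K Ω] (W : WeierstrassCurve K) (j : ℕ) (h : GoodOn k Ω W j)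
    (h0 : BSDFF.algebraicRank W = 0) : Finite W.toAffine.Point := by
  classical
  have hfg := h.fg
  exact Module.finite_of_fg_torsion _ (Module.finrank_eq_zero_iff_isTorsion.1 h0)

variable [Finite k]

private theorem FinU_cmp {n : ℕ} {F P P' R : k[X] → Prop} {e1 e2 e3 : ℝ}
    (hF : ∀ D, F D → D.natDegree = n)
    (h1 : (Nat.card {D : k[X] // F D ∧ ¬ P D} : ℝ) ≤ e1)
    (h3 : (Nat.card {D : k[X] // F D ∧ ¬ P' D} : ℝ) ≤ e3)
    (h2 : |(Nat.card {D : k[X] // F D ∧ R D} : ℝ) - (Nat.card {D : k[X] // F D} : ℝ) / 2| ≤ e2) :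
    (Nat.card {D : k[X] // F D} : ℝ) / 2 - (e1 + e2 + e3) ≤
      (Nat.card {D : k[X] // F D ∧ P D ∧ P' D ∧ R D} : ℝ) := by
  classical
  have f2 : Finite {D : k[X] // F D ∧ P D ∧ P' D ∧ R D} := LowT_fin n _ fun D h => hF D h.1
  have f3 : Finite {D : k[X] // F D ∧ ¬ P D} := LowT_fin n _ fun D h => hF D h.1
  have f4 : Finite {D : k[X] // F D ∧ ¬ P' D} := LowT_fin n _ fun D h => hF D h.1
  have h5 : Nat.card {D : k[X] // F D ∧ R D} ≤
      Nat.card ({D : k[X] // F D ∧ P D ∧ P' D ∧ R D} ⊕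
        ({D : k[X] // F D ∧ ¬ P D} ⊕ {D : k[X] // F D ∧ ¬ P' D})) := by
    refine Nat.card_le_card_of_injective (fun D => if h : P D.1 then
      if h' : P' D.1 then Sum.inl ⟨D.1, D.2.1, h, h', D.2.2⟩
      else Sum.inr (Sum.inr ⟨D.1, D.2.1, h'⟩)
      else Sum.inr (Sum.inl ⟨D.1, D.2.1, h⟩)) ?_
    intro D D' h
    by_cases h4 : P D.1 <;> by_cases h5 : P D'.1 <;> by_cases h6 : P' D.1 <;>
      by_cases h7 : P' D'.1 <;>
      simp only [h4, h5, h6, h7, dif_pos, dif_neg, not_false_eq_true, reduceCtorEq,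
        Sum.inl.injEq, Sum.inr.injEq, Subtype.mk.injEq] at h <;>
      exact Subtype.ext h
  rw [Nat.card_sum, Nat.card_sum] at h5
  have h7 : (Nat.card {D : k[X] // F D ∧ R D} : ℝ) ≤
      (Nat.card {D : k[X] // F D ∧ P D ∧ P' D ∧ R D} : ℝ) +
      ((Nat.card {D : k[X] // F D ∧ ¬ P D} : ℝ) + (Nat.card {D : k[X] // F D ∧ ¬ P' D} : ℝ)) := by
    exact_mod_cast h5
  rw [abs_le] at h2
  linarith [h2.1, h2.2]

/-- The twists which are not good are few. -/
private theorem FinU_good (h2 : (2 : k) ≠ 0) (a b : k[X]) (h4 : No4 a b) (ε : ℝ) (hε : 0 < ε)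
    (F : ℕ → k[X] → Prop) (hF : ∀ N D, F N D → Squarefree D ∧ D.natDegree = N) :
    ∃ j n₀ : ℕ, ∀ N ≥ n₀, (Nat.card {D : k[X] // F N D ∧ ¬ Good a b j D} : ℝ) ≤
      ε * (Nat.card k : ℝ) ^ N := by
  have hq0 : (0 : ℝ) < Nat.card k := by exact_mod_cast Nat.card_pos
  obtain ⟨j, n₀, h⟩ := all_twists h2 a b h4 (ε / Nat.card k) (by positivity)
  refine ⟨j, n₀, fun N hN => ?_⟩
  have f1 : Finite {D : k[X] // Squarefree D ∧ D.natDegree = N ∧ ¬ Good a b j D} :=
    LowT_fin N _ fun D h => h.2.1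
  have h3 : Nat.card {D : k[X] // F N D ∧ ¬ Good a b j D} ≤
      Nat.card {D : k[X] // Squarefree D ∧ D.natDegree = N ∧ ¬ Good a b j D} :=
    Nat.card_le_card_of_injective
      (fun D => ⟨D.1, (hF N D.1 D.2.1).1, (hF N D.1 D.2.1).2, D.2.2⟩)
      fun D D' h => Subtype.ext (congrArg (fun z : {D : k[X] // Squarefree D ∧
        D.natDegree = N ∧ ¬ Good a b j D} => z.1) h)
  have hup : (Nat.card {D : k[X] // Squarefree D ∧ D.natDegree = N} : ℝ) ≤
      (Nat.card k : ℝ) ^ (N + 1) := by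
    have h1 : Finite (degreeLT k (N + 1)) :=
      Finite.of_equiv _ (degreeLTEquiv k (N + 1)).toEquiv.symm
    have h3 : Nat.card {D : k[X] // Squarefree D ∧ D.natDegree = N} ≤
        Nat.card (degreeLT k (N + 1)) := by
      refine Nat.card_le_card_of_injective (fun D => ⟨D.1, ?_⟩) fun D D' h =>
        Subtype.ext (congrArg (fun z : degreeLT k (N + 1) => z.1) h)
      rw [mem_degreeLT]
      exact lt_of_le_of_lt degree_le_natDegree (by exact_mod_cast Nat.lt_succ_of_le D.2.2.le)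
    rw [SmK.natCard_degreeLT] at h3
    exact_mod_cast h3
  calc (Nat.card {D : k[X] // F N D ∧ ¬ Good a b j D} : ℝ)
      ≤ (Nat.card {D : k[X] // Squarefree D ∧ D.natDegree = N ∧ ¬ Good a b j D} : ℝ) := by
        exact_mod_cast h3
    _ ≤ ε / Nat.card k * (Nat.card {D : k[X] // Squarefree D ∧ D.natDegree = N} : ℝ) := h N hN
    _ ≤ ε / Nat.card k * (Nat.card k : ℝ) ^ (N + 1) :=
        mul_le_mul_of_nonneg_left hup (by positivity)
    _ = ε * (Nat.card k : ℝ) ^ N := by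
        rw [pow_succ]
        field_simp

/-- **The theorem.** For all but a proportion `ε` of the twists `D` of large degree the group of
locally trivial classes is finite; and for a proportion at least `1 / 2 - ε` this holds and
`E_i ^ D` has a finite Mordell-Weil group and a finite `2`-power torsion of its Tate-Shafarevich
group. -/
theorem final_U (h2 : (2 : k) ≠ 0) {n : ℕ} (hn : Odd n) (hn3 : 3 ≤ n) (a b : Fin n → k[X])
    (h : Family a b) : ∃ c : ℝ, 0 < c ∧ ∀ ε : ℝ, 0 < ε → ∃ N₀ : ℕ, ∀ N ≥ N₀,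
      c * (Nat.card k : ℝ) ^ N ≤ (Nat.card {D : k[X] // IsTwist a b N D} : ℝ) ∧
      (Nat.card {D : k[X] // IsTwist a b N D ∧ ¬ Finite (ShaN a b D)} : ℝ) ≤
        ε * (Nat.card {D : k[X] // IsTwist a b N D} : ℝ) ∧
      ∀ i, (1 / 2 - ε) * (Nat.card {D : k[X] // IsTwist a b N D} : ℝ) ≤
        (Nat.card {D : k[X] // IsTwist a b N D ∧ Finite (ShaN a b D) ∧
          FiniteMW (a i) (b i) D ∧ FiniteSha2 (a i) (b i) D} : ℝ) := by
  classical
  letI : DecidableEq (SeparableClosure (RatFunc k)) := fun a b => Classical.propDecidable (a = b)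
  have hT : HypT a b := ⟨h.squarefree, h.deg_b, h.deg_sub, h.even, h.pos⟩
  have hc0 : badP a b ≠ 0 := h.squarefree.ne_zero
  obtain ⟨c, hc, n₁, hn₁⟩ := low_coprime h2 hc0
  refine ⟨c, hc, fun ε hε => ?_⟩
  have hq0 : (0 : ℝ) < Nat.card k := by exact_mod_cast Nat.card_pos
  obtain ⟨m, hm⟩ := hn
  have hcard : Fintype.card (Fin n) = 2 * m + 1 := by rw [Fintype.card_fin, hm]
  have hm' : (n - 1) / 2 = m := by omega
  obtain ⟨n₂, hn₂⟩ := final_T (Ω := SeparableClosure (RatFunc k)) h2 hT hcard (by omega)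
    (ε * c / 3) (by positivity)
  have hhalf : ∀ i, ∃ n₃ : ℕ, ∀ N ≥ n₃,
      |(Nat.card {D : k[X] // IsTwist a b N D ∧ Rank0 (a i) (b i) D} : ℝ) -
        (Nat.card {D : k[X] // IsTwist a b N D} : ℝ) / 2| ≤
        ε * c / 3 * (Nat.card k : ℝ) ^ N := by
    intro i
    obtain ⟨M, hM0, hM, hno, hl⟩ := FinU_mult h i
    obtain ⟨n₃, hn₃⟩ := half_rank0 h2 M hM0 (a i) (b i) hno hl (ε * c / 3) (by positivity)
    refine ⟨n₃, fun N hN => ?_⟩
    have h3 := hn₃ N hN
    have e1 : Nat.card {D : k[X] // D.Monic ∧ Squarefree D ∧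
        IsCoprime D (a i * b i * (a i - b i) * M) ∧ D.natDegree = N ∧ Rank0 (a i) (b i) D} =
        Nat.card {D : k[X] // IsTwist a b N D ∧ Rank0 (a i) (b i) D} :=
      Nat.card_congr (Equiv.subtypeEquivRight fun D => by
        rw [hM D, IsTwist]
        tauto)
    have e2 : Nat.card {D : k[X] // D.Monic ∧ Squarefree D ∧
        IsCoprime D (a i * b i * (a i - b i) * M) ∧ D.natDegree = N} =
        Nat.card {D : k[X] // IsTwist a b N D} :=
      Nat.card_congr (Equiv.subtypeEquivRight fun D => by rw [hM D, IsTwist])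
    rwa [e1, e2] at h3
  choose n₃ hn₃ using hhalf
  have hgood : ∀ i, ∃ j n₄ : ℕ, ∀ N ≥ n₄,
      (Nat.card {D : k[X] // IsTwist a b N D ∧ ¬ Good (a i) (b i) j D} : ℝ) ≤
        ε * c / 3 * (Nat.card k : ℝ) ^ N := fun i => by
    obtain ⟨-, -, -, hno, -⟩ := FinU_mult h i
    exact FinU_good h2 _ _ hno _ (by positivity) (IsTwist a b) fun N D h => ⟨h.2.1, h.2.2.2⟩
  choose j n₄ hn₄ using hgood
  refine ⟨max (max n₁ n₂) (max (Finset.univ.sup n₃) (Finset.univ.sup n₄)), fun N hN => ?_⟩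
  have hN1 := hn₁ N (le_trans (le_trans (le_max_left _ _) (le_max_left _ _)) hN)
  have hN2 := hn₂ N (le_trans (le_trans (le_max_right _ _) (le_max_left _ _)) hN)
  change c * (Nat.card k : ℝ) ^ N ≤ (Nat.card {D : k[X] // IsTwist a b N D} : ℝ) at hN1
  have hlow : ε * c / 3 * (Nat.card k : ℝ) ^ N ≤
      ε / 3 * (Nat.card {D : k[X] // IsTwist a b N D} : ℝ) := by
    calc ε * c / 3 * (Nat.card k : ℝ) ^ N = ε / 3 * (c * (Nat.card k : ℝ) ^ N) := by ring
      _ ≤ _ := mul_le_mul_of_nonneg_left hN1 (by positivity)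
  have hbad : (Nat.card {D : k[X] // IsTwist a b N D ∧ ¬ Finite (ShaN a b D)} : ℝ) ≤
      ε / 3 * (Nat.card {D : k[X] // IsTwist a b N D} : ℝ) := by
    refine le_trans (le_of_eq ?_) (hN2.trans hlow)
    congr 1
    refine Nat.card_congr (Equiv.subtypeEquivRight fun D => ?_)
    rw [rhoT_eq (SeparableClosure (RatFunc k)) a b m D, ShaN, hm', IsTwist]
    change _ ↔ D.Monic ∧ Squarefree D ∧ IsCoprime D (badP a b) ∧ _
    tauto
  have hpos : (0 : ℝ) ≤ (Nat.card {D : k[X] // IsTwist a b N D} : ℝ) := Nat.cast_nonneg _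
  refine ⟨hN1, hbad.trans (mul_le_mul_of_nonneg_right (by linarith) hpos), fun i => ?_⟩
  have h3 := hn₃ i N (le_trans (le_trans (Finset.le_sup (Finset.mem_univ i))
    (le_trans (le_max_left _ _) (le_max_right _ _))) hN)
  have h4 := hn₄ i N (le_trans (le_trans (Finset.le_sup (Finset.mem_univ i))
    (le_trans (le_max_right _ _) (le_max_right _ _))) hN)
  have h5 := FinU_cmp (n := N) (P := fun D => Finite (ShaN a b D))
    (P' := fun D => Good (a i) (b i) (j i) D) (fun D h => h.2.2.2) hbad (h4.trans hlow)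
    (h3.trans hlow)
  have f1 : Finite {D : k[X] // IsTwist a b N D ∧ Finite (ShaN a b D) ∧
      FiniteMW (a i) (b i) D ∧ FiniteSha2 (a i) (b i) D} := LowT_fin N _ fun D h => h.1.2.2.2
  have h6 : Nat.card {D : k[X] // IsTwist a b N D ∧ Finite (ShaN a b D) ∧
      Good (a i) (b i) (j i) D ∧ Rank0 (a i) (b i) D} ≤
      Nat.card {D : k[X] // IsTwist a b N D ∧ Finite (ShaN a b D) ∧
        FiniteMW (a i) (b i) D ∧ FiniteSha2 (a i) (b i) D} := by
    refine Nat.card_le_card_of_injective (fun D => ⟨D.1, D.2.1, D.2.2.1, ?_, ?_⟩) fun D D' h =>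
      Subtype.ext (congrArg (fun z : {D : k[X] // IsTwist a b N D ∧ Finite (ShaN a b D) ∧
        FiniteMW (a i) (b i) D ∧ FiniteSha2 (a i) (b i) D} => z.1) h)
    · exact FinU_finite _ _ D.2.2.2.1 D.2.2.2.2.2.1
    · exact D.2.2.2.2.2.2
  have h7 : (Nat.card {D : k[X] // IsTwist a b N D ∧ Finite (ShaN a b D) ∧
      Good (a i) (b i) (j i) D ∧ Rank0 (a i) (b i) D} : ℝ) ≤
      (Nat.card {D : k[X] // IsTwist a b N D ∧ Finite (ShaN a b D) ∧
        FiniteMW (a i) (b i) D ∧ FiniteSha2 (a i) (b i) D} : ℝ) := by exact_mod_cast h6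
  refine le_trans (le_of_eq ?_) (h5.trans h7)
  ring

end Pool.Agent.TTC
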