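import Pool.Agent.Lib.Sm.L.AllP

/-!
# Project TTC (MP_950c68_ag), module HalfCop: half of the twists prime to a further polynomial

If for all curves `y ^ 2 = x (x - a) (x - b)` with a place of multiplicative reduction half of the
monic squarefree twists prime to `a b (a - b)` have the property `Q`, then the same holds for the
twists prime to `a b (a - b) M`, if `M` is prime to a place of multiplicative reduction.
-/

set_option autoImplicit false

open Polynomial Pool.Agent Pool.Agent.Sm.L

namespace Pool.Agent.TTC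

variable {k : Type} [Field k]

private lemma HalfCop_fin [Finite k] (n : ℕ) (P : k[X] → Prop) (hP : ∀ D, P D → D.natDegree = n) :
    Finite {D : k[X] // P D} := by
  have h : {D : k[X] | D.natDegree ≤ n} ⊆ (degreeLT k (n + 1) : Set k[X]) := by
    intro D hD
    rw [SetLike.mem_coe, mem_degreeLT]
    exact lt_of_le_of_lt degree_le_natDegree (by exact_mod_cast Nat.lt_succ_of_le hD)
  have h1 : {D : k[X] | D.natDegree ≤ n}.Finite := by
    refine Set.Finite.subset ?_ h
    have : Finite (degreeLT k (n + 1)) := Finite.of_equiv _ (degreeLTEquiv k (n + 1)).toEquiv.symm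
    exact Set.toFinite _
  have h2 := h1.to_subtype
  exact Finite.of_injective (β := {D : k[X] | D.natDegree ≤ n}) (fun D => ⟨D.1, (hP _ D.2).le⟩)
    fun D D' h => Subtype.ext (congrArg (fun z : {D : k[X] | D.natDegree ≤ n} => z.1) h)

/-- Splitting a count. -/
private lemma HalfCop_split [Finite k] {n : ℕ} (F R : k[X] → Prop)
    (hF : ∀ D, F D → D.natDegree = n) :
    Nat.card {D : k[X] // F D} =
      Nat.card {D : k[X] // F D ∧ ¬ R D} + Nat.card {D : k[X] // F D ∧ R D} := by
  classical
  have f1 : Finite {D : k[X] // F D ∧ R D} := HalfCop_fin n _ fun D h => hF D h.1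
  have f2 : Finite {D : k[X] // F D ∧ ¬ R D} := HalfCop_fin n _ fun D h => hF D h.1
  rw [add_comm, ← Nat.card_sum]
  refine Nat.card_congr ((Equiv.sumCompl (fun x : {D : k[X] // F D} => R x.1)).symm.trans
    (Equiv.sumCongr ?_ ?_))
  · exact Equiv.subtypeSubtypeEquivSubtypeInter F R
  · exact Equiv.subtypeSubtypeEquivSubtypeInter F fun D => ¬ R D

/-- The twists divisible by `l` and those which are not. -/
private lemma HalfCop_main [Finite k] {l B : k[X]} (hl : Irreducible l) (hlm : l.Monic)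
    (hlB : ¬ l ∣ B) (P : k[X] → Prop) {n : ℕ} (hn : l.natDegree ≤ n) :
    Nat.card {D : k[X] // D.Monic ∧ Squarefree D ∧ IsCoprime D B ∧ D.natDegree = n ∧ P D} =
      Nat.card {D : k[X] // D.Monic ∧ Squarefree D ∧ IsCoprime D (B * l) ∧ D.natDegree = n ∧
        P D} +
      Nat.card {D : k[X] // D.Monic ∧ Squarefree D ∧ IsCoprime D (B * l) ∧
        D.natDegree = n - l.natDegree ∧ P (l * D)} := by
  have hlB' : IsCoprime l B := hl.coprime_iff_not_dvd.2 hlB
  rw [HalfCop_split (n := n) (fun D : k[X] => D.Monic ∧ Squarefree D ∧ IsCoprime D B ∧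
    D.natDegree = n ∧ P D) (fun D => l ∣ D) fun D h => h.2.2.2.1]
  congr 1
  · refine Nat.card_congr (Equiv.subtypeEquivRight fun D => ?_)
    constructor
    · rintro ⟨⟨h1, h2, h3, h4, h5⟩, h6⟩
      exact ⟨h1, h2, h3.mul_right ((hl.coprime_iff_not_dvd.2 h6).symm), h4, h5⟩
    · rintro ⟨h1, h2, h3, h4, h5⟩
      refine ⟨⟨h1, h2, h3.of_mul_right_left, h4, h5⟩, fun h6 => ?_⟩
      exact hl.not_isUnit (h3.isUnit_of_dvd' h6 (dvd_mul_left l B))
  · symm
    refine Nat.card_congr (Equiv.ofBijective (fun D => ⟨l * D.1, ?_⟩) ⟨?_, ?_⟩)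
    · obtain ⟨h1, h2, h3, h4, h5⟩ := D.2
      have hlD : IsCoprime l D.1 := (h3.of_mul_right_right).symm
      refine ⟨⟨hlm.mul h1, ?_, hlB'.mul_left h3.of_mul_right_left, ?_, h5⟩, dvd_mul_right _ _⟩
      · rw [squarefree_mul_iff]
        exact ⟨hlD.isRelPrime, hl.squarefree, h2⟩
      · rw [natDegree_mul hl.ne_zero h1.ne_zero, h4]
        omega
    · intro D D' h
      exact Subtype.ext (mul_left_cancel₀ hl.ne_zero (congrArg Subtype.val h))
    · rintro ⟨D, ⟨h1, h2, h3, h4, h5⟩, D', rfl⟩
      have h6 : Squarefree D' := h2.squarefree_of_dvd (dvd_mul_left _ _)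
      have h7 : IsCoprime l D' := (squarefree_mul_iff.1 h2).1.isCoprime
      have h8 : D'.Monic := hlm.of_mul_monic_left h1
      refine ⟨⟨D', h8, h6, ?_, ?_, h5⟩, rfl⟩
      · exact (h3.of_mul_left_right).mul_right h7.symm
      · rw [natDegree_mul hl.ne_zero h8.ne_zero] at h4
        omega

private lemma HalfCop_abs {A A' A'' C C' C'' e1 e2 : ℝ} (hA : A = A' + A'') (hC : C = C' + C'')
    (h1 : |A - C / 2| ≤ e1) (h2 : |A'' - C'' / 2| ≤ e2) : |A' - C' / 2| ≤ e1 + e2 := by
  rw [abs_le] at h1 h2 ⊢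
  constructor <;> linarith [h1.1, h1.2, h2.1, h2.2]

/-- **Half of the twists prime to `a b (a - b) M`.** -/
theorem half_cop {k : Type} [Field k] [Finite k] (Q : k[X] → k[X] → Prop)
    (hmain : ∀ a b : k[X], No4 a b → (∃ l : k[X], Irreducible l ∧ MultAt l a b) →
      ∀ ε : ℝ, 0 < ε → ∃ n₀ : ℕ, ∀ n ≥ n₀,
      |(Nat.card {D : k[X] // D.Monic ∧ Squarefree D ∧ IsCoprime D (a * b * (a - b)) ∧
        D.natDegree = n ∧ Q (D * a) (D * b)} : ℝ) -
        (Nat.card {D : k[X] // D.Monic ∧ Squarefree D ∧ IsCoprime D (a * b * (a - b)) ∧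
        D.natDegree = n} : ℝ) / 2| ≤ ε * (Nat.card k : ℝ) ^ n)
    (M : k[X]) (hM : M ≠ 0) (a b : k[X]) (hab : No4 a b)
    (hl : ∃ l : k[X], Irreducible l ∧ MultAt l a b ∧ ¬ l ∣ M) (ε : ℝ) (hε : 0 < ε) :
    ∃ n₀ : ℕ, ∀ n ≥ n₀,
      |(Nat.card {D : k[X] // D.Monic ∧ Squarefree D ∧ IsCoprime D (a * b * (a - b) * M) ∧
        D.natDegree = n ∧ Q (D * a) (D * b)} : ℝ) -
        (Nat.card {D : k[X] // D.Monic ∧ Squarefree D ∧ IsCoprime D (a * b * (a - b) * M) ∧
        D.natDegree = n} : ℝ) / 2| ≤ ε * (Nat.card k : ℝ) ^ n := by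
  classical
  have hq1 : (1 : ℝ) ≤ (Nat.card k : ℝ) := by
    have : 1 ≤ Nat.card k := Nat.card_pos
    exact_mod_cast this
  induction M using UniqueFactorizationMonoid.induction_on_prime generalizing a b ε with
  | h₁ => exact absurd rfl hM
  | h₂ M hu =>
    obtain ⟨l, h1, h2, -⟩ := hl
    obtain ⟨n₀, h⟩ := hmain a b hab ⟨l, h1, h2⟩ ε hε
    refine ⟨n₀, fun n hn => ?_⟩
    have h3 : ∀ D : k[X], IsCoprime D (a * b * (a - b) * M) ↔ IsCoprime D (a * b * (a - b)) :=
      fun D => ⟨fun h => h.of_mul_right_left, fun h => h.mul_right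
        (isCoprime_one_right.of_isCoprime_of_dvd_right (isUnit_iff_dvd_one.1 hu))⟩
    simp only [h3]
    exact h n hn
  | h₃ M p hM0 hp ih =>
    -- a monic prime
    set p' : k[X] := normalize p with hp'
    have hass : Associated p' p := normalize_associated p
    have hpi : Irreducible p' := hass.irreducible_iff.2 hp.irreducible
    have hpm : p'.Monic := monic_normalize hp.ne_zero
    have hcop : ∀ D : k[X], IsCoprime D (a * b * (a - b) * (p * M)) ↔
        IsCoprime D (a * b * (a - b) * M * p') := by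
      intro D
      have h1 : Associated (a * b * (a - b) * (p * M)) (a * b * (a - b) * M * p') := by
        rw [show a * b * (a - b) * (p * M) = a * b * (a - b) * M * p by ring]
        exact hass.symm.mul_left _
      obtain ⟨u, hu⟩ := h1
      rw [← hu]
      exact (isCoprime_mul_unit_right_right u.isUnit _ _).symm
    simp only [hcop]
    obtain ⟨l, hli, hlm, hlM⟩ := hl
    have hlM' : ¬ l ∣ M := fun h => hlM (h.mul_left p)
    have hlp : ¬ l ∣ p' := fun h => hlM ((h.trans hass.dvd).mul_right M)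
    by_cases hdiv : p' ∣ a * b * (a - b) * M
    · obtain ⟨n₀, h⟩ := ih hM0 a b hab ⟨l, hli, hlm, hlM'⟩ ε hε
      refine ⟨n₀, fun n hn => ?_⟩
      have h3 : ∀ D : k[X], IsCoprime D (a * b * (a - b) * M * p') ↔
          IsCoprime D (a * b * (a - b) * M) :=
        fun D => ⟨fun h => h.of_mul_right_left,
          fun h => h.mul_right (h.of_isCoprime_of_dvd_right hdiv)⟩
      simp only [h3]
      exact h n hn
    · have hcopp : IsCoprime p' (a * b * (a - b)) :=
        (hpi.coprime_iff_not_dvd.2 hdiv).of_mul_right_left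
      have hno : No4 (p' * a) (p' * b) := hab.twist hpi.ne_zero
      have hmu : MultAt l (p' * a) (p' * b) := (multAt_mul hpi.squarefree hcopp hli).2 hlm
      obtain ⟨n₁, h1⟩ := ih hM0 a b hab ⟨l, hli, hlm, hlM'⟩ (ε / 2) (by positivity)
      obtain ⟨n₂, h2⟩ := ih hM0 (p' * a) (p' * b) hno ⟨l, hli, hmu, hlM'⟩ (ε / 2) (by positivity)
      refine ⟨n₁ + n₂ + p'.natDegree, fun n hn => ?_⟩
      have e1 := h1 n (by omega)
      have e2 := h2 (n - p'.natDegree) (by omega)
      have h3 : ∀ D : k[X], IsCoprime D (p' * a * (p' * b) * (p' * a - p' * b) * M) ↔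
          IsCoprime D (a * b * (a - b) * M * p') := by
        intro D
        rw [show p' * a * (p' * b) * (p' * a - p' * b) * M = a * b * (a - b) * M * p' ^ 3 by ring]
        constructor
        · intro h
          have h5 : IsCoprime D (p' ^ 3) := h.of_mul_right_right
          exact h.of_mul_right_left.mul_right (h5.of_isCoprime_of_dvd_right
            (dvd_pow_self p' (by norm_num)))
        · intro h
          exact h.of_mul_right_left.mul_right h.of_mul_right_right.pow_right
      simp only [h3] at e2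
      have m1 := HalfCop_main hpi hpm hdiv (fun D => Q (D * a) (D * b)) (n := n) (by omega)
      have m2 := HalfCop_main hpi hpm hdiv (fun _ => True) (n := n) (by omega)
      simp only [and_true] at m2
      have e3 : ∀ D : k[X], Q (p' * D * a) (p' * D * b) ↔ Q (D * (p' * a)) (D * (p' * b)) := by
        intro D
        rw [show p' * D * a = D * (p' * a) by ring, show p' * D * b = D * (p' * b) by ring]
      simp only [e3] at m1
      have hpow : ε / 2 * (Nat.card k : ℝ) ^ (n - p'.natDegree) ≤ ε / 2 * (Nat.card k : ℝ) ^ n :=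
        mul_le_mul_of_nonneg_left (pow_le_pow_right₀ hq1 (Nat.sub_le _ _)) (by positivity)
      refine (HalfCop_abs (by rw [m1]; push_cast; rfl) (by rw [m2]; push_cast; rfl) e1
        (e2.trans hpow)).trans (le_of_eq ?_)
      ring

end Pool.Agent.TTC
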