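import Pool.Agent.Lib.SM.E.TwistIso
import Pool.Agent.Lib.SM.E.RFun

/-!
# Project TTC (MP_950c68_ag), module HsDef: the twist of `y ^ 2 = f(x)` by `f` over `κ(x)`

`f = (x - e 0) (x - e 1) (x - e 2)`, `WE e : Y ^ 2 = ∏ (X - f e i)` over `κ(x)`. Its points are the
points `(X / f, ..)` of `y ^ 2 = f` over `κ(x, y)` which are odd for `y ↦ -y`. `dg P` is the degree
of `X / f`, the tautological point is `P0 = (f x, f ^ 2)`.
-/

set_option autoImplicit false

namespace Pool.Agent.TTC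

open Polynomial WeierstrassCurve Pool.Agent.SmithE

section

variable {κ : Type} [Field κ]

/-- `f = (x - e 0) (x - e 1) (x - e 2)`. -/
noncomputable def fP (e : Fin 3 → κ) : κ[X] := ∏ i, (X - C (e i))

/-- `f` in `κ(x)`. -/
noncomputable def fR (e : Fin 3 → κ) : RatFunc κ := algebraMap κ[X] (RatFunc κ) (fP e)

/-- `f e i` in `κ(x)`. -/
noncomputable def fe (e : Fin 3 → κ) (i : Fin 3) : RatFunc κ :=
  fR e * algebraMap κ (RatFunc κ) (e i)

/-- The twist of `y ^ 2 = f(x)` by `f`. -/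
noncomputable def WE (e : Fin 3 → κ) : WeierstrassCurve (RatFunc κ) :=
  crv (fe e 0) (fe e 1) (fe e 2)

/-- The degree of a rational function. -/
noncomputable def degU (r : RatFunc κ) : ℕ := max r.num.natDegree r.denom.natDegree

/-- The degree of `X / f`. -/
noncomputable def dg {e : Fin 3 → κ} : (WE e).toAffine.Point → ℕ
  | .zero => 0
  | .some x _ _ => degU (x / fR e)

/-- `∏_(j ≠ i) (e i - e j)` -/
def ee3 {R : Type} [CommRing R] (e : Fin 3 → R) (i : Fin 3) : R :=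
  ∏ j ∈ Finset.univ.erase i, (e i - e j)

/-- `P` is the tautological point `(f x, f ^ 2)`. -/
def IsP0 {e : Fin 3 → κ} (P : (WE e).toAffine.Point) : Prop :=
  ∃ h, P = .some (fR e * RatFunc.X) (fR e ^ 2) h

end

/-- The elements of `2`-power order. -/
def T2p (M : Type) [AddCommGroup M] : AddSubgroup M where
  carrier := {Q | ∃ j : ℕ, (2 : ℕ) ^ j • Q = 0}
  zero_mem' := ⟨0, smul_zero _⟩
  add_mem' := by
    rintro x y ⟨i, hi⟩ ⟨j, hj⟩
    refine ⟨i + j, ?_⟩
    have h1 : (2 : ℕ) ^ (i + j) • x = 0 := by rw [pow_add, mul_comm, mul_smul, hi, smul_zero]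
    have h2 : (2 : ℕ) ^ (i + j) • y = 0 := by rw [pow_add, mul_smul, hj, smul_zero]
    rw [smul_add, h1, h2, add_zero]
  neg_mem' := by
    rintro x ⟨i, hi⟩
    exact ⟨i, by rw [smul_neg, hi, neg_zero]⟩

section

variable {F : Type} [Field F] {W : WeierstrassCurve F}

/-- `Fr` is the map `(x, y) ↦ (x ^ q, y ^ q)`. -/
def IsFr (q : ℕ) (Fr : W.toAffine.Point → W.toAffine.Point) : Prop :=
  Fr 0 = 0 ∧ ∀ x y h, ∃ h', Fr (.some x y h) = .some (x ^ q) (y ^ q) h'

end

end Pool.Agent.TTC
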