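import Pool.Agent.Lib.TTC.QZ

/-!
# Project TTC (MP_950c68_ag), module Isot: the isotropy (paper 2.2), pure algebra over `ℚ_2`

`bil J x y = x^T J y`. `S` = tame generator, `P` = Frobenius, `P S = S ^ q P`, `q = 2 m + 1`.
-/

set_option autoImplicit false

namespace Pool.Agent.TTC

section Isot

variable {I : Type} [Fintype I] [DecidableEq I]

/-- `x^T J y` -/
def bil {R : Type} [CommRing R] (J : Matrix I I R) (x y : I → R) : R := x ⬝ᵥ J.mulVec y

private theorem Isot_add_left {R : Type} [CommRing R] (J : Matrix I I R) (x x' y : I → R) :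
    bil J (x + x') y = bil J x y + bil J x' y := by
  rw [bil, add_dotProduct]; rfl

private theorem Isot_add_right {R : Type} [CommRing R] (J : Matrix I I R) (x y y' : I → R) :
    bil J x (y + y') = bil J x y + bil J x y' := by
  rw [bil, Matrix.mulVec_add, dotProduct_add]; rfl

private theorem Isot_smul_left {R : Type} [CommRing R] (J : Matrix I I R) (a : R) (x y : I → R) :
    bil J (a • x) y = a * bil J x y := by
  rw [bil, smul_dotProduct, smul_eq_mul]; rfl

private theorem Isot_smul_right {R : Type} [CommRing R] (J : Matrix I I R) (a : R) (x y : I → R) :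
    bil J x (a • y) = a * bil J x y := by
  rw [bil, Matrix.mulVec_smul, dotProduct_smul, smul_eq_mul]; rfl

private theorem Isot_sum_left {R : Type} [CommRing R] (J : Matrix I I R) {ι : Type} (s : Finset ι)
    (x : ι → I → R) (y : I → R) : bil J (∑ i ∈ s, x i) y = ∑ i ∈ s, bil J (x i) y := by
  rw [bil, sum_dotProduct]; rfl

private theorem Isot_inv {R : Type} [CommRing R] {J A : Matrix I I R} {c : R}
    (h : A.transpose * J * A = c • J) (x y : I → R) :
    bil J (A.mulVec x) (A.mulVec y) = c * bil J x y := by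
  rw [bil, bil, Matrix.mulVec_mulVec, Matrix.dotProduct_mulVec, Matrix.vecMul_mulVec,
    ← Matrix.dotProduct_mulVec, ← Matrix.mul_assoc, h, Matrix.smul_mulVec, dotProduct_smul,
    smul_eq_mul]

private theorem Isot_map {R F : Type} [CommRing R] [CommRing F] (f : R →+* F) (J : Matrix I I R)
    (x y : I → R) : bil (J.map f) (f ∘ x) (f ∘ y) = f (bil J x y) := by
  rw [bil, bil, RingHom.map_dotProduct]
  congr 1
  funext i
  exact (RingHom.map_mulVec f J y i).symm

private theorem Isot_map_mulVec {R F : Type} [CommRing R] [CommRing F] (f : R →+* F)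
    (A : Matrix I I R) (x : I → R) : (A.map f).mulVec (f ∘ x) = f ∘ (A.mulVec x) := by
  funext i
  exact (RingHom.map_mulVec f A x i).symm

private theorem Isot_key {F : Type} [Field F] (h2 : (2 : F) ≠ 0) (J S P : Matrix I I F) (q : ℕ)
    (hS : S.transpose * J * S = (1 : F) • J) (hP : P.transpose * J * P = (q : F) • J)
    (hrel : P * S = S ^ q * P) {r r' X1 X2 Y1 Y2 : I → F}
    (hx1 : S.mulVec r = r + (1 / 2 : F) • X1) (hx2 : P.mulVec r = r + (1 / 2 : F) • X2)
    (hy1 : S.mulVec r' = r' + (1 / 2 : F) • Y1) (hy2 : P.mulVec r' = r' + (1 / 2 : F) • Y2) :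
    bil J (P.mulVec X1) Y2 =
      ∑ i ∈ Finset.range q, ∑ l ∈ Finset.range i, bil J ((S ^ (l + 1)).mulVec X1) Y1 +
      ∑ l ∈ Finset.range q, bil J ((S ^ (l + 1)).mulVec X2) Y1 := by
  have hr1 : r' = S.mulVec r' + (-(1 / 2) : F) • Y1 := by
    rw [hy1, add_assoc, ← add_smul]; simp
  have hr2 : r' = P.mulVec r' + (-(1 / 2) : F) • Y2 := by
    rw [hy2, add_assoc, ← add_smul]; simp
  -- C
  have hC : ∀ (i : ℕ) (x : I → F), bil J ((S ^ i).mulVec x) r' =
      bil J x r' - (1 / 2) * ∑ l ∈ Finset.range i, bil J ((S ^ (l + 1)).mulVec x) Y1 := by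
    intro i
    induction i with
    | zero => intro x; simp
    | succ i ih =>
      intro x
      have h1 : bil J ((S ^ (i + 1)).mulVec x) r' =
          bil J ((S ^ i).mulVec x) r' - (1 / 2) * bil J ((S ^ (i + 1)).mulVec x) Y1 := by
        have h3 : (S ^ (i + 1)).mulVec x = S.mulVec ((S ^ i).mulVec x) := by
          rw [Matrix.mulVec_mulVec, ← pow_succ']
        conv_lhs => rw [hr1]
        rw [Isot_add_right, Isot_smul_right]
        conv_lhs => rw [h3, Isot_inv hS, ← h3]
        ring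
      rw [h1, ih, Finset.sum_range_succ]
      ring
  -- D
  have hD : ∀ i : ℕ, (S ^ i).mulVec r =
      r + (1 / 2 : F) • ∑ l ∈ Finset.range i, (S ^ l).mulVec X1 := by
    intro i
    induction i with
    | zero => simp
    | succ i ih =>
      rw [pow_succ, ← Matrix.mulVec_mulVec, hx1, Matrix.mulVec_add, ih, Matrix.mulVec_smul,
        Finset.sum_range_succ, smul_add, add_assoc]
  -- E
  have hE : X2 + P.mulVec X1 = ∑ l ∈ Finset.range q, (S ^ l).mulVec X1 + (S ^ q).mulVec X2 := by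
    have h1 : P.mulVec (S.mulVec r) = (S ^ q).mulVec (P.mulVec r) := by
      rw [Matrix.mulVec_mulVec, Matrix.mulVec_mulVec, hrel]
    rw [hx1, hx2, Matrix.mulVec_add, Matrix.mulVec_add, Matrix.mulVec_smul, Matrix.mulVec_smul,
      hx2, hD, add_assoc, add_assoc, ← smul_add, ← smul_add] at h1
    have h3 := add_left_cancel h1
    have h4 : (1 / 2 : F) ≠ 0 := by simpa using h2
    exact smul_right_injective _ h4 h3
  have hF := congrArg (fun z => bil J z r') hE
  simp only [Isot_add_left, Isot_sum_left, hC] at hF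
  have hG : bil J (P.mulVec X1) r' = q * bil J X1 r' - (1 / 2) * bil J (P.mulVec X1) Y2 := by
    conv_lhs => rw [hr2]
    rw [Isot_add_right, Isot_smul_right, Isot_inv hP]
    ring
  rw [hG, Finset.sum_sub_distrib, Finset.sum_const, Finset.card_range, nsmul_eq_mul,
    ← Finset.mul_sum] at hF
  have h5 : (1 / 2 : F) * bil J (P.mulVec X1) Y2 = (1 / 2) *
      (∑ i ∈ Finset.range q, ∑ l ∈ Finset.range i, bil J ((S ^ (l + 1)).mulVec X1) Y1 +
      ∑ l ∈ Finset.range q, bil J ((S ^ (l + 1)).mulVec X2) Y1) := by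
    linear_combination -hF
  have h4 : (1 / 2 : F) ≠ 0 := by simpa using h2
  exact mul_left_cancel₀ h4 h5

private theorem Isot_red {A : Matrix I I ℤ_[2]} (h : ∃ B : Matrix I I ℤ_[2], A = 1 + (2 : ℤ_[2]) • B) :
    A.map red2 = 1 := by
  obtain ⟨B, rfl⟩ := h
  ext i j
  rw [Matrix.map_apply, Matrix.add_apply, Matrix.smul_apply, map_add, smul_eq_mul, map_mul]
  have h2 : red2 (2 : ℤ_[2]) = 0 := red2_eq_zero.mpr ⟨1, by ring⟩
  rw [h2, zero_mul, add_zero]
  by_cases hij : i = j
  · subst hij; simp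
  · simp [Matrix.one_apply_ne hij]

theorem isot_alg (J S P : Matrix I I ℤ_[2]) (m : ℕ) (hJ : J.transpose = -J)
    (hS2 : ∃ B : Matrix I I ℤ_[2], S = 1 + (2 : ℤ_[2]) • B)
    (hP2 : ∃ B : Matrix I I ℤ_[2], P = 1 + (2 : ℤ_[2]) • B)
    (hS : S.transpose * J * S = J) (hP : P.transpose * J * P = ((2 * m + 1 : ℕ) : ℤ_[2]) • J)
    (hrel : P * S = S ^ (2 * m + 1) * P) {r r' : I → ℚ_[2]} {x1 x2 y1 y2 : I → ℤ_[2]}
    (hx1 : ∀ i, 2 * ((S.map fun x : ℤ_[2] => (x : ℚ_[2])).mulVec r i - r i) = x1 i)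
    (hx2 : ∀ i, 2 * ((P.map fun x : ℤ_[2] => (x : ℚ_[2])).mulVec r i - r i) = x2 i)
    (hy1 : ∀ i, 2 * ((S.map fun x : ℤ_[2] => (x : ℚ_[2])).mulVec r' i - r' i) = y1 i)
    (hy2 : ∀ i, 2 * ((P.map fun x : ℤ_[2] => (x : ℚ_[2])).mulVec r' i - r' i) = y2 i) :
    red2 (bil J x1 y2 + bil J x2 y1 + (m : ℤ_[2]) * bil J x1 y1) = 0 := by
  set f : ℤ_[2] →+* ℚ_[2] := PadicInt.Coe.ringHom with hf
  have hfi : Function.Injective f := fun a b h => Subtype.ext h
  have hmap : ∀ A : Matrix I I ℤ_[2], (A.map fun x : ℤ_[2] => (x : ℚ_[2])) = A.map f := fun A => rfl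
  have h2 : (2 : ℚ_[2]) ≠ 0 := by norm_num
  have conv : ∀ {A : Matrix I I ℤ_[2]} {t : I → ℚ_[2]} {z : I → ℤ_[2]},
      (∀ i, 2 * ((A.map fun x : ℤ_[2] => (x : ℚ_[2])).mulVec t i - t i) = z i) →
      (A.map f).mulVec t = t + (1 / 2 : ℚ_[2]) • (f ∘ z) := by
    intro A t z h
    funext i
    have h1 := h i
    rw [hmap] at h1
    change _ = t i + (1 / 2) * (z i : ℚ_[2])
    rw [← h1]
    ring
  have hS' : (S.map f).transpose * J.map f * S.map f = (1 : ℚ_[2]) • J.map f := by
    rw [one_smul, ← Matrix.transpose_map, ← Matrix.map_mul, ← Matrix.map_mul, hS]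
  have hP' : (P.map f).transpose * J.map f * P.map f = ((2 * m + 1 : ℕ) : ℚ_[2]) • J.map f := by
    rw [← Matrix.transpose_map, ← Matrix.map_mul, ← Matrix.map_mul, hP]
    ext i j
    rw [Matrix.map_apply, Matrix.smul_apply, Matrix.smul_apply, smul_eq_mul, smul_eq_mul, map_mul,
      map_natCast, Matrix.map_apply]
  have hpow : ∀ n : ℕ, (S ^ n).map f = (S.map f) ^ n := fun n => map_pow f.mapMatrix S n
  have hrel' : P.map f * S.map f = (S.map f) ^ (2 * m + 1) * P.map f := by
    rw [← hpow, ← Matrix.map_mul, ← Matrix.map_mul, hrel]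
  have key := Isot_key h2 (J.map f) (S.map f) (P.map f) (2 * m + 1) hS' hP' hrel'
    (conv hx1) (conv hx2) (conv hy1) (conv hy2)
  simp only [← hpow, Isot_map_mulVec, Isot_map] at key
  have key2 : bil J (P.mulVec x1) y2 =
      ∑ i ∈ Finset.range (2 * m + 1), ∑ l ∈ Finset.range i, bil J ((S ^ (l + 1)).mulVec x1) y1 +
      ∑ l ∈ Finset.range (2 * m + 1), bil J ((S ^ (l + 1)).mulVec x2) y1 := by
    apply hfi
    rw [key, map_add, map_sum, map_sum]
    simp only [map_sum]
  -- reduce modulo 2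
  have key3 := congrArg red2 key2
  have hredpow : ∀ n : ℕ, (S ^ n).map red2 = 1 := by
    intro n
    have h3 : (S ^ n).map red2 = (S.map red2) ^ n := map_pow red2.mapMatrix S n
    rw [h3, Isot_red hS2, one_pow]
  have hm1 : ∀ (n : ℕ) (x y : I → ℤ_[2]), red2 (bil J ((S ^ n).mulVec x) y) = red2 (bil J x y) := by
    intro n x y
    rw [← Isot_map red2, ← Isot_map red2, ← Isot_map_mulVec, hredpow, Matrix.one_mulVec]
  have hm2 : ∀ (x y : I → ℤ_[2]), red2 (bil J (P.mulVec x) y) = red2 (bil J x y) := by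
    intro x y
    rw [← Isot_map red2, ← Isot_map red2, ← Isot_map_mulVec, Isot_red hP2, Matrix.one_mulVec]
  rw [map_add, map_sum, map_sum] at key3
  simp only [map_sum, hm1, hm2, Finset.sum_const, Finset.card_range, nsmul_eq_mul] at key3
  have hsum : (∑ i ∈ Finset.range (2 * m + 1), (i : ZMod 2)) = (m : ZMod 2) := by
    have h4 : (∑ i ∈ Finset.range (2 * m + 1), i) = (2 * m + 1) * m := by
      rw [Finset.sum_range_id]
      have : (2 * m + 1) * (2 * m + 1 - 1) = 2 * ((2 * m + 1) * m) := by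
        rw [Nat.add_sub_cancel]; ring
      rw [this, Nat.mul_div_cancel_left _ (by norm_num)]
    rw [← Nat.cast_sum, h4]
    push_cast
    have h5 : (2 : ZMod 2) = 0 := by decide
    rw [h5]; ring
  rw [← Finset.sum_mul, hsum] at key3
  have h5 : (2 : ZMod 2) = 0 := by decide
  rw [map_add, map_add, map_mul, map_natCast, key3]
  push_cast
  linear_combination ((m : ZMod 2) * red2 (bil J x1 y1) + (m + 1) * red2 (bil J x2 y1)) * h5

end Isot

end Pool.Agent.TTC
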