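import Pool.Agent.Lib.TTC.Lat

/-!
# Project TTC (MP_950c68_ag), module KronD: the tensor product of `2 × 2` matrices, definitions

`kron A` = `⨂ i, A i` on the basis `ι → Fin 2`, `ins i B` = `B` at the place `i` and `1` elsewhere,
`J2` the standard alternating form, `latT` the lattice `⨂ i, rho i` twisted by `cyc ^ (-m)`,
`card ι = 2 m + 1`. `Ma, Mb, Mab, M1`: the matrices of the `2`-descent.
-/

set_option autoImplicit false

namespace Pool.Agent.TTC

section kron

variable {ι : Type} [Fintype ι] [DecidableEq ι] {R : Type} [CommRing R]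

/-- The tensor product of `2 × 2` matrices. -/
def kron (A : ι → Matrix (Fin 2) (Fin 2) R) : Matrix (ι → Fin 2) (ι → Fin 2) R :=
  Matrix.of fun a b => ∏ i, A i (a i) (b i)

theorem kron_apply (A : ι → Matrix (Fin 2) (Fin 2) R) (a b : ι → Fin 2) :
    kron A a b = ∏ i, A i (a i) (b i) := rfl

/-- `B` at the place `i`, `1` elsewhere. -/
def ins (i : ι) (B : Matrix (Fin 2) (Fin 2) R) :
    Matrix (ι → Fin 2) (ι → Fin 2) R :=
  Matrix.of fun a b => if ∀ j, j ≠ i → a j = b j then B (a i) (b i) else 0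

/-- The standard alternating form. -/
def J2 (R : Type) [CommRing R] : Matrix (Fin 2) (Fin 2) R := !![0, 1; -1, 0]

/-- The matrices of the `2`-descent. -/
def Ma : Matrix (Fin 2) (Fin 2) (ZMod 2) := !![1, 1; 1, 1]
def Mb : Matrix (Fin 2) (Fin 2) (ZMod 2) := !![0, 0; 1, 0]
def Mab : Matrix (Fin 2) (Fin 2) (ZMod 2) := !![0, 1; 0, 0]
def M1 : Matrix (Fin 2) (Fin 2) (ZMod 2) := !![1, 0; 0, 0]

theorem kron_one : kron (fun _ : ι => (1 : Matrix (Fin 2) (Fin 2) R)) = 1 := by
  ext a b
  rw [kron_apply, Matrix.one_apply]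
  split_ifs with h
  · rw [h]
    exact Finset.prod_eq_one fun i _ => Matrix.one_apply_eq _
  · obtain ⟨i, hi⟩ := Function.ne_iff.mp h
    exact Finset.prod_eq_zero (Finset.mem_univ i) (Matrix.one_apply_ne hi)

theorem kron_mul (A B : ι → Matrix (Fin 2) (Fin 2) R) :
    kron (fun i => A i * B i) = kron A * kron B := by
  ext a b
  rw [kron_apply, Matrix.mul_apply]
  simp only [Matrix.mul_apply, kron_apply, ← Finset.prod_mul_distrib]
  rw [Finset.prod_univ_sum, Fintype.piFinset_univ]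

end kron

section lat

variable {G : Type} [Group G] {ι : Type} [Fintype ι] [DecidableEq ι]

/-- The lattice `⨂ i, rho i`, twisted by `cyc ^ (-m)`. -/
noncomputable def latT (cyc : G →* ℤ_[2]ˣ) (rho : ι → G →* Matrix (Fin 2) (Fin 2) ℤ_[2]) (m : ℕ) :
    Lat G (ι → Fin 2) where
  rho :=
    { toFun := fun s => (((cyc s)⁻¹ ^ m : ℤ_[2]ˣ) : ℤ_[2]) • kron fun i => rho i s
      map_one' := by
        simp only [map_one, inv_one, one_pow, Units.val_one, one_smul, kron_one]
      map_mul' := fun s t => by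
        rw [map_mul, mul_inv, mul_pow, Units.val_mul, Matrix.smul_mul, Matrix.mul_smul, smul_smul,
          ← kron_mul]
        simp only [map_mul] }
  cyc := cyc
  J := kron fun _ => J2 ℤ_[2]

theorem latT_rho (cyc : G →* ℤ_[2]ˣ) (rho : ι → G →* Matrix (Fin 2) (Fin 2) ℤ_[2]) (m : ℕ) (s : G) :
    (latT cyc rho m).rho s = (((cyc s)⁻¹ ^ m : ℤ_[2]ˣ) : ℤ_[2]) • kron fun i => rho i s := rfl

end lat

end Pool.Agent.TTC
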