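import Pool.Agent.Lib.TTC.QZ
import Pool.Agent.Lib.SmFJ.V
import Pool.Agent.Lib.SmD.Main
import Pool.Agent.Lib.SmD.NN

/-!
# Project TTC (MP_950c68_ag), module Lat: symplectic `ℤ_2`-lattices with a Galois action

`Lat G I`: a representation `rho : G → GL_I(ℤ_2)`, a form `J` and a similitude character `cyc`.
`Lat.Sy`: `J` is alternating and perfect, `rho s` is a similitude with multiplier `cyc s` and is
trivial modulo `2`. `VL L = (ℚ_2 / ℤ_2) ^ I` is the discrete module, `sysL` the abstract structure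
`Sys` over `k(t)`. `LatK Ω L c`: what is needed over `k(t)`: continuity, the cyclotomic character,
good reduction outside `c` and `∞`, purity.
-/

set_option autoImplicit false

open Polynomial Pool.Agent.BSDFF Pool.Agent.Lib.SmD Pool.Agent.SmJ

namespace Pool.Agent.TTC

section lat

variable (G : Type) [Group G] (I : Type) [Fintype I] [DecidableEq I]

/-- A representation over `ℤ_2` with a form and a similitude character. -/
structure Lat where
  rho : G →* Matrix I I ℤ_[2]
  cyc : G →* ℤ_[2]ˣ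
  J : Matrix I I ℤ_[2]

variable {G I}

/-- Symplectic similitudes, trivial modulo `2`. -/
structure Lat.Sy (L : Lat G I) : Prop where
  Jt : L.J.transpose = -L.J
  Jd : ∀ i, L.J i i = 0
  Ju : IsUnit L.J.det
  sim : ∀ s, (L.rho s).transpose * L.J * L.rho s = (L.cyc s : ℤ_[2]) • L.J
  two : ∀ s, ∃ B : Matrix I I ℤ_[2], L.rho s = 1 + (2 : ℤ_[2]) • B

/-- The discrete module `(ℚ_2 / ℤ_2) ^ I`. -/
def VL (_L : Lat G I) : Type := I → QZ

noncomputable instance (L : Lat G I) : AddCommGroup (VL L) :=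
  inferInstanceAs (AddCommGroup (I → QZ))

noncomputable instance (L : Lat G I) : DistribMulAction G (VL L) where
  smul s x := (mact (L.rho s) x : I → QZ)
  one_smul x := (congrArg (fun A => mact A (x : I → QZ)) (map_one L.rho)).trans (mact_one _)
  mul_smul s t x := (congrArg (fun A => mact A (x : I → QZ)) (map_mul L.rho s t)).trans
    (mact_mul _ _ _)
  smul_zero s := mact_zero (L.rho s)
  smul_add s x y := mact_add (L.rho s) x y

theorem smul_VL (L : Lat G I) (s : G) (x : VL L) : s • x = (mact (L.rho s) x : I → QZ) := rfl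

/-- The inclusion of the elements of order `2`. -/
noncomputable def iotaL (L : Lat G I) : (I → ZMod 2) →+ VL L where
  toFun w := fun i => hf2 (w i)
  map_zero' := by
    funext i
    exact map_zero hf2
  map_add' x y := by
    funext i
    exact map_add hf2 _ _

theorem iotaL_apply (L : Lat G I) (w : I → ZMod 2) (i : I) : iotaL L w i = hf2 (w i) := rfl

/-- The form modulo `2`. -/
noncomputable def eL (L : Lat G I) :
    (I → ZMod 2) →ₗ[ZMod 2] (I → ZMod 2) →ₗ[ZMod 2] ZMod 2 :=
  Matrix.toLinearMap₂' (ZMod 2) (L.J.map red2)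

theorem eL_apply (L : Lat G I) (x y : I → ZMod 2) :
    eL L x y = ∑ i, ∑ j, x i * red2 (L.J i j) * y j := by
  rw [eL, Matrix.toLinearMap₂'_apply]
  refine Finset.sum_congr rfl fun i _ => Finset.sum_congr rfl fun j _ => ?_
  rw [Matrix.map_apply, smul_eq_mul, smul_eq_mul]
  ring

/-- The matrix of `s` over `ℚ_2`. -/
noncomputable def Lat.rq (L : Lat G I) (s : G) : Matrix I I ℚ_[2] :=
  (L.rho s).map fun x : ℤ_[2] => (x : ℚ_[2])

end lat

section field

variable {k : Type} [Field k] (Ω : Type) [Field Ω] [Algebra (RatFunc k) Ω]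
  {I : Type} [Fintype I] [DecidableEq I]

/-- The abstract structure over `k(t)`; `c` is the product of the bad primes. -/
noncomputable def sysL (L : Lat (Ω ≃ₐ[RatFunc k] Ω) I) (c : k[X]) :
    Sys (Ω ≃ₐ[RatFunc k] Ω) (VL L) (I → ZMod 2) (Place k (RatFunc k)) where
  NN := SmD.NN (RatFunc k) Ω
  D := fun v => dv Ω v
  phi := fun v => ph Ω v
  sg := fun v => sg Ω v
  eps := fun v => SmF.eps v
  iota := iotaL L
  e := eL L
  good := {v | ∃ (P : k[X]) (hP : Irreducible P), P.Monic ∧ v = placeOf P hP ∧ ¬ P ∣ c}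
  inf := placeInfty k

/-- The `2`-adic cyclotomic character. -/
noncomputable def cycK (K : Type) [Field K] [Algebra K Ω] : (Ω ≃ₐ[K] Ω) →* ℤ_[2]ˣ where
  toFun s := cyclotomicCharacter Ω 2 s.toRingEquiv
  map_one' := map_one (cyclotomicCharacter Ω 2)
  map_mul' s t := map_mul (cyclotomicCharacter Ω 2) s.toRingEquiv t.toRingEquiv

/-- What is needed of the lattice over `k(t)`. -/
structure LatK (L : Lat (Ω ≃ₐ[RatFunc k] Ω) I) (c : k[X]) : Prop where
  sy : L.Sy
  c_ne : c ≠ 0
  cyc : ∀ s, L.cyc s = cycK Ω (RatFunc k) s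
  cont : ∀ j : ℕ, ∃ N ∈ SmD.NN (RatFunc k) Ω, ∀ s ∈ N, ∃ B : Matrix I I ℤ_[2],
    L.rho s = 1 + (2 : ℤ_[2]) ^ j • B
  good : ∀ (P : k[X]) (hP : Irreducible P), ¬ P ∣ c →
    ∀ s ∈ iner (RatFunc k) (ab Ω (placeOf P hP)), L.rho s = 1
  pure : ∀ (v : Place k (RatFunc k)) (a b : ℤ), (a = 1 ∨ a = -1) → (b = 1 ∨ b = -1) →
    ∀ r : I → ℚ_[2], a • (L.rq (sg Ω v)).mulVec r = r → b • (L.rq (ph Ω v)).mulVec r = r → r = 0

end field

end Pool.Agent.TTC
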