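import Pool.Agent.Lib.TTC.Lat

/-!
# Project TTC (MP_950c68_ag), module OkB: `fin_inv` from purity

By purity the `ℚ_2`-linear map `r ↦ (± sg r - r, ± ph r - r)` is injective, so it has a left
inverse with denominator `2 ^ N`, and the points fixed by the twisted action of the decomposition
group are killed by `2 ^ N`.
-/

set_option autoImplicit false

open Polynomial Pool.Agent.BSDFF Pool.Agent.Lib.SmD Pool.Agent.SmJ

namespace Pool.Agent.TTC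

private theorem OkB_fin (N : ℕ) : {Q : QZ | (2 : ℤ_[2]) ^ N • Q = 0}.Finite := by
  refine (Set.finite_range fun n : Fin (2 ^ N) => qz (((n : ℕ) : ℚ_[2]) / 2 ^ N)).subset ?_
  intro Q hQ
  obtain ⟨r, rfl⟩ := qz_surj Q
  rw [Set.mem_ofPred_eq, qz_smul, qz_eq_zero] at hQ
  obtain ⟨a, ha⟩ := hQ
  obtain ⟨c, hc⟩ := Ideal.mem_span_singleton.mp (PadicInt.appr_spec N a)
  refine ⟨⟨a.appr N, by simpa using a.appr_lt N⟩, ?_⟩
  refine (qz_eq.mpr ⟨c, ?_⟩).symm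
  have h2 : (2 : ℚ_[2]) ^ N ≠ 0 := pow_ne_zero _ two_ne_zero
  have h3 : (a : ℚ_[2]) = (a.appr N : ℚ_[2]) + 2 ^ N * c := by
    have h4 : a = (a.appr N : ℤ_[2]) + 2 ^ N * c := by
      rw [Nat.cast_ofNat] at hc
      linear_combination hc
    have h5 := congrArg (fun z : ℤ_[2] => (z : ℚ_[2])) h4
    push_cast at h5
    exact h5
  have h6 : (2 : ℚ_[2]) ^ N * r = (a.appr N : ℚ_[2]) + 2 ^ N * c := by
    rw [← h3, ha]
    push_cast
    rfl
  change r = ((a.appr N : ℕ) : ℚ_[2]) / 2 ^ N + c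
  field_simp
  linear_combination h6

private theorem OkB_den1 (x : ℚ_[2]) : ∃ n : ℕ, ∀ m, n ≤ m → ∃ b : ℤ_[2],
    (2 : ℚ_[2]) ^ m * x = b := by
  obtain ⟨n, hn⟩ := pow_unbounded_of_one_lt ‖x‖ (one_lt_two : (1 : ℝ) < 2)
  refine ⟨n, fun m hm => ?_⟩
  have h1 : ‖(2 : ℚ_[2]) ^ m * x‖ ≤ 1 := by
    have h2 : ‖(2 : ℚ_[2])‖ = 2⁻¹ := by
      have h0 := Padic.norm_p (p := 2)
      rw [Nat.cast_ofNat, Nat.cast_ofNat] at h0
      exact h0
    rw [norm_mul, norm_pow, h2]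
    have h3 : ‖x‖ ≤ 2 ^ m := hn.le.trans (pow_le_pow_right₀ one_le_two hm)
    calc (2⁻¹ : ℝ) ^ m * ‖x‖ ≤ (2⁻¹ : ℝ) ^ m * 2 ^ m :=
          mul_le_mul_of_nonneg_left h3 (by positivity)
      _ = 1 := by rw [← mul_pow]; norm_num
  exact ⟨⟨_, h1⟩, rfl⟩

private theorem OkB_den {I : Type} [Finite I] (M : Matrix I I ℚ_[2]) : ∃ n : ℕ, ∀ m, n ≤ m →
    ∀ i j, ∃ b : ℤ_[2], (2 : ℚ_[2]) ^ m * M i j = b := by
  cases nonempty_fintype I
  choose f hf using fun p : I × I => OkB_den1 (M p.1 p.2)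
  refine ⟨Finset.univ.sup f, fun m hm i j => hf (i, j) m (le_trans ?_ hm)⟩
  exact Finset.le_sup (f := f) (Finset.mem_univ (i, j))

private theorem OkB_int {I : Type} [Fintype I] {M : Matrix I I ℚ_[2]} {m : ℕ}
    (h : ∀ i j, ∃ b : ℤ_[2], (2 : ℚ_[2]) ^ m * M i j = b) (x : I → ℤ_[2]) (i : I) :
    ∃ b : ℤ_[2], (2 : ℚ_[2]) ^ m * M.mulVec (fun j => (x j : ℚ_[2])) i = b := by
  choose B hB using h
  refine ⟨∑ j, B i j * x j, ?_⟩
  rw [Matrix.mulVec, dotProduct, Finset.mul_sum, PadicInt.coe_sum]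
  refine Finset.sum_congr rfl fun j _ => ?_
  rw [← mul_assoc, hB]
  push_cast
  rfl

section OkL

variable {k : Type} [Field k] [Finite k] {Ω : Type} [Field Ω] [Algebra (RatFunc k) Ω]
  [IsSepClosure (RatFunc k) Ω] {I : Type} [Fintype I] [DecidableEq I]
  {L : Lat (Ω ≃ₐ[RatFunc k] Ω) I} {c : k[X]}

private theorem OkB_lift {G : Type} [Group G] {L : Lat G I} (chi : G → ZMod 2) (s : G)
    {Q : VL L} (h : dl chi Q s = 0) {r : I → ℚ_[2]} (hr : ∀ i, qz (r i) = (Q : I → QZ) i) (i : I) :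
    ∃ x : ℤ_[2], (x : ℚ_[2]) = (sgn (chi s) • (L.rq s).mulVec r - r) i := by
  have h1 : (Q : I → QZ) = (fun j => qz (r j)) := (funext hr).symm
  have h2 : (mact (L.rho s) (Q : I → QZ)) = (fun a => qz ((L.rq s).mulVec r a)) := by
    rw [h1]
    exact mact_qz _ _
  have h3 : sgn (chi s) • mact (L.rho s) (Q : I → QZ) i - (Q : I → QZ) i = 0 := congrFun h i
  have h5 : mact (L.rho s) (Q : I → QZ) i = qz ((L.rq s).mulVec r i) := congrFun h2 i
  rw [h5, ← hr i, qz_zsmul, ← map_sub, qz_eq_zero] at h3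
  obtain ⟨x, hx⟩ := h3
  refine ⟨x, ?_⟩
  rw [hx, Pi.sub_apply, Pi.smul_apply, zsmul_eq_mul]

/-- fin_inv -/
theorem okL_fin (h2 : (2 : k) ≠ 0) (hL : LatK Ω L c) (chi : (Ω ≃ₐ[RatFunc k] Ω) → ZMod 2)
    (v : Place k (RatFunc k)) : {Q : VL L | ∀ s ∈ dv Ω v, dl chi Q s = 0}.Finite := by
  have : IsSepClosed Ω := IsSepClosure.sep_closed (RatFunc k)
  have : IsGalois (RatFunc k) Ω := inferInstance
  have hs : ∀ a : ZMod 2, sgn a = 1 ∨ sgn a = -1 := by decide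
  set a := sgn (chi (sg Ω v)) with ha
  set b := sgn (chi (ph Ω v)) with hb
  set f : (I → ℚ_[2]) →ₗ[ℚ_[2]] (I → ℚ_[2]) × (I → ℚ_[2]) :=
    (a • Matrix.mulVecLin (L.rq (sg Ω v)) - LinearMap.id).prod
      (b • Matrix.mulVecLin (L.rq (ph Ω v)) - LinearMap.id) with hf
  have hf1 : ∀ r, f r = (a • (L.rq (sg Ω v)).mulVec r - r, b • (L.rq (ph Ω v)).mulVec r - r) :=
    fun r => rfl
  have hk : LinearMap.ker f = ⊥ := by
    rw [LinearMap.ker_eq_bot']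
    intro r hr
    rw [hf1, Prod.mk_eq_zero] at hr
    exact hL.pure v a b (hs _) (hs _) r (sub_eq_zero.mp hr.1) (sub_eq_zero.mp hr.2)
  obtain ⟨g, hg⟩ := LinearMap.exists_leftInverse_of_injective f hk
  set G1 : Matrix I I ℚ_[2] := LinearMap.toMatrix' (g ∘ₗ LinearMap.inl _ _ _) with hG1
  set G2 : Matrix I I ℚ_[2] := LinearMap.toMatrix' (g ∘ₗ LinearMap.inr _ _ _) with hG2
  have hg1 : ∀ x y, g (x, y) = G1.mulVec x + G2.mulVec y := by
    intro x y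
    rw [hG1, hG2, LinearMap.toMatrix'_mulVec, LinearMap.toMatrix'_mulVec, LinearMap.comp_apply,
      LinearMap.comp_apply, ← map_add]
    simp
  obtain ⟨n1, hn1⟩ := OkB_den G1
  obtain ⟨n2, hn2⟩ := OkB_den G2
  set N := max n1 n2 with hN
  have hfin : {Q : I → QZ | ∀ i, Q i ∈ {Q : QZ | (2 : ℤ_[2]) ^ N • Q = 0}}.Finite :=
    Set.Finite.pi' fun _ => OkB_fin N
  refine hfin.subset ?_
  intro Q hQ i
  choose r hr using fun j => qz_surj ((Q : I → QZ) j)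
  choose x hx using fun j => OkB_lift chi (sg Ω v) (hQ _ (sg_mem h2 v)) hr j
  choose y hy using fun j => OkB_lift chi (ph Ω v) (hQ _ (ph_mem v)) hr j
  have h1 : f r = ((fun j => (x j : ℚ_[2])), fun j => (y j : ℚ_[2])) := by
    rw [hf1]
    exact Prod.ext (funext fun j => (hx j).symm) (funext fun j => (hy j).symm)
  have h3 : r = G1.mulVec (fun j => (x j : ℚ_[2])) + G2.mulVec (fun j => (y j : ℚ_[2])) := by
    rw [← hg1, ← h1]
    exact (LinearMap.congr_fun hg r).symm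
  obtain ⟨z1, hz1⟩ := OkB_int (hn1 N (le_max_left _ _)) x i
  obtain ⟨z2, hz2⟩ := OkB_int (hn2 N (le_max_right _ _)) y i
  change (2 : ℤ_[2]) ^ N • (Q : I → QZ) i = 0
  rw [← hr i, qz_smul, qz_eq_zero]
  refine ⟨z1 + z2, ?_⟩
  have h4 : r i = G1.mulVec (fun j => (x j : ℚ_[2])) i + G2.mulVec (fun j => (y j : ℚ_[2])) i :=
    congrFun h3 i
  have h5 : (((2 : ℤ_[2]) ^ N : ℤ_[2]) : ℚ_[2]) = (2 : ℚ_[2]) ^ N := PadicInt.coe_pow 2 N
  rw [h4, PadicInt.coe_add, ← hz1, ← hz2, h5]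
  ring

end OkL

end Pool.Agent.TTC
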