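import Pool.Agent.Lib.SmJ.P.Kramer
import Pool.Agent.Lib.SmJ.I.ChOk

/-!
PROJECT TTC (MP_950c68_ag), module ParAbs: the absolute parity. Three Lagrangians: the global classes,
the local Kummer groups and the unramified classes.
-/

set_option autoImplicit false

open Polynomial

namespace Pool.Agent.TTC

open Pool.Agent.SmJ Module
open Pool.Agent.Sm (three_lagr finrank_of_dual)

section ParAbs

variable {G V V1 Pl : Type} [Group G] [AddCommGroup V] [DistribMulAction G V]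
  [AddCommGroup V1] [Module (ZMod 2) V1] {S : Sys G V V1 Pl}

private theorem ParAbs_card {E : Type*} [AddCommGroup E] [Module (ZMod 2) E]
    [Module.Finite (ZMod 2) E] : Nat.card E = 2 ^ finrank (ZMod 2) E := by
  rw [Module.natCard_eq_pow_finrank (K := ZMod 2), Nat.card_eq_fintype_card, ZMod.card]

private theorem ParAbs_qU_add {qv : Pl → V1 × V1 → ZMod 2} (U : Finset Pl)
    (hadd : ∀ v x y, qv v (x + y) = qv v x + qv v y + S.sy v x y) (x y : U → V1 × V1) :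
    Sys.qU U qv (x + y) = Sys.qU U qv x + Sys.qU U qv y + S.bU U x y := by
  simp only [Sys.qU, Sys.bU_apply, Pi.add_apply, hadd, Finset.sum_add_distrib]

private theorem ParAbs_qU_GU (h : S.Ok) {qv : Pl → V1 × V1 → ZMod 2}
    (hrec : ∀ c : G → V1, S.HomG c → ∑ᶠ v, qv v (S.loc v c) = 0) {chi : G → ZMod 2}
    (hvan : ∀ v, ∀ x ∈ S.Wl chi v, qv v x = 0) (U : Finset Pl) :
    ∀ x ∈ S.GU U chi h, Sys.qU U qv x = 0 := by
  rintro x ⟨c, h1, h2, h3⟩
  rw [← hrec c h1, Sys.qU, finsum_eq_sum_of_support_subset _ (s := U)]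
  · rw [← Finset.sum_coe_sort U]
    exact Finset.sum_congr rfl fun v _ => by rw [h2]
  · intro v hv
    by_contra hU
    exact hv (hvan v _ (h3 v hU))

private theorem ParAbs_finrank_GU (h : S.Ok) {qv : Pl → V1 × V1 → ZMod 2}
    (hadd : ∀ v x y, qv v (x + y) = qv v x + qv v y + S.sy v x y)
    (hrec : ∀ c : G → V1, S.HomG c → ∑ᶠ v, qv v (S.loc v c) = 0)
    {chi : G → ZMod 2} (hchi : S.HomG chi) (hvan : ∀ v, ∀ x ∈ S.Wl chi v, qv v x = 0)
    (U : Finset Pl) : finrank (ZMod 2) (S.GU U chi h) = finrank (ZMod 2) V1 * U.card := by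
  have hf1 := h.fin1
  have hm1 : Module.Finite (ZMod 2) V1 := Module.Finite.of_finite
  refine finrank_of_dual (S.bU U) (S.bU_nondeg U h) (Sys.finrank_XU U) _ (S.PW U chi) ?_
    (Sys.finrank_PW h hchi U) (Sys.dual_GU h hchi U)
  intro x hx y hy
  have h1 := ParAbs_qU_add (S := S) U hadd x y
  rw [ParAbs_qU_GU h hrec hvan U _ (Submodule.add_mem _ hx hy),
    ParAbs_qU_GU h hrec hvan U _ hx, ParAbs_qU_GU h hrec hvan U _ hy, zero_add, zero_add] at h1
  exact h1.symm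

/-- The product of the unramified lines. -/
private noncomputable def ParAbs_PR (V1 : Type) [AddCommGroup V1] [Module (ZMod 2) V1] {Pl : Type}
    (U : Finset Pl) : Submodule (ZMod 2) (U → V1 × V1) :=
  AddSubgroup.toZModSubmodule 2
    (AddSubgroup.pi Set.univ fun _ : U => (AddMonoidHom.fst V1 V1).ker)

private theorem ParAbs_mem_PR {U : Finset Pl} {x : U → V1 × V1} :
    x ∈ ParAbs_PR V1 U ↔ ∀ v : U, (x v).1 = 0 := by
  rw [ParAbs_PR, AddSubgroup.mem_toZModSubmodule, AddSubgroup.mem_pi]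
  exact ⟨fun h v => h v (Set.mem_univ v), fun h v _ => h v⟩

omit [Module (ZMod 2) V1] in
private theorem ParAbs_card_R : Nat.card {x : V1 × V1 // x.1 = 0} = Nat.card V1 :=
  Nat.card_congr ⟨fun x => x.1.2, fun y => ⟨(0, y), rfl⟩,
    fun x => Subtype.ext (Prod.ext x.2.symm rfl), fun _ => rfl⟩

private theorem ParAbs_finrank_PR [Finite V1] (U : Finset Pl) :
    finrank (ZMod 2) (ParAbs_PR V1 U) = finrank (ZMod 2) V1 * U.card := by
  classical
  have hm1 : Module.Finite (ZMod 2) V1 := Module.Finite.of_finite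
  have h1 : Nat.card (ParAbs_PR V1 U) = Nat.card V1 ^ U.card := by
    have e : (ParAbs_PR V1 U) ≃ (U → {x : V1 × V1 // x.1 = 0}) :=
      ⟨fun x v => ⟨x.1 v, ParAbs_mem_PR.mp x.2 v⟩,
        fun y => ⟨fun v => (y v).1, ParAbs_mem_PR.mpr fun v => (y v).2⟩,
        fun _ => rfl, fun _ => rfl⟩
    rw [Nat.card_congr e, Nat.card_pi]
    simp only [ParAbs_card_R, Finset.prod_const, Finset.card_univ, Fintype.card_coe]
  rw [ParAbs_card, ParAbs_card (E := V1), ← pow_mul] at h1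
  exact Nat.pow_right_injective le_rfl h1

private theorem ParAbs_card_inf (chi : G → ZMod 2) (U : Finset Pl) :
    Nat.card (S.PW U chi ⊓ ParAbs_PR V1 U : Submodule (ZMod 2) (U → V1 × V1)) =
      ∏ v ∈ U, Nat.card {x : V1 × V1 // x ∈ S.Wl chi v ∧ x.1 = 0} := by
  classical
  rw [← Finset.prod_coe_sort U, ← Nat.card_pi]
  refine Nat.card_congr ⟨fun x v => ⟨x.1 v, (S.mem_PW U).mp x.2.1 v, ParAbs_mem_PR.mp x.2.2 v⟩,
    fun y => ⟨fun v => (y v).1, (S.mem_PW U).mpr fun v => (y v).2.1,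
      ParAbs_mem_PR.mpr fun v => (y v).2.2⟩, fun _ => rfl, fun _ => rfl⟩

/-- The everywhere unramified homomorphisms. -/
private def ParAbs_N (h : S.Ok) : AddSubgroup (G → V1) where
  carrier := {c | S.HomG c ∧ ∀ v, c (S.sg v) = 0}
  zero_mem' := ⟨Sys.HomG.zero h, fun _ => rfl⟩
  add_mem' := by
    rintro x y ⟨h1, h2⟩ ⟨h3, h4⟩
    exact ⟨h1.add h h3, fun v => by rw [Pi.add_apply, h2, h4, add_zero]⟩
  neg_mem' := by
    rintro x hx
    have e : -x = x := ZModModule.neg_eq_self x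
    rw [e]
    exact hx

private noncomputable def ParAbs_res (h : S.Ok) (U : Finset Pl) :
    ParAbs_N h →+ (U → V1 × V1) where
  toFun c v := S.loc v.1 c.1
  map_zero' := rfl
  map_add' _ _ := rfl

private theorem ParAbs_range (h : S.Ok) {chi : G → ZMod 2} {U : Finset Pl}
    (hU : ∀ v, v ∉ U → ∀ x : V1 × V1, x ∈ S.W chi v ↔ x.1 = 0) :
    Nat.card (ParAbs_res h U).range =
      Nat.card (S.GU U chi h ⊓ ParAbs_PR V1 U : Submodule (ZMod 2) (U → V1 × V1)) := by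
  have h1 : ((ParAbs_res h U).range : Set (U → V1 × V1)) =
      ((S.GU U chi h ⊓ ParAbs_PR V1 U : Submodule (ZMod 2) (U → V1 × V1)) : Set _) := by
    ext x
    constructor
    · rintro ⟨c, rfl⟩
      exact ⟨⟨c.1, c.2.1, fun _ => rfl, fun v hv => (hU v hv _).mpr (c.2.2 v)⟩,
        ParAbs_mem_PR.mpr fun v => c.2.2 v.1⟩
    · rintro ⟨⟨c, h1, h2, h3⟩, h4⟩
      refine ⟨⟨c, h1, fun v => ?_⟩, funext fun v => h2 v⟩
      by_cases hv : v ∈ U
      · have h5 := ParAbs_mem_PR.mp h4 ⟨v, hv⟩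
        rw [← h2] at h5
        exact h5
      · exact (hU v hv _).mp (h3 v hv)
  exact Nat.card_congr (Equiv.setCongr h1)

private theorem ParAbs_ker (h : S.Ok) {chi : G → ZMod 2} {U : Finset Pl}
    (hU : ∀ v, v ∉ U → ∀ x : V1 × V1, x ∈ S.W chi v ↔ x.1 = 0) :
    Nat.card (ParAbs_res h U).ker = Nat.card (Sys.resU h chi U).ker := by
  refine Nat.card_congr ⟨fun c => ⟨⟨c.1.1, ?_⟩, c.2⟩, fun c => ⟨⟨c.1.1, ?_⟩, c.2⟩,
    fun _ => rfl, fun _ => rfl⟩
  · refine ⟨c.1.2.1, fun v => ?_⟩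
    by_cases hv : v ∈ U
    · have h1 : S.loc v c.1.1 = 0 := congrFun c.2 ⟨v, hv⟩
      rw [h1]
      exact (S.W chi v).zero_mem
    · exact (hU v hv _).mpr (c.1.2.2 v)
  · refine ⟨c.1.2.1, fun v => ?_⟩
    by_cases hv : v ∈ U
    · have h1 : S.loc v c.1.1 = 0 := congrFun c.2 ⟨v, hv⟩
      exact congrArg Prod.fst h1
    · exact (hU v hv _).mp (c.1.2.2 v)

theorem par_abs (h : S.Ok) {qv : Pl → V1 × V1 → ZMod 2}
    (hadd : ∀ v x y, qv v (x + y) = qv v x + qv v y + S.sy v x y)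
    (hrec : ∀ c : G → V1, S.HomG c → ∑ᶠ v, qv v (S.loc v c) = 0)
    (hunr : ∀ v x, x.1 = 0 → qv v x = 0) {chi : G → ZMod 2} (hchi : S.HomG chi)
    (hvan : ∀ v, ∀ x ∈ S.Wl chi v, qv v x = 0) (T : Finset Pl)
    (hT : ∀ v, v ∉ T → (∀ x, x ∈ S.Wl chi v ↔ x.1 = 0) ∨ ∀ x ∈ S.Wl chi v, x.1 = 0 → x = 0) :
    IsSquare (Nat.card (S.Sel1 h chi) *
      Nat.card {c : G → V1 // S.HomG c ∧ ∀ v, c (S.sg v) = 0} *
      ∏ v ∈ T, Nat.card {x : V1 × V1 // x ∈ S.Wl chi v ∧ x.1 = 0}) := by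
  classical
  have hf1 := h.fin1
  have hm1 : Module.Finite (ZMod 2) V1 := Module.Finite.of_finite
  have hfin := Sys.exc_fin h hchi
  set U : Finset Pl := hfin.toFinset with hUdef
  have hU : ∀ v, v ∉ U → ∀ x : V1 × V1, x ∈ S.W chi v ↔ x.1 = 0 := fun v hv => by
    by_contra hcon
    exact hv (hfin.mem_toFinset.mpr hcon)
  have hU' : ∀ v, v ∈ U → ¬ ∀ x : V1 × V1, x ∈ S.W chi v ↔ x.1 = 0 := fun v hv =>
    hfin.mem_toFinset.mp hv
  -- the three Lagrangians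
  have h3 := three_lagr (S.bU U) (S.bU_nondeg U h) (S.bU_comm U h) (Sys.qU U qv)
    (ParAbs_qU_add (S := S) U hadd)
    (Sys.finrank_XU U) (S.GU U chi h) (S.PW U chi) (ParAbs_PR V1 U)
    (ParAbs_qU_GU h hrec hvan U)
    (fun x hx => Finset.sum_eq_zero fun v _ => hvan v.1 _ ((S.mem_PW U).mp hx v))
    (fun x hx => Finset.sum_eq_zero fun v _ => hunr v.1 _ (ParAbs_mem_PR.mp hx v))
    (ParAbs_finrank_GU h hadd hrec hchi hvan U) (Sys.finrank_PW h hchi U)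
    (ParAbs_finrank_PR U)
  obtain ⟨g, hg⟩ := even_finrank_of_alt S.e h.e_alt h.e_nondeg
  have hN : Nat.card {c : G → V1 // S.HomG c ∧ ∀ v, c (S.sg v) = 0} =
      Nat.card (Sys.resU h chi U).ker *
        Nat.card (S.GU U chi h ⊓ ParAbs_PR V1 U : Submodule (ZMod 2) (U → V1 × V1)) := by
    rw [← ParAbs_range h hU, ← ParAbs_ker h hU, Sys.card_hom]
    rfl
  rw [Sys.card_Sel1_resU h chi U, hN]
  set K := Nat.card (Sys.resU h chi U).ker with hK
  set f : Pl → ℕ := fun v => Nat.card {x : V1 × V1 // x ∈ S.Wl chi v ∧ x.1 = 0} with hf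
  have hBC : Nat.card (S.PW U chi ⊓ ParAbs_PR V1 U : Submodule (ZMod 2) (U → V1 × V1)) =
      ∏ v ∈ U, f v := ParAbs_card_inf chi U
  have hV1 : Nat.card V1 = 2 ^ g * 2 ^ g := by rw [ParAbs_card, hg, pow_add]
  have e1 : ∏ v ∈ U, f v = ∏ v ∈ U ∩ T, f v := by
    symm
    refine Finset.prod_subset Finset.inter_subset_left fun v hv hv' => ?_
    have hvT : v ∉ T := fun h1 => hv' (Finset.mem_inter.mpr ⟨hv, h1⟩)
    have h1 := (hT v hvT).resolve_left (hU' v hv)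
    change Nat.card {x : V1 × V1 // x ∈ S.Wl chi v ∧ x.1 = 0} = 1
    rw [Nat.card_eq_one_iff_unique]
    refine ⟨⟨fun x y => Subtype.ext ?_⟩, ⟨⟨0, (S.W chi v).zero_mem, rfl⟩⟩⟩
    rw [h1 x.1 x.2.1 x.2.2, h1 y.1 y.2.1 y.2.2]
  have e2 : ∏ v ∈ T, f v = (∏ v ∈ U ∩ T, f v) * (2 ^ g * 2 ^ g) ^ (T \ U).card := by
    rw [← Finset.prod_inter_mul_prod_sdiff T U f, Finset.inter_comm T U]
    congr 1
    rw [← Finset.prod_const]
    refine Finset.prod_congr rfl fun v hv => ?_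
    have h1 := hU v (Finset.mem_sdiff.mp hv).2
    change Nat.card {x : V1 × V1 // x ∈ S.Wl chi v ∧ x.1 = 0} = 2 ^ g * 2 ^ g
    rw [← hV1, ← ParAbs_card_R (V1 := V1)]
    exact Nat.card_congr (Equiv.subtypeEquivRight fun x =>
      ⟨fun hx => hx.2, fun hx => ⟨(h1 x).mpr hx, hx⟩⟩)
  rw [e2, ← e1, ← hBC, ParAbs_card (E := (S.GU U chi h ⊓ S.PW U chi : Submodule _ _)),
    ParAbs_card (E := (S.GU U chi h ⊓ ParAbs_PR V1 U : Submodule _ _)),
    ParAbs_card (E := (S.PW U chi ⊓ ParAbs_PR V1 U : Submodule _ _))]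
  set a := finrank (ZMod 2) (S.GU U chi h ⊓ S.PW U chi : Submodule (ZMod 2) (U → V1 × V1))
  set b := finrank (ZMod 2) (S.GU U chi h ⊓ ParAbs_PR V1 U : Submodule (ZMod 2) (U → V1 × V1))
  set c := finrank (ZMod 2) (S.PW U chi ⊓ ParAbs_PR V1 U : Submodule (ZMod 2) (U → V1 × V1))
  have h4 : Even (a + b + c) := by
    have h5 : Even (finrank (ZMod 2) V1 * U.card) := by
      rw [hg]
      exact (Even.add_self g).mul_right _
    rw [Nat.even_iff] at h3 h5 ⊢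
    omega
  obtain ⟨r, hr⟩ := h4
  refine ⟨K * 2 ^ r * (2 ^ g) ^ (T \ U).card, ?_⟩
  have h5 : (2 : ℕ) ^ a * 2 ^ b * 2 ^ c = 2 ^ r * 2 ^ r := by
    rw [← pow_add, ← pow_add, ← pow_add, hr]
  rw [mul_pow]
  calc K * 2 ^ a * (K * 2 ^ b) * (2 ^ c * ((2 ^ g) ^ (T \ U).card * (2 ^ g) ^ (T \ U).card))
      = K * K * (2 ^ a * 2 ^ b * 2 ^ c) * ((2 ^ g) ^ (T \ U).card * (2 ^ g) ^ (T \ U).card) := by
        ring
    _ = K * 2 ^ r * (2 ^ g) ^ (T \ U).card * (K * 2 ^ r * (2 ^ g) ^ (T \ U).card) := by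
      rw [h5]; ring

/-- The everywhere unramified homomorphisms are the `chi_u ⊗ w` (`ChOk.unr_expand_V1`). -/
theorem card_unr {k : Type} [Field k] {ch : k[X] → G → ZMod 2} {d : TwData k V1} {pl : k[X] → Pl}
    (h : S.Ok) (hc : ChOk S ch d pl) (hu : ∀ v, ch (C d.u) (S.sg v) = 0) :
    Nat.card {c : G → V1 // S.HomG c ∧ ∀ v, c (S.sg v) = 0} = Nat.card V1 := by
  symm
  have hhom := hc.hom (C d.u) (C_ne_zero.mpr ChOk.u_ne_zero)
  have hf : ∀ w : V1, S.HomG (fun s => ch (C d.u) s • w) := by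
    intro w
    obtain ⟨⟨N, hN, h1⟩, h2⟩ := hhom
    refine ⟨⟨N, hN, fun s n hn => ?_⟩, fun s t => ?_⟩
    · change ch (C d.u) (s * n) • w = ch (C d.u) s • w
      rw [h1 s n hn]
    · change ch (C d.u) (s * t) • w = ch (C d.u) s • w + ch (C d.u) t • w
      rw [h2, add_smul]
  let F : V1 → {c : G → V1 // S.HomG c ∧ ∀ v, c (S.sg v) = 0} := fun w =>
    ⟨fun s => ch (C d.u) s • w, hf w, fun v => by
      change ch (C d.u) (S.sg v) • w = 0
      rw [hu v, zero_smul]⟩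
  obtain ⟨s0, hs0⟩ := hc.u_ne
  have hs1 : ch (C d.u) s0 = 1 := by
    have key : ∀ a : ZMod 2, a ≠ 0 → a = 1 := by decide
    exact key _ hs0
  refine Nat.card_congr (Equiv.ofBijective F ⟨fun w w' hw => ?_, fun c => ?_⟩)
  · have h1 : ch (C d.u) s0 • w = ch (C d.u) s0 • w' := congrFun (congrArg Subtype.val hw) s0
    rwa [hs1, one_smul, one_smul] at h1
  · obtain ⟨w, hw⟩ := hc.unr_expand_V1 h c.2.1 ∅ (fun P hP => absurd hP (Finset.notMem_empty P))
      (fun P _ _ _ => c.2.2 _)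
    refine ⟨w, Subtype.ext (funext fun s => ?_)⟩
    rw [hw s, Finset.sum_empty, add_zero]

end ParAbs

end Pool.Agent.TTC
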