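import Mathlib

/-!
# Project TTC (MP_950c68_ag), module TateD: the `2`-adic Tate module of an abelian group

`Tate P` = the sequences `x 0 = 0, x 1, x 2, ...` of elements of `P` with `2 x (i + 1) = x i`, a
`ℤ_2`-module: `(a x) i = a_i x i`, `a_i` any integer congruent to `a` modulo `2 ^ i`.
-/

set_option autoImplicit false

namespace Pool.Agent.TTC

/-- The Tate module: `x 0 = 0`, `2 x (i + 1) = x i`. -/
def TateG (P : Type) [AddCommGroup P] : AddSubgroup (ℕ → P) where
  carrier := {x | x 0 = 0 ∧ ∀ i, (2 : ℕ) • x (i + 1) = x i}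
  zero_mem' := ⟨rfl, fun i => smul_zero _⟩
  add_mem' := by
    rintro x y ⟨h1, h2⟩ ⟨h3, h4⟩
    refine ⟨by rw [Pi.add_apply, h1, h3, add_zero], fun i => ?_⟩
    rw [Pi.add_apply, Pi.add_apply, smul_add, h2, h4]
  neg_mem' := by
    rintro x ⟨h1, h2⟩
    refine ⟨by rw [Pi.neg_apply, h1, neg_zero], fun i => ?_⟩
    rw [Pi.neg_apply, Pi.neg_apply, smul_neg, h2]

/-- The Tate module. -/
abbrev Tate (P : Type) [AddCommGroup P] : Type := TateG P

section

variable {P : Type} [AddCommGroup P]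

theorem Tate.tors (x : Tate P) (i : ℕ) : (2 : ℕ) ^ i • x.1 i = 0 := by
  induction i with
  | zero => rw [pow_zero, one_smul, x.2.1]
  | succ i ih => rw [pow_succ, mul_smul, x.2.2, ih]

/-- Multiples by integers congruent modulo `2 ^ i` agree. -/
theorem Tate.congr (x : Tate P) (i : ℕ) {m n : ℕ} (h : (m : ZMod (2 ^ i)) = n) :
    m • x.1 i = n • x.1 i := by
  rw [ZMod.natCast_eq_natCast_iff] at h
  have h1 : ∀ m : ℕ, m • x.1 i = (m % 2 ^ i) • x.1 i := by
    intro m
    conv_lhs => rw [← Nat.mod_add_div m (2 ^ i)]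
    rw [add_smul, mul_comm (2 ^ i), mul_smul, x.tors, smul_zero, add_zero]
  rw [h1 m, h1 n, h]

/-- The integer `a_i`. -/
noncomputable def tz (a : ℤ_[2]) (i : ℕ) : ℕ := (PadicInt.toZModPow i a : ZMod (2 ^ i)).val

theorem tz_cast (a : ℤ_[2]) (i : ℕ) : ((tz a i : ℕ) : ZMod (2 ^ i)) = PadicInt.toZModPow i a := by
  rw [tz, ZMod.natCast_zmod_val]

theorem tz_succ (a : ℤ_[2]) (i : ℕ) : ((tz a (i + 1) : ℕ) : ZMod (2 ^ i)) = tz a i := by
  rw [tz_cast]
  have h := PadicInt.zmod_cast_comp_toZModPow (p := 2) i (i + 1) (Nat.le_succ i)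
  have h1 := congrArg (fun f : ℤ_[2] →+* ZMod (2 ^ i) => f a) h
  beta_reduce at h1
  rw [← h1, RingHom.comp_apply, ← tz_cast a (i + 1), map_natCast]

/-- Multiplication by a `2`-adic integer. -/
noncomputable def tsmul (a : ℤ_[2]) (x : Tate P) : Tate P :=
  ⟨fun i => tz a i • x.1 i, by
    refine ⟨?_, fun i => ?_⟩
    · change tz a 0 • x.1 0 = 0
      rw [x.2.1, smul_zero]
    · change (2 : ℕ) • (tz a (i + 1) • x.1 (i + 1)) = tz a i • x.1 i
      rw [smul_comm, x.2.2]
      exact x.congr i (tz_succ a i)⟩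

theorem tsmul_val (a : ℤ_[2]) (x : Tate P) (i : ℕ) : (tsmul a x).1 i = tz a i • x.1 i := rfl

noncomputable instance : Module ℤ_[2] (Tate P) where
  smul := tsmul
  one_smul x := Subtype.ext (funext fun i => by
    change tz 1 i • x.1 i = x.1 i
    rw [x.congr i (n := 1) (by rw [tz_cast, map_one, Nat.cast_one]), one_smul])
  mul_smul a b x := Subtype.ext (funext fun i => by
    change tz (a * b) i • x.1 i = tz a i • (tz b i • x.1 i)
    rw [← mul_smul]
    exact x.congr i (by rw [tz_cast, map_mul, Nat.cast_mul, tz_cast, tz_cast]))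
  smul_zero a := Subtype.ext (funext fun i => smul_zero _)
  smul_add a x y := Subtype.ext (funext fun i => smul_add _ _ _)
  add_smul a b x := Subtype.ext (funext fun i => by
    change tz (a + b) i • x.1 i = tz a i • x.1 i + tz b i • x.1 i
    rw [← add_smul]
    exact x.congr i (by rw [tz_cast, map_add, Nat.cast_add, tz_cast, tz_cast]))
  zero_smul x := Subtype.ext (funext fun i => by
    change tz 0 i • x.1 i = 0
    rw [x.congr i (n := 0) (by rw [tz_cast, map_zero, Nat.cast_zero]), zero_smul])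

theorem Tate.smul_val (a : ℤ_[2]) (x : Tate P) (i : ℕ) : (a • x).1 i = tz a i • x.1 i := rfl

/-- The map induced by a homomorphism. -/
noncomputable def tateMap {Q : Type} [AddCommGroup Q] (f : P →+ Q) : Tate P →ₗ[ℤ_[2]] Tate Q where
  toFun x := ⟨fun i => f (x.1 i), by
    change f (x.1 0) = 0
    rw [x.2.1, map_zero], fun i => by
    change (2 : ℕ) • f (x.1 (i + 1)) = f (x.1 i)
    rw [← map_nsmul, x.2.2]⟩
  map_add' x y := Subtype.ext (funext fun i => map_add f _ _)
  map_smul' a x := Subtype.ext (funext fun i => map_nsmul f _ _)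

theorem tateMap_val {Q : Type} [AddCommGroup Q] (f : P →+ Q) (x : Tate P) (i : ℕ) :
    (tateMap f x).1 i = f (x.1 i) := rfl

end

end Pool.Agent.TTC
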